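import Pool.Agent.Y758.MM.Stm2
import Pool.Agent.Y685.Hol2

/-!
# RED: division of the equations by a power of the parameter (helper344)
-/

set_option autoImplicit false

open Set Filter Topology Metric

namespace Pool.Agent.Y758.MM.RED

open Pool.Agent.Y685.H2

theorem hol_SH {f : ℂ × ℂ → ℂ} {p : ℂ × ℂ} (h : Hol f p) : SH (fun s z => f (s, z)) p := by
  filter_upwards [h] with q hq
  refine ⟨hq.continuousAt, ?_, ?_⟩
  · exact DifferentiableAt.comp (f := fun t : ℂ => ((t, q.2) : ℂ × ℂ)) q.1 hq (by fun_prop)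
  · exact DifferentiableAt.comp (f := fun t : ℂ => ((q.1, t) : ℂ × ℂ)) q.2 hq (by fun_prop)

theorem SH_hol {f : ℂ → ℂ → ℂ} {p : ℂ × ℂ} (h : SH f p) : Hol (fun q => f q.1 q.2) p := by
  filter_upwards [h.eventually] with q hq
  exact hq.strict.hasFDerivAt.differentiableAt

theorem iter_pow (r : ℕ) : ∀ (n : ℕ) (g : ℂ → ℂ) (s₀ : ℂ), n ≤ r → AnalyticAt ℂ g s₀ →
    iteratedDeriv n (fun s => (s - s₀) ^ r * g s) s₀ =
      if n = r then (r.factorial : ℂ) * g s₀ else 0 := by
  induction r with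
  | zero =>
    intro n g s₀ hn hg
    have hn0 : n = 0 := by omega
    subst hn0
    simp
  | succ r ih =>
    intro n g s₀ hn hg
    cases n with
    | zero => simp
    | succ n =>
      rw [iteratedDeriv_succ']
      have hd : deriv (fun s => (s - s₀) ^ (r + 1) * g s) =ᶠ[𝓝 s₀]
          fun s => (s - s₀) ^ r * (((r : ℂ) + 1) * g s + (s - s₀) * deriv g s) := by
        filter_upwards [hg.eventually_analyticAt] with s hs
        have h1 : HasDerivAt (fun s => (s - s₀) ^ (r + 1)) (((r + 1 : ℕ) : ℂ) * (s - s₀) ^ r) s := by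
          have h3 : HasDerivAt (fun s => (s - s₀)) 1 s := (hasDerivAt_id s).sub_const s₀
          have h4 := h3.fun_pow (r + 1)
          simpa using h4
        have h2 := h1.mul hs.differentiableAt.hasDerivAt
        refine h2.deriv.trans ?_
        push_cast
        ring
      rw [hd.iteratedDeriv_eq]
      have ha : AnalyticAt ℂ (fun s => ((r : ℂ) + 1) * g s + (s - s₀) * deriv g s) s₀ :=
        (analyticAt_const.mul hg).add ((analyticAt_id.sub analyticAt_const).mul hg.deriv)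
      rw [ih n _ s₀ (by omega) ha]
      by_cases hnr : n = r
      · subst hnr
        rw [if_pos rfl, if_pos rfl, Nat.factorial_succ]
        push_cast
        ring
      · rw [if_neg hnr, if_neg (by omega)]

/-- division by the parameter -/
theorem div_one' {f : ℂ × ℂ → ℂ} {s₀ e : ℂ} (hf : Hol f (s₀, e))
    (h0 : ∀ᶠ z in 𝓝 e, f (s₀, z) = 0) :
    ∃ g : ℂ × ℂ → ℂ, Hol g (s₀, e) ∧ ∀ᶠ q : ℂ × ℂ in 𝓝 (s₀, e), f q = (q.1 - s₀) * g q := by
  classical
  obtain ⟨r₁, hr₁, hb₁⟩ := (hol_SH hf).ball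
  obtain ⟨r₂, hr₂, hb₂⟩ := Metric.eventually_nhds_iff_ball.1 h0
  set r := min r₁ r₂ with hr
  have hr0 : 0 < r := lt_min hr₁ hr₂
  have hb : ∀ t ∈ ball s₀ r, ∀ z ∈ ball e r, SH (fun s z => f (s, z)) (t, z) := fun t ht z hz =>
    hb₁ t (ball_subset_ball (min_le_left _ _) ht) z (ball_subset_ball (min_le_left _ _) hz)
  have hz0 : ∀ z ∈ ball e r, f (s₀, z) = 0 := fun z hz =>
    hb₂ z (ball_subset_ball (min_le_right _ _) hz)
  let g : ℂ → ℂ → ℂ := fun s z =>
    if s = s₀ then deriv (fun s => f (s, z)) s₀ else f (s, z) / (s - s₀)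
  have hreg : ∀ᶠ q : ℂ × ℂ in 𝓝 (s₀, e), q.1 ∈ ball s₀ r ∧ q.2 ∈ ball e r := by
    have h1 : ball s₀ r ×ˢ ball e r ∈ 𝓝 (s₀, e) :=
      prod_mem_nhds (ball_mem_nhds _ hr0) (ball_mem_nhds _ hr0)
    filter_upwards [h1] with q hq
    exact hq
  have hSH : SH g (s₀, e) := by
    filter_upwards [hreg] with q hq
    obtain ⟨t, z⟩ := q
    obtain ⟨ht, hz⟩ := hq
    simp only at ht hz ⊢
    have hF := hb t ht z hz
    by_cases hts : t = s₀
    · subst hts
      have hd1 := hF.deriv1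
      refine ⟨?_, ?_, ?_⟩
      · -- continuity
        have hst := hF.strict
        have hval : g (t, z).1 (t, z).2 = deriv (fun s => f (s, z)) t := by
          simp [g]
        rw [Metric.continuousAt_iff']
        intro ε hε
        rw [hval]
        have h1 := hst.isLittleO.def (half_pos hε)
        -- pairs ((s, w), (t, w))
        have hc : Tendsto (fun q : ℂ × ℂ => ((q.1, q.2), ((t, q.2) : ℂ × ℂ))) (𝓝 (t, z))
            (𝓝 ((t, z), (t, z))) := by
          have : Continuous (fun q : ℂ × ℂ => ((q.1, q.2), ((t, q.2) : ℂ × ℂ))) := by fun_prop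
          exact this.tendsto (t, z)
        have h2 := hc.eventually h1
        have h3 : ∀ᶠ q : ℂ × ℂ in 𝓝 (t, z),
            dist (deriv (fun s => f (s, q.2)) q.1) (deriv (fun s => f (s, z)) t) < ε :=
          Metric.continuousAt_iff'.1 hF.cont_d1 ε hε
        have h4 : ∀ᶠ q : ℂ × ℂ in 𝓝 (t, z), q.2 ∈ ball e r := by
          have : Tendsto (fun q : ℂ × ℂ => q.2) (𝓝 (t, z)) (𝓝 z) := continuous_snd.tendsto (t, z)
          exact this.eventually (isOpen_ball.mem_nhds hz)
        filter_upwards [h2, h3, h4] with q hq2 hq3 hq4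
        by_cases hq1 : q.1 = t
        · have e1 : g q.1 q.2 = deriv (fun s => f (s, q.2)) t := by simp [g, hq1]
          rw [e1]
          rw [hq1] at hq3
          exact hq3
        · have e1 : g q.1 q.2 = f (q.1, q.2) / (q.1 - t) := by simp [g, hq1]
          have hne : q.1 - t ≠ 0 := sub_ne_zero.2 hq1
          rw [e1, dist_eq_norm]
          have e2 : f (q.1, q.2) / (q.1 - t) - deriv (fun s => f (s, z)) t =
              (f (q.1, q.2) - deriv (fun s => f (s, z)) t * (q.1 - t)) / (q.1 - t) := by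
            field_simp
          rw [e2, norm_div, div_lt_iff₀ (norm_pos_iff.2 hne)]
          simp only [hz0 q.2 hq4, sub_zero, add_apply,
            smul_apply, ContinuousLinearMap.coe_fst',
            ContinuousLinearMap.coe_snd', Prod.mk_sub_mk, sub_self, smul_eq_mul, mul_zero,
            add_zero] at hq2
          have e3 : ‖((q.1 - t, 0) : ℂ × ℂ)‖ = ‖q.1 - t‖ := by
            simp [Prod.norm_def]
          rw [e3] at hq2
          have h5 : 0 < ‖q.1 - t‖ := norm_pos_iff.2 hne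
          calc _ ≤ ε / 2 * ‖q.1 - t‖ := hq2
            _ < ε * ‖q.1 - t‖ := by nlinarith
      · -- the first variable
        have hdo : DifferentiableOn ℂ (fun s => f (s, z)) (ball t r) := fun s hs =>
          (hb s hs z hz).d1.differentiableWithinAt
        have h1 : DifferentiableOn ℂ (dslope (fun s => f (s, z)) t) (ball t r) :=
          (Complex.differentiableOn_dslope (ball_mem_nhds t hr0)).2 hdo
        have h2 : (fun s => g s z) = dslope (fun s => f (s, z)) t := by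
          ext s
          by_cases hs : s = t
          · subst hs
            simp [g]
          · rw [dslope_of_ne _ hs, slope_def_field, hz0 z hz, sub_zero]
            simp [g, hs]
        rw [h2]
        exact h1.differentiableAt (ball_mem_nhds t hr0)
      · have h2 : g t = fun z => deriv (fun s => f (s, z)) t := by
          ext w
          simp [g]
        rw [h2]
        exact hd1.d2
    · have hne : ∀ᶠ q : ℂ × ℂ in 𝓝 (t, z), q.1 ≠ s₀ :=
        (continuous_fst.tendsto (t, z)).eventually (isOpen_ne.mem_nhds hts)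
      have hdf : DifferentiableAt ℂ f (t, z) := hF.strict.hasFDerivAt.differentiableAt
      have hd : DifferentiableAt ℂ (fun q : ℂ × ℂ => g q.1 q.2) (t, z) := by
        have h0 : DifferentiableAt ℂ (fun q : ℂ × ℂ => q.1 - s₀) (t, z) := by fun_prop
        have hne0 : (fun q : ℂ × ℂ => q.1 - s₀) (t, z) ≠ 0 := sub_ne_zero.2 hts
        have h1 : DifferentiableAt ℂ (fun q : ℂ × ℂ => f q / (q.1 - s₀)) (t, z) :=
          hdf.mul (h0.inv hne0)
        refine h1.congr_of_eventuallyEq ?_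
        filter_upwards [hne] with q hq
        simp [g, hq]
      refine ⟨hd.continuousAt, ?_, ?_⟩
      · exact DifferentiableAt.comp (f := fun s : ℂ => ((s, z) : ℂ × ℂ))
          (g := fun q : ℂ × ℂ => g q.1 q.2) t hd (by fun_prop)
      · exact DifferentiableAt.comp (f := fun w : ℂ => ((t, w) : ℂ × ℂ))
          (g := fun q : ℂ × ℂ => g q.1 q.2) z hd (by fun_prop)
  refine ⟨fun q => g q.1 q.2, SH_hol hSH, ?_⟩
  filter_upwards [hreg] with q hq
  by_cases h : q.1 = s₀
  · have e1 : f q = 0 := by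
      have h2 := hz0 q.2 hq.2
      rw [← h] at h2
      exact h2
    rw [e1, h, sub_self, zero_mul]
  · have e1 : g q.1 q.2 = f (q.1, q.2) / (q.1 - s₀) := by simp [g, h]
    have hne : q.1 - s₀ ≠ 0 := sub_ne_zero.2 h
    rw [e1]
    field_simp

/-- the coefficients of a product with a power of the parameter -/
theorem coef {f g : ℂ × ℂ → ℂ} {s₀ e : ℂ} {r : ℕ} (hg : Hol g (s₀, e))
    (hfg : ∀ᶠ q : ℂ × ℂ in 𝓝 (s₀, e), f q = (q.1 - s₀) ^ r * g q) :
    ∀ᶠ z in 𝓝 e, ∀ n ≤ r, iteratedDeriv n (fun s => f (s, z)) s₀ / (n.factorial : ℂ) =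
      if n = r then g (s₀, z) else 0 := by
  have hc : Tendsto (fun z : ℂ => ((s₀, z) : ℂ × ℂ)) (𝓝 e) (𝓝 (s₀, e)) :=
    (by fun_prop : Continuous fun z : ℂ => ((s₀, z) : ℂ × ℂ)).tendsto e
  filter_upwards [hc.eventually hfg.eventually_nhds, hc.eventually hg.eventually_nhds]
    with z hz1 hz2 n hn
  have hc' : Tendsto (fun s : ℂ => ((s, z) : ℂ × ℂ)) (𝓝 s₀) (𝓝 (s₀, z)) :=
    (by fun_prop : Continuous fun s : ℂ => ((s, z) : ℂ × ℂ)).tendsto s₀
  have h1 : (fun s => f (s, z)) =ᶠ[𝓝 s₀] fun s => (s - s₀) ^ r * g (s, z) := hc'.eventually hz1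
  have h2 : AnalyticAt ℂ (fun s => g (s, z)) s₀ := by
    rw [Complex.analyticAt_iff_eventually_differentiableAt]
    filter_upwards [hc'.eventually hz2] with s hs
    exact DifferentiableAt.comp (f := fun s : ℂ => ((s, z) : ℂ × ℂ)) s hs (by fun_prop)
  rw [h1.iteratedDeriv_eq, iter_pow r n _ s₀ hn h2]
  by_cases hnr : n = r
  · subst hnr
    rw [if_pos rfl, if_pos rfl, mul_div_cancel_left₀]
    exact_mod_cast n.factorial_ne_zero
  · rw [if_neg hnr, if_neg hnr, zero_div]

/-- division by a power of the parameter -/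
theorem div_pow' {f : ℂ × ℂ → ℂ} {s₀ e : ℂ} (hf : Hol f (s₀, e)) (r : ℕ)
    (h0 : ∀ n < r, ∀ᶠ z in 𝓝 e,
      iteratedDeriv n (fun s => f (s, z)) s₀ / (n.factorial : ℂ) = 0) :
    ∃ g : ℂ × ℂ → ℂ, Hol g (s₀, e) ∧
      ∀ᶠ q : ℂ × ℂ in 𝓝 (s₀, e), f q = (q.1 - s₀) ^ r * g q := by
  induction r with
  | zero =>
    refine ⟨f, hf, Eventually.of_forall fun q => ?_⟩
    rw [pow_zero, one_mul]
  | succ r ih =>
    obtain ⟨g, hg, hfg⟩ := ih fun n hn => h0 n (Nat.lt_succ_of_lt hn)
    have h1 := coef hg hfg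
    have h2 : ∀ᶠ z in 𝓝 e, g (s₀, z) = 0 := by
      filter_upwards [h1, h0 r (Nat.lt_succ_self r)] with z hz1 hz2
      have h3 := hz1 r le_rfl
      rw [if_pos rfl, hz2] at h3
      exact h3.symm
    obtain ⟨g', hg', hgg⟩ := div_one' hg h2
    refine ⟨g', hg', ?_⟩
    filter_upwards [hfg, hgg] with q hq1 hq2
    rw [hq1, hq2, pow_succ]
    ring

/-- the order at `e` is `r` -/
def P (A : ℂ × ℂ → ℂ × ℂ → ℂ) (s₀ : ℂ) (r : ℕ) (e : ℂ) : Prop :=
  (∀ n < r, ∀ᶠ z in 𝓝 e, lc A s₀ n e z = 0) ∧ ∀ᶠ z in 𝓝[≠] e, lc A s₀ r e z ≠ 0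

theorem P_unique {A : ℂ × ℂ → ℂ × ℂ → ℂ} {s₀ : ℂ} {r r' : ℕ} {e : ℂ} (h : P A s₀ r e)
    (h' : P A s₀ r' e) : r = r' := by
  by_contra hne
  rcases lt_or_gt_of_ne hne with hlt | hlt
  · obtain ⟨z, h1, h2⟩ := (((h'.1 r hlt).filter_mono nhdsWithin_le_nhds).and h.2).exists
    exact h2 h1
  · obtain ⟨z, h1, h2⟩ := (((h.1 r' hlt).filter_mono nhdsWithin_le_nhds).and h'.2).exists
    exact h2 h1

theorem P_exists (hE : S_EXP) {A B : ℂ × ℂ → ℂ × ℂ → ℂ} {D : Set ℂ} (hS : Sys D A B) {s₀ : ℂ}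
    (hs₀ : s₀ ∈ D) (e : ℂ) : ∃ r, P A s₀ r e := by
  classical
  set F : ℂ × ℂ → ℂ := fun q => A (s₀, e) (s₀ + q.1, q.2) with hF
  have hcF : Tendsto (fun q : ℂ × ℂ => ((s₀ + q.1, q.2) : ℂ × ℂ)) (𝓝 (0, e)) (𝓝 (s₀, e)) := by
    have h1 : Continuous (fun q : ℂ × ℂ => ((s₀ + q.1, q.2) : ℂ × ℂ)) := by fun_prop
    have h2 := h1.tendsto (0, e)
    simpa using h2
  have hHF : Hol F (0, e) := by
    filter_upwards [hcF.eventually (hS.holA (s₀, e) hs₀)] with q hq
    exact DifferentiableAt.comp (f := fun q : ℂ × ℂ => ((s₀ + q.1, q.2) : ℂ × ℂ)) q hq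
      (by fun_prop)
  obtain ⟨δ, hδ, hcd, hsum⟩ := hE ℂ F e hHF
  have hlc : ∀ n z, lc A s₀ n e z =
      iteratedDeriv n (fun x => F (x, z)) 0 / (n.factorial : ℂ) := by
    intro n z
    unfold lc
    congr 1
    have h1 := iteratedDeriv_comp_const_add n (fun s => A (s₀, e) (s, z)) s₀
    have h2 := congrFun h1 0
    rw [add_zero] at h2
    exact h2.symm
  have hex : ∃ n, ¬ ∀ᶠ z in 𝓝 e, lc A s₀ n e z = 0 := by
    by_contra hcon
    push Not at hcon
    have h1 : ∀ n, ∀ z ∈ ball e δ, iteratedDeriv n (fun x => F (x, z)) 0 / (n.factorial : ℂ) = 0 := by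
      intro n
      have h2 : AnalyticOnNhd ℂ (fun q => iteratedDeriv n (fun x => F (x, q)) 0 /
          (n.factorial : ℂ)) (ball e δ) := (hcd n).analyticOnNhd isOpen_ball
      have h3 : (fun q => iteratedDeriv n (fun x => F (x, q)) 0 / (n.factorial : ℂ)) =ᶠ[𝓝 e] 0 := by
        filter_upwards [hcon n] with z hz
        rw [hlc] at hz
        exact hz
      exact h2.eqOn_zero_of_preconnected_of_eventuallyEq_zero
        (convex_ball e δ).isPreconnected (mem_ball_self hδ) h3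
    have h4 : ∀ᶠ q : ℂ × ℂ in 𝓝 (s₀, e), A (s₀, e) q = 0 := by
      have h5 : ball s₀ δ ×ˢ ball e δ ∈ 𝓝 (s₀, e) :=
        prod_mem_nhds (ball_mem_nhds _ hδ) (ball_mem_nhds _ hδ)
      filter_upwards [h5] with q hq
      have hx : q.1 - s₀ ∈ ball (0 : ℂ) δ := by
        rw [mem_ball_zero_iff, ← dist_eq_norm]
        exact hq.1
      have h6 := (hsum q.2 hq.2 (q.1 - s₀) hx).2
      have h7 : (fun n => iteratedDeriv n (fun x => F (x, q.2)) 0 / (n.factorial : ℂ) *
          (q.1 - s₀) ^ n) = fun _ => 0 := by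
        ext n
        rw [h1 n q.2 hq.2, zero_mul]
      rw [h7] at h6
      have h8 := h6.unique hasSum_zero
      have h9 : F (q.1 - s₀, q.2) = A (s₀, e) q := by
        simp [hF]
      rw [← h9]
      exact h8
    exact (hS.nz (s₀, e) hs₀) (h4.mono fun q hq h => h hq)
  refine ⟨Nat.find hex, fun n hn => ?_, ?_⟩
  · have := Nat.find_min hex hn
    rwa [not_not] at this
  · have h1 := Nat.find_spec hex
    have h2 : AnalyticAt ℂ (fun z => lc A s₀ (Nat.find hex) e z) e := by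
      have h3 := ((hcd (Nat.find hex)).analyticAt (ball_mem_nhds e hδ))
      have h4 : (fun z => lc A s₀ (Nat.find hex) e z) = fun q =>
          iteratedDeriv (Nat.find hex) (fun x => F (x, q)) 0 / ((Nat.find hex).factorial : ℂ) := by
        ext z
        exact hlc _ z
      rw [h4]
      exact h3
    exact h2.eventually_eq_zero_or_eventually_ne_zero.resolve_left h1

theorem P_open {A B : ℂ × ℂ → ℂ × ℂ → ℂ} {D : Set ℂ} (hS : Sys D A B) {s₀ : ℂ}
    (hs₀ : s₀ ∈ D) {e : ℂ} {r : ℕ} (hP : P A s₀ r e) : ∀ᶠ e' in 𝓝 e, P A s₀ r e' := by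
  obtain ⟨g, hg, hfg⟩ := div_pow' (hS.holA (s₀, e) hs₀) r hP.1
  have hco := coef hg hfg
  have hne : ∀ᶠ z in 𝓝[≠] e, g (s₀, z) ≠ 0 := by
    filter_upwards [hP.2, hco.filter_mono nhdsWithin_le_nhds] with z hz1 hz2
    have h1 := hz2 r le_rfl
    rw [if_pos rfl] at h1
    rw [← h1]
    exact hz1
  rw [eventually_nhdsWithin_iff] at hne
  have hc : Tendsto (fun z : ℂ => ((s₀, z) : ℂ × ℂ)) (𝓝 e) (𝓝 (s₀, e)) :=
    (by fun_prop : Continuous fun z : ℂ => ((s₀, z) : ℂ × ℂ)).tendsto e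
  filter_upwards [hc.eventually (hS.comp (s₀, e) hs₀), hc.eventually hfg.eventually_nhds,
    hc.eventually hg.eventually_nhds, hne.eventually_nhds] with e' h1 h2 h3 h4
  obtain ⟨u, w, hu, -, hu0, huw⟩ := h1
  rw [nhdsWithin_univ] at huw
  have hug : Hol (fun q => u q * g q) (s₀, e') := by
    filter_upwards [hu, h3] with q hq1 hq2
    exact hq1.mul hq2
  have h5 : ∀ᶠ q : ℂ × ℂ in 𝓝 (s₀, e'), A (s₀, e') q = (q.1 - s₀) ^ r * (u q * g q) := by
    filter_upwards [huw, h2] with q hq1 hq2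
    rw [hq1.1, hq2]
    ring
  have hco' := coef hug h5
  refine ⟨fun n hn => ?_, ?_⟩
  · filter_upwards [hco'] with z hz
    have h6 := hz n hn.le
    rw [if_neg hn.ne] at h6
    exact h6
  · have hc' : Tendsto (fun z : ℂ => ((s₀, z) : ℂ × ℂ)) (𝓝 e') (𝓝 (s₀, e')) :=
      (by fun_prop : Continuous fun z : ℂ => ((s₀, z) : ℂ × ℂ)).tendsto e'
    have hu1 : ∀ᶠ z in 𝓝 e', u (s₀, z) ≠ 0 := by
      have h6 : ContinuousAt u (s₀, e') := hu.self_of_nhds.continuousAt
      exact hc'.eventually (h6.eventually_ne hu0)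
    have h7 : ∀ᶠ z in 𝓝[≠] e', z ≠ e := by
      by_cases he : e' = e
      · subst he
        exact eventually_mem_nhdsWithin
      · exact (isOpen_ne.eventually_mem he).filter_mono nhdsWithin_le_nhds
    filter_upwards [hco'.filter_mono nhdsWithin_le_nhds, hu1.filter_mono nhdsWithin_le_nhds, h7,
      h4.filter_mono nhdsWithin_le_nhds] with z hz1 hz2 hz3 hz4
    have h8 := hz1 r le_rfl
    rw [if_pos rfl] at h8
    have h9 : lc A s₀ r e' z = u (s₀, z) * g (s₀, z) := h8
    rw [h9]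
    exact mul_ne_zero hz2 (hz4 hz3)

end Pool.Agent.Y758.MM.RED

namespace Pool.Agent.Y758.MM

open RED

theorem MM_RED (h1 : S_EXP) : S_RED := by
  intro D A B _ hS s₀ hs₀
  choose n hn using fun e => P_exists h1 hS hs₀ e
  have hloc : IsLocallyConstant n := by
    rw [IsLocallyConstant.iff_eventually_eq]
    intro e
    filter_upwards [P_open hS hs₀ (hn e)] with e' he'
    exact P_unique (hn e') he'
  have hconst : ∀ e, n e = n 0 := fun e => hloc.apply_eq_of_preconnectedSpace e 0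
  have hP : ∀ e, P A s₀ (n 0) e := fun e => by rw [← hconst e]; exact hn e
  choose g hg hfg using fun e => div_pow' (hS.holA (s₀, e) hs₀) (n 0) (hP e).1
  refine ⟨n 0, g, fun e => ⟨hg e, hfg e, ?_, (hP e).1, ?_⟩⟩
  · filter_upwards [(hP e).2, (coef (hg e) (hfg e)).filter_mono nhdsWithin_le_nhds] with z hz1 hz2
    have h3 := hz2 (n 0) le_rfl
    rw [if_pos rfl] at h3
    rw [← h3]
    exact hz1
  · filter_upwards [coef (hg e) (hfg e)] with z hz2
    have h3 := hz2 (n 0) le_rfl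
    rw [if_pos rfl] at h3
    exact h3

end Pool.Agent.Y758.MM
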