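import Pool.Agent.Y758.MM.Stm2
import Pool.Agent.Y758.MM.RED

/-!
# CFP: the first two coefficients (helper744)
-/

set_option autoImplicit false

open Set Filter Topology Metric

namespace Pool.Agent.Y758.MM.CFP

/-- the coefficient of `x ^ n` -/
noncomputable def cc (n : ℕ) (F : T → ℂ) (q : T3) : ℂ :=
  iteratedDeriv n (fun x => F (x, q)) 0 / (n.factorial : ℂ)

theorem iter_pow1 (r : ℕ) : ∀ (g : ℂ → ℂ) (s₀ : ℂ), AnalyticAt ℂ g s₀ →
    iteratedDeriv (r + 1) (fun s => (s - s₀) ^ r * g s) s₀ =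
      ((r + 1).factorial : ℂ) * deriv g s₀ := by
  induction r with
  | zero =>
    intro g s₀ hg
    simp [iteratedDeriv_one]
  | succ r ih =>
    intro g s₀ hg
    rw [iteratedDeriv_succ']
    have hd : deriv (fun s => (s - s₀) ^ (r + 1) * g s) =ᶠ[𝓝 s₀]
        fun s => (s - s₀) ^ r * (((r : ℂ) + 1) * g s + (s - s₀) * deriv g s) := by
      filter_upwards [hg.eventually_analyticAt] with s hs
      have h1 : HasDerivAt (fun s => (s - s₀) ^ (r + 1)) (((r + 1 : ℕ) : ℂ) * (s - s₀) ^ r) s := by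
        have h3 : HasDerivAt (fun s => (s - s₀)) 1 s := (hasDerivAt_id s).sub_const s₀
        have h4 := h3.fun_pow (r + 1)
        simpa using h4
      have h2 := h1.mul hs.differentiableAt.hasDerivAt
      refine h2.deriv.trans ?_
      push_cast
      ring
    rw [hd.iteratedDeriv_eq]
    have ha : AnalyticAt ℂ (fun s => ((r : ℂ) + 1) * g s + (s - s₀) * deriv g s) s₀ :=
      (analyticAt_const.mul hg).add ((analyticAt_id.sub analyticAt_const).mul hg.deriv)
    rw [ih _ s₀ ha]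
    have h5 : HasDerivAt (fun s => ((r : ℂ) + 1) * g s + (s - s₀) * deriv g s)
        (((r : ℂ) + 1) * deriv g s₀ + (1 * deriv g s₀ + (s₀ - s₀) * deriv (deriv g) s₀)) s₀ := by
      have h6 : HasDerivAt (fun s => (s - s₀)) 1 s₀ := (hasDerivAt_id s₀).sub_const s₀
      exact (hg.differentiableAt.hasDerivAt.const_mul _).add
        (h6.mul hg.deriv.differentiableAt.hasDerivAt)
    rw [h5.deriv, Nat.factorial_succ (r + 1)]
    push_cast
    ring

theorem co1 {f g : ℂ → ℂ} {m : ℕ} (hg : AnalyticAt ℂ g 0)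
    (h : f =ᶠ[𝓝 0] fun x => x ^ m * g x) :
    iteratedDeriv m f 0 / (m.factorial : ℂ) = g 0 ∧
      iteratedDeriv (m + 1) f 0 / ((m + 1).factorial : ℂ) = deriv g 0 := by
  have h1 := RED.iter_pow m m g 0 le_rfl hg
  have h2 := iter_pow1 m g 0 hg
  rw [if_pos rfl] at h1
  simp only [sub_zero] at h1 h2
  rw [h.iteratedDeriv_eq, h.iteratedDeriv_eq, h1, h2]
  constructor
  · rw [mul_div_cancel_left₀]
    exact_mod_cast m.factorial_ne_zero
  · rw [mul_div_cancel_left₀]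
    exact_mod_cast (m + 1).factorial_ne_zero

theorem div1 {f : ℂ → ℂ} {m : ℕ} (hf : AnalyticAt ℂ f 0)
    (h0 : ∀ n < m, iteratedDeriv n f 0 / (n.factorial : ℂ) = 0) :
    ∃ g : ℂ → ℂ, AnalyticAt ℂ g 0 ∧ f =ᶠ[𝓝 0] fun x => x ^ m * g x := by
  have h1 : ((m : ℕ) : ℕ∞) ≤ analyticOrderAt f 0 := by
    rw [natCast_le_analyticOrderAt_iff_iteratedDeriv_eq_zero hf]
    intro n hn
    have h2 := h0 n hn
    rw [div_eq_zero_iff] at h2
    rcases h2 with h2 | h2
    · exact h2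
    · exact absurd h2 (by exact_mod_cast n.factorial_ne_zero)
  obtain ⟨g, hg, hfg⟩ := (natCast_le_analyticOrderAt hf).1 h1
  refine ⟨g, hg, ?_⟩
  filter_upwards [hfg] with x hx
  rw [hx, sub_zero, smul_eq_mul]

theorem prod1 {f u h : ℂ → ℂ} {m : ℕ} (hf : AnalyticAt ℂ f 0) (hu : AnalyticAt ℂ u 0)
    (h0 : ∀ n < m, iteratedDeriv n f 0 / (n.factorial : ℂ) = 0)
    (hh : h =ᶠ[𝓝 0] fun x => u x * f x) :
    iteratedDeriv m h 0 / (m.factorial : ℂ) = u 0 * (iteratedDeriv m f 0 / (m.factorial : ℂ)) ∧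
      iteratedDeriv (m + 1) h 0 / ((m + 1).factorial : ℂ) =
        u 0 * (iteratedDeriv (m + 1) f 0 / ((m + 1).factorial : ℂ)) +
          deriv u 0 * (iteratedDeriv m f 0 / (m.factorial : ℂ)) := by
  obtain ⟨g, hg, hfg⟩ := div1 hf h0
  obtain ⟨e1, e2⟩ := co1 hg hfg
  have h1 : h =ᶠ[𝓝 0] fun x => x ^ m * (u x * g x) := by
    filter_upwards [hh, hfg] with x h1 h2
    rw [h1, h2]
    ring
  obtain ⟨e3, e4⟩ := co1 (g := fun x => u x * g x) (hu.mul hg) h1
  rw [e1, e2, e3, e4]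
  refine ⟨rfl, ?_⟩
  rw [deriv_fun_mul hu.differentiableAt hg.differentiableAt]
  ring

theorem cont_x (q : T3) : Continuous fun x : ℂ => ((x, q) : T) := by fun_prop

theorem cont_q (x : ℂ) : Continuous fun q : T3 => ((x, q) : T) := by fun_prop

/-- a holomorphic function as a function of the first variable -/
theorem ana {G : T → ℂ} {q : T3} (h : Hol G (0, q)) : AnalyticAt ℂ (fun x => G (x, q)) 0 := by
  rw [Complex.analyticAt_iff_eventually_differentiableAt]
  filter_upwards [((cont_x q).tendsto 0).eventually h] with x hx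
  exact DifferentiableAt.comp (f := fun x : ℂ => ((x, q) : T)) x hx (by fun_prop)

theorem hol_near {G : T → ℂ} {r : T3} (h : Hol G (0, r)) : ∀ᶠ q in 𝓝 r, Hol G (0, q) :=
  ((cont_q 0).tendsto r).eventually (Filter.Eventually.eventually_nhds h)

theorem near2 {P : T → Prop} {r : T3} (h : ∀ᶠ p in 𝓝[XX] ((0 : ℂ), r), P p) :
    ∀ᶠ q in 𝓝[X3] r, ∀ᶠ x in 𝓝 (0 : ℂ), P (x, q) := by
  rw [eventually_nhdsWithin_iff] at h ⊢
  filter_upwards [((cont_q 0).tendsto r).eventually (Filter.Eventually.eventually_nhds h)]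
    with q hq hqX
  filter_upwards [((cont_x q).tendsto 0).eventually hq] with x hx
  exact hx hqX

/-- comparison of the first two coefficients -/
theorem key (hE : S_EXP) {F G : T → ℂ} {r : T3} {m : ℕ} (hG : Hol G (0, r))
    (hFG : Eqv XX F G (0, r)) (h0 : ∀ᶠ q in 𝓝[X3] r, ∀ n < m, cc n G q = 0) :
    Eqv2 X3 (cc m F) (cc (m + 1) F) (cc m G) (cc (m + 1) G) r := by
  obtain ⟨u, hu, hu0, hev⟩ := hFG
  obtain ⟨δ, hδ, hd, -⟩ := hE T3 u r hu
  have hd0 := hd 0
  have hd1 := hd 1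
  simp only [iteratedDeriv_zero, iteratedDeriv_one, Nat.factorial, Nat.cast_one, div_one,
    mul_one] at hd0 hd1
  refine ⟨fun q => u (0, q), fun q => deriv (fun x => u (x, q)) 0, ?_, ?_, hu0, ?_⟩
  · filter_upwards [isOpen_ball.mem_nhds (mem_ball_self hδ)] with q hq
    exact hd0.differentiableAt (isOpen_ball.mem_nhds hq)
  · filter_upwards [isOpen_ball.mem_nhds (mem_ball_self hδ)] with q hq
    exact hd1.differentiableAt (isOpen_ball.mem_nhds hq)
  · filter_upwards [near2 hev, (hol_near hG).filter_mono nhdsWithin_le_nhds,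
      (hol_near hu).filter_mono nhdsWithin_le_nhds, h0] with q h1 h2 h3 h4
    exact prod1 (ana h2) (ana h3) h4 h1

theorem cont_tw3 {r : T3} (hr : r.1 ≠ 0) : ContinuousAt tw3 r := by
  unfold tw3
  refine ContinuousAt.prodMk ?_ (ContinuousAt.prodMk ?_ ?_)
  · exact (continuous_fst.continuousAt).inv₀ hr
  · exact ContinuousAt.div (by fun_prop) (by fun_prop) (pow_ne_zero 3 hr)
  · fun_prop

theorem tw3_mem {q : T3} (hq : q ∈ X3) (h1 : q.1 ≠ 0) : tw3 q ∈ X3 := by
  unfold X3 at hq ⊢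
  simp only [mem_ofPred_eq, tw3] at hq ⊢
  rw [div_pow, hq]
  field_simp
  ring

theorem tend_tw3 {r : T3} (hr : r.1 ≠ 0) : Tendsto tw3 (𝓝[X3] r) (𝓝[X3] (tw3 r)) := by
  refine tendsto_nhdsWithin_iff.2 ⟨(cont_tw3 hr).tendsto.mono_left nhdsWithin_le_nhds, ?_⟩
  have h1 : ∀ᶠ q : T3 in 𝓝[X3] r, q.1 ≠ 0 :=
    ((continuous_fst.tendsto r).eventually (isOpen_ne.mem_nhds hr)).filter_mono nhdsWithin_le_nhds
  filter_upwards [h1, self_mem_nhdsWithin] with q h1 h2
  exact tw3_mem h2 h1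

theorem glueK {N : T → ℂ} {r : T3} {m : ℕ} (hr : r.1 ≠ 0) (hN : Hol N (0, tw3 r))
    (h0 : ∀ᶠ s in 𝓝[X3] (tw3 r), ∀ n < m, cc n N s = 0) :
    ∀ᶠ q in 𝓝[X3] r, cc m (fun p => N (tw false p)) q = q.1 ^ m * cc m N (tw3 q) ∧
      cc (m + 1) (fun p => N (tw false p)) q = q.1 ^ m * (q.1 * cc (m + 1) N (tw3 q) +
        q.2.1 / q.1 * de (cc m N) (tw3 q)) := by
  have h1 : ∀ᶠ q : T3 in 𝓝[X3] r, q.1 ≠ 0 :=
    ((continuous_fst.tendsto r).eventually (isOpen_ne.mem_nhds hr)).filter_mono nhdsWithin_le_nhds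
  have h2 : ∀ᶠ q in 𝓝[X3] r, Hol N (0, tw3 q) :=
    ((cont_tw3 hr).eventually (hol_near hN)).filter_mono nhdsWithin_le_nhds
  have h3 : ∀ᶠ q in 𝓝[X3] r, ∀ᶠ s in 𝓝[X3] (tw3 q), ∀ n < m, cc n N s = 0 :=
    (tend_tw3 hr).eventually (eventually_eventually_nhdsWithin.2 h0)
  filter_upwards [h1, h2, h3, self_mem_nhdsWithin] with q hq1 hq2 hq3 hqX
  obtain ⟨v, t, e⟩ := q
  have hX := tw3_mem hqX hq1
  simp only at hq1
  simp only [tw3] at hq2 hq3 hX ⊢
  set V : ℂ := v⁻¹ with hV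
  set W : ℂ := t / v ^ 3 with hW
  set P : ℂ × ℂ → ℂ := fun p => N (p.1, V, W, p.2) with hP
  have hc : Continuous fun p : ℂ × ℂ => ((p.1, V, W, p.2) : T) := by fun_prop
  have hPh : Hol P (0, e) := by
    filter_upwards [(hc.tendsto (0, e)).eventually hq2] with p hp
    exact DifferentiableAt.comp (f := fun p : ℂ × ℂ => ((p.1, V, W, p.2) : T)) p hp (by fun_prop)
  have hcz : Continuous fun z : ℂ => ((V, W, z) : T3) := by fun_prop
  have hz : ∀ᶠ z in 𝓝 e, ∀ n < m, cc n N (V, W, z) = 0 := by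
    have h5 : Tendsto (fun z : ℂ => ((V, W, z) : T3)) (𝓝 e) (𝓝[X3] ((V, W, e) : T3)) := by
      refine tendsto_nhdsWithin_iff.2 ⟨hcz.tendsto e, Eventually.of_forall fun z => ?_⟩
      exact hX
    exact h5.eventually hq3
  obtain ⟨g, hg, hPg⟩ := RED.div_pow' hPh m fun n hn => hz.mono fun z hz => hz n hn
  have hco := RED.coef hg hPg
  -- the coefficients of `N`
  have hcy : Continuous fun y : ℂ => ((y, e) : ℂ × ℂ) := by fun_prop
  have hga : AnalyticAt ℂ (fun y => g (y, e)) 0 := by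
    rw [Complex.analyticAt_iff_eventually_differentiableAt]
    filter_upwards [(hcy.tendsto 0).eventually hg] with x hx
    exact DifferentiableAt.comp (f := fun x : ℂ => ((x, e) : ℂ × ℂ)) x hx (by fun_prop)
  have e1 : (fun y => N (y, V, W, e)) =ᶠ[𝓝 0] fun y => y ^ m * g (y, e) := by
    filter_upwards [(hcy.tendsto 0).eventually hPg] with y hy
    rw [sub_zero] at hy
    exact hy
  obtain ⟨c1, c2⟩ := co1 hga e1
  have c1' : cc m N (V, W, e) = g (0, e) := c1
  have c2' : cc (m + 1) N (V, W, e) = deriv (fun y => g (y, e)) 0 := c2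
  have c3 : de (cc m N) (V, W, e) = deriv (fun z => g (0, z)) e := by
    unfold de
    refine Filter.EventuallyEq.deriv_eq ?_
    filter_upwards [hco] with z hz
    have h6 := hz m le_rfl
    rw [if_pos rfl] at h6
    exact h6
  -- the function `φ`
  have hgd : DifferentiableAt ℂ g (0, e) := hg.self_of_nhds
  have hcl : Continuous fun x : ℂ => ((x * v, e + x * (t / v)) : ℂ × ℂ) := by fun_prop
  have hcl0 : ((0 * v, e + 0 * (t / v)) : ℂ × ℂ) = (0, e) := by simp
  have htl : Tendsto (fun x : ℂ => ((x * v, e + x * (t / v)) : ℂ × ℂ)) (𝓝 0) (𝓝 (0, e)) := by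
    have h7 := hcl.tendsto 0
    rwa [hcl0] at h7
  have hLa : AnalyticAt ℂ (fun x => v ^ m * g (x * v, e + x * (t / v))) 0 := by
    refine analyticAt_const.mul ?_
    rw [Complex.analyticAt_iff_eventually_differentiableAt]
    filter_upwards [htl.eventually hg] with x hx
    exact DifferentiableAt.comp (f := fun x : ℂ => ((x * v, e + x * (t / v)) : ℂ × ℂ)) x hx
      (by fun_prop)
  have e2 : (fun x => N (tw false (x, v, t, e))) =ᶠ[𝓝 0]
      fun x => x ^ m * (v ^ m * g (x * v, e + x * (t / v))) := by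
    filter_upwards [htl.eventually hPg] with x hx
    have h8 : tw false (x, v, t, e) = (x * v, V, W, e + x * (t / v)) := by
      simp [tw, sg, hV, hW, mul_div_assoc]
    rw [h8]
    simp only [hP, sub_zero] at hx
    rw [hx]
    ring
  obtain ⟨d1, d2⟩ := co1 hLa e2
  have d1' : cc m (fun p => N (tw false p)) (v, t, e) = v ^ m * g (0 * v, e + 0 * (t / v)) := d1
  have d2' : cc (m + 1) (fun p => N (tw false p)) (v, t, e) =
      deriv (fun x => v ^ m * g (x * v, e + x * (t / v))) 0 := d2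
  have hD := hgd.hasFDerivAt
  set D := fderiv ℂ g (0, e) with hDdef
  have k1 : deriv (fun y => g (y, e)) 0 = D (1, 0) := by
    have h9 : HasDerivAt (fun y : ℂ => ((y, e) : ℂ × ℂ)) (1, 0) 0 :=
      (hasDerivAt_id (0 : ℂ)).prodMk (hasDerivAt_const _ _)
    exact (hD.comp_hasDerivAt_of_eq 0 h9 rfl).deriv
  have k2 : deriv (fun z => g (0, z)) e = D (0, 1) := by
    have h9 : HasDerivAt (fun y : ℂ => (((0 : ℂ), y) : ℂ × ℂ)) (0, 1) e :=
      (hasDerivAt_const _ _).prodMk (hasDerivAt_id _)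
    exact (hD.comp_hasDerivAt_of_eq e h9 rfl).deriv
  have k3 : deriv (fun x => v ^ m * g (x * v, e + x * (t / v))) 0 =
      v ^ m * D (v, t / v) := by
    have h9 : HasDerivAt (fun x : ℂ => ((x * v, e + x * (t / v)) : ℂ × ℂ)) (v, t / v) 0 := by
      have h10 : HasDerivAt (fun x : ℂ => x * v) v 0 := by
        simpa using (hasDerivAt_id (0 : ℂ)).mul_const v
      have h11 : HasDerivAt (fun x : ℂ => e + x * (t / v)) (t / v) 0 := by
        simpa using ((hasDerivAt_id (0 : ℂ)).mul_const (t / v)).const_add e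
      exact h10.prodMk h11
    have h12 := (hD.comp_hasDerivAt_of_eq 0 h9 hcl0.symm)
    exact (h12.const_mul (v ^ m)).deriv
  have k4 : D (v, t / v) = v * D (1, 0) + t / v * D (0, 1) := by
    have h13 : ((v, t / v) : ℂ × ℂ) = v • ((1 : ℂ), (0 : ℂ)) + (t / v) • ((0 : ℂ), (1 : ℂ)) := by
      simp
    rw [h13, map_add, map_smul, map_smul, smul_eq_mul, smul_eq_mul]
  rw [d1', d2', c1', c2', c3, k1, k2, k3, k4]
  refine ⟨?_, rfl⟩
  rw [zero_mul, zero_mul, add_zero]

theorem low_ev {Θ : Bool → T → T → ℂ} {m : ℕ} (hL : Low Θ m) (c : Bool) {r : T3} (hr : r ∈ Reg3) :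
    ∀ᶠ q in 𝓝[X3] r, ∀ n < m, cc n (Θ c (0, r)) q = 0 := by
  have h1 : ∀ᶠ q in 𝓝[X3] r, ∀ n ∈ Set.Iio m, cc n (Θ c (0, r)) q = 0 :=
    (Filter.eventually_all_finite (Set.finite_Iio m)).2 fun n hn => hL n hn c r hr
  exact h1

theorem reg0 {ρ : ℝ} (hρ : 0 < ρ) {r : T3} (hr : r ∈ Reg3) : ((0 : ℂ), r) ∈ Reg ρ :=
  ⟨hr.1, by simpa using hρ, hr.2⟩

theorem tw0 (r : T3) : tw false (0, r) = (0, tw3 r) := by
  simp [tw, tw3]

theorem holC (hE : S_EXP) {ρ : ℝ} {Θ : Bool → T → T → ℂ} (hρ : 0 < ρ) (hC : CD ρ Θ) (n : ℕ)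
    (c : Bool) {r : T3} (hr : r ∈ Reg3) : Hol (cf Θ n c r) r := by
  obtain ⟨δ, hδ, hd, -⟩ := hE T3 (Θ c (0, r)) r (hC.hol c (0, r) (reg0 hρ hr))
  filter_upwards [isOpen_ball.mem_nhds (mem_ball_self hδ)] with q hq
  exact (hd n).differentiableAt (isOpen_ball.mem_nhds hq)

end Pool.Agent.Y758.MM.CFP

namespace Pool.Agent.Y758.MM

open CFP

theorem MM_CFP (hE : S_EXP) : S_CFP := by
  intro ρ Θ hρ hC m hL hnz
  refine ⟨fun c r hr => holC hE hρ hC m c hr, fun c r hr => holC hE hρ hC (m + 1) c hr,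
    ?_, ?_, ?_, hnz⟩
  · intro c r hr
    have h1 : Tendsto (fun q : T3 => (((0 : ℂ), q) : T)) (𝓝[X3] r) (𝓝[XX] ((0 : ℂ), r)) := by
      refine tendsto_nhdsWithin_iff.2 ⟨((cont_q 0).tendsto r).mono_left nhdsWithin_le_nhds, ?_⟩
      filter_upwards [self_mem_nhdsWithin] with q hq
      exact hq
    have h2 := h1.eventually (hC.comp c (0, r) (reg0 hρ hr))
    have h3 := (hol_near (hC.hol c (0, r) (reg0 hρ hr))).filter_mono
      (nhdsWithin_le_nhds (s := X3))
    have h4 := eventually_eventually_nhdsWithin.2 (low_ev hL c hr)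
    filter_upwards [h2, h3, h4] with q h2 h3 h4
    exact key hE h3 h2 h4
  · intro c r hr l hl
    exact key hE (F := fun q => Θ c (sh l (0, r)) (sh l q)) (hC.hol c (0, r) (reg0 hρ hr))
      (hC.per c (0, r) (reg0 hρ hr) l hl) (low_ev hL c hr)
  · intro r hr hr1 htr
    have hR := reg0 hρ htr
    have h1 := hC.glue (0, r) (reg0 hρ hr) hr1 (by rw [tw0]; exact hR)
    rw [tw0] at h1
    obtain ⟨u, w, hu, hw, hu0, huw⟩ := key hE (F := fun q => Θ true (0, tw3 r) (tw false q))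
      (hC.hol false (0, r) (reg0 hρ hr)) h1 (low_ev hL false hr)
    have h2 := glueK (m := m) hr1 (hC.hol true (0, tw3 r) hR) (low_ev hL true htr)
    have hne : ∀ᶠ q : T3 in 𝓝 r, q.1 ≠ 0 :=
      (continuous_fst.tendsto r).eventually (isOpen_ne.mem_nhds hr1)
    refine ⟨fun q => u q * (q.1 ^ m)⁻¹, fun q => w q * (q.1 ^ m)⁻¹, ?_, ?_, ?_, ?_⟩
    · filter_upwards [hu, hne] with q h3 h4
      exact h3.mul ((by fun_prop : DifferentiableAt ℂ (fun q : T3 => q.1 ^ m) q).inv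
        (pow_ne_zero m h4))
    · filter_upwards [hw, hne] with q h3 h4
      exact h3.mul ((by fun_prop : DifferentiableAt ℂ (fun q : T3 => q.1 ^ m) q).inv
        (pow_ne_zero m h4))
    · exact mul_ne_zero hu0 (inv_ne_zero (pow_ne_zero m hr1))
    · filter_upwards [huw, h2, hne.filter_mono nhdsWithin_le_nhds] with q h3 h4 h5
      have h6 : q.1 ^ m ≠ 0 := pow_ne_zero m h5
      rw [h4.1, h4.2] at h3
      obtain ⟨h7, h8⟩ := h3
      refine ⟨?_, ?_⟩
      · have h9 : cf Θ m true (tw3 r) (tw3 q) = (q.1 ^ m)⁻¹ *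
            (q.1 ^ m * cc m (Θ true (0, tw3 r)) (tw3 q)) := by
          rw [inv_mul_cancel_left₀ h6]
          rfl
        rw [h9, h7]
        have h10 : cf Θ m false r q = cc m (Θ false (0, r)) q := rfl
        rw [h10]
        ring
      · have h9 : q.1 * cf Θ (m + 1) true (tw3 r) (tw3 q) +
            q.2.1 / q.1 * de (cf Θ m true (tw3 r)) (tw3 q) = (q.1 ^ m)⁻¹ *
            (q.1 ^ m * (q.1 * cc (m + 1) (Θ true (0, tw3 r)) (tw3 q) +
              q.2.1 / q.1 * de (cc m (Θ true (0, tw3 r))) (tw3 q))) := by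
          rw [inv_mul_cancel_left₀ h6]
          rfl
        rw [h9, h8]
        have h10 : cf Θ m false r q = cc m (Θ false (0, r)) q := rfl
        have h11 : cf Θ (m + 1) false r q = cc (m + 1) (Θ false (0, r)) q := rfl
        rw [h10, h11]
        ring

end Pool.Agent.Y758.MM
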