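import Pool.Agent.Y758.MM.Stm2

/-! Project MM, job MM-CNT (helper769): the number of zeros is constant. -/

set_option autoImplicit false

open Set Filter Topology Metric

namespace Pool.Agent.Y758.MM.CNT

open Pool.Agent.Y758.MM

lemma hol_cont {V : Type} [NormedAddCommGroup V] [NormedSpace ℂ V] {f : V → ℂ} {p : V}
    (h : Hol f p) : ∀ᶠ q in 𝓝 p, ContinuousAt f q :=
  h.mono fun _ hq => hq.continuousAt

lemma tend_slice (s e : ℂ) : Tendsto (fun z : ℂ => (s, z)) (𝓝 e) (𝓝 (s, e)) :=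
  (continuous_const.prodMk continuous_id).continuousAt

lemma hol_slice {F : ℂ × ℂ → ℂ} {s e : ℂ} (h : Hol F (s, e)) :
    AnalyticAt ℂ (fun z => F (s, z)) e := by
  rw [Complex.analyticAt_iff_eventually_differentiableAt]
  refine ((tend_slice s e).eventually h).mono fun z hz => ?_
  have h2 : DifferentiableAt ℂ (fun z : ℂ => (s, z)) z :=
    (differentiableAt_const s).prodMk differentiableAt_id
  exact DifferentiableAt.comp z hz h2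

lemma ord_unit {u f g : ℂ → ℂ} {e : ℂ} (hu : AnalyticAt ℂ u e) (hu0 : u e ≠ 0)
    (hf : AnalyticAt ℂ f e) (h : ∀ᶠ z in 𝓝 e, g z = u z * f z) :
    analyticOrderNatAt g e = analyticOrderNatAt f e := by
  have h1 : g =ᶠ[𝓝 e] u * f := h
  unfold analyticOrderNatAt
  rw [analyticOrderAt_congr h1, analyticOrderAt_mul hu hf, hu.analyticOrderAt_eq_zero.2 hu0,
    zero_add]

lemma ord_shift (g : ℂ → ℂ) (e l : ℂ) :
    analyticOrderNatAt (fun z => g (z + l)) e = analyticOrderNatAt g (e + l) := by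
  unfold analyticOrderNatAt
  congr 1
  have h1 : AnalyticAt ℂ (fun z : ℂ => z + l) e := analyticAt_id.add analyticAt_const
  have h2 : deriv (fun z : ℂ => z + l) e ≠ 0 := by simp
  exact analyticOrderAt_comp_of_deriv_ne_zero (f := g) h1 h2

lemma ord_zero {f : ℂ → ℂ} {e : ℂ} (h : f e ≠ 0) : analyticOrderNatAt f e = 0 := by
  unfold analyticOrderNatAt
  rw [analyticOrderAt_eq_zero.2 (Or.inr h)]
  rfl

lemma div_pow (F G : ℂ × ℂ → ℂ) (s₀ e : ℂ) (r : ℕ)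
    (hF : ∀ᶠ q in 𝓝 (s₀, e), ContinuousAt F q) (hG : ∀ᶠ q in 𝓝 (s₀, e), ContinuousAt G q)
    (h : ∀ᶠ q : ℂ × ℂ in 𝓝 (s₀, e), (q.1 - s₀) ^ r * F q = (q.1 - s₀) ^ r * G q) :
    ∀ᶠ q in 𝓝 (s₀, e), F q = G q := by
  have hd : Dense {q : ℂ × ℂ | q.1 ≠ s₀} := by
    have h1 : Dense (({s₀}ᶜ : Set ℂ) ×ˢ (univ : Set ℂ)) :=
      (dense_compl_singleton s₀).prod dense_univ
    have h2 : {q : ℂ × ℂ | q.1 ≠ s₀} = ({s₀}ᶜ : Set ℂ) ×ˢ (univ : Set ℂ) := by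
      ext q; simp
    rw [h2]; exact h1
  filter_upwards [hF, hG, eventually_eventually_nhds.2 h] with q h1 h2 h3
  have hne : (𝓝[{q : ℂ × ℂ | q.1 ≠ s₀}] q).NeBot := mem_closure_iff_nhdsWithin_neBot.1 (hd q)
  have h4 : F =ᶠ[𝓝[{q : ℂ × ℂ | q.1 ≠ s₀}] q] G := by
    filter_upwards [self_mem_nhdsWithin, h3.filter_mono nhdsWithin_le_nhds] with q' h5 h6
    have h7 : (q'.1 - s₀) ^ r ≠ 0 := pow_ne_zero _ (sub_ne_zero.2 h5)
    exact mul_left_cancel₀ h7 h6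
  exact tendsto_nhds_unique_of_eventuallyEq h1.continuousWithinAt.tendsto
    h2.continuousWithinAt.tendsto h4

lemma tend_shift (s e l : ℂ) :
    Tendsto (fun q : ℂ × ℂ => (q.1, q.2 + l)) (𝓝 (s, e)) (𝓝 (s, e + l)) := by
  have h : Continuous (fun q : ℂ × ℂ => (q.1, q.2 + l)) := by fun_prop
  exact h.continuousAt

lemma Lat_neg {l : ℂ} (h : l ∈ Lat) : -l ∈ Lat := by
  obtain ⟨m, n, rfl⟩ := h
  exact ⟨-m, -n, by push_cast; ring⟩

lemma Lat_zero : (0 : ℂ) ∈ Lat := ⟨0, 0, by simp⟩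

/-- the closed square -/
def Qd : Set ℂ := {z | 0 ≤ z.re ∧ z.re ≤ 1 ∧ 0 ≤ z.im ∧ z.im ≤ 1}

lemma to_Qd (e : ℂ) : ∃ l ∈ Lat, e + l ∈ Qd := by
  refine ⟨((-⌊e.re⌋ : ℤ) : ℂ) + ((-⌊e.im⌋ : ℤ) : ℂ) * Complex.I, ⟨_, _, rfl⟩, ?_⟩
  have h1 := Int.floor_le e.re
  have h2 := Int.lt_floor_add_one e.re
  have h3 := Int.floor_le e.im
  have h4 := Int.lt_floor_add_one e.im
  refine ⟨?_, ?_, ?_, ?_⟩ <;> simp <;> linarith

lemma Qd_closed : IsClosed Qd := by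
  have h : Qd = {z | 0 ≤ z.re} ∩ ({z | z.re ≤ 1} ∩ ({z | 0 ≤ z.im} ∩ {z : ℂ | z.im ≤ 1})) := by
    ext z; simp [Qd]
  rw [h]
  exact (isClosed_le continuous_const Complex.continuous_re).inter
    ((isClosed_le Complex.continuous_re continuous_const).inter
      ((isClosed_le continuous_const Complex.continuous_im).inter
        (isClosed_le Complex.continuous_im continuous_const)))

lemma Qd_bdd : Bornology.IsBounded Qd := by
  apply (Metric.isBounded_closedBall (x := (0 : ℂ)) (r := 2)).subset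
  intro z hz
  rw [mem_closedBall_zero_iff]
  obtain ⟨h1, h2, h3, h4⟩ := hz
  calc ‖z‖ ≤ |z.re| + |z.im| := Complex.norm_le_abs_re_add_abs_im z
    _ ≤ 2 := by rw [abs_of_nonneg h1, abs_of_nonneg h3]; linarith

/-- data of the division -/
structure Dv (A : ℂ × ℂ → ℂ × ℂ → ℂ) (s₀ : ℂ) (r : ℕ) (A' : ℂ → ℂ × ℂ → ℂ) : Prop where
  hol : ∀ e, Hol (A' e) (s₀, e)
  eq : ∀ e, ∀ᶠ q in 𝓝 (s₀, e), A (s₀, e) q = (q.1 - s₀) ^ r * A' e q
  nz : ∀ e, ∀ᶠ z in 𝓝[≠] e, A' e (s₀, z) ≠ 0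

lemma compat {D : Set ℂ} {A B : ℂ × ℂ → ℂ × ℂ → ℂ} (hS : Sys D A B) {s₀ : ℂ} (hs : s₀ ∈ D)
    {r : ℕ} {A' : ℂ → ℂ × ℂ → ℂ} (hR : Dv A s₀ r A') (e : ℂ) :
    ∀ᶠ q in 𝓝 (s₀, e), (∃ u : ℂ × ℂ → ℂ, Hol u q ∧ u q ≠ 0 ∧
      ∀ᶠ q' in 𝓝 q, A q q' = u q' * ((q'.1 - s₀) ^ r * A' e q')) ∧ Hol (A' e) q := by
  filter_upwards [hS.comp (s₀, e) hs, eventually_eventually_nhds.2 (hR.eq e),
    eventually_eventually_nhds.2 (hR.hol e)] with q h1 h2 h3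
  refine ⟨?_, h3⟩
  obtain ⟨u, w, hu, hw, hu0, h4⟩ := h1
  rw [nhdsWithin_univ] at h4
  refine ⟨u, hu, hu0, ?_⟩
  filter_upwards [h4, h2] with q' h5 h6
  rw [h5.1, h6]

lemma compat0 {D : Set ℂ} {A B : ℂ × ℂ → ℂ × ℂ → ℂ} (hS : Sys D A B) {s₀ : ℂ} (hs : s₀ ∈ D)
    {r : ℕ} {A' : ℂ → ℂ × ℂ → ℂ} (hR : Dv A s₀ r A') (e : ℂ) :
    ∀ᶠ e' in 𝓝 e, ∃ u : ℂ × ℂ → ℂ, Hol u (s₀, e') ∧ u (s₀, e') ≠ 0 ∧
      ∀ᶠ q in 𝓝 (s₀, e'), A' e' q = u q * A' e q := by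
  filter_upwards [(tend_slice s₀ e).eventually (compat hS hs hR e)] with e' h
  obtain ⟨⟨u, hu, hu0, h1⟩, h2⟩ := h
  refine ⟨u, hu, hu0, ?_⟩
  apply div_pow (A' e') (fun q => u q * A' e q) s₀ e' r (hol_cont (hR.hol e'))
  · filter_upwards [hol_cont hu, hol_cont h2] with q h3 h4
    exact h3.mul h4
  · filter_upwards [h1, hR.eq e'] with q h3 h4
    rw [← h4, h3]; ring

lemma per0 {D : Set ℂ} {A B : ℂ × ℂ → ℂ × ℂ → ℂ} (hS : Sys D A B) {s₀ : ℂ} (hs : s₀ ∈ D)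
    {r : ℕ} {A' : ℂ → ℂ × ℂ → ℂ} (hR : Dv A s₀ r A') (e l : ℂ) (hl : l ∈ Lat) :
    ∃ u : ℂ × ℂ → ℂ, Hol u (s₀, e) ∧ u (s₀, e) ≠ 0 ∧
      ∀ᶠ q : ℂ × ℂ in 𝓝 (s₀, e), A' (e + l) (q.1, q.2 + l) = u q * A' e q := by
  obtain ⟨u, w, hu, hw, hu0, h4⟩ := hS.per (s₀, e) hs l hl
  rw [nhdsWithin_univ] at h4
  refine ⟨u, hu, hu0, ?_⟩
  apply div_pow (fun q : ℂ × ℂ => A' (e + l) (q.1, q.2 + l)) (fun q => u q * A' e q) s₀ e r
  · filter_upwards [(tend_shift s₀ e l).eventually (hol_cont (hR.hol (e + l)))] with q h1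
    have h2 : Continuous (fun q : ℂ × ℂ => (q.1, q.2 + l)) := by fun_prop
    exact ContinuousAt.comp (f := fun q : ℂ × ℂ => (q.1, q.2 + l)) h1 h2.continuousAt
  · filter_upwards [hol_cont hu, hol_cont (hR.hol e)] with q h3 h5
    exact h3.mul h5
  · filter_upwards [h4, hR.eq e, (tend_shift s₀ e l).eventually (hR.eq (e + l))] with q h1 h2 h3
    have h5 := h1.1
    rw [← h3, h5, h2]; ring

/-- the zeros over the given point -/
def Z0 (s₀ : ℂ) (A' : ℂ → ℂ × ℂ → ℂ) : Set ℂ := {e | A' e (s₀, e) = 0}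

lemma Z0_per {D : Set ℂ} {A B : ℂ × ℂ → ℂ × ℂ → ℂ} (hS : Sys D A B) {s₀ : ℂ} (hs : s₀ ∈ D)
    {r : ℕ} {A' : ℂ → ℂ × ℂ → ℂ} (hR : Dv A s₀ r A') (e l : ℂ) (hl : l ∈ Lat) :
    e + l ∈ Z0 s₀ A' ↔ e ∈ Z0 s₀ A' := by
  obtain ⟨u, hu, hu0, h⟩ := per0 hS hs hR e l hl
  have h1 := h.self_of_nhds
  simp only [Z0, mem_ofPred_eq]
  simp only at h1
  rw [h1, mul_eq_zero]
  constructor
  · intro h2
    rcases h2 with h2 | h2
    · exact absurd h2 hu0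
    · exact h2
  · intro h2; exact Or.inr h2

lemma Z0_iso {D : Set ℂ} {A B : ℂ × ℂ → ℂ × ℂ → ℂ} (hS : Sys D A B) {s₀ : ℂ} (hs : s₀ ∈ D)
    {r : ℕ} {A' : ℂ → ℂ × ℂ → ℂ} (hR : Dv A s₀ r A') (e : ℂ) :
    ∀ᶠ z in 𝓝[≠] e, z ∉ Z0 s₀ A' := by
  filter_upwards [(compat0 hS hs hR e).filter_mono nhdsWithin_le_nhds, hR.nz e] with z h1 h2
  obtain ⟨u, hu, hu0, h3⟩ := h1
  intro hz
  have h4 := h3.self_of_nhds
  have h5 : A' z (s₀, z) = 0 := hz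
  rw [h5] at h4
  exact (mul_ne_zero hu0 h2) h4.symm

lemma Z0_closed {D : Set ℂ} {A B : ℂ × ℂ → ℂ × ℂ → ℂ} (hS : Sys D A B) {s₀ : ℂ} (hs : s₀ ∈ D)
    {r : ℕ} {A' : ℂ → ℂ × ℂ → ℂ} (hR : Dv A s₀ r A') : IsClosed (Z0 s₀ A') := by
  rw [← isOpen_compl_iff, isOpen_iff_mem_nhds]
  intro e he
  have h := Z0_iso hS hs hR e
  rw [eventually_nhdsWithin_iff] at h
  filter_upwards [h] with z hz
  by_cases h1 : z = e
  · rw [h1]; exact he
  · exact hz h1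

/-- the compact set of the points of the square outside of the discs -/
def Kc {n : ℕ} (p : Fin n → ℂ) (ρ : ℝ) : Set ℂ :=
  Qd ∩ {e | ∀ i, ∀ l ∈ Lat, e + l ∉ ball (p i) ρ}

lemma Kc_compact {n : ℕ} (p : Fin n → ℂ) (ρ : ℝ) : IsCompact (Kc p ρ) := by
  apply Metric.isCompact_of_isClosed_isBounded
  · apply Qd_closed.inter
    have h : {e | ∀ i, ∀ l ∈ Lat, e + l ∉ ball (p i) ρ} =
        ⋂ i, ⋂ l ∈ Lat, (fun e : ℂ => e + l) ⁻¹' (ball (p i) ρ)ᶜ := by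
      ext e; simp
    rw [h]
    refine isClosed_iInter fun i => isClosed_iInter fun l => isClosed_iInter fun _ => ?_
    exact (isOpen_ball.isClosed_compl).preimage (by fun_prop)
  · exact Qd_bdd.subset inter_subset_left

/-- the facts at a parameter near the given one -/
structure Nice (A : ℂ × ℂ → ℂ × ℂ → ℂ) (A' : ℂ → ℂ × ℂ → ℂ) {n : ℕ} (p : Fin n → ℂ) (ρ : ℝ)
    (s : ℂ) : Prop where
  inn : ∀ i, ∀ z ∈ ball (p i) ρ, ∃ u : ℂ → ℂ, AnalyticAt ℂ u z ∧ u z ≠ 0 ∧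
    AnalyticAt ℂ (fun w => A' (p i) (s, w)) z ∧ ∀ᶠ w in 𝓝 z, A (s, z) (s, w) = u w * A' (p i) (s, w)
  pr : ∀ e, ∀ l ∈ Lat, ∃ u : ℂ → ℂ, AnalyticAt ℂ u e ∧ u e ≠ 0 ∧
    ∀ᶠ z in 𝓝 e, A (s, e + l) (s, z + l) = u z * A (s, e) (s, z)
  an : ∀ e, AnalyticAt ℂ (fun z => A (s, e) (s, z)) e
  out : ∀ e, (∀ i, ∀ l ∈ Lat, e + l ∉ ball (p i) ρ) → A (s, e) (s, e) ≠ 0
  iso : ∀ i, ∀ z ∈ ball (p i) ρ, ∀ᶠ w in 𝓝[≠] z, A' (p i) (s, w) ≠ 0

lemma Nice.gd {A : ℂ × ℂ → ℂ × ℂ → ℂ} {A' : ℂ → ℂ × ℂ → ℂ} {n : ℕ} {p : Fin n → ℂ} {ρ : ℝ}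
    {s : ℂ} (h : Nice A A' p ρ s) : gd A s := by
  intro e
  by_cases hc : ∃ i, ∃ l ∈ Lat, e + l ∈ ball (p i) ρ
  · obtain ⟨i, l, hl, hb⟩ := hc
    obtain ⟨u, hu, hu0, hA, h1⟩ := h.inn i (e + l) hb
    obtain ⟨v, hv, hv0, h2⟩ := h.pr e l hl
    have h3 := h.iso i (e + l) hb
    have h4 : ∀ᶠ w in 𝓝[≠] (e + l), A (s, e + l) (s, w) ≠ 0 := by
      have hu1 : ∀ᶠ w in 𝓝 (e + l), u w ≠ 0 := hu.continuousAt.eventually_ne hu0
      filter_upwards [h3, h1.filter_mono nhdsWithin_le_nhds,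
        hu1.filter_mono nhdsWithin_le_nhds] with w h5 h6 h7
      rw [h6]; exact mul_ne_zero h7 h5
    have ht : Tendsto (fun z : ℂ => z + l) (𝓝[≠] e) (𝓝[≠] (e + l)) := by
      apply tendsto_nhdsWithin_of_tendsto_nhds_of_eventually_within
      · have hc : Continuous (fun z : ℂ => z + l) := by fun_prop
        exact (hc.continuousAt (x := e)).tendsto.mono_left nhdsWithin_le_nhds
      · filter_upwards [self_mem_nhdsWithin] with z hz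
        intro h5
        exact hz (add_right_cancel h5)
    filter_upwards [ht.eventually h4, h2.filter_mono nhdsWithin_le_nhds] with z h5 h6
    intro h7
    rw [h6, h7, mul_zero] at h5
    exact h5 rfl
  · push Not at hc
    have h1 := h.out e hc
    exact ((h.an e).continuousAt.eventually_ne h1).filter_mono nhdsWithin_le_nhds

lemma Nice.per {A : ℂ × ℂ → ℂ × ℂ → ℂ} {A' : ℂ → ℂ × ℂ → ℂ} {n : ℕ} {p : Fin n → ℂ} {ρ : ℝ}
    {s : ℂ} (h : Nice A A' p ρ s) (e l : ℂ) (hl : l ∈ Lat) :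
    analyticOrderNatAt (fun z => A (s, e + l) (s, z)) (e + l) =
      analyticOrderNatAt (fun z => A (s, e) (s, z)) e := by
  obtain ⟨v, hv, hv0, h2⟩ := h.pr e l hl
  rw [← ord_shift]
  exact ord_unit hv hv0 (h.an e) h2

lemma Nice.cnt {A : ℂ × ℂ → ℂ × ℂ → ℂ} {A' : ℂ → ℂ × ℂ → ℂ} {n : ℕ} {p : Fin n → ℂ} {ρ : ℝ}
    {s : ℂ} (h : Nice A A' p ρ s) (h3 : S_SUM) (hρ : 0 < ρ) (hsep : Sep p ρ)
    (hfin : ∀ i, {z | z ∈ ball (p i) ρ ∧ A' (p i) (s, z) = 0}.Finite) (d : Fin n → ℕ)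
    (hd : ∀ i, ∑ᶠ z ∈ ball (p i) ρ, analyticOrderNatAt (fun w => A' (p i) (s, w)) z = d i) :
    cnt A s = ∑ i, d i := by
  have hin : ∀ i, ∀ z ∈ ball (p i) ρ, analyticOrderNatAt (fun w => A (s, z) (s, w)) z =
      analyticOrderNatAt (fun w => A' (p i) (s, w)) z := by
    intro i z hz
    obtain ⟨u, hu, hu0, hA, h1⟩ := h.inn i z hz
    exact ord_unit hu hu0 hA h1
  unfold Pool.Agent.Y758.MM.cnt
  rw [h3 ℕ n p ρ (fun e => analyticOrderNatAt (fun z => A (s, e) (s, z)) e) hρ hsep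
    (fun z l hl => h.per z l hl)]
  · apply Finset.sum_congr rfl
    intro i _
    rw [← hd i]
    apply finsum_mem_congr rfl
    intro z hz
    exact hin i z hz
  · intro z hz
    by_contra hc
    push Not at hc
    exact hz (ord_zero (h.out z hc))
  · intro i
    apply (hfin i).subset
    rintro z ⟨hz1, hz2⟩
    refine ⟨hz1, ?_⟩
    by_contra hc
    apply hz2
    rw [hin i z hz1]
    exact ord_zero hc

lemma nice_ev {D : Set ℂ} {A B : ℂ × ℂ → ℂ × ℂ → ℂ} (hD : IsOpen D) (hS : Sys D A B) {s₀ : ℂ}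
    (hs : s₀ ∈ D) {r : ℕ} {A' : ℂ → ℂ × ℂ → ℂ} (hR : Dv A s₀ r A') {n : ℕ} (p : Fin n → ℂ)
    (hp : ∀ z ∈ Z0 s₀ A', ∃ i, ∃ l ∈ Lat, z = p i + l) (ρ : ℝ) (hρ : 0 < ρ)
    (hc : ∀ i, ∀ q : ℂ × ℂ, dist q (s₀, p i) < ρ → (∃ u : ℂ × ℂ → ℂ, Hol u q ∧ u q ≠ 0 ∧
      ∀ᶠ q' in 𝓝 q, A q q' = u q' * ((q'.1 - s₀) ^ r * A' (p i) q')) ∧ Hol (A' (p i)) q)
    (hiso : ∀ᶠ s in 𝓝 s₀, ∀ i, ∀ z ∈ ball (p i) ρ, ∀ᶠ w in 𝓝[≠] z, A' (p i) (s, w) ≠ 0) :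
    ∀ᶠ s in 𝓝[≠] s₀, Nice A A' p ρ s := by
  have hK : ∀ᶠ s in 𝓝 s₀, ∀ e ∈ Kc p ρ, (s ≠ s₀ → A (s, e) (s, e) ≠ 0) := by
    apply (Kc_compact p ρ).eventually_forall_of_forall_eventually
      (P := fun s e => s ≠ s₀ → A (s, e) (s, e) ≠ 0)
    intro e he
    have h1 : A' e (s₀, e) ≠ 0 := by
      intro h0
      obtain ⟨i, l, hl, h2⟩ := hp e h0
      apply he.2 i (-l) (Lat_neg hl)
      rw [h2]
      simpa using hρ
    have h2 : ∀ᶠ q in 𝓝 (s₀, e), A' e q ≠ 0 :=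
      (hol_cont (hR.hol e)).self_of_nhds.eventually_ne h1
    filter_upwards [compat hS hs hR e, h2] with q h3 h4
    intro h5
    obtain ⟨⟨u, hu, hu0, h6⟩, -⟩ := h3
    have h7 := h6.self_of_nhds
    have h8 : A (q.1, q.2) (q.1, q.2) = u q * ((q.1 - s₀) ^ r * A' e q) := h7
    rw [h8]
    exact mul_ne_zero hu0 (mul_ne_zero (pow_ne_zero _ (sub_ne_zero.2 h5)) h4)
  have hDs : ∀ᶠ s in 𝓝 s₀, s ∈ D := hD.mem_nhds hs
  have hball : ∀ᶠ s in 𝓝 s₀, s ∈ ball s₀ ρ := ball_mem_nhds s₀ hρ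
  filter_upwards [hK.filter_mono nhdsWithin_le_nhds, hDs.filter_mono nhdsWithin_le_nhds,
    hball.filter_mono nhdsWithin_le_nhds, hiso.filter_mono nhdsWithin_le_nhds,
    self_mem_nhdsWithin] with s h1 h2 h3 h4 h5
  have hne : s ≠ s₀ := h5
  have hpr : ∀ e, ∀ l ∈ Lat, ∃ u : ℂ → ℂ, AnalyticAt ℂ u e ∧ u e ≠ 0 ∧
      ∀ᶠ z in 𝓝 e, A (s, e + l) (s, z + l) = u z * A (s, e) (s, z) := by
    intro e l hl
    obtain ⟨u, w, hu, hw, hu0, h6⟩ := hS.per (s, e) h2 l hl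
    rw [nhdsWithin_univ] at h6
    refine ⟨fun z => u (s, z), hol_slice hu, hu0, ?_⟩
    filter_upwards [(tend_slice s e).eventually h6] with z h7
    exact h7.1
  refine ⟨?_, hpr, fun e => hol_slice (hS.holA (s, e) h2), ?_, h4⟩
  · intro i z hz
    have hd : dist ((s, z) : ℂ × ℂ) (s₀, p i) < ρ := by
      rw [Prod.dist_eq]
      exact max_lt h3 hz
    obtain ⟨⟨u, hu, hu0, h6⟩, h7⟩ := hc i (s, z) hd
    refine ⟨fun w => u (s, w) * (s - s₀) ^ r, (hol_slice hu).mul analyticAt_const,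
      mul_ne_zero hu0 (pow_ne_zero _ (sub_ne_zero.2 hne)), hol_slice h7, ?_⟩
    filter_upwards [(tend_slice s z).eventually h6] with w h8
    rw [h8]; ring
  · intro e he
    obtain ⟨l, hl, hq⟩ := to_Qd e
    have hK2 : e + l ∈ Kc p ρ := by
      refine ⟨hq, fun i l' hl' => ?_⟩
      have h6 : l + l' ∈ Lat := by
        obtain ⟨a, b, rfl⟩ := hl
        obtain ⟨a', b', rfl⟩ := hl'
        exact ⟨a + a', b + b', by push_cast; ring⟩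
      have h7 := he i (l + l') h6
      rwa [← add_assoc] at h7
    have h6 := h1 (e + l) hK2 hne
    obtain ⟨u, hu, hu0, h7⟩ := hpr e l hl
    have h8 := h7.self_of_nhds
    rw [h8] at h6
    exact right_ne_zero_of_mul h6

end Pool.Agent.Y758.MM.CNT

namespace Pool.Agent.Y758.MM

open CNT

theorem MM_CNT (h1 : S_RED) (h2 : S_HUR) (h3 : S_SUM) (h4 : S_FINZ) : S_CNT := by
  intro D A B hD hS s₀ hs
  obtain ⟨r, A', hA'⟩ := h1 D A B hD hS s₀ hs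
  have hR : Dv A s₀ r A' := ⟨fun e => (hA' e).1, fun e => (hA' e).2.1, fun e => (hA' e).2.2.1⟩
  obtain ⟨n, p, hpZ, hp, ρ₀, hρ₀, hsep⟩ := h4 (Z0 s₀ A') (fun z l hl => Z0_per hS hs hR z l hl)
    (Z0_closed hS hs hR) (fun z => Z0_iso hS hs hR z)
  have hH : ∀ i, ∃ ρ₁ : ℝ, 0 < ρ₁ ∧ ∀ ρ : ℝ, 0 < ρ → ρ < ρ₁ →
    (∀ z ∈ closedBall (p i) ρ, z ≠ p i → A' (p i) (s₀, z) ≠ 0) ∧
    ∀ᶠ s in 𝓝 s₀, (∀ z ∈ closedBall (p i) ρ, DifferentiableAt ℂ (A' (p i)) (s, z) ∧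
        DifferentiableAt ℂ (fun _ : ℂ × ℂ => (0 : ℂ)) (s, z)) ∧
      (∀ z ∈ sphere (p i) ρ, A' (p i) (s, z) ≠ 0) ∧
      (∀ z ∈ ball (p i) ρ, ∀ᶠ w in 𝓝[≠] z, A' (p i) (s, w) ≠ 0) ∧
      {z | z ∈ ball (p i) ρ ∧ A' (p i) (s, z) = 0}.Finite ∧
      ∑ᶠ z ∈ ball (p i) ρ, analyticOrderNatAt (fun w => A' (p i) (s, w)) z =
        analyticOrderNatAt (fun w => A' (p i) (s₀, w)) (p i) ∧
      ∑ᶠ z ∈ ball (p i) ρ, res (fun w => (fun _ : ℂ × ℂ => (0 : ℂ)) (s, w) / A' (p i) (s, w)) z =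
        (2 * Real.pi * Complex.I)⁻¹ *
          ∮ w in C(p i, ρ), (fun _ : ℂ × ℂ => (0 : ℂ)) (s, w) / A' (p i) (s, w) := by
    intro i
    exact h2 (A' (p i)) (fun _ => 0) s₀ (p i) (hR.hol (p i))
      (Eventually.of_forall fun q => differentiableAt_const _) (hR.nz (p i))
  choose ρ₁ hρ₁ hH using hH
  have hC : ∀ i, ∃ δ > 0, ∀ q : ℂ × ℂ, dist q (s₀, p i) < δ →
      (∃ u : ℂ × ℂ → ℂ, Hol u q ∧ u q ≠ 0 ∧
      ∀ᶠ q' in 𝓝 q, A q q' = u q' * ((q'.1 - s₀) ^ r * A' (p i) q')) ∧ Hol (A' (p i)) q := by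
    intro i
    have h := compat hS hs hR (p i)
    rw [Metric.eventually_nhds_iff] at h
    obtain ⟨δ, hδ, h5⟩ := h
    exact ⟨δ, hδ, fun q hq => h5 hq⟩
  choose δ hδ hC using hC
  obtain ⟨ρ, ⟨hρ, hρ0⟩, hρi, hρd⟩ : ∃ ρ : ℝ, (0 < ρ ∧ ρ < ρ₀) ∧ (∀ i, ρ < ρ₁ i) ∧ ∀ i, ρ < δ i := by
    have e1 : ∀ᶠ ρ in 𝓝[>] (0 : ℝ), 0 < ρ ∧ ρ < ρ₀ := Ioo_mem_nhdsGT hρ₀
    have e2 : ∀ᶠ ρ in 𝓝[>] (0 : ℝ), ∀ i, ρ < ρ₁ i := by
      rw [eventually_all]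
      intro i
      exact (show Ioo 0 (ρ₁ i) ∈ 𝓝[>] (0 : ℝ) from Ioo_mem_nhdsGT (hρ₁ i)) |>
        (fun h => mem_of_superset h fun x hx => hx.2)
    have e3 : ∀ᶠ ρ in 𝓝[>] (0 : ℝ), ∀ i, ρ < δ i := by
      rw [eventually_all]
      intro i
      exact (show Ioo 0 (δ i) ∈ 𝓝[>] (0 : ℝ) from Ioo_mem_nhdsGT (hδ i)) |>
        (fun h => mem_of_superset h fun x hx => hx.2)
    obtain ⟨ρ, h5, h6, h7⟩ := (e1.and (e2.and e3)).exists
    exact ⟨ρ, h5, h6, h7⟩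
  have hsepρ := hsep ρ hρ hρ0
  have hHs : ∀ᶠ s in 𝓝 s₀, ∀ i, (∀ z ∈ ball (p i) ρ, ∀ᶠ w in 𝓝[≠] z, A' (p i) (s, w) ≠ 0) ∧
      {z | z ∈ ball (p i) ρ ∧ A' (p i) (s, z) = 0}.Finite ∧
      ∑ᶠ z ∈ ball (p i) ρ, analyticOrderNatAt (fun w => A' (p i) (s, w)) z =
        analyticOrderNatAt (fun w => A' (p i) (s₀, w)) (p i) := by
    rw [eventually_all]
    intro i
    filter_upwards [(hH i ρ hρ (hρi i)).2] with s h5
    exact ⟨h5.2.2.1, h5.2.2.2.1, h5.2.2.2.2.1⟩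
  have hN := nice_ev hD hS hs hR p hp ρ hρ (fun i q hq => hC i q (hq.trans (hρd i)))
    (hHs.mono fun s h i => (h i).1)
  refine ⟨∑ i, analyticOrderNatAt (fun w => A' (p i) (s₀, w)) (p i), ?_, ?_⟩
  · filter_upwards [hN, hHs.filter_mono nhdsWithin_le_nhds] with s h5 h6
    exact ⟨h5.gd, h5.cnt h3 hρ hsepρ (fun i => (h6 i).2.1) _ (fun i => (h6 i).2.2)⟩
  · intro r' hr1 hr2
    have hrr : r' = r := by
      rcases lt_trichotomy r' r with h | h | h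
      · exfalso
        have h5 := (hA' 0).2.2.2.1 r' h
        have h6 := hr2 0
        obtain ⟨z, h7, h8⟩ := ((h5.filter_mono nhdsWithin_le_nhds).and h6).exists
        exact h8 h7
      · exact h
      · exfalso
        have h5 := hr1 0 r h
        have h6 := (hA' 0).2.2.2.2
        have h7 := hR.nz 0
        obtain ⟨z, ⟨h8, h9⟩, h10⟩ := (((h5.filter_mono nhdsWithin_le_nhds).and
          (h6.filter_mono nhdsWithin_le_nhds)).and h7).exists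
        exact h10 (h9 ▸ h8)
    subst hrr
    have hord : ∀ e, analyticOrderNatAt (lc A s₀ r' e) e =
        analyticOrderNatAt (fun w => A' e (s₀, w)) e := by
      intro e
      unfold analyticOrderNatAt
      rw [analyticOrderAt_congr (hA' e).2.2.2.2]
    have hfs : ∀ i, ∀ z, z ∈ ball (p i) ρ → z ∈ Z0 s₀ A' → z = p i := by
      intro i z hz hz0
      obtain ⟨j, l, hl, h5⟩ := hp z hz0
      by_contra hne
      have h6 : j ≠ i ∨ l ≠ 0 := by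
        by_contra hc
        push Not at hc
        apply hne
        rw [h5, hc.1, hc.2, add_zero]
      have h7 := hsepρ j i l hl h6
      rw [← h5, ← dist_eq_norm] at h7
      have h8 : dist z (p i) < ρ := hz
      linarith
    rw [h3 ℕ n p ρ (fun e => analyticOrderNatAt (lc A s₀ r' e) e) hρ hsepρ]
    · apply Finset.sum_congr rfl
      intro i _
      rw [finsum_mem_inter_support_eq _ (ball (p i) ρ) {p i}]
      · rw [finsum_mem_singleton]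
        exact hord (p i)
      · ext z
        simp only [mem_inter_iff, Function.mem_support, mem_singleton_iff]
        constructor
        · rintro ⟨h5, h6⟩
          refine ⟨hfs i z h5 ?_, h6⟩
          by_contra hc
          apply h6
          rw [hord z]
          exact ord_zero hc
        · rintro ⟨h5, h6⟩
          refine ⟨?_, h6⟩
          rw [h5]; exact mem_ball_self hρ
    · intro z l hl
      rw [hord (z + l), hord z]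
      obtain ⟨u, hu, hu0, h5⟩ := per0 hS hs hR z l hl
      rw [← ord_shift (fun w => A' (z + l) (s₀, w)) z l]
      exact ord_unit (hol_slice hu) hu0 (hol_slice (hR.hol z)) ((tend_slice s₀ z).eventually h5)
    · intro z hz
      have hz0 : z ∈ Z0 s₀ A' := by
        by_contra hc
        apply hz
        rw [hord z]
        exact ord_zero hc
      obtain ⟨i, l, hl, h5⟩ := hp z hz0
      refine ⟨i, -l, Lat_neg hl, ?_⟩
      rw [h5]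
      simpa using hρ
    · intro i
      apply (finite_singleton (p i)).subset
      rintro z ⟨h5, h6⟩
      rw [mem_singleton_iff]
      refine hfs i z h5 ?_
      by_contra hc
      apply h6
      rw [hord z]
      exact ord_zero hc

end Pool.Agent.Y758.MM
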