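import Pool.Agent.Y758.MM.GEO

/-! The parts of the hypersurface over polydiscs are connected. -/

set_option autoImplicit false

open Set Filter Topology Metric
open scoped Manifold ContDiff

namespace Pool.Agent.Y758.MM

open MFDaux GEOaux

namespace CNX

/-- the part of a chart over the polydisc -/
def A (ε : ℝ) : Set T := {p | p ∈ XX ∧ ‖p.2.1‖ < 2 ∧ ‖p.1‖ < ε ∧ ‖p.1 * p.2.1‖ < ε}

theorem A_conn (hC : S_CONN) {ε : ℝ} (hε : 0 < ε) : IsPreconnected (A ε) := by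
  have h1 : IsPreconnected ((ball (0 : ℂ) 1) ×ˢ
      ({k : ℂ × ℂ | k ∈ KK ∧ ‖k.1‖ < 2} ×ˢ (univ : Set ℂ))) :=
    (convex_ball (0 : ℂ) 1).isPreconnected.prod (IsPreconnected.prod hC isPreconnected_univ)
  let Φ : ℂ × (ℂ × ℂ) × ℂ → T := fun q =>
    (((ε / max 1 ‖q.2.1.1‖ : ℝ) : ℂ) * q.1, q.2.1.1, q.2.1.2, q.2.2)
  have hΦ : Continuous Φ := by
    have : Continuous fun q : ℂ × (ℂ × ℂ) × ℂ => ε / max 1 ‖q.2.1.1‖ := by
      refine continuous_const.div (by fun_prop) fun q => ?_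
      exact (lt_of_lt_of_le one_pos (le_max_left _ _)).ne'
    have h2 : Continuous fun q : ℂ × (ℂ × ℂ) × ℂ => ((ε / max 1 ‖q.2.1.1‖ : ℝ) : ℂ) :=
      Complex.continuous_ofReal.comp this
    refine Continuous.prodMk (h2.mul (by fun_prop)) (by fun_prop)
  have h2 := h1.image Φ hΦ.continuousOn
  convert h2 using 1
  ext p
  obtain ⟨x, v, t, e⟩ := p
  constructor
  · rintro ⟨hX, hv, hx, hxv⟩
    change ‖v‖ < 2 at hv
    change ‖x‖ < ε at hx
    change ‖x * v‖ < ε at hxv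
    have hm : 0 < max 1 ‖v‖ := lt_of_lt_of_le one_pos (le_max_left _ _)
    have hr : 0 < ε / max 1 ‖v‖ := div_pos hε hm
    refine ⟨(((ε / max 1 ‖v‖ : ℝ) : ℂ)⁻¹ * x, (v, t), e), ⟨?_, ⟨⟨hX, hv⟩, mem_univ _⟩⟩, ?_⟩
    · rw [mem_ball_zero_iff, norm_mul, norm_inv, Complex.norm_real, Real.norm_eq_abs,
        abs_of_pos hr, inv_mul_eq_div, div_lt_one hr, lt_div_iff₀ hm]
      rcases le_total 1 ‖v‖ with h | h
      · rw [max_eq_right h, ← norm_mul]
        exact hxv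
      · rw [max_eq_left h, mul_one]
        exact hx
    · change (((ε / max 1 ‖v‖ : ℝ) : ℂ) * (((ε / max 1 ‖v‖ : ℝ) : ℂ)⁻¹ * x), v, t, e) = _
      rw [mul_inv_cancel_left₀]
      exact_mod_cast hr.ne'
  · rintro ⟨⟨y, ⟨v', t'⟩, e'⟩, ⟨hy, ⟨hk, hk2⟩, -⟩, h⟩
    change (((ε / max 1 ‖v'‖ : ℝ) : ℂ) * y, v', t', e') = (x, v, t, e) at h
    simp only [Prod.mk.injEq] at h
    obtain ⟨rfl, rfl, rfl, rfl⟩ := h
    change ‖v'‖ < 2 at hk2
    rw [mem_ball_zero_iff] at hy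
    have hm : 0 < max 1 ‖v'‖ := lt_of_lt_of_le one_pos (le_max_left _ _)
    have hr : 0 < ε / max 1 ‖v'‖ := div_pos hε hm
    have h3 : ‖((ε / max 1 ‖v'‖ : ℝ) : ℂ) * y‖ < ε / max 1 ‖v'‖ := by
      rw [norm_mul, Complex.norm_real, Real.norm_eq_abs, abs_of_pos hr]
      exact mul_lt_of_lt_one_right hr hy
    refine ⟨hk, hk2, ?_, ?_⟩
    · refine h3.trans_le ?_
      exact div_le_self hε.le (le_max_left _ _)
    · change ‖((ε / max 1 ‖v'‖ : ℝ) : ℂ) * y * v'‖ < ε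
      rw [norm_mul]
      rcases eq_or_ne v' 0 with h0 | h0
      · rw [h0, norm_zero, mul_zero]
        exact hε
      · have hv0 : 0 < ‖v'‖ := norm_pos_iff.2 h0
        calc _ < ε / max 1 ‖v'‖ * ‖v'‖ := mul_lt_mul_of_pos_right h3 hv0
          _ ≤ ε / max 1 ‖v'‖ * max 1 ‖v'‖ := mul_le_mul_of_nonneg_left (le_max_right _ _) hr.le
          _ = ε := div_mul_cancel₀ _ hm.ne'

theorem sqrt2 : ∃ t : ℂ, t ^ 2 = 2 := by
  refine ⟨((Real.sqrt 2 : ℝ) : ℂ), ?_⟩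
  rw [← Complex.ofReal_pow, Real.sq_sqrt (by norm_num)]
  norm_num

section

variable {M : Type} [TopologicalSpace M] [ChartedSpace T M] {π : Bool → T → M}

theorem connected (hC : S_CONN) (hM : Model M π) {g : M → ℂ × ℂ} (hg : IsG π g) {ε : ℝ}
    (hε : 0 < ε) : IsConnected (XS π ∩ g ⁻¹' ball (0 : ℂ × ℂ) ε) := by
  have hπc : ∀ c, Continuous (π c) := fun c => (hM.holo c).continuous
  have hgb : ∀ c p, g (π c p) ∈ ball (0 : ℂ × ℂ) ε ↔ ‖p.1‖ < ε ∧ ‖p.1 * p.2.1‖ < ε := by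
    intro c p
    rw [mem_ball_zero_iff]
    cases c
    · rw [hg.f, Prod.norm_mk, max_lt_iff]
    · rw [hg.t, Prod.norm_mk, max_lt_iff, and_comm]
  have hsub : ∀ c, π c '' A ε ⊆ XS π ∩ g ⁻¹' ball (0 : ℂ × ℂ) ε := by
    rintro c _ ⟨p, hp, rfl⟩
    exact ⟨(mem_XS hM c p).2 hp.1, (hgb c p).2 hp.2.2⟩
  have heq : XS π ∩ g ⁻¹' ball (0 : ℂ × ℂ) ε = π false '' A ε ∪ π true '' A ε := by
    apply Subset.antisymm
    · rintro m ⟨hm, hmU⟩
      have hex : ∃ c, ∃ q ∈ A ε, π c q = m := by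
        obtain ⟨c, p, rfl⟩ := hM.surj m
        have hpX := (mem_XS hM c p).1 hm
        by_cases h1 : ‖p.2.1‖ < 2
        · exact ⟨c, p, ⟨hpX, h1, (hgb c p).1 hmU⟩, rfl⟩
        · have h0 : p.2.1 ≠ 0 := by
            intro h
            rw [h, norm_zero] at h1
            exact h1 two_pos
          have h2 : π c p = π (!c) (tw c p) :=
            (hM.diff c _ _).2 ⟨h0, 0, lat0, (sh_zero _).symm⟩
          refine ⟨!c, tw c p, ⟨xx_tw hpX h0, ?_, (hgb (!c) (tw c p)).1 ?_⟩, h2.symm⟩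
          · rw [tw_v, norm_inv]
            have : (2 : ℝ) ≤ ‖p.2.1‖ := le_of_not_gt h1
            rw [inv_lt_comm₀ (by linarith) two_pos]
            linarith
          · rw [← h2]
            exact hmU
      obtain ⟨c, q, hq, hqm⟩ := hex
      cases c
      · exact Or.inl ⟨q, hq, hqm⟩
      · exact Or.inr ⟨q, hq, hqm⟩
    · exact union_subset (hsub false) (hsub true)
  obtain ⟨t, ht⟩ := sqrt2
  have hA : ((0, 1, t, 0) : T) ∈ A ε := by
    refine ⟨?_, ?_, ?_, ?_⟩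
    · change t ^ 2 = 1 + 1 ^ 6
      rw [ht]
      norm_num
    · simp
    · simpa using hε
    · simpa using hε
  have hpt : π false ((0, 1, t, 0) : T) = π true ((0, 1, t, 0) : T) := by
    refine (hM.diff false _ _).2 ⟨one_ne_zero, 0, lat0, ?_⟩
    simp [sh, tw]
  rw [heq]
  refine ⟨⟨π false (0, 1, t, 0), Or.inl ⟨_, hA, rfl⟩⟩, ?_⟩
  refine IsPreconnected.union (π false (0, 1, t, 0)) ⟨_, hA, rfl⟩ (by rw [hpt]; exact ⟨_, hA, rfl⟩)
    ((A_conn hC hε).image _ (hπc false).continuousOn)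
    ((A_conn hC hε).image _ (hπc true).continuousOn)

end

end CNX

end Pool.Agent.Y758.MM
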