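import Pool.Agent.Y758.MM.Stm

/-!
# The part `|v| < 2` of the curve `t² = 1 + v⁶` is connected
-/

set_option autoImplicit false

open Set Filter Topology Metric

namespace Pool.Agent.Y758.MM

/-- a square root, continuous on a closed half plane -/
private noncomputable def hr (σ : ℝ) (w : ℂ) : ℂ :=
  ⟨Real.sqrt ((‖w‖ + w.re) / 2), σ * Real.sqrt ((‖w‖ - w.re) / 2)⟩

private theorem hr_sq (σ : ℝ) (hσ : σ ^ 2 = 1) (w : ℂ) (h : σ * |w.im| = w.im) :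
    hr σ w ^ 2 = w := by
  have ha : 0 ≤ (‖w‖ + w.re) / 2 := by
    have := Complex.abs_re_le_norm w
    have := neg_abs_le w.re
    linarith
  have hb : 0 ≤ (‖w‖ - w.re) / 2 := by
    have := Complex.abs_re_le_norm w
    have := le_abs_self w.re
    linarith
  have hab : Real.sqrt ((‖w‖ + w.re) / 2) * Real.sqrt ((‖w‖ - w.re) / 2) = |w.im| / 2 := by
    rw [← Real.sqrt_mul ha]
    have : (‖w‖ + w.re) / 2 * ((‖w‖ - w.re) / 2) = (|w.im| / 2) ^ 2 := by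
      have h1 : ‖w‖ ^ 2 = w.re ^ 2 + w.im ^ 2 := by
        rw [Complex.sq_norm, Complex.normSq_apply]; ring
      have h2 : |w.im| ^ 2 = w.im ^ 2 := sq_abs _
      linear_combination (1/4) * h1 - (1/4) * h2
    rw [this, Real.sqrt_sq (by positivity)]
  have h1 := Real.mul_self_sqrt ha
  have h2 := Real.mul_self_sqrt hb
  apply Complex.ext
  · simp only [hr, sq, Complex.mul_re]
    linear_combination h1 - h2 * σ ^ 2 - (‖w‖ - w.re) / 2 * hσ
  · simp only [hr, sq, Complex.mul_im]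
    linear_combination 2 * σ * hab + h

private theorem hr_cont (σ : ℝ) : Continuous (hr σ) := by
  have : hr σ = fun w : ℂ => ((Real.sqrt ((‖w‖ + w.re) / 2) : ℝ) : ℂ) +
      ((σ * Real.sqrt ((‖w‖ - w.re) / 2) : ℝ) : ℂ) * Complex.I := by
    funext w
    apply Complex.ext <;> simp [hr]
  rw [this]
  fun_prop

private theorem hr_one (σ : ℝ) : hr σ 1 = 1 := by
  apply Complex.ext <;> simp [hr]

private theorem hr_zero (σ : ℝ) : hr σ 0 = 0 := by
  apply Complex.ext <;> simp [hr]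

/-- the radial path -/
private noncomputable def pth (v : ℂ) (σ : ℝ) (ε : ℂ) (l : ℝ) : ℂ × ℂ :=
  ((l : ℂ) * v, ε * hr σ (1 + (l : ℂ) ^ 6 * v ^ 6))

private theorem pth_cont (v : ℂ) (σ : ℝ) (ε : ℂ) : Continuous (pth v σ ε) := by
  unfold pth
  have h := hr_cont σ
  fun_prop

private theorem pth_mem (v : ℂ) (hv : ‖v‖ < 2) (σ : ℝ) (hσ : σ ^ 2 = 1)
    (h : σ * |(v ^ 6).im| = (v ^ 6).im) (ε : ℂ) (hε : ε ^ 2 = 1) (l : ℝ) (hl : l ∈ Icc (0 : ℝ) 1) :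
    pth v σ ε l ∈ {k : ℂ × ℂ | k ∈ KK ∧ ‖k.1‖ < 2} := by
  constructor
  · show (ε * hr σ (1 + (l : ℂ) ^ 6 * v ^ 6)) ^ 2 = 1 + ((l : ℂ) * v) ^ 6
    rw [mul_pow, hε, hr_sq σ hσ]
    · ring
    · have h1 : (1 + (l : ℂ) ^ 6 * v ^ 6).im = l ^ 6 * (v ^ 6).im := by
        have : (l : ℂ) ^ 6 = ((l ^ 6 : ℝ) : ℂ) := by push_cast; ring
        rw [this, Complex.add_im, Complex.one_im, zero_add, Complex.im_ofReal_mul]
      rw [h1, abs_mul, abs_of_nonneg (by positivity : (0 : ℝ) ≤ l ^ 6)]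
      linear_combination l ^ 6 * h
  · show ‖(l : ℂ) * v‖ < 2
    rw [norm_mul, Complex.norm_real, Real.norm_of_nonneg hl.1]
    have := norm_nonneg v
    nlinarith [hl.2]

/-- **MM-CONN** -/
theorem MM_CONN : S_CONN := by
  unfold S_CONN
  set S : Set (ℂ × ℂ) := {k : ℂ × ℂ | k ∈ KK ∧ ‖k.1‖ < 2} with hS
  have hI6 : (Complex.I : ℂ) ^ 6 = -1 := by
    have : (Complex.I : ℂ) ^ 6 = (Complex.I ^ 2) ^ 3 := by ring
    rw [this, Complex.I_sq]; norm_num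
  apply isPreconnected_of_forall (Complex.I, (0 : ℂ))
  rintro ⟨v, t⟩ ⟨hk, hv⟩
  have hk' : t ^ 2 = 1 + v ^ 6 := hk
  obtain ⟨σ, hσ, hσv⟩ : ∃ σ : ℝ, σ ^ 2 = 1 ∧ σ * |(v ^ 6).im| = (v ^ 6).im := by
    rcases le_total 0 (v ^ 6).im with h | h
    · exact ⟨1, by norm_num, by rw [abs_of_nonneg h, one_mul]⟩
    · exact ⟨-1, by norm_num, by rw [abs_of_nonpos h]; ring⟩
  have hg : hr σ (1 + v ^ 6) ^ 2 = 1 + v ^ 6 := by
    apply hr_sq σ hσ
    simpa using hσv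
  obtain ⟨ε, hε, hεt⟩ : ∃ ε : ℂ, ε ^ 2 = 1 ∧ t = ε * hr σ (1 + v ^ 6) := by
    have h1 : t ^ 2 = hr σ (1 + v ^ 6) ^ 2 := by rw [hg, hk']
    rcases sq_eq_sq_iff_eq_or_eq_neg.mp h1 with h | h
    · exact ⟨1, by norm_num, by rw [h, one_mul]⟩
    · exact ⟨-1, by norm_num, by rw [h]; ring⟩
  refine ⟨(pth v σ ε '' Icc (0 : ℝ) 1) ∪ (pth Complex.I 1 ε '' Icc (0 : ℝ) 1), ?_, ?_, ?_, ?_⟩
  · rintro k (⟨l, hl, rfl⟩ | ⟨l, hl, rfl⟩)
    · exact pth_mem v hv σ hσ hσv ε hε l hl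
    · refine pth_mem Complex.I (by simp) 1 (by norm_num) ?_ ε hε l hl
      rw [hI6]; simp
  · right
    refine ⟨1, by simp, ?_⟩
    unfold pth
    rw [hI6]
    simp [hr_zero]
  · left
    refine ⟨1, by simp, ?_⟩
    unfold pth
    simp [← hεt]
  · apply IsPreconnected.union (0, ε)
    · refine ⟨0, by simp, ?_⟩
      unfold pth
      simp [hr_one]
    · refine ⟨0, by simp, ?_⟩
      unfold pth
      simp [hr_one]
    · exact isPreconnected_Icc.image _ (pth_cont v σ ε).continuousOn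
    · exact isPreconnected_Icc.image _ (pth_cont Complex.I 1 ε).continuousOn

end Pool.Agent.Y758.MM
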