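import Pool.Agent.Y758.MM.LOC

/-!
# CONST: the number of zeros does not depend on the point of the curve (helper344)
-/

set_option autoImplicit false

open Set Filter Topology Metric

namespace Pool.Agent.Y758.MM.LOC

theorem ne_bot (h : S_PARAM) {k₀ : ℂ × ℂ} (hk : k₀ ∈ KK) (hk2 : ‖k₀.1‖ < 2) :
    (𝓝[KK \ {k₀}] k₀).NeBot := by
  obtain ⟨ψ, D, P⟩ := exists_par h hk hk2
  have hkc0 : kc k₀ k₀ = 0 := by
    have := P.inv 0 P.zero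
    rwa [P.at0] at this
  have hc : Tendsto ψ (𝓝 0) (𝓝 k₀) := by
    have h1 := (P.diff.differentiableAt (P.isOpen.mem_nhds P.zero)).continuousAt.tendsto
    rwa [P.at0] at h1
  have ht : Tendsto ψ (𝓝[≠] 0) (𝓝[KK \ {k₀}] k₀) := by
    rw [tendsto_nhdsWithin_iff]
    refine ⟨hc.mono_left nhdsWithin_le_nhds, ?_⟩
    filter_upwards [self_mem_nhdsWithin, mem_nhdsWithin_of_mem_nhds (P.isOpen.mem_nhds P.zero)]
      with s hs1 hs2
    refine ⟨P.mem s hs2, fun h3 => hs1 ?_⟩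
    have h4 : ψ s = k₀ := h3
    have h5 := P.inv s hs2
    rw [h4, hkc0] at h5
    exact h5.symm
  exact ht.neBot

end Pool.Agent.Y758.MM.LOC

namespace Pool.Agent.Y758.MM

open LOC

theorem MM_CONST (h1 : S_PARAM) (h2 : S_LOC) (h3 : S_CONN) : S_CONST := by
  intro A B hPD
  have hex : ∀ k : ℂ × ℂ, ∃ d : ℕ, k ∈ KK → ‖k.1‖ < 2 →
      (∀ᶠ k' in 𝓝[KK \ {k}] k, Cn A false k' = d) ∧ (Gd A false k → Cn A false k = d) := by
    intro k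
    by_cases hk : k ∈ KK ∧ ‖k.1‖ < 2
    · obtain ⟨d, R, -, hd, hd0⟩ := h2 A B hPD false k hk.1 hk.2
      exact ⟨d, fun _ _ => ⟨hd.mono fun k' hk' => hk'.2.1, hd0⟩⟩
    · exact ⟨0, fun h4 h5 => absurd ⟨h4, h5⟩ hk⟩
  choose d hd using hex
  have hloc : ∀ k₀ ∈ KK, ‖k₀.1‖ < 2 →
      ∀ᶠ k₁ in 𝓝[{k : ℂ × ℂ | k ∈ KK ∧ ‖k.1‖ < 2}] k₀, d k₁ = d k₀ := by
    intro k₀ hk hk2
    have h4 := (hd k₀ hk hk2).1
    rw [eventually_nhdsWithin_iff] at h4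
    rw [eventually_nhdsWithin_iff]
    filter_upwards [h4.eventually_nhds] with k₁ h5 h6
    by_cases he : k₁ = k₀
    · rw [he]
    · have h7 := (hd k₁ h6.1 h6.2).1
      have h8 : ∀ᶠ k in 𝓝[KK \ {k₁}] k₁, k ≠ k₀ :=
        (isOpen_ne.eventually_mem he).filter_mono nhdsWithin_le_nhds
      haveI := ne_bot h1 h6.1 h6.2
      obtain ⟨k, h9, h10, h11, h12⟩ := (h7.and ((h5.filter_mono nhdsWithin_le_nhds).and
        (h8.and self_mem_nhdsWithin))).exists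
      rw [← h9, h10 ⟨h12.1, h11⟩]
  have hcont : ContinuousOn d {k : ℂ × ℂ | k ∈ KK ∧ ‖k.1‖ < 2} := by
    intro k₀ hk
    have h4 : Tendsto d (𝓝[{k : ℂ × ℂ | k ∈ KK ∧ ‖k.1‖ < 2}] k₀) (𝓝 (d k₀)) := by
      refine Tendsto.congr' ?_ tendsto_const_nhds
      filter_upwards [hloc k₀ hk.1 hk.2] with k hk' using hk'.symm
    exact h4
  have hb : ((0 : ℂ), (1 : ℂ)) ∈ {k : ℂ × ℂ | k ∈ KK ∧ ‖k.1‖ < 2} := by
    refine ⟨?_, ?_⟩
    · show (1 : ℂ) ^ 2 = 1 + 0 ^ 6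
      norm_num
    · simp
  refine ⟨d (0, 1), fun k₀ hk hk2 => ?_⟩
  have h5 : d k₀ = d (0, 1) := IsPreconnected.constant h3 hcont ⟨hk, hk2⟩ hb
  rw [← h5]
  exact hd k₀ hk hk2

end Pool.Agent.Y758.MM
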