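import Pool.Agent.Y758.MM.Stm2

/-!
# Project MM: the argument principle and the residue theorem on a disc (helper348)
-/

set_option autoImplicit false

open Set Filter Topology Metric
open scoped Manifold ContDiff

namespace Pool.Agent.Y758.MM

namespace Disc

theorem ne_of_sphere {p a : ℂ} {ρ : ℝ} (ha : a ∈ ball p ρ) : ∀ z ∈ sphere p ρ, z ≠ a := by
  intro z hz e
  rw [e] at hz
  exact absurd (mem_sphere.1 hz) (mem_ball.1 ha).ne

/-- The principal part. -/
theorem principal (a : ℂ) (n : ℕ) : ∀ k : ℂ → ℂ, AnalyticAt ℂ k a →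
    ∃ (P k₂ : ℂ → ℂ) (c : ℂ), (∀ z, z ≠ a → DifferentiableAt ℂ P z) ∧ AnalyticAt ℂ k₂ a ∧
      (∀ᶠ z in 𝓝[≠] a, (z - a) ^ (-(n : ℤ)) * k z = P z + k₂ z) ∧
      ∀ (p : ℂ) (ρ : ℝ), a ∈ ball p ρ →
        (∮ z in C(p, ρ), P z) = 2 * Real.pi * Complex.I * c := by
  induction n with
  | zero =>
    intro k hk
    refine ⟨fun _ => 0, k, 0, fun z _ => differentiableAt_const 0, hk, ?_, ?_⟩
    · filter_upwards with z
      simp
    · intro p ρ _
      simp [circleIntegral]
  | succ n ih =>
    intro k hk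
    have hk' : AnalyticAt ℂ (dslope k a) a := by
      obtain ⟨q, hq⟩ := hk
      exact ⟨_, hq.has_fpower_series_dslope_fslope⟩
    obtain ⟨P, k₂, c, h1, h2, h3, h4⟩ := ih _ hk'
    have hd : ∀ z, z ≠ a → DifferentiableAt ℂ (fun z => k a * (z - a) ^ (-((n + 1 : ℕ) : ℤ))) z := by
      intro z hz
      exact (differentiableAt_const _).mul
        ((differentiableAt_id.sub_const a).zpow (Or.inl (sub_ne_zero.mpr hz)))
    refine ⟨fun z => P z + k a * (z - a) ^ (-((n + 1 : ℕ) : ℤ)), k₂,
      c + (if n = 0 then k a else 0), ?_, h2, ?_, ?_⟩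
    · intro z hz
      exact (h1 z hz).add (hd z hz)
    · filter_upwards [h3, self_mem_nhdsWithin] with z hz hza
      have e1 : (z - a) * dslope k a z = k z - k a := sub_smul_dslope k a z
      have e3 : (z - a) ^ (-(n : ℤ)) = (z - a) ^ (-((n + 1 : ℕ) : ℤ)) * (z - a) := by
        rw [← zpow_add_one₀ (sub_ne_zero.mpr hza)]
        congr 1
        push_cast
        ring
      have e4 : (z - a) ^ (-((n + 1 : ℕ) : ℤ)) * (k z - k a) = P z + k₂ z := by
        rw [← e1, ← mul_assoc, ← e3, hz]
      linear_combination e4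
    · intro p ρ ha
      have hρ : 0 ≤ ρ := (dist_nonneg.trans_lt (mem_ball.1 ha)).le
      have hne := ne_of_sphere ha
      rw [circleIntegral.integral_add, h4 p ρ ha, circleIntegral.integral_const_mul]
      · split_ifs with hn
        · subst hn
          have e5 : (fun z : ℂ => (z - a) ^ (-((0 + 1 : ℕ) : ℤ))) = fun z => (z - a)⁻¹ := by
            funext z
            simp
          rw [e5, circleIntegral.integral_sub_inv_of_mem_ball ha]
          ring
        · rw [circleIntegral.integral_sub_zpow_of_ne (by omega)]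
          ring
      · exact ContinuousOn.circleIntegrable hρ
          fun z hz => (h1 z (hne z hz)).continuousAt.continuousWithinAt
      · exact ContinuousOn.circleIntegrable hρ
          fun z hz => (hd z (hne z hz)).continuousAt.continuousWithinAt

theorem principal_mero {h : ℂ → ℂ} {a : ℂ} (hm : MeromorphicAt h a) :
    ∃ (P k₂ : ℂ → ℂ) (c : ℂ), (∀ z, z ≠ a → DifferentiableAt ℂ P z) ∧ AnalyticAt ℂ k₂ a ∧
      (∀ᶠ z in 𝓝[≠] a, h z = P z + k₂ z) ∧
      ∀ (p : ℂ) (ρ : ℝ), a ∈ ball p ρ →
        (∮ z in C(p, ρ), P z) = 2 * Real.pi * Complex.I * c := by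
  obtain ⟨n, hn⟩ := hm
  obtain ⟨P, k₂, c, h1, h2, h3, h4⟩ := principal a n _ hn
  refine ⟨P, k₂, c, h1, h2, ?_, h4⟩
  filter_upwards [h3, self_mem_nhdsWithin] with z hz hza
  rw [← hz, smul_eq_mul, ← mul_assoc, ← zpow_natCast, ← zpow_add₀ (sub_ne_zero.mpr hza)]
  simp

theorem mero_diff {h : ℂ → ℂ} {a : ℂ} (hm : MeromorphicAt h a) :
    ∀ᶠ w in 𝓝[≠] a, DifferentiableAt ℂ h w := by
  filter_upwards [hm.eventually_analyticAt] with w hw using hw.differentiableAt

theorem residue_thm (hR : S_RESL) (p : ℂ) (ρ : ℝ) (hρ : 0 < ρ) (S : Finset ℂ) :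
    ∀ h : ℂ → ℂ, (∀ s ∈ S, s ∈ ball p ρ) →
      (∀ z ∈ closedBall p ρ, z ∉ S → ∀ᶠ w in 𝓝 z, DifferentiableAt ℂ h w) →
      (∀ s ∈ S, MeromorphicAt h s) →
      (2 * Real.pi * Complex.I)⁻¹ * (∮ z in C(p, ρ), h z) = ∑ s ∈ S, res h s := by
  classical
  obtain ⟨r1, r2, r3, r4, r5, r6, r7⟩ := hR
  induction S using Finset.induction_on with
  | empty =>
    intro h _ hd _
    have e : (∮ z in C(p, ρ), h z) = 0 := by
      refine Complex.circleIntegral_eq_zero_of_differentiable_on_off_countable hρ.le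
        countable_empty ?_ ?_
      · intro z hz
        exact (hd z hz (by simp)).self_of_nhds.continuousAt.continuousWithinAt
      · intro z hz
        exact (hd z (ball_subset_closedBall hz.1) (by simp)).self_of_nhds
    rw [e, mul_zero, Finset.sum_empty]
  | insert a S ha ih =>
    intro h hS hd hm
    obtain ⟨P, k₂, c, h1, h2, h3, h4⟩ := principal_mero (hm a (Finset.mem_insert_self a S))
    have hab := hS a (Finset.mem_insert_self a S)
    have hPd : ∀ z, z ≠ a → ∀ᶠ w in 𝓝 z, DifferentiableAt ℂ P w := by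
      intro z hz
      filter_upwards [isOpen_ne.mem_nhds hz] with w hw using h1 w hw
    have hPd' : ∀ z, ∀ᶠ w in 𝓝[≠] z, DifferentiableAt ℂ P w := by
      intro z
      by_cases hz : z = a
      · rw [hz]
        filter_upwards [self_mem_nhdsWithin] with w hw using h1 w hw
      · exact (hPd z hz).filter_mono nhdsWithin_le_nhds
    set h' : ℂ → ℂ := fun z => if z = a then k₂ a else h z - P z with hh'
    have e1 : h' =ᶠ[𝓝 a] k₂ := by
      have h3' := eventually_nhdsWithin_iff.1 h3
      filter_upwards [h3'] with z hz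
      by_cases hza : z = a
      · rw [hh', hza]; simp
      · rw [hh']
        simp only [hza, if_false]
        rw [hz hza]
        ring
    have e2 : ∀ z, z ≠ a → h' =ᶠ[𝓝 z] fun w => h w - P w := by
      intro z hz
      filter_upwards [isOpen_ne.mem_nhds hz] with w hw
      rw [hh']
      simp only [show w ≠ a from hw, if_false]
    have hk₂d : ∀ᶠ w in 𝓝 a, DifferentiableAt ℂ k₂ w := by
      filter_upwards [h2.eventually_analyticAt] with w hw using hw.differentiableAt
    have hd' : ∀ z ∈ closedBall p ρ, z ∉ S → ∀ᶠ w in 𝓝 z, DifferentiableAt ℂ h' w := by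
      intro z hz hzS
      by_cases hza : z = a
      · rw [hza]
        filter_upwards [hk₂d, e1.eventually_nhds] with w hw hw'
        exact hw.congr_of_eventuallyEq hw'
      · filter_upwards [hd z hz (by simp [hza, hzS]), hPd z hza, (e2 z hza).eventually_nhds]
          with w hw1 hw2 hw3
        exact (hw1.sub hw2).congr_of_eventuallyEq hw3
    have hPm : ∀ z, z ≠ a → MeromorphicAt P z := by
      intro z hz
      have : AnalyticAt ℂ P z := by
        rw [Complex.analyticAt_iff_eventually_differentiableAt]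
        exact hPd z hz
      exact this.meromorphicAt
    have hm' : ∀ s ∈ S, MeromorphicAt h' s := by
      intro s hs
      have hsa : s ≠ a := fun e => ha (e ▸ hs)
      exact ((hm s (Finset.mem_insert_of_mem hs)).sub (hPm s hsa)).congr
        ((e2 s hsa).symm.filter_mono nhdsWithin_le_nhds)
    have h5 := ih h' (fun s hs => hS s (Finset.mem_insert_of_mem hs)) hd' hm'
    have hne := ne_of_sphere hab
    have hnS : ∀ z ∈ sphere p ρ, z ∉ insert a S := fun z hz hzS =>
      absurd (mem_sphere.1 hz) (mem_ball.1 (hS z hzS)).ne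
    have h6 : (∮ z in C(p, ρ), h z) = (∮ z in C(p, ρ), h' z) + ∮ z in C(p, ρ), P z := by
      rw [← circleIntegral.integral_add]
      · refine circleIntegral.integral_congr hρ.le fun z hz => ?_
        have := (e2 z (hne z hz)).self_of_nhds
        simp only [this]
        ring
      · refine ContinuousOn.circleIntegrable hρ.le fun z hz => ?_
        exact (hd' z (sphere_subset_closedBall hz)
          (fun hzS => hnS z hz (Finset.mem_insert_of_mem hzS))).self_of_nhds.continuousAt.continuousWithinAt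
      · refine ContinuousOn.circleIntegrable hρ.le fun z hz => ?_
        exact (h1 z (hne z hz)).continuousAt.continuousWithinAt
    have hpi : (2 * Real.pi * Complex.I : ℂ) ≠ 0 := Complex.two_pi_I_ne_zero
    have hPa : res P a = c := by
      have h7 := r1 P a (hPd' a)
      obtain ⟨r, hr1, hr2⟩ := (h7.and self_mem_nhdsWithin).exists
      rw [← hr1, h4 a r (mem_ball_self hr2), ← mul_assoc, inv_mul_cancel₀ hpi, one_mul]
    have hra : res h a = c := by
      have h8 : res h a = res (fun w => P w + k₂ w) a := r2 _ _ _ h3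
      rw [h8, r4 _ _ _ (hPd' a) (hk₂d.filter_mono nhdsWithin_le_nhds), hPa, r3 k₂ a hk₂d,
        add_zero]
    have hrs : ∀ s ∈ S, res h s = res h' s := by
      intro s hs
      have hsa : s ≠ a := fun e => ha (e ▸ hs)
      have h9 : res h s = res (fun w => h' w + P w) s := by
        refine r2 _ _ _ ?_
        refine Filter.Eventually.filter_mono nhdsWithin_le_nhds ?_
        filter_upwards [e2 s hsa] with w hw
        rw [hw]
        ring
      rw [h9, r4 _ _ _ (mero_diff (hm' s hs)) (hPd' s), r3 P s (hPd s hsa), add_zero]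
    rw [Finset.sum_insert ha, h6, mul_add, h5, h4 p ρ hab, ← mul_assoc, inv_mul_cancel₀ hpi,
      one_mul, hra, Finset.sum_congr rfl hrs, add_comm]

end Disc

open Disc in
theorem MM_DISC (hR : S_RESL) : S_DISC := by
  classical
  intro f g p ρ hρ hfg hf0
  have hfa : ∀ z ∈ closedBall p ρ, AnalyticAt ℂ f z := fun z hz => by
    rw [Complex.analyticAt_iff_eventually_differentiableAt]
    exact (hfg z hz).1
  have hga : ∀ z ∈ closedBall p ρ, AnalyticAt ℂ g z := fun z hz => by
    rw [Complex.analyticAt_iff_eventually_differentiableAt]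
    exact (hfg z hz).2
  have hpre : IsPreconnected (closedBall p ρ) := (convex_closedBall p ρ).isPreconnected
  obtain ⟨z₁, hz₁⟩ : (sphere p ρ).Nonempty := NormedSpace.sphere_nonempty.2 hρ.le
  have hiso : ∀ z ∈ closedBall p ρ, ∀ᶠ w in 𝓝[≠] z, f w ≠ 0 := by
    intro z hz
    by_contra hc
    have hfr : ∃ᶠ w in 𝓝[≠] z, f w = 0 := by
      rw [Filter.not_eventually] at hc
      exact hc.mono fun w hw => not_not.1 hw
    have := AnalyticOnNhd.eqOn_zero_of_preconnected_of_frequently_eq_zero hfa hpre hz hfr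
    exact hf0 z₁ hz₁ (this (sphere_subset_closedBall hz₁))
  have hfinc : {z | z ∈ closedBall p ρ ∧ f z = 0}.Finite := by
    have hU : ∀ z ∈ closedBall p ρ, {w | w ≠ z → f w ≠ 0} ∈ 𝓝 z := fun z hz =>
      eventually_nhdsWithin_iff.1 (hiso z hz)
    obtain ⟨t, ht, htc⟩ := (isCompact_closedBall p ρ).elim_nhds_subcover _ hU
    refine t.finite_toSet.subset ?_
    rintro z ⟨hz, hz0⟩
    obtain ⟨x, hx⟩ := mem_iUnion.1 (htc hz)
    obtain ⟨hxt, hx'⟩ := mem_iUnion.1 hx
    by_contra hne
    have : z ≠ x := fun e => hne (e ▸ hxt)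
    exact hx' this hz0
  have hfin : {z | z ∈ ball p ρ ∧ f z = 0}.Finite :=
    hfinc.subset fun z hz => ⟨ball_subset_closedBall hz.1, hz.2⟩
  have hmem : ∀ z, z ∈ hfin.toFinset ↔ z ∈ ball p ρ ∧ f z = 0 := fun z => by simp
  have hnz : ∀ z ∈ closedBall p ρ, z ∉ hfin.toFinset → f z ≠ 0 := by
    intro z hz hzS h0
    rcases (mem_closedBall.1 hz).lt_or_eq with h | h
    · exact hzS ((hmem z).2 ⟨mem_ball.2 h, h0⟩)
    · exact hf0 z (mem_sphere.2 h) h0
  have hne_ev : ∀ z ∈ closedBall p ρ, f z ≠ 0 → ∀ᶠ w in 𝓝 z, f w ≠ 0 := fun z hz h0 =>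
    (hfa z hz).continuousAt.eventually_ne h0
  have hdf : ∀ z ∈ closedBall p ρ, ∀ᶠ w in 𝓝 z, DifferentiableAt ℂ f w := fun z hz => (hfg z hz).1
  have hdg : ∀ z ∈ closedBall p ρ, ∀ᶠ w in 𝓝 z, DifferentiableAt ℂ g w := fun z hz => (hfg z hz).2
  have hdf' : ∀ z ∈ closedBall p ρ, ∀ᶠ w in 𝓝 z, DifferentiableAt ℂ (deriv f) w := by
    intro z hz
    filter_upwards [(hfa z hz).deriv.eventually_analyticAt] with w hw using hw.differentiableAt
  have t1 := residue_thm hR p ρ hρ hfin.toFinset (fun w => deriv f w / f w)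
    (fun s hs => ((hmem s).1 hs).1) (by
      intro z hz hzS
      filter_upwards [hdf' z hz, hdf z hz, hne_ev z hz (hnz z hz hzS)] with w h1 h2 h3
      exact h1.div h2 h3) (by
      intro s hs
      have hs' := ball_subset_closedBall ((hmem s).1 hs).1
      exact (hfa s hs').deriv.meromorphicAt.div (hfa s hs').meromorphicAt)
  have t2 := residue_thm hR p ρ hρ hfin.toFinset (fun w => g w / f w)
    (fun s hs => ((hmem s).1 hs).1) (by
      intro z hz hzS
      filter_upwards [hdg z hz, hdf z hz, hne_ev z hz (hnz z hz hzS)] with w h1 h2 h3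
      exact h1.div h2 h3) (by
      intro s hs
      have hs' := ball_subset_closedBall ((hmem s).1 hs).1
      exact (hga s hs').meromorphicAt.div (hfa s hs').meromorphicAt)
  obtain ⟨r1, r2, r3, r4, r5, r6, r7⟩ := hR
  refine ⟨fun z hz => hiso z (ball_subset_closedBall hz), hfin, ?_, ?_⟩
  · rw [t1, finsum_mem_eq_sum_of_inter_support_eq (t := hfin.toFinset)]
    · push_cast
      refine Finset.sum_congr rfl fun s hs => ?_
      have hs' := ball_subset_closedBall ((hmem s).1 hs).1
      exact (r6 f s (hfa s hs') (hiso s hs')).symm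
    · ext z
      simp only [mem_inter_iff, Function.mem_support, Finset.mem_coe, hmem]
      constructor
      · rintro ⟨h1, h2⟩
        refine ⟨⟨h1, ?_⟩, h2⟩
        by_contra h0
        apply h2
        unfold analyticOrderNatAt
        rw [(hfa z (ball_subset_closedBall h1)).analyticOrderAt_eq_zero.2 h0]
        rfl
      · rintro ⟨h1, h2⟩
        exact ⟨h1.1, h2⟩
  · rw [t2, finsum_mem_eq_sum_of_inter_support_eq (t := hfin.toFinset)]
    ext z
    simp only [mem_inter_iff, Function.mem_support, Finset.mem_coe, hmem]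
    constructor
    · rintro ⟨h1, h2⟩
      refine ⟨⟨h1, ?_⟩, h2⟩
      by_contra h0
      apply h2
      have hz := ball_subset_closedBall h1
      refine r3 _ _ ?_
      filter_upwards [hdg z hz, hdf z hz, hne_ev z hz h0] with w h1 h2 h3
      exact h1.div h2 h3
    · rintro ⟨h1, h2⟩
      exact ⟨h1.1, h2⟩

end Pool.Agent.Y758.MM
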