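import Pool.Agent.Y758.MM.MFD
import Pool.Agent.Helper620.Wg.KI

/-! ELL: the elliptic curve in the plane. -/

set_option autoImplicit false

open Set Filter Topology Metric

namespace Pool.Agent.Y758.MM

open MFDaux

namespace ELLaux

/-- the period pair `(1, i)` -/
noncomputable def L : PeriodPair where
  ω₁ := 1
  ω₂ := Complex.I
  indep := by
    rw [LinearIndependent.pair_iff]
    intro s t h
    have h1 := congrArg Complex.re h
    have h2 := congrArg Complex.im h
    simp at h1 h2
    exact ⟨h1, h2⟩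

theorem mem_L (z : ℂ) : z ∈ L.lattice ↔ z ∈ Lat := by
  rw [PeriodPair.mem_lattice]
  constructor
  · rintro ⟨m, n, h⟩
    refine ⟨m, n, ?_⟩
    rw [← h]
    simp [L]
  · rintro ⟨m, n, rfl⟩
    refine ⟨m, n, ?_⟩
    simp [L]

/-- `℘` -/
noncomputable def P (z : ℂ) : ℂ := L.weierstrassP z

/-- `℘'` -/
noncomputable def P' (z : ℂ) : ℂ := L.derivWeierstrassP z

theorem P_per (z : ℂ) {l : ℂ} (hl : l ∈ Lat) : P (z + l) = P z :=
  L.weierstrassP_add_coe z ⟨l, (mem_L l).2 hl⟩

theorem P'_per (z : ℂ) {l : ℂ} (hl : l ∈ Lat) : P' (z + l) = P' z :=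
  L.derivWeierstrassP_add_coe z ⟨l, (mem_L l).2 hl⟩

theorem lat_per (z : ℂ) {l : ℂ} (hl : l ∈ Lat) : z + l ∈ Lat ↔ z ∈ Lat := by
  constructor
  · intro h
    have := latAdd h (latNeg hl)
    simpa using this
  · intro h
    exact latAdd h hl

theorem set_eq : (L.lattice : Set ℂ) = Lat := by
  ext z
  exact mem_L z

theorem P_diff {z : ℂ} (hz : z ∉ Lat) : DifferentiableAt ℂ P z := by
  have h := L.differentiableOn_weierstrassP
  rw [set_eq] at h
  exact h.differentiableAt (isClosed_Lat.isOpen_compl.mem_nhds hz)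

theorem P'_diff {z : ℂ} (hz : z ∉ Lat) : DifferentiableAt ℂ P' z := by
  have h := L.differentiableOn_derivWeierstrassP
  rw [set_eq] at h
  exact h.differentiableAt (isClosed_Lat.isOpen_compl.mem_nhds hz)

theorem P_inj {z w : ℂ} (hz : z ∉ Lat) (hw : w ∉ Lat) (h : P z = P w) (h' : P' z = P' w) :
    z - w ∈ Lat :=
  (mem_L _).1 (Wg.wp_inj_key L z w (fun h => hz ((mem_L z).1 h)) (fun h => hw ((mem_L w).1 h)) h h')

/-- the affine coordinates -/
noncomputable def f0 (z : ℂ) : Fin 3 → ℂ := ![1, P z, P' z]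

open Classical in
/-- the coordinates at infinity -/
noncomputable def f1 (z : ℂ) : Fin 3 → ℂ :=
  if z ∈ Lat then ![0, 0, 1] else ![(P' z)⁻¹, P z / P' z, 1]

theorem f1_lat {z : ℂ} (h : z ∈ Lat) : f1 z = ![0, 0, 1] := if_pos h

theorem f1_not {z : ℂ} (h : z ∉ Lat) : f1 z = ![(P' z)⁻¹, P z / P' z, 1] := if_neg h

theorem f1_per (z : ℂ) {l : ℂ} (hl : l ∈ Lat) : f1 (z + l) = f1 z := by
  by_cases h : z ∈ Lat
  · rw [f1_lat h, f1_lat ((lat_per z hl).2 h)]
  · rw [f1_not h, f1_not (fun h' => h ((lat_per z hl).1 h')), P_per z hl, P'_per z hl]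

/-- regular part of `℘` at `0` -/
noncomputable def k (z : ℂ) : ℂ := L.weierstrassPExcept 0 z

/-- regular part of `℘'` at `0` -/
noncomputable def h (z : ℂ) : ℂ := L.derivWeierstrassPExcept 0 z

theorem P_eq (z : ℂ) : P z = k z + 1 / z ^ 2 := by
  have := L.weierstrassPExcept_add 0 z
  simp at this
  rw [P, ← this, k]
  simp

theorem P'_eq (z : ℂ) : P' z = h z - 2 / z ^ 3 := by
  have := L.derivWeierstrassPExcept_def 0 z
  simp at this
  rw [P', h, this]
  ring

theorem k_an : AnalyticAt ℂ k 0 := L.analyticAt_weierstrassPExcept 0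

theorem h_an : AnalyticAt ℂ h 0 := L.analyticAt_derivWeierstrassPExcept 0

theorem near0 : ∀ᶠ z in 𝓝 (0 : ℂ), z ∈ Lat → z = 0 := by
  filter_upwards [ball_mem_nhds (0 : ℂ) zero_lt_one] with z hz h1
  exact lat_small h1 (by simpa using hz)

theorem den0 : ∀ᶠ z in 𝓝 (0 : ℂ), -2 + z ^ 3 * h z ≠ 0 := by
  have hc : ContinuousAt (fun z => -2 + z ^ 3 * h z) 0 :=
    continuousAt_const.add ((continuousAt_id.pow 3).mul h_an.continuousAt)
  apply hc.eventually_ne
  simp

theorem P'_ne0 : ∀ᶠ z in 𝓝 (0 : ℂ), z ≠ 0 → P' z ≠ 0 := by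
  filter_upwards [den0] with z hz h0 h1
  apply hz
  rw [P'_eq] at h1
  field_simp at h1
  linear_combination h1

theorem f1_near : ∀ᶠ z in 𝓝 (0 : ℂ), f1 z =
    ![z ^ 3 / (-2 + z ^ 3 * h z), (z + z ^ 3 * k z) / (-2 + z ^ 3 * h z), 1] := by
  filter_upwards [near0, den0] with z h1 h2
  by_cases h0 : z = 0
  · subst h0
    rw [f1_lat lat0]
    simp
  · rw [f1_not (fun h => h0 (h1 h))]
    have e1 : P' z = (-2 + z ^ 3 * h z) / z ^ 3 := by
      rw [P'_eq]
      field_simp
      ring
    have e2 : P z = (z + z ^ 3 * k z) / z ^ 3 := by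
      rw [P_eq]
      field_simp
      ring
    have e3 : (P' z)⁻¹ = z ^ 3 / (-2 + z ^ 3 * h z) := by
      rw [e1, inv_div]
    have e4 : P z / P' z = (z + z ^ 3 * k z) / (-2 + z ^ 3 * h z) := by
      rw [div_eq_mul_inv, e3, e2]
      field_simp
    rw [e3, e4]

theorem f1_diff0 : DifferentiableAt ℂ f1 0 := by
  have h1 : DifferentiableAt ℂ (fun z => -2 + z ^ 3 * h z) 0 :=
    (differentiableAt_const _).add ((differentiableAt_id.pow 3).mul h_an.differentiableAt)
  have h2 : -2 + (0 : ℂ) ^ 3 * h 0 ≠ 0 := by simp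
  refine DifferentiableAt.congr_of_eventuallyEq ?_ f1_near
  rw [differentiableAt_pi]
  intro i
  fin_cases i
  · exact (differentiableAt_id.pow 3).div h1 h2
  · exact (differentiableAt_id.add ((differentiableAt_id.pow 3).mul k_an.differentiableAt)).div
      h1 h2
  · exact differentiableAt_const _

theorem f1_diff_lat {l : ℂ} (hl : l ∈ Lat) : DifferentiableAt ℂ f1 l := by
  have e : f1 = fun z => f1 (z + -l) := by
    funext z
    exact (f1_per z (latNeg hl)).symm
  rw [e]
  have h1 : DifferentiableAt ℂ f1 (l + -l) := by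
    rw [add_neg_cancel]
    exact f1_diff0
  exact h1.comp l (f := fun z => z + -l) (by fun_prop)

theorem f1_diff {z : ℂ} (hz : z ∉ Lat) (h0 : P' z ≠ 0) : DifferentiableAt ℂ f1 z := by
  have he : f1 =ᶠ[𝓝 z] fun z => ![(P' z)⁻¹, P z / P' z, 1] := by
    filter_upwards [isClosed_Lat.isOpen_compl.mem_nhds hz] with w hw
    exact f1_not hw
  refine DifferentiableAt.congr_of_eventuallyEq ?_ he
  rw [differentiableAt_pi]
  intro i
  fin_cases i
  · exact (P'_diff hz).inv h0
  · exact (P_diff hz).div (P'_diff hz) h0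
  · exact differentiableAt_const _

theorem f0_diff {z : ℂ} (hz : z ∉ Lat) : DifferentiableAt ℂ f0 z := by
  unfold f0
  rw [differentiableAt_pi]
  intro i
  fin_cases i
  · exact differentiableAt_const _
  · exact P_diff hz
  · exact P'_diff hz

theorem f0_eq {z : ℂ} (h0 : z ∉ Lat) (h : P' z ≠ 0) : f0 z = P' z • f1 z := by
  rw [f1_not h0, f0]
  ext i
  fin_cases i
  · simp [h]
  · simp only [Pi.smul_apply, smul_eq_mul]
    simp
    field_simp
  · simp

/-- the two open sets -/
def O (c : Bool) : Set ℂ := if c then {z | z ∈ Lat ∨ P' z ≠ 0} else {z | z ∉ Lat}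

theorem mem_Of (z : ℂ) : z ∈ O false ↔ z ∉ Lat := Iff.rfl

theorem mem_Ot (z : ℂ) : z ∈ O true ↔ (z ∈ Lat ∨ P' z ≠ 0) := Iff.rfl

theorem O_per (c : Bool) (z : ℂ) {l : ℂ} (hl : l ∈ Lat) : z + l ∈ O c ↔ z ∈ O c := by
  cases c
  · rw [mem_Of, mem_Of, lat_per z hl]
  · rw [mem_Ot, mem_Ot, lat_per z hl, P'_per z hl]

theorem O_open (c : Bool) : IsOpen (O c) := by
  cases c
  · exact isClosed_Lat.isOpen_compl
  · rw [isOpen_iff_mem_nhds]
    intro z hz
    by_cases h : z ∈ Lat
    · have h1 : ∀ᶠ w in 𝓝 (0 : ℂ), w ∈ O true := by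
        filter_upwards [P'_ne0] with w hw
        by_cases hw0 : w = 0
        · left
          rw [hw0]; exact lat0
        · exact Or.inr (hw hw0)
      have h2 : Tendsto (fun w => w + -z) (𝓝 z) (𝓝 0) := by
        have : Continuous fun w : ℂ => w + -z := by fun_prop
        have := this.tendsto z
        simpa using this
      filter_upwards [h2 h1] with w hw
      exact (O_per true w (latNeg h)).1 hw
    · have h1 : P' z ≠ 0 := by
        rcases (mem_Ot z).1 hz with h2 | h2
        · exact absurd h2 h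
        · exact h2
      filter_upwards [(P'_diff h).continuousAt.eventually_ne h1] with w hw
      exact Or.inr hw

theorem f_ne (c : Bool) (z : ℂ) : (if c then f1 z else f0 z) ≠ 0 := by
  intro h
  cases c
  · have := congrFun h 0
    simp [f0] at this
  · by_cases hz : z ∈ Lat
    · have := congrFun h 2
      simp [f1_lat hz] at this
    · have := congrFun h 2
      simp [f1_not hz] at this

theorem inj00 {z w : ℂ} (hz : z ∉ Lat) (hw : w ∉ Lat) {a : ℂ} (h : f0 z = a • f0 w) :
    ∃ l ∈ Lat, w = z + l := by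
  have h0 := congrFun h 0
  have h1 := congrFun h 1
  have h2 := congrFun h 2
  simp [f0] at h0 h1 h2
  rw [← h0, one_mul] at h1 h2
  have h3 := P_inj hw hz h1.symm h2.symm
  exact ⟨w - z, h3, by ring⟩

end ELLaux

open ELLaux

theorem MM_ELL : S_ELL := by
  refine ⟨O, fun c z => if c then f1 z else f0 z, P', O_open, ?_, ?_, ?_, ?_, ?_, ?_, ?_, ?_, ?_,
    ?_, ?_⟩
  · ext z
    simp only [mem_union, mem_univ, iff_true, mem_Of, mem_Ot]
    tauto
  · rw [mem_Of]
    exact fun h => h lat0
  · intro z hz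
    exact hz
  · intro c z l hl
    exact O_per c z hl
  · intro c z hz
    cases c
    · exact (f0_diff hz).differentiableWithinAt
    · by_cases h : z ∈ Lat
      · exact (f1_diff_lat h).differentiableWithinAt
      · rcases (mem_Ot z).1 hz with h2 | h2
        · exact absurd h2 h
        · exact (f1_diff h h2).differentiableWithinAt
  · intro c z l hl
    cases c
    · simp [f0, P_per z hl, P'_per z hl]
    · exact f1_per z hl
  · intro c z _
    exact f_ne c z
  · rintro z ⟨hz, -⟩
    exact (P'_diff hz).differentiableWithinAt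
  · intro z l hl
    exact P'_per z hl
  · rintro z ⟨hz, hz2⟩
    rcases (mem_Ot z).1 hz2 with h2 | h2
    · exact absurd h2 hz
    · exact ⟨h2, f0_eq hz h2⟩
  · intro c c' z w hz hw ⟨a, ha⟩
    have base : ∀ (c : Bool) (z : ℂ), z ∈ O c → z ∉ Lat → ∃ b : ℂ, b ≠ 0 ∧
        f0 z = b • (if c then f1 z else f0 z) := by
      intro c z hz hzL
      cases c
      · exact ⟨1, one_ne_zero, by simp⟩
      · rcases (mem_Ot z).1 hz with h2 | h2
        · exact absurd h2 hzL
        · exact ⟨P' z, h2, f0_eq hzL h2⟩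
    by_cases h1 : z ∈ Lat
    · by_cases h2 : w ∈ Lat
      · refine ⟨w - z, ?_, by ring⟩
        rw [sub_eq_add_neg]
        exact latAdd h2 (latNeg h1)
      · exfalso
        have hc : c = true := by
          cases c
          · exact absurd h1 hz
          · rfl
        subst hc
        obtain ⟨b, hb, hb2⟩ := base c' w hw h2
        simp only [if_true, f1_lat h1] at ha
        have e : b • ![(0 : ℂ), 0, 1] = a • f0 w := by
          rw [ha, smul_comm]
          exact congrArg (a • ·) hb2.symm
        have e0 := congrFun e 0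
        have e2 := congrFun e 2
        simp [f0] at e0 e2
        rw [← e0] at e2
        simp at e2
        exact hb e2
    · by_cases h2 : w ∈ Lat
      · exfalso
        have hc : c' = true := by
          cases c'
          · exact absurd h2 hw
          · rfl
        subst hc
        obtain ⟨b, hb, hb2⟩ := base c z hz h1
        simp only [if_true, f1_lat h2] at ha
        rw [ha] at hb2
        have e0 := congrFun hb2 0
        simp [f0] at e0
      · obtain ⟨b, hb, hb2⟩ := base c z hz h1
        obtain ⟨b', hb', hb2'⟩ := base c' w hw h2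
        have ha' : (if c = true then f1 z else f0 z) = a • (if c' = true then f1 w else f0 w) := ha
        have e : f0 z = (b * a * b'⁻¹) • f0 w := by
          calc f0 z = b • (if c = true then f1 z else f0 z) := hb2
            _ = b • (a • (if c' = true then f1 w else f0 w)) := by rw [ha']
            _ = (b * a * b'⁻¹) • (b' • (if c' = true then f1 w else f0 w)) := by
              rw [smul_smul, smul_smul]
              congr 1
              field_simp
            _ = (b * a * b'⁻¹) • f0 w := by rw [← hb2']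
        exact inj00 h1 h2 e

end Pool.Agent.Y758.MM
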