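import Pool.Agent.Y758.MM.Stm2
import Pool.Agent.Helper540.Osgood

/-!
# EXP: expansion in powers of the first coordinate (helper344)
-/

set_option autoImplicit false

open Set Filter Topology Metric

namespace Pool.Agent.Y758.MM

theorem MM_EXP : S_EXP := by
  intro V _ _ _ f r hf
  obtain ⟨δ, hδ, hb⟩ := Metric.eventually_nhds_iff_ball.1 hf
  have hU : IsOpen (ball ((0 : ℂ), r) δ) := isOpen_ball
  have hJ : DifferentiableOn ℂ f (ball ((0 : ℂ), r) δ) := fun q hq =>
    (hb q hq).differentiableWithinAt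
  have hmem : ∀ x ∈ ball (0 : ℂ) δ, ∀ q ∈ ball r δ, (x, q) ∈ ball ((0 : ℂ), r) δ := by
    intro x hx q hq
    rw [← ball_prod_same]
    exact ⟨hx, hq⟩
  have hline : ∀ (q : V) (t : ℂ), ((0 : ℂ), q) + t • ((1 : ℂ), (0 : V)) = (t, q) := by
    intro q t
    simp
  have hval : ∀ n : ℕ, ∀ q ∈ ball r δ, iteratedDeriv n (fun x => f (x, q)) 0 =
      Pool.Agent.Helper540.dirD f ((1 : ℂ), (0 : V)) n (0, q) := by
    intro n q hq
    have h0 : ((0 : ℂ), q) + (0 : ℂ) • ((1 : ℂ), (0 : V)) ∈ ball ((0 : ℂ), r) δ := by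
      rw [hline]
      exact hmem 0 (mem_ball_self hδ) q hq
    have h1 := Pool.Agent.Helper540.iteratedDeriv_dirD hU hJ ((0 : ℂ), q) ((1 : ℂ), (0 : V)) n 0 h0
    simp only [hline] at h1
    exact h1
  refine ⟨δ, hδ, fun n => ?_, fun q hq x hx => ⟨hb _ (hmem x hx q hq), ?_⟩⟩
  · have h1 : DifferentiableOn ℂ (fun q : V =>
        Pool.Agent.Helper540.dirD f ((1 : ℂ), (0 : V)) n (0, q)) (ball r δ) := by
      refine (Pool.Agent.Helper540.dirD_diff hU hJ ((1 : ℂ), (0 : V)) n).comp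
        (f := fun q : V => ((0 : ℂ), q)) (by fun_prop) ?_
      intro q hq
      exact hmem 0 (mem_ball_self hδ) q hq
    refine (h1.mul_const ((n.factorial : ℂ)⁻¹)).congr fun q hq => ?_
    rw [hval n q hq, div_eq_mul_inv]
  · have h1 : DifferentiableOn ℂ (fun x => f (x, q)) (ball 0 δ) := by
      refine hJ.comp (f := fun x : ℂ => (x, q)) (by fun_prop) ?_
      intro x hx
      exact hmem x hx q hq
    have h2 := Complex.hasSum_taylorSeries_on_ball h1 hx
    have h3 : (fun n : ℕ => ((n.factorial : ℂ))⁻¹ • (x - 0) ^ n •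
        iteratedDeriv n (fun x => f (x, q)) 0) =
        fun n => iteratedDeriv n (fun x => f (x, q)) 0 / (n.factorial : ℂ) * x ^ n := by
      ext n
      rw [sub_zero, smul_eq_mul, smul_eq_mul, div_eq_mul_inv]
      ring
    rw [h3] at h2
    exact h2

end Pool.Agent.Y758.MM
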