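import Pool.Agent.Y758.MM.Stm2

/-!
# MM-FIB0: the fibre over the origin is Moishezon
-/

set_option autoImplicit false

open Set Filter Topology Metric
open scoped Manifold ContDiff

namespace Pool.Agent.Y758.MM

namespace FIB0aux

/-- the tensor product of two vectors -/
noncomputable def ten (x y : Fin 3 → ℂ) : Fin (8 + 1) → ℂ := fun k =>
  x (finProdFinEquiv.symm (show Fin (3 * 3) from k)).1 *
    y (finProdFinEquiv.symm (show Fin (3 * 3) from k)).2

/-- the index of a pair -/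
def enc (i j : Fin 3) : Fin (8 + 1) := (finProdFinEquiv (i, j) : Fin (3 * 3))

lemma ten_apply (x y : Fin 3 → ℂ) (i j : Fin 3) : ten x y (enc i j) = x i * y j := by
  unfold ten enc
  simp

lemma ten_smul_left (a : ℂ) (x y : Fin 3 → ℂ) : ten (a • x) y = a • ten x y := by
  funext k
  simp only [ten, Pi.smul_apply, smul_eq_mul]
  ring

lemma ten_smul_right (a : ℂ) (x y : Fin 3 → ℂ) : ten x (a • y) = a • ten x y := by
  funext k
  simp only [ten, Pi.smul_apply, smul_eq_mul]
  ring

/-- the vector of the base coordinates -/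
noncomputable def P (b : Bool) (p : T) : Fin 3 → ℂ :=
  if b then ![p.2.1 ^ 3, p.2.1 ^ 2, p.2.2.1] else ![1, p.2.1, p.2.2.1]

lemma P_sh (b : Bool) (l : ℂ) (p : T) : P b (sh l p) = P b p := rfl

lemma P_tw (b : Bool) (p : T) (hp : p.2.1 ≠ 0) : P b p = p.2.1 ^ 3 • P (!b) (tw b p) := by
  cases b
  · funext k
    fin_cases k <;> simp [P, tw] <;> field_simp
  · funext k
    fin_cases k <;> simp [P, tw] <;> field_simp

lemma P_diff (b : Bool) : Differentiable ℂ (P b) := by
  rw [differentiable_pi]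
  intro k
  cases b <;> fin_cases k <;> simp only [P] <;> simp <;> fun_prop

lemma zero_mem_Lat : (0 : ℂ) ∈ Lat := ⟨0, 0, by simp⟩

lemma sh_zero (p : T) : sh 0 p = p := by
  simp [sh]

section

variable {M : Type} [TopologicalSpace M] [ChartedSpace T M] {π : Bool → T → M}

open Classical in
/-- the function on `M` given by a function in one chart -/
noncomputable def G (π : Bool → T → M) {V : Type} [Zero V] (b : Bool) (φ : T → V) (m : M) : V :=
  if h : ∃ p, π b p = m then φ h.choose else 0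

lemma G_apply (hM : Model M π) {V : Type} [Zero V] (b : Bool) (φ : T → V)
    (hφ : ∀ l ∈ Lat, ∀ p, φ (sh l p) = φ p) (p : T) : G π b φ (π b p) = φ p := by
  have h : ∃ q, π b q = π b p := ⟨p, rfl⟩
  unfold G
  rw [dif_pos h]
  obtain ⟨l, hl, hl'⟩ := (hM.same b _ _).1 h.choose_spec
  conv_rhs => rw [hl', hφ l hl]

lemma G_diff (hM : Model M π) {V : Type} [NormedAddCommGroup V] [NormedSpace ℂ V] (b : Bool)
    (φ : T → V) (hφ : ∀ l ∈ Lat, ∀ p, φ (sh l p) = φ p) {p : T} (hp : DifferentiableAt ℂ φ p) :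
    MDifferentiableAt 𝓘(ℂ, T) 𝓘(ℂ, V) (G π b φ) (π b p) := by
  apply hM.desc V b p
  have h : (fun q => G π b φ (π b q)) = φ := by
    funext q
    exact G_apply hM b φ hφ q
  rw [h]
  exact hp

lemma diff' (hM : Model M π) (b : Bool) (p : T) (hp : p.2.1 ≠ 0) : π (!b) (tw b p) = π b p :=
  ((hM.diff b p (tw b p)).2 ⟨hp, 0, zero_mem_Lat, (sh_zero _).symm⟩).symm

lemma g_zero {g : M → ℂ × ℂ} (hG : IsG π g) (b : Bool) (p : T) : g (π b p) = 0 ↔ p.1 = 0 := by
  cases b
  · rw [hG.f, Prod.mk_eq_zero]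
    constructor
    · exact fun h => h.1
    · intro h; simp [h]
  · rw [hG.t, Prod.mk_eq_zero]
    constructor
    · exact fun h => h.2
    · intro h; simp [h]

lemma tw_e (b : Bool) (p : T) (hp : p.1 = 0) : (tw b p).2.2.2 = p.2.2.2 := by
  simp [tw, hp]

end

end FIB0aux

open FIB0aux in
theorem MM_FIB0 (hE : S_ELL) : S_FIB0 := by
  intro M _ _ _ _ π g hM hG hX
  obtain ⟨O, f, u, hO, hOu, -, -, hOl, hfd, hfl, hf0, hud, hul, hu0, hinj⟩ := hE
  -- the transition functions
  set κ : Bool → Bool → ℂ → ℂ := fun c c' z =>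
    if c = c' then 1 else if c then (u z)⁻¹ else u z with hκ
  have hκl : ∀ c c', ∀ l ∈ Lat, ∀ z, κ c c' (z + l) = κ c c' z := by
    intro c c' l hl z
    simp only [hκ, hul z l hl]
  have hκ1 : ∀ c c', ∀ z ∈ O c ∩ O c', κ c c' z ≠ 0 ∧ f c z = κ c c' z • f c' z ∧
      DifferentiableAt ℂ (κ c c') z := by
    intro c c' z hz
    have hOo : IsOpen (O false ∩ O true) := (hO false).inter (hO true)
    cases c <;> cases c'
    · simp [hκ]
    · have h1 := hu0 z hz
      refine ⟨by simpa [hκ] using h1.1, by simpa [hκ] using h1.2, ?_⟩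
      have h2 : κ false true = u := by funext z; simp [hκ]
      rw [h2]
      exact hud.differentiableAt (hOo.mem_nhds hz)
    · have h1 := hu0 z ⟨hz.2, hz.1⟩
      have h2 : κ true false = fun z => (u z)⁻¹ := by funext z; simp [hκ]
      rw [h2]
      refine ⟨inv_ne_zero h1.1, ?_, ?_⟩
      · rw [h1.2, smul_smul, inv_mul_cancel₀ h1.1, one_smul]
      · exact (hud.differentiableAt (hOo.mem_nhds ⟨hz.2, hz.1⟩)).inv h1.1
    · simp [hκ]
  -- the data
  set W : Bool × Bool → Set M := fun i => π i.1 '' {p | p.2.2.2 ∈ O i.2} with hW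
  set φ : Bool × Bool → T → (Fin (8 + 1) → ℂ) := fun i p => ten (P i.1 p) (f i.2 p.2.2.2) with hφ
  have hφl : ∀ i, ∀ l ∈ Lat, ∀ p, φ i (sh l p) = φ i p := by
    intro i l hl p
    simp only [hφ, P_sh]
    have h1 : (sh l p).2.2.2 = p.2.2.2 + l := rfl
    rw [h1, hfl _ _ l hl]
  have hWo : ∀ i, IsOpen (W i) := fun i =>
    hM.isOpenMap i.1 _ ((hO i.2).preimage (by fun_prop : Continuous fun p : T => p.2.2.2))
  have hWm : ∀ i p, π i.1 p ∈ W i → p.2.2.2 ∈ O i.2 := by
    rintro i p ⟨q, hq, hqp⟩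
    obtain ⟨l, hl, hl'⟩ := (hM.same i.1 q p).1 hqp
    rw [hl']
    exact (hOl i.2 _ l hl).2 hq
  have hφd : ∀ i p, p.2.2.2 ∈ O i.2 → DifferentiableAt ℂ (φ i) p := by
    intro i p hp
    rw [hφ, differentiableAt_pi]
    intro k
    have h1 : DifferentiableAt ℂ (fun q : T => f i.2 q.2.2.2) p := by
      have h2 : DifferentiableAt ℂ (f i.2) p.2.2.2 :=
        (hfd i.2).differentiableAt ((hO i.2).mem_nhds hp)
      exact DifferentiableAt.comp (g := f i.2) (f := fun q : T => q.2.2.2) p h2 (by fun_prop)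
    have h3 := differentiableAt_pi.1 h1
    have h4 := differentiableAt_pi.1 (P_diff i.1 p)
    exact (h4 _).mul (h3 _)
  set F : Bool × Bool → M → (Fin (8 + 1) → ℂ) := fun i => G π i.1 (φ i) with hF
  have hFa : ∀ i p, F i (π i.1 p) = φ i p := fun i p => G_apply hM i.1 (φ i) (hφl i) p
  set Y : Set M := XS π ∩ g ⁻¹' {(0 : ℂ × ℂ)} with hY
  have hY0 : ∀ b p, π b p ∈ Y → p.1 = 0 := fun b p hp => (g_zero hG b p).1 hp.2
  have hYm : ∀ b p, p ∈ XX → p.1 = 0 → π b p ∈ Y := fun b p hp hp' =>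
    ⟨(hX b p).2 hp, (g_zero hG b p).2 hp'⟩
  -- normal form on the chart `false`
  have hNF : ∀ i p, π false p ∈ Y → π false p ∈ W i → ∃ μ : ℂ, μ ≠ 0 ∧ p.2.2.2 ∈ O i.2 ∧
      F i (π false p) = μ • ten ![1, p.2.1, p.2.2.1] (f i.2 p.2.2.2) := by
    rintro ⟨b, c⟩ p hpY hpW
    have hp0 := hY0 _ _ hpY
    cases b
    · refine ⟨1, one_ne_zero, hWm (false, c) p hpW, ?_⟩
      rw [one_smul]
      exact hFa (false, c) p
    · obtain ⟨q, hq, hqp⟩ := hpW
      obtain ⟨hv, l, hl, hl'⟩ := (hM.diff false p q).1 hqp.symm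
      have h1 : q.2.2.2 = p.2.2.2 + l := by
        rw [hl']
        show (tw false p).2.2.2 + l = _
        rw [tw_e false p hp0]
      have h2 : p.2.2.2 ∈ O c := by
        have h3 : q.2.2.2 ∈ O c := hq
        rw [h1] at h3
        exact (hOl c _ l hl).1 h3
      refine ⟨(p.2.1 ^ 3)⁻¹, inv_ne_zero (pow_ne_zero _ hv), h2, ?_⟩
      have h4 : F (true, c) (π false p) = φ (true, c) q := by
        rw [← hqp]
        exact hFa (true, c) q
      rw [h4]
      simp only [hφ]
      rw [h1, hfl c _ l hl]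
      have h5 : P true q = P true (tw false p) := by rw [hl', P_sh]
      have h6 : ![1, p.2.1, p.2.2.1] = P false p := by simp [P]
      have h7 := P_tw false p hv
      rw [h5, h6, h7, ten_smul_left, smul_smul, inv_mul_cancel₀ (pow_ne_zero _ hv), one_smul]
      rfl
  refine ⟨8, Bool × Bool, W, F, range (π false), ⟨hWo, ?_, ?_, ?_⟩,
    (hM.isOpenMap false).isOpen_range, ?_, ?_, ?_⟩
  · -- covering
    intro m _
    obtain ⟨b, p, rfl⟩ := hM.surj m
    have h1 : p.2.2.2 ∈ O false ∪ O true := by rw [hOu]; trivial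
    rw [mem_iUnion]
    rcases h1 with h1 | h1
    · exact ⟨(b, false), p, h1, rfl⟩
    · exact ⟨(b, true), p, h1, rfl⟩
  · -- holomorphic
    rintro i m ⟨p, hp, rfl⟩
    exact (G_diff hM i.1 (φ i) (hφl i) (hφd i p hp)).mdifferentiableWithinAt
  · -- transitions
    rintro ⟨b, c⟩ ⟨b', c'⟩ x ⟨hxY, hxi, hxj⟩
    by_cases hbb : b' = b
    · subst hbb
      refine ⟨W (b', c) ∩ W (b', c'), G π b' (fun p => κ c c' p.2.2.2),
        (hWo _).inter (hWo _), ⟨hxi, hxj⟩, subset_rfl, ?_, ?_⟩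
      · rintro m ⟨⟨p, hp, rfl⟩, hm2⟩
        have hp2 := hWm (b', c') p hm2
        apply MDifferentiableAt.mdifferentiableWithinAt
        apply G_diff hM b' (fun p : T => κ c c' p.2.2.2) (fun l hl p => hκl c c' l hl _)
        exact DifferentiableAt.comp (g := κ c c') (f := fun q : T => q.2.2.2) p
          (hκ1 c c' _ ⟨hp, hp2⟩).2.2 (by fun_prop)
      · rintro m ⟨hmY, ⟨p, hp, rfl⟩, hm2⟩
        have hp2 := hWm (b', c') p hm2
        have h1 := hκ1 c c' _ ⟨hp, hp2⟩
        have h2 : G π b' (fun p : T => κ c c' p.2.2.2) (π b' p) = κ c c' p.2.2.2 :=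
          G_apply hM b' (fun p : T => κ c c' p.2.2.2) (fun l hl p => hκl c c' l hl _) p
        have h3 := hFa (b', c) p
        have h4 := hFa (b', c') p
        simp only at h3 h4 h2 ⊢
        rw [h2, h3, h4]
        refine ⟨h1.1, ?_⟩
        simp only [hφ]
        rw [h1.2.1, ten_smul_right]
    · have hb' : b' = !b := by
        cases b <;> cases b' <;> first | rfl | exact absurd rfl hbb
      subst hb'
      set V : Set M := (W (b, c) ∩ W (!b, c')) ∩
        π b '' {p | p.2.1 ≠ 0 ∧ p.2.2.2 ∈ O c ∧ p.2.2.2 ∈ O c'} with hV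
      have hVo : IsOpen V := by
        refine ((hWo _).inter (hWo _)).inter (hM.isOpenMap b _ ?_)
        have h1 : IsOpen {p : T | p.2.1 ≠ 0} :=
          isOpen_ne.preimage (by fun_prop : Continuous fun p : T => p.2.1)
        have h2 : IsOpen {p : T | p.2.2.2 ∈ O c} :=
          (hO c).preimage (by fun_prop : Continuous fun p : T => p.2.2.2)
        have h3 : IsOpen {p : T | p.2.2.2 ∈ O c'} :=
          (hO c').preimage (by fun_prop : Continuous fun p : T => p.2.2.2)
        exact h1.inter (h2.inter h3)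
      have hul' : ∀ l ∈ Lat, ∀ p : T, (fun p : T => p.2.1 ^ 3 * κ c c' p.2.2.2) (sh l p) =
          (fun p : T => p.2.1 ^ 3 * κ c c' p.2.2.2) p := by
        intro l hl p
        show p.2.1 ^ 3 * κ c c' (p.2.2.2 + l) = _
        rw [hκl c c' l hl]
      refine ⟨V, G π b (fun p => p.2.1 ^ 3 * κ c c' p.2.2.2), hVo, ⟨⟨hxi, hxj⟩, ?_⟩,
        fun m hm => hm.1, ?_, ?_⟩
      · obtain ⟨p, hp, rfl⟩ := hxi
        obtain ⟨q, hq, hqp⟩ := hxj
        obtain ⟨hv, l, hl, hl'⟩ := (hM.diff b p q).1 hqp.symm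
        have hp0 := hY0 _ _ hxY
        have h1 : q.2.2.2 = p.2.2.2 + l := by
          rw [hl']
          show (tw b p).2.2.2 + l = _
          rw [tw_e b p hp0]
        have h3 : q.2.2.2 ∈ O c' := hq
        rw [h1] at h3
        exact ⟨p, ⟨hv, hp, (hOl c' _ l hl).1 h3⟩, rfl⟩
      · rintro m ⟨_, p, ⟨hv, hp, hp2⟩, rfl⟩
        apply MDifferentiableAt.mdifferentiableWithinAt
        apply G_diff hM b _ hul'
        have h1 : DifferentiableAt ℂ (fun q : T => κ c c' q.2.2.2) p :=
          DifferentiableAt.comp (g := κ c c') (f := fun q : T => q.2.2.2) p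
            (hκ1 c c' _ ⟨hp, hp2⟩).2.2 (by fun_prop)
        have h2 : DifferentiableAt ℂ (fun q : T => q.2.1 ^ 3) p := by fun_prop
        exact h2.mul h1
      · rintro m ⟨hmY, _, p, ⟨hv, hp, hp2⟩, rfl⟩
        have hp0 := hY0 _ _ hmY
        have h1 := hκ1 c c' _ ⟨hp, hp2⟩
        have h2 : G π b (fun p : T => p.2.1 ^ 3 * κ c c' p.2.2.2) (π b p) =
            p.2.1 ^ 3 * κ c c' p.2.2.2 := G_apply hM b _ hul' p
        have h3 := hFa (b, c) p
        have h4 := hFa (!b, c') (tw b p)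
        have h5 := diff' hM b p hv
        simp only at h3 h4 h2 ⊢
        rw [h5] at h4
        rw [h2, h3, h4]
        refine ⟨mul_ne_zero (pow_ne_zero _ hv) h1.1, ?_⟩
        simp only [hφ]
        rw [tw_e b p hp0, h1.2.1, P_tw b p hv, ten_smul_right, ten_smul_left, smul_smul,
          mul_comm]
  · -- density
    intro m hm
    obtain ⟨b, p, rfl⟩ := hM.surj m
    cases b
    · exact subset_closure ⟨hm, p, rfl⟩
    · by_cases hv : p.2.1 = 0
      · have hp0 := hY0 _ _ hm
        have hpX : p.2.2.1 ^ 2 = 1 := by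
          have h1 : p.2.2.1 ^ 2 = 1 + p.2.1 ^ 6 := (hX true p).1 hm.1
          rw [h1, hv]
          norm_num
        set r : ℂ → ℂ := fun s => (1 + s ^ 6) ^ ((2 : ℕ) : ℂ)⁻¹ with hr
        have hrc : ContinuousAt r 0 := by
          have h1 : ContinuousAt (fun s : ℂ => 1 + s ^ 6) 0 := by fun_prop
          refine h1.cpow continuousAt_const ?_
          simp [Complex.slitPlane]
        have hr0 : r 0 = 1 := by simp [hr]
        have hr2 : ∀ s, r s ^ 2 = 1 + s ^ 6 := fun s => by
          simp only [hr]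
          exact Complex.cpow_nat_inv_pow _ two_ne_zero
        set ps : ℂ → T := fun s => (0, s, p.2.2.1 * r s, p.2.2.2) with hps
        have hps0 : ps 0 = p := by
          show ((0 : ℂ), (0 : ℂ), p.2.2.1 * r 0, p.2.2.2) = p
          rw [hr0, mul_one]
          exact Prod.ext hp0.symm (Prod.ext hv.symm rfl)
        have hpsc : ContinuousAt ps 0 := by
          simp only [hps]
          fun_prop
        have hlim : Tendsto (fun s => π true (ps s)) (𝓝[≠] 0) (𝓝 (π true p)) := by
          have h1 : ContinuousAt (fun s => π true (ps s)) 0 := by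
            have h2 : ContinuousAt (π true) (ps 0) := (hM.holo true).continuous.continuousAt
            exact ContinuousAt.comp (g := π true) h2 hpsc
          have h3 := h1.tendsto
          simp only [hps0] at h3
          exact h3.mono_left nhdsWithin_le_nhds
        apply mem_closure_of_tendsto hlim
        filter_upwards [self_mem_nhdsWithin] with s hs
        refine ⟨hYm true _ ?_ rfl, tw true (ps s), ?_⟩
        · show (p.2.2.1 * r s) ^ 2 = 1 + s ^ 6
          rw [mul_pow, hpX, hr2, one_mul]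
        · exact diff' hM true (ps s) hs
      · exact subset_closure ⟨hm, tw true p, diff' hM true p hv⟩
  · -- nonzero
    rintro i x ⟨⟨hxY, p, rfl⟩, hxW⟩ h0
    obtain ⟨μ, hμ, hpO, hF'⟩ := hNF i p hxY hxW
    rw [hF'] at h0
    obtain ⟨k, hk⟩ := Function.ne_iff.1 (hf0 i.2 _ hpO)
    have h1 := congrFun h0 (enc 0 k)
    rw [Pi.smul_apply, ten_apply] at h1
    simp [hμ] at h1
    exact hk h1
  · -- injectivity
    rintro i j x ⟨⟨hxY, p, rfl⟩, hxW⟩ y ⟨⟨hyY, q, rfl⟩, hyW⟩ - ⟨a, ha⟩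
    obtain ⟨μ, hμ, hpO, hFp⟩ := hNF i p hxY hxW
    obtain ⟨ν, hν, hqO, hFq⟩ := hNF j q hyY hyW
    rw [hFp, hFq, smul_smul] at ha
    set A := f i.2 p.2.2.2 with hA
    set B := f j.2 q.2.2.2 with hB
    have hcomp : ∀ k l, μ * (![1, p.2.1, p.2.2.1] k * A l) =
        a * ν * (![1, q.2.1, q.2.2.1] k * B l) := by
      intro k l
      have h1 := congrFun ha (enc k l)
      rw [Pi.smul_apply, Pi.smul_apply, ten_apply, ten_apply] at h1
      exact h1
    obtain ⟨k, hk⟩ := Function.ne_iff.1 (hf0 i.2 _ hpO)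
    have hk' : A k ≠ 0 := hk
    have e0 : ∀ l, μ * A l = a * ν * B l := by
      intro l
      have := hcomp 0 l
      simpa using this
    have e1 : p.2.1 = q.2.1 := by
      have h1 := hcomp 1 k
      simp only [Matrix.cons_val_one, Matrix.cons_val_zero] at h1
      have h2 : μ * A k * (p.2.1 - q.2.1) = 0 := by
        have h3 := e0 k
        linear_combination h1 - q.2.1 * h3
      have h4 := (mul_eq_zero.1 h2).resolve_left (mul_ne_zero hμ hk')
      exact sub_eq_zero.1 h4
    have e2 : p.2.2.1 = q.2.2.1 := by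
      have h1 := hcomp 2 k
      simp only [Matrix.cons_val] at h1
      have h2 : μ * A k * (p.2.2.1 - q.2.2.1) = 0 := by
        have h3 := e0 k
        linear_combination h1 - q.2.2.1 * h3
      have h4 := (mul_eq_zero.1 h2).resolve_left (mul_ne_zero hμ hk')
      exact sub_eq_zero.1 h4
    obtain ⟨l, hl, hl'⟩ := hinj i.2 j.2 p.2.2.2 q.2.2.2 hpO hqO ⟨μ⁻¹ * (a * ν), by
      funext l
      rw [Pi.smul_apply, smul_eq_mul, mul_assoc, ← e0 l, ← mul_assoc, inv_mul_cancel₀ hμ,
        one_mul]⟩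
    refine (hM.same false p q).2 ⟨l, hl, ?_⟩
    have hp0 := hY0 _ _ hxY
    have hq0 := hY0 _ _ hyY
    obtain ⟨p1, p2, p3, p4⟩ := p
    obtain ⟨q1, q2, q3, q4⟩ := q
    simp only [sh] at *
    simp only [hp0, hq0, e1, e2, hl']

end Pool.Agent.Y758.MM
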