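import Pool.Agent.Y758.MM.Stm

/-! Project MM, job MM-FIBN (helper769): the fibres over the points other than the origin. -/

set_option autoImplicit false

open Set Filter Topology Metric
open scoped Manifold ContDiff

namespace Pool.Agent.Y758.MM.FIBN

open Pool.Agent.Y758.MM

section

variable {M : Type} [TopologicalSpace M] [ChartedSpace T M] {π : Bool → T → M}

open Classical in
/-- descent of a periodic function to one chart -/
noncomputable def dn {V : Type} [Zero V] (π : Bool → T → M) (c : Bool) (φ : T → V) (m : M) : V :=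
  if h : ∃ p, π c p = m then φ (Classical.choose h) else 0

lemma dn_eq {V : Type} [Zero V] (hM : Model M π) (c : Bool) (φ : T → V)
    (hφ : ∀ p, ∀ l ∈ Lat, φ (sh l p) = φ p) (p : T) : dn π c φ (π c p) = φ p := by
  have h : ∃ q, π c q = π c p := ⟨p, rfl⟩
  unfold dn
  rw [dif_pos h]
  obtain ⟨l, hl, h2⟩ := (hM.same c _ _).1 (Classical.choose_spec h)
  have h3 := hφ (Classical.choose h) l hl
  rw [← h2] at h3
  exact h3.symm

lemma dn_diff {V : Type} [NormedAddCommGroup V] [NormedSpace ℂ V] (hM : Model M π) (c : Bool)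
    (φ : T → V) (hφ : ∀ p, ∀ l ∈ Lat, φ (sh l p) = φ p) (p : T) (hd : DifferentiableAt ℂ φ p) :
    MDifferentiableAt 𝓘(ℂ, T) 𝓘(ℂ, V) (dn π c φ) (π c p) := by
  apply hM.desc V c p
  have h : (fun q => dn π c φ (π c q)) = φ := funext fun q => dn_eq hM c φ hφ q
  rw [h]
  exact hd

/-- the homogeneous coordinates -/
def co (f : ℂ → Fin 3 → ℂ) (p : T) : Fin (5 + 1) → ℂ :=
  ![f p.2.2.2 0, f p.2.2.2 1, f p.2.2.2 2, p.2.2.1 * f p.2.2.2 0, p.2.2.1 * f p.2.2.2 1,
    p.2.2.1 * f p.2.2.2 2]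

lemma co_diff (f : ℂ → Fin 3 → ℂ) (p : T) (h : DifferentiableAt ℂ f p.2.2.2) :
    DifferentiableAt ℂ (co f) p := by
  have h1 : DifferentiableAt ℂ (fun p : T => f p.2.2.2) p :=
    DifferentiableAt.comp (g := f) (f := fun p : T => p.2.2.2) p h (by fun_prop)
  have h2 : ∀ k : Fin 3, DifferentiableAt ℂ (fun p : T => f p.2.2.2 k) p := by
    rw [differentiableAt_pi] at h1
    exact h1
  have h3 : DifferentiableAt ℂ (fun p : T => p.2.2.1) p := by fun_prop
  rw [differentiableAt_pi]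
  intro i
  fin_cases i
  · exact h2 0
  · exact h2 1
  · exact h2 2
  · exact h3.mul (h2 0)
  · exact h3.mul (h2 1)
  · exact h3.mul (h2 2)

lemma mois (hE : S_ELL) (hM : Model M π) (Y : Set M) (c₀ : Bool) (x₀ v₀ : ℂ)
    (h1 : ∀ p, π c₀ p ∈ Y → p.1 = x₀ ∧ p.2.1 = v₀) (h2 : ∀ m ∈ Y, ∃ p, π c₀ p = m) :
    MoishezonOver T (fun _ : M => ()) Y := by
  obtain ⟨O, f, u, hOo, hcov, -, -, hOp, hfd, hfp, hf0, hud, hup, huf, hinj⟩ := hE
  have hco : ∀ i : Bool, ∀ p, ∀ l ∈ Lat, co (f i) (sh l p) = co (f i) p := by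
    intro i p l hl
    unfold co sh
    simp only
    rw [hfp i p.2.2.2 l hl]
  have hu1 : ∀ p : T, ∀ l ∈ Lat, (fun p : T => u p.2.2.2) (sh l p) = (fun p : T => u p.2.2.2) p := by
    intro p l hl
    exact hup p.2.2.2 l hl
  have hu2 : ∀ p : T, ∀ l ∈ Lat, (fun p : T => (u p.2.2.2)⁻¹) (sh l p) =
      (fun p : T => (u p.2.2.2)⁻¹) p := by
    intro p l hl
    have := hup p.2.2.2 l hl
    simp only [sh]
    rw [this]
  let W : Bool → Set M := fun i => π c₀ '' {p : T | p.2.2.2 ∈ O i}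
  let F : Bool → M → (Fin (5 + 1) → ℂ) := fun i => dn π c₀ (co (f i))
  have hopen : ∀ S : Set ℂ, IsOpen S → IsOpen (π c₀ '' {p : T | p.2.2.2 ∈ S}) := by
    intro S hS
    apply hM.isOpenMap c₀
    exact hS.preimage (by fun_prop)
  have hWmem : ∀ i p, π c₀ p ∈ W i → p.2.2.2 ∈ O i := by
    rintro i p ⟨q, hq, hqp⟩
    obtain ⟨l, hl, h3⟩ := (hM.same c₀ q p).1 hqp
    rw [h3]
    exact (hOp i q.2.2.2 l hl).2 hq
  have hFp : ∀ i p, F i (π c₀ p) = co (f i) p := fun i p => dn_eq hM c₀ (co (f i)) (hco i) p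
  have hrel : ∀ i j p, p.2.2.2 ∈ O i → p.2.2.2 ∈ O j → ∀ a : ℂ, f i p.2.2.2 = a • f j p.2.2.2 →
      co (f i) p = a • co (f j) p := by
    intro i j p _ _ a ha
    have h3 : ∀ k, f i p.2.2.2 k = a * f j p.2.2.2 k := fun k => by rw [ha]; rfl
    unfold co
    ext k
    fin_cases k <;> simp [h3] <;> ring
  refine ⟨5, Bool, W, F, univ, ?_, isOpen_univ, ?_, ?_, ?_⟩
  · refine ⟨fun i => hopen _ (hOo i), ?_, ?_, ?_⟩
    · intro m hm
      obtain ⟨p, rfl⟩ := h2 m hm
      rw [mem_iUnion]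
      have h3 : p.2.2.2 ∈ O false ∪ O true := by rw [hcov]; trivial
      rcases h3 with h3 | h3
      · exact ⟨false, p, h3, rfl⟩
      · exact ⟨true, p, h3, rfl⟩
    · rintro i m ⟨p, hp, rfl⟩
      apply MDifferentiableAt.mdifferentiableWithinAt
      apply dn_diff hM c₀ (co (f i)) (hco i)
      exact co_diff (f i) p ((hfd i).differentiableAt ((hOo i).mem_nhds hp))
    · rintro i j m ⟨hmY, hmi, hmj⟩
      obtain ⟨p, rfl⟩ := h2 m hmY
      have hpi := hWmem i p hmi
      have hpj := hWmem j p hmj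
      have key : ∃ w : ℂ → ℂ, (∀ p : T, ∀ l ∈ Lat, (fun p : T => w p.2.2.2) (sh l p) =
          (fun p : T => w p.2.2.2) p) ∧ (∀ z ∈ O i ∩ O j, DifferentiableAt ℂ w z ∧ w z ≠ 0 ∧
            f i z = w z • f j z) := by
        cases i <;> cases j
        · exact ⟨fun _ => 1, fun _ _ _ => rfl, fun z _ => ⟨differentiableAt_const _, one_ne_zero,
            by simp⟩⟩
        · refine ⟨u, hu1, fun z hz => ⟨?_, huf z hz⟩⟩
          exact hud.differentiableAt (((hOo false).inter (hOo true)).mem_nhds hz)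
        · refine ⟨fun z => (u z)⁻¹, hu2, fun z hz => ⟨?_, ?_, ?_⟩⟩
          · have hz' : z ∈ O false ∩ O true := ⟨hz.2, hz.1⟩
            exact (hud.differentiableAt (((hOo false).inter (hOo true)).mem_nhds hz')).inv
              (huf z hz').1
          · exact inv_ne_zero (huf z ⟨hz.2, hz.1⟩).1
          · have h3 := huf z ⟨hz.2, hz.1⟩
            rw [h3.2, smul_smul, inv_mul_cancel₀ h3.1, one_smul]
        · exact ⟨fun _ => 1, fun _ _ _ => rfl, fun z _ => ⟨differentiableAt_const _, one_ne_zero,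
            by simp⟩⟩
      obtain ⟨w, hw1, hw2⟩ := key
      refine ⟨π c₀ '' {p : T | p.2.2.2 ∈ O i ∩ O j}, dn π c₀ (fun p : T => w p.2.2.2),
        hopen _ ((hOo i).inter (hOo j)), ⟨p, ⟨hpi, hpj⟩, rfl⟩, ?_, ?_, ?_⟩
      · rintro m' ⟨q, hq, rfl⟩
        exact ⟨⟨q, hq.1, rfl⟩, ⟨q, hq.2, rfl⟩⟩
      · rintro m' ⟨q, hq, rfl⟩
        apply MDifferentiableAt.mdifferentiableWithinAt
        apply dn_diff hM c₀ (fun p : T => w p.2.2.2) hw1
        exact DifferentiableAt.comp (g := w) (f := fun p : T => p.2.2.2) q (hw2 _ hq).1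
          (by fun_prop)
      · rintro m' ⟨-, q, hq, rfl⟩
        rw [hFp i, hFp j, dn_eq hM c₀ (fun p : T => w p.2.2.2) hw1]
        exact ⟨(hw2 _ hq).2.1, hrel i j q hq.1 hq.2 _ (hw2 _ hq).2.2⟩
  · rw [inter_univ]; exact subset_closure
  · rintro i m ⟨-, q, hq, rfl⟩
    rw [hFp i]
    intro h3
    apply hf0 i q.2.2.2 hq
    ext k
    fin_cases k
    · exact congrFun h3 0
    · exact congrFun h3 1
    · exact congrFun h3 2
  · rintro i j m ⟨⟨hmY, -⟩, p, hp, rfl⟩ m' ⟨⟨hmY', -⟩, q, hq, rfl⟩ - ⟨a, ha⟩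
    rw [hFp i, hFp j] at ha
    have h3 : f i p.2.2.2 = a • f j q.2.2.2 := by
      ext k
      fin_cases k
      · exact congrFun ha 0
      · exact congrFun ha 1
      · exact congrFun ha 2
    obtain ⟨l, hl, h4⟩ := hinj i j _ _ hp hq ⟨a, h3⟩
    have h5 : p.2.2.1 = q.2.2.1 := by
      by_contra hne
      apply hf0 i p.2.2.2 hp
      have h6 : ∀ k, p.2.2.1 * f i p.2.2.2 k = a * (q.2.2.1 * f j q.2.2.2 k) := by
        intro k
        fin_cases k
        · exact congrFun ha 3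
        · exact congrFun ha 4
        · exact congrFun ha 5
      ext k
      have h7 := h6 k
      have h8 : f i p.2.2.2 k = a * f j q.2.2.2 k := by rw [h3]; rfl
      have h9 : (p.2.2.1 - q.2.2.1) * f i p.2.2.2 k = 0 := by
        rw [sub_mul, h7, h8]; ring
      exact (mul_eq_zero.1 h9).resolve_left (sub_ne_zero.2 hne)
    rw [hM.same]
    refine ⟨l, hl, ?_⟩
    have h6 := h1 p hmY
    have h7 := h1 q hmY'
    unfold sh
    ext
    · rw [h7.1, h6.1]
    · rw [h7.2, h6.2]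
    · exact h5.symm
    · exact h4

end

end Pool.Agent.Y758.MM.FIBN

namespace Pool.Agent.Y758.MM

open FIBN

theorem MM_FIBN (hE : S_ELL) : S_FIBN := by
  intro M _ _ _ _ π g hM hg hX s hs
  by_cases ha : s.1 = 0
  · -- chart true
    have hb : s.2 ≠ 0 := by
      intro hb; exact hs (Prod.ext ha hb)
    apply mois hE hM _ true s.2 0
    · rintro p ⟨-, hp⟩
      have h1 : g (π true p) = s := hp
      rw [hg.t] at h1
      have h2 : p.1 * p.2.1 = s.1 := congrArg Prod.fst h1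
      have h3 : p.1 = s.2 := congrArg Prod.snd h1
      refine ⟨h3, ?_⟩
      rw [ha, h3] at h2
      exact (mul_eq_zero.1 h2).resolve_left hb
    · rintro m ⟨-, hm⟩
      obtain ⟨c, p, rfl⟩ := hM.surj m
      cases c
      · exfalso
        have h1 : g (π false p) = s := hm
        rw [hg.f] at h1
        have h2 : p.1 = s.1 := congrArg Prod.fst h1
        have h3 : p.1 * p.2.1 = s.2 := congrArg Prod.snd h1
        rw [h2, ha, zero_mul] at h3
        exact hb h3.symm
      · exact ⟨p, rfl⟩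
  · apply mois hE hM _ false s.1 (s.2 / s.1)
    · rintro p ⟨-, hp⟩
      have h1 : g (π false p) = s := hp
      rw [hg.f] at h1
      have h2 : p.1 = s.1 := congrArg Prod.fst h1
      have h3 : p.1 * p.2.1 = s.2 := congrArg Prod.snd h1
      refine ⟨h2, ?_⟩
      rw [← h3, h2]
      field_simp
    · rintro m ⟨-, hm⟩
      obtain ⟨c, p, rfl⟩ := hM.surj m
      cases c
      · exact ⟨p, rfl⟩
      · have h1 : g (π true p) = s := hm
        rw [hg.t] at h1
        have h2 : p.1 * p.2.1 = s.1 := congrArg Prod.fst h1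
        have h3 : p.2.1 ≠ 0 := by
          intro h4
          rw [h4, mul_zero] at h2
          exact ha h2.symm
        refine ⟨tw true p, ?_⟩
        symm
        have h5 := (hM.diff true p (tw true p)).2 ⟨h3, 0, ⟨0, 0, by simp⟩, by simp [sh]⟩
        exact h5

end Pool.Agent.Y758.MM
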