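import Pool.Agent.Y758.MM.Stm2

/-!
# FIN: the contradiction
-/

set_option autoImplicit false

open Set Filter Topology Metric
open scoped Manifold ContDiff

namespace Pool.Agent.Y758.MM

namespace FIN

/-- the reflection of the curve -/
def sig (k : ℂ × ℂ) : ℂ × ℂ := (k.1, -k.2)

/-- the change of charts on the curve -/
noncomputable def phi (k : ℂ × ℂ) : ℂ × ℂ := (k.1⁻¹, k.2 / k.1 ^ 3)

theorem sig_mem {k : ℂ × ℂ} (hk : k ∈ KK) : sig k ∈ KK := by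
  show (-k.2) ^ 2 = 1 + k.1 ^ 6
  rw [neg_sq]
  exact hk

theorem phi_mem {k : ℂ × ℂ} (hk : k ∈ KK) (h0 : k.1 ≠ 0) : phi k ∈ KK := by
  show (k.2 / k.1 ^ 3) ^ 2 = 1 + (k.1⁻¹) ^ 6
  have h : k.2 ^ 2 = 1 + k.1 ^ 6 := hk
  rw [div_pow, h]
  field_simp
  ring

theorem sig_tendsto (k₀ : ℂ × ℂ) : Tendsto sig (𝓝[KK \ {k₀}] k₀) (𝓝[KK \ {sig k₀}] (sig k₀)) := by
  refine tendsto_nhdsWithin_iff.2 ⟨?_, ?_⟩
  · have : Continuous sig := by unfold sig; fun_prop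
    exact (this.tendsto k₀).mono_left nhdsWithin_le_nhds
  · filter_upwards [self_mem_nhdsWithin] with k hk
    refine ⟨sig_mem hk.1, fun h => hk.2 ?_⟩
    have h' : sig k = sig k₀ := h
    have h1 : (sig k).1 = (sig k₀).1 := congrArg Prod.fst h'
    have h2 : (sig k).2 = (sig k₀).2 := congrArg Prod.snd h'
    exact Prod.ext h1 (neg_injective h2)

theorem phi_tendsto (k₀ : ℂ × ℂ) (h0 : k₀.1 ≠ 0) :
    Tendsto phi (𝓝[KK \ {k₀}] k₀) (𝓝[KK \ {phi k₀}] (phi k₀)) := by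
  have hc : ContinuousAt phi k₀ := by
    unfold phi
    exact (continuousAt_fst.inv₀ h0).prodMk (continuousAt_snd.div (continuousAt_fst.pow 3)
      (pow_ne_zero 3 h0))
  have hne : ∀ᶠ k : ℂ × ℂ in 𝓝 k₀, k.1 ≠ 0 := continuousAt_fst.eventually_ne h0
  refine tendsto_nhdsWithin_iff.2 ⟨hc.tendsto.mono_left nhdsWithin_le_nhds, ?_⟩
  filter_upwards [self_mem_nhdsWithin, mem_nhdsWithin_of_mem_nhds hne] with k hk hk0
  refine ⟨phi_mem hk.1 hk0, fun h => hk.2 ?_⟩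
  have h' : phi k = phi k₀ := h
  have h1 : k.1⁻¹ = k₀.1⁻¹ := congrArg Prod.fst h'
  have h2 : k.2 / k.1 ^ 3 = k₀.2 / k₀.1 ^ 3 := congrArg Prod.snd h'
  have h3 : k.1 = k₀.1 := inv_injective h1
  rw [h3] at h2
  have h4 : k₀.1 ^ 3 ≠ 0 := pow_ne_zero 3 h0
  exact Prod.ext h3 ((div_left_inj' h4).1 h2)

/-- there are points of the curve near `k₀` with second coordinate not zero -/
theorem freq (hP : S_PARAM) {k₀ : ℂ × ℂ} (hk : k₀ ∈ KK) :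
    ∃ᶠ k in 𝓝[KK \ {k₀}] k₀, k.2 ≠ 0 := by
  obtain ⟨r, hr, ψ, hd, h0, h1, -⟩ := hP k₀ hk
  have hc : ContinuousAt ψ 0 :=
    (hd.continuousOn.continuousAt (isOpen_ball.mem_nhds (mem_ball_self hr)))
  have hb : ∀ᶠ s in 𝓝[≠] (0 : ℂ), s ∈ ball (0 : ℂ) r :=
    mem_nhdsWithin_of_mem_nhds (isOpen_ball.mem_nhds (mem_ball_self hr))
  have hk0 : kc k₀ k₀ = 0 := by
    unfold kc
    split_ifs with h
    · exact h
    · exact sub_self _
  have ht : Tendsto ψ (𝓝[≠] 0) (𝓝[KK \ {k₀}] k₀) := by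
    refine tendsto_nhdsWithin_iff.2 ⟨?_, ?_⟩
    · have := hc.tendsto
      rw [h0] at this
      exact this.mono_left nhdsWithin_le_nhds
    · filter_upwards [hb, self_mem_nhdsWithin] with s hs hs0
      refine ⟨(h1 s hs).1, fun h => hs0 ?_⟩
      have h' : ψ s = k₀ := h
      have h2 := (h1 s hs).2
      rw [h', hk0] at h2
      exact h2.symm
  have hne : ∀ᶠ s in 𝓝[≠] (0 : ℂ), (ψ s).2 ≠ 0 := by
    by_cases h : k₀.2 = 0
    · filter_upwards [hb, self_mem_nhdsWithin] with s hs hs0 hz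
      have h2 := (h1 s hs).2
      unfold kc at h2
      rw [if_pos h] at h2
      exact hs0 (h2.symm.trans hz)
    · have h3 : ContinuousAt (fun s => (ψ s).2) 0 := continuousAt_snd.comp hc
      have h4 : (fun s => (ψ s).2) 0 ≠ 0 := by
        show (ψ 0).2 ≠ 0
        rw [h0]
        exact h
      exact (h3.eventually_ne h4).filter_mono nhdsWithin_le_nhds
  exact ht.frequently (hne.frequently)

theorem key (hP : S_PARAM) {f g : ℂ × ℂ → ℂ} {d : ℕ} {a b : ℂ → ℂ}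
    (ha : DifferentiableOn ℂ a (ball 0 2)) (hb : DifferentiableOn ℂ b (ball 0 2))
    (hfa : ∀ k₀ ∈ KK, ‖k₀.1‖ < 2 →
      ∀ᶠ k in 𝓝[KK \ {k₀}] k₀, f k - f (k.1, -k.2) = 2 * k.2 * a k.1)
    (hgb : ∀ k₀ ∈ KK, ‖k₀.1‖ < 2 →
      ∀ᶠ k in 𝓝[KK \ {k₀}] k₀, g k - g (k.1, -k.2) = 2 * k.2 * b k.1)
    (hrel : ∀ k₀ ∈ KK, 1 / 2 < ‖k₀.1‖ → ‖k₀.1‖ < 2 → ∀ᶠ k in 𝓝[KK \ {k₀}] k₀,
      f k = k.1 * g (k.1⁻¹, k.2 / k.1 ^ 3) + k.2 / k.1 * (d : ℂ))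
    (v : ℂ) (hv : ‖v‖ = 1) : a v - b v⁻¹ * (v ^ 2)⁻¹ = d * (v - 0)⁻¹ := by
  obtain ⟨t, ht⟩ : ∃ t : ℂ, t ^ 2 = 1 + v ^ 6 := by
    obtain ⟨t, ht⟩ := IsAlgClosed.exists_pow_nat_eq (1 + v ^ 6) (n := 2) (by norm_num)
    exact ⟨t, ht⟩
  have hv0 : v ≠ 0 := by
    intro h
    rw [h, norm_zero] at hv
    exact zero_ne_one hv
  set k₀ : ℂ × ℂ := (v, t) with hk₀
  have hk : k₀ ∈ KK := ht
  have hks : sig k₀ ∈ KK := sig_mem hk
  have hkp : phi k₀ ∈ KK := phi_mem hk hv0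
  have e1 := hfa k₀ hk (by show ‖v‖ < 2; rw [hv]; norm_num)
  have e2 := hrel k₀ hk (by show 1 / 2 < ‖v‖; rw [hv]; norm_num) (by show ‖v‖ < 2; rw [hv]; norm_num)
  have e3 := (sig_tendsto k₀).eventually (hrel (sig k₀) hks (by show 1 / 2 < ‖v‖; rw [hv]; norm_num)
    (by show ‖v‖ < 2; rw [hv]; norm_num))
  have e4 := (phi_tendsto k₀ hv0).eventually (hgb (phi k₀) hkp
    (by show ‖v⁻¹‖ < 2; rw [norm_inv, hv]; norm_num))
  have hne : ∀ᶠ k : ℂ × ℂ in 𝓝[KK \ {k₀}] k₀, k.1 ≠ 0 :=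
    (continuousAt_fst.eventually_ne (show k₀.1 ≠ 0 from hv0)).filter_mono nhdsWithin_le_nhds
  have hfr : ∃ᶠ k in 𝓝[KK \ {k₀}] k₀,
      a k.1 - b k.1⁻¹ * (k.1 ^ 2)⁻¹ - d * (k.1 - 0)⁻¹ = 0 := by
    refine ((freq hP hk).and_eventually (e1.and (e2.and (e3.and (e4.and hne))))).mono ?_
    rintro k ⟨hk2, h1, h2, h3, h4, h5⟩
    have h3' : f (k.1, -k.2) = k.1 * g (k.1⁻¹, -k.2 / k.1 ^ 3) + -k.2 / k.1 * (d : ℂ) := h3
    have h4' : g (k.1⁻¹, k.2 / k.1 ^ 3) - g (k.1⁻¹, -(k.2 / k.1 ^ 3)) =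
      2 * (k.2 / k.1 ^ 3) * b k.1⁻¹ := h4
    rw [← neg_div] at h4'
    rw [h2, h3'] at h1
    have h6 : k.1 * (g (k.1⁻¹, k.2 / k.1 ^ 3) - g (k.1⁻¹, -k.2 / k.1 ^ 3)) +
        2 * (k.2 / k.1 * d) = 2 * k.2 * a k.1 := by
      rw [← h1]; ring
    rw [h4'] at h6
    have h7 : 2 * k.2 * (a k.1 - b k.1⁻¹ * (k.1 ^ 2)⁻¹ - d * (k.1 - 0)⁻¹) = 0 := by
      rw [mul_sub, mul_sub, ← h6, sub_zero]
      field_simp
      ring
    exact (mul_eq_zero.1 h7).resolve_left (mul_ne_zero two_ne_zero hk2)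
  have hvb : v ∈ ball (0 : ℂ) 2 := by rw [mem_ball_zero_iff, hv]; norm_num
  have hvb' : v⁻¹ ∈ ball (0 : ℂ) 2 := by rw [mem_ball_zero_iff, norm_inv, hv]; norm_num
  have ca : ContinuousAt a v := ha.continuousOn.continuousAt (isOpen_ball.mem_nhds hvb)
  have cb : ContinuousAt b v⁻¹ := hb.continuousOn.continuousAt (isOpen_ball.mem_nhds hvb')
  have cF : ContinuousAt (fun w : ℂ => a w - b w⁻¹ * (w ^ 2)⁻¹ - d * (w - 0)⁻¹) v := by
    have c1 : ContinuousAt (fun w : ℂ => b w⁻¹) v :=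
      ContinuousAt.comp (f := fun w : ℂ => w⁻¹) (g := b) cb (continuousAt_inv₀ hv0)
    have c2 : ContinuousAt (fun w : ℂ => (w ^ 2)⁻¹) v :=
      (continuousAt_id.pow 2).inv₀ (pow_ne_zero 2 hv0)
    have c3 : ContinuousAt (fun w : ℂ => (w - 0)⁻¹) v :=
      (continuousAt_id.sub continuousAt_const).inv₀ (by simpa using hv0)
    exact (ca.sub (c1.mul c2)).sub (continuousAt_const.mul c3)
  have cG : Tendsto (fun k : ℂ × ℂ => a k.1 - b k.1⁻¹ * (k.1 ^ 2)⁻¹ - d * (k.1 - 0)⁻¹)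
      (𝓝[KK \ {k₀}] k₀) (𝓝 (a v - b v⁻¹ * (v ^ 2)⁻¹ - d * (v - 0)⁻¹)) := by
    have h1 : Tendsto (fun k : ℂ × ℂ => k.1) (𝓝[KK \ {k₀}] k₀) (𝓝 v) :=
      (continuousAt_fst (p := k₀)).tendsto.mono_left nhdsWithin_le_nhds
    exact cF.tendsto.comp h1
  have hz : a v - b v⁻¹ * (v ^ 2)⁻¹ - d * (v - 0)⁻¹ = 0 := by
    by_contra hcon
    have h1 := cG.eventually_ne hcon
    obtain ⟨k, h2, h3⟩ := (hfr.and_eventually h1).exists
    exact h3 h2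
  exact sub_eq_zero.1 hz

end FIN

open FIN in
theorem MM_FIN (hP : S_PARAM) (hO : S_ODD) : S_FIN := by
  intro f g d hf hg hrel
  obtain ⟨a, ha, hfa⟩ := hO f hf
  obtain ⟨b, hb, hgb⟩ := hO g hg
  have hk := fun v hv => key hP ha hb hfa hgb hrel v hv
  obtain ⟨P, hP1⟩ := ha.isExactOn_ball
  obtain ⟨Q, hQ1⟩ := hb.isExactOn_ball
  have h1 : (∮ z in C((0 : ℂ), 1), (d : ℂ) * (z - 0)⁻¹) = 0 := by
    refine circleIntegral.integral_eq_zero_of_hasDerivWithinAt' (f := fun v => P v + Q v⁻¹) ?_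
    intro v hv
    have hv1 : ‖v‖ = 1 := by simpa using hv
    have hv0 : v ≠ 0 := by
      intro h
      rw [h, norm_zero] at hv1
      exact zero_ne_one hv1
    have hvb : v ∈ ball (0 : ℂ) 2 := by rw [mem_ball_zero_iff, hv1]; norm_num
    have hvb' : v⁻¹ ∈ ball (0 : ℂ) 2 := by rw [mem_ball_zero_iff, norm_inv, hv1]; norm_num
    have d1 := hP1 v hvb
    have d2 := (hQ1 v⁻¹ hvb').comp v (hasDerivAt_inv hv0)
    have d3 := (d1.add d2).hasDerivWithinAt (s := sphere (0 : ℂ) |1|)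
    rw [← hk v hv1]
    refine d3.congr_deriv ?_
    ring
  have h2 : (∮ z in C((0 : ℂ), 1), (d : ℂ) * (z - 0)⁻¹) = d * (2 * Real.pi * Complex.I) := by
    rw [circleIntegral.integral_const_mul, circleIntegral.integral_sub_center_inv 0 one_ne_zero]
  rw [h1] at h2
  have h3 := (mul_eq_zero.1 h2.symm).resolve_right Complex.two_pi_I_ne_zero
  exact_mod_cast h3

end Pool.Agent.Y758.MM
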