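import Pool.Agent.Y758.MM.Stm

/-!
# Periodic closed discrete sets are finite modulo the lattice
-/

set_option autoImplicit false

open Set Filter Topology Metric

namespace Pool.Agent.Y758.MM

private theorem lat_neg {l : ℂ} (h : l ∈ Lat) : -l ∈ Lat := by
  obtain ⟨m, n, rfl⟩ := h
  exact ⟨-m, -n, by push_cast; ring⟩

private theorem sq_lat {z w : ℂ} (hz : z ∈ Sq) (hw : w ∈ Sq) (h : z - w ∈ Lat) : z = w := by
  obtain ⟨m, n, hmn⟩ := h
  have h1 : z.re - w.re = m := by
    have := congrArg Complex.re hmn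
    simpa using this
  have h2 : z.im - w.im = n := by
    have := congrArg Complex.im hmn
    simpa using this
  obtain ⟨a1, a2, a3, a4⟩ := hz
  obtain ⟨b1, b2, b3, b4⟩ := hw
  have hm : m = 0 := by
    have c1 : (m : ℝ) < 1 := by linarith
    have c2 : (-1 : ℝ) < m := by linarith
    have d1 : m < 1 := by exact_mod_cast c1
    have d2 : -1 < m := by exact_mod_cast c2
    omega
  have hn : n = 0 := by
    have c1 : (n : ℝ) < 1 := by linarith
    have c2 : (-1 : ℝ) < n := by linarith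
    have d1 : n < 1 := by exact_mod_cast c1
    have d2 : -1 < n := by exact_mod_cast c2
    omega
  rw [hm] at h1
  rw [hn] at h2
  apply Complex.ext
  · have : ((0 : ℤ) : ℝ) = 0 := by simp
    linarith
  · have : ((0 : ℤ) : ℝ) = 0 := by simp
    linarith

/-- **MM-FINZ** -/
theorem MM_FINZ : S_FINZ := by
  intro Z hper hcl hiso
  -- finiteness in the square
  have hK : IsCompact ((fun p : ℝ × ℝ => ((p.1 : ℂ) + (p.2 : ℂ) * Complex.I)) ''
      (Icc (0 : ℝ) 1 ×ˢ Icc (0 : ℝ) 1)) := by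
    apply (isCompact_Icc.prod isCompact_Icc).image
    fun_prop
  have hsub : Z ∩ Sq ⊆ (fun p : ℝ × ℝ => ((p.1 : ℂ) + (p.2 : ℂ) * Complex.I)) ''
      (Icc (0 : ℝ) 1 ×ˢ Icc (0 : ℝ) 1) := by
    rintro z ⟨_, h1, h2, h3, h4⟩
    exact ⟨(z.re, z.im), ⟨⟨h1, h2.le⟩, ⟨h3, h4.le⟩⟩, Complex.re_add_im z⟩
  have hfin : (Z ∩ Sq).Finite := by
    by_contra hinf
    obtain ⟨x, -, hx⟩ := Set.Infinite.exists_accPt_of_subset_isCompact hinf hK hsub
    rw [accPt_iff_frequently] at hx
    have h1 := hiso x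
    rw [eventually_nhdsWithin_iff] at h1
    obtain ⟨y, ⟨hy1, hy2⟩, hy3⟩ := (hx.and_eventually h1).exists
    exact hy3 hy1 hy2.1
  classical
  set e := hfin.toFinset.equivFin with he
  refine ⟨hfin.toFinset.card, fun i => (e.symm i : ℂ), ?_, ?_, ?_⟩
  · intro i
    have := (e.symm i).2
    rw [Set.Finite.mem_toFinset] at this
    exact this.1
  · intro z hz
    have hl : ((⌊z.re⌋ : ℂ) + (⌊z.im⌋ : ℂ) * Complex.I) ∈ Lat := ⟨⌊z.re⌋, ⌊z.im⌋, rfl⟩
    have hz' : z + -((⌊z.re⌋ : ℂ) + (⌊z.im⌋ : ℂ) * Complex.I) ∈ Z := (hper z _ (lat_neg hl)).mpr hz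
    have hsq : z + -((⌊z.re⌋ : ℂ) + (⌊z.im⌋ : ℂ) * Complex.I) ∈ Sq := by
      have r1 : (z + -((⌊z.re⌋ : ℂ) + (⌊z.im⌋ : ℂ) * Complex.I)).re = z.re - ⌊z.re⌋ := by
        simp only [Complex.add_re, Complex.neg_re, Complex.intCast_re, Complex.mul_re,
          Complex.I_re, Complex.I_im, Complex.intCast_im]
        ring
      have r2 : (z + -((⌊z.re⌋ : ℂ) + (⌊z.im⌋ : ℂ) * Complex.I)).im = z.im - ⌊z.im⌋ := by
        simp only [Complex.add_im, Complex.neg_im, Complex.intCast_re, Complex.mul_im,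
          Complex.I_re, Complex.I_im, Complex.intCast_im]
        ring
      refine ⟨?_, ?_, ?_, ?_⟩
      · rw [r1]; linarith [Int.floor_le z.re]
      · rw [r1]; linarith [Int.lt_floor_add_one z.re]
      · rw [r2]; linarith [Int.floor_le z.im]
      · rw [r2]; linarith [Int.lt_floor_add_one z.im]
    have hmem : z + -((⌊z.re⌋ : ℂ) + (⌊z.im⌋ : ℂ) * Complex.I) ∈ hfin.toFinset := by
      rw [Set.Finite.mem_toFinset]
      exact ⟨hz', hsq⟩
    refine ⟨e ⟨_, hmem⟩, _, hl, ?_⟩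
    simp only [Equiv.symm_apply_apply]
    ring
  · have hmemi : ∀ i, (e.symm i : ℂ) ∈ Z ∩ Sq := by
      intro i
      have := (e.symm i).2
      rwa [Set.Finite.mem_toFinset] at this
    have hr : ∀ j, ∃ r : ℝ, 0 < r ∧ ∀ w, ‖w - (e.symm j : ℂ)‖ < r → w ∈ Z → w = (e.symm j : ℂ) := by
      intro j
      have h1 := hiso (e.symm j : ℂ)
      rw [eventually_nhdsWithin_iff] at h1
      obtain ⟨r, hr, h2⟩ := Metric.eventually_nhds_iff.mp h1
      refine ⟨r, hr, fun w hw hwZ => ?_⟩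
      by_contra hne
      exact h2 (by rwa [dist_eq_norm]) hne hwZ
    choose r hr0 hr1 using hr
    have hev : ∀ᶠ ρ in 𝓝[>] (0 : ℝ), ∀ j, 2 * ρ < r j := by
      rw [eventually_all]
      intro j
      apply nhdsWithin_le_nhds
      have hc : ContinuousAt (fun ρ : ℝ => 2 * ρ) 0 := by fun_prop
      apply hc.eventually_lt continuousAt_const
      simpa using hr0 j
    obtain ⟨ρ₀, hρ₀, hsubs⟩ := (mem_nhdsGT_iff_exists_Ioo_subset).mp hev
    refine ⟨ρ₀, hρ₀, fun ρ h1 h2 => ?_⟩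
    have h3 : ∀ j, 2 * ρ < r j := hsubs ⟨h1, h2⟩
    intro i j l hl hij
    by_contra hcon
    push Not at hcon
    have h4 : ‖((e.symm i : ℂ) + l) - (e.symm j : ℂ)‖ < r j := lt_of_le_of_lt hcon (h3 j)
    have h5 : (e.symm i : ℂ) + l ∈ Z := (hper _ l hl).mpr (hmemi i).1
    have h6 := hr1 j _ h4 h5
    have h7 : (e.symm j : ℂ) = (e.symm i : ℂ) := by
      apply sq_lat (hmemi j).2 (hmemi i).2
      rw [← h6]
      have : (e.symm i : ℂ) + l - (e.symm i : ℂ) = l := by ring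
      rw [this]
      exact hl
    have h8 : l = 0 := by
      rw [h7] at h6
      have : (e.symm i : ℂ) + l - (e.symm i : ℂ) = 0 := by rw [h6]; ring
      simpa using this
    have h9 : i = j := by
      have : e.symm j = e.symm i := Subtype.ext h7
      exact (e.symm.injective this).symm
    rcases hij with h | h
    · exact h h9
    · exact h h8

end Pool.Agent.Y758.MM
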