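import Pool.Agent.Y758.MM.Stm2
import Pool.Agent.Helper540.Osgood

/-!
# MM-HUR: zeros and residues of a family near a zero (Hurwitz)
-/

set_option autoImplicit false

open Set Filter Topology Metric
open scoped Manifold ContDiff

namespace Pool.Agent.Y758.MM

namespace HURaux

lemma finsum_aux_pos {P : Prop} (h : P) {a : ℕ} : (∑ᶠ _ : P, a) = a := by
  classical
  rw [finsum_eq_if, if_pos h]

lemma finsum_aux_neg {P : Prop} (h : ¬ P) {a : ℕ} : (∑ᶠ _ : P, a) = 0 := by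
  classical
  rw [finsum_eq_if, if_neg h]

lemma slice_diff {f : ℂ × ℂ → ℂ} {s w : ℂ} (h : DifferentiableAt ℂ f (s, w)) :
    DifferentiableAt ℂ (fun z => f (s, z)) w := by
  have h1 : DifferentiableAt ℂ (fun z : ℂ => (s, z)) w := by fun_prop
  exact DifferentiableAt.comp (g := f) w h h1

lemma slice_deriv {f : ℂ × ℂ → ℂ} {s w : ℂ} (h : DifferentiableAt ℂ f (s, w)) :
    deriv (fun z => f (s, z)) w = fderiv ℂ f (s, w) (0, 1) := by
  have h1 : HasDerivAt (fun z : ℂ => (s, z)) ((0 : ℂ), (1 : ℂ)) w :=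
    (hasDerivAt_const w s).prodMk (hasDerivAt_id w)
  exact (h.hasFDerivAt.comp_hasDerivAt w h1).deriv

lemma close_circle {h : ℂ × ℂ → ℂ} {s₀ p : ℂ} {ρ : ℝ} (hρ : 0 < ρ)
    (hc : ∀ z ∈ sphere p ρ, ContinuousAt h (s₀, z)) {ε : ℝ} (hε : 0 < ε)
    (hcs : ∀ᶠ s in 𝓝 s₀, ContinuousOn (fun w => h (s, w)) (sphere p ρ)) :
    ∀ᶠ s in 𝓝 s₀, ‖(∮ w in C(p, ρ), h (s, w)) - ∮ w in C(p, ρ), h (s₀, w)‖ ≤ 2 * Real.pi * ρ * ε := by
  have h1 : ∀ᶠ s in 𝓝 s₀, ∀ z ∈ sphere p ρ, ‖h (s, z) - h (s₀, z)‖ < ε := by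
    apply (isCompact_sphere p ρ).eventually_forall_of_forall_eventually
      (P := fun s z => ‖h (s, z) - h (s₀, z)‖ < ε)
    intro z hz
    have h2 : ContinuousAt (fun q : ℂ × ℂ => h (q.1, q.2) - h (s₀, q.2)) (s₀, z) := by
      have h3 : ContinuousAt (fun q : ℂ × ℂ => h (s₀, q.2)) (s₀, z) := by
        have h4 : ContinuousAt (fun q : ℂ × ℂ => (s₀, q.2)) (s₀, z) := by fun_prop
        exact ContinuousAt.comp (g := h) (f := fun q : ℂ × ℂ => (s₀, q.2)) (hc z hz) h4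
      exact (hc z hz).sub h3
    have h5 := h2.norm
    have h6 : ‖h (s₀, z) - h (s₀, z)‖ < ε := by simpa using hε
    exact h5.eventually_lt continuousAt_const h6
  filter_upwards [h1, hcs] with s hs hcs'
  have h0 : ContinuousOn (fun w => h (s₀, w)) (sphere p ρ) := hcs.self_of_nhds
  rw [← circleIntegral.integral_sub (hcs'.circleIntegrable hρ.le) (h0.circleIntegrable hρ.le)]
  exact circleIntegral.norm_integral_le_of_norm_le_const hρ.le fun z hz => (hs z hz).le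

end HURaux

open HURaux in
theorem MM_HUR (hD : S_DISC) : S_HUR := by
  intro f g s₀ p hf hg hne
  -- the domain
  obtain ⟨ε, hε, hε'⟩ := Metric.eventually_nhds_iff_ball.1 (hf.and hg)
  obtain ⟨ε₁, hε₁, hε₁'⟩ := Metric.eventually_nhds_iff_ball.1 (eventually_nhdsWithin_iff.1 hne)
  have hdf : ∀ s ∈ ball s₀ ε, ∀ z ∈ ball p ε, DifferentiableAt ℂ f (s, z) ∧
      DifferentiableAt ℂ g (s, z) := by
    intro s hs z hz
    apply hε'
    rw [mem_ball, Prod.dist_eq]
    exact max_lt hs hz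
  set V : Set (ℂ × ℂ) := ball (s₀, p) ε with hV
  have hVo : IsOpen V := isOpen_ball
  have hfV : DifferentiableOn ℂ f V := fun q hq => (hε' q hq).1.differentiableWithinAt
  have hDV : DifferentiableOn ℂ (fun q => fderiv ℂ f q (0, 1)) V :=
    Pool.Agent.Helper540.differentiableOn_fderiv_apply hVo hfV (0, 1)
  have hmV : ∀ s ∈ ball s₀ ε, ∀ z ∈ ball p ε, (s, z) ∈ V := by
    intro s hs z hz
    rw [hV, mem_ball, Prod.dist_eq]
    exact max_lt hs hz
  refine ⟨min ε ε₁, lt_min hε hε₁, fun ρ hρ hρ' => ?_⟩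
  have hρε : ρ < ε := lt_of_lt_of_le hρ' (min_le_left _ _)
  have hρε₁ : ρ < ε₁ := lt_of_lt_of_le hρ' (min_le_right _ _)
  have hsub : closedBall p ρ ⊆ ball p ε := closedBall_subset_ball hρε
  have hz0 : ∀ z ∈ closedBall p ρ, z ≠ p → f (s₀, z) ≠ 0 := by
    intro z hz hzp
    exact hε₁' z (closedBall_subset_ball hρε₁ hz) hzp
  refine ⟨hz0, ?_⟩
  -- no zeros on the circle
  have hs1 : ∀ᶠ s in 𝓝 s₀, ∀ z ∈ sphere p ρ, f (s, z) ≠ 0 := by
    apply (isCompact_sphere p ρ).eventually_forall_of_forall_eventually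
      (P := fun s z => f (s, z) ≠ 0)
    intro z hz
    have h1 : ContinuousAt f (s₀, z) :=
      (hdf s₀ (mem_ball_self hε) z (hsub (sphere_subset_closedBall hz))).1.continuousAt
    have h2 : f (s₀, z) ≠ 0 := by
      apply hz0 z (sphere_subset_closedBall hz)
      intro h
      rw [h, mem_sphere, dist_self] at hz
      exact hρ.ne hz
    exact h1.eventually_ne h2
  have hs2 : ∀ᶠ s in 𝓝 s₀, s ∈ ball s₀ ε := isOpen_ball.mem_nhds (mem_ball_self hε)
  -- the disc lemma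
  have hdisc : ∀ s ∈ ball s₀ ε, (∀ z ∈ sphere p ρ, f (s, z) ≠ 0) → _ := fun s hs hsn =>
    hD (fun w => f (s, w)) (fun w => g (s, w)) p ρ hρ (fun z hz => by
      have h1 : ∀ᶠ w in 𝓝 z, w ∈ ball p ε := isOpen_ball.mem_nhds (hsub hz)
      constructor
      · filter_upwards [h1] with w hw using slice_diff (hdf s hs w hw).1
      · filter_upwards [h1] with w hw using slice_diff (hdf s hs w hw).2) hsn
  -- the integrand
  set h : ℂ × ℂ → ℂ := fun q => fderiv ℂ f q (0, 1) / f q with hh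
  have hint : ∀ s ∈ ball s₀ ε, (∮ w in C(p, ρ), deriv (fun z => f (s, z)) w / f (s, w)) =
      ∮ w in C(p, ρ), h (s, w) := by
    intro s hs
    apply circleIntegral.integral_congr hρ.le
    intro w hw
    simp only [hh]
    rw [slice_deriv (hdf s hs w (hsub (sphere_subset_closedBall hw))).1]
  have hcont : ∀ s ∈ ball s₀ ε, (∀ z ∈ sphere p ρ, f (s, z) ≠ 0) → ∀ z ∈ sphere p ρ,
      ContinuousAt h (s, z) := by
    intro s hs hsn z hz
    have hmem := hmV s hs z (hsub (sphere_subset_closedBall hz))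
    have h1 : ContinuousAt (fun q => fderiv ℂ f q (0, 1)) (s, z) :=
      (hDV.differentiableAt (hVo.mem_nhds hmem)).continuousAt
    exact h1.div (hdf s hs z (hsub (sphere_subset_closedBall hz))).1.continuousAt (hsn z hz)
  have hs0n : ∀ z ∈ sphere p ρ, f (s₀, z) ≠ 0 := hs1.self_of_nhds
  have hs3 : ∀ᶠ s in 𝓝 s₀, ‖(∮ w in C(p, ρ), h (s, w)) - ∮ w in C(p, ρ), h (s₀, w)‖ ≤
      2 * Real.pi * ρ * (1 / (2 * ρ)) := by
    apply close_circle hρ (hcont s₀ (mem_ball_self hε) hs0n) (by positivity)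
    filter_upwards [hs1, hs2] with s hs hs'
    intro z hz
    have h1 := hcont s hs' hs z hz
    have h2 : ContinuousAt (fun w : ℂ => (s, w)) z := by fun_prop
    exact (ContinuousAt.comp (g := h) (f := fun w : ℂ => (s, w)) h1 h2).continuousWithinAt
  -- the number of zeros at `s₀`
  have hn0 : (∑ᶠ z ∈ ball p ρ, analyticOrderNatAt (fun w => f (s₀, w)) z : ℕ) =
      analyticOrderNatAt (fun w => f (s₀, w)) p := by
    rw [finsum_eq_single _ p]
    · exact finsum_aux_pos (mem_ball_self hρ)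
    · intro z hz
      by_cases hzb : z ∈ ball p ρ
      · rw [finsum_aux_pos hzb]
        have hz1 : z ∈ closedBall p ρ := ball_subset_closedBall hzb
        have han : AnalyticAt ℂ (fun w => f (s₀, w)) z := by
          rw [Complex.analyticAt_iff_eventually_differentiableAt]
          filter_upwards [isOpen_ball.mem_nhds (hsub hz1)] with w hw
          exact slice_diff (hdf s₀ (mem_ball_self hε) w hw).1
        have h1 := han.analyticOrderAt_eq_zero.2 (hz0 z hz1 hz)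
        simp [analyticOrderNatAt, h1]
      · rw [finsum_aux_neg hzb]
  filter_upwards [hs1, hs2, hs3] with s hs hs' hs''
  obtain ⟨d1, d2, d3, d4⟩ := hdisc s hs' hs
  obtain ⟨e1, e2, e3, e4⟩ := hdisc s₀ (mem_ball_self hε) hs0n
  refine ⟨fun z hz => hdf s hs' z (hsub hz), hs, d1, d2, ?_, d4⟩
  rw [hint s hs'] at d3
  rw [hint s₀ (mem_ball_self hε)] at e3
  rw [← hn0]
  have h1 : ‖((∑ᶠ z ∈ ball p ρ, analyticOrderNatAt (fun w => f (s, w)) z : ℕ) : ℂ) -
      ((∑ᶠ z ∈ ball p ρ, analyticOrderNatAt (fun w => f (s₀, w)) z : ℕ) : ℂ)‖ < 1 := by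
    rw [d3, e3, ← mul_sub, norm_mul]
    have h2 : ‖(2 * Real.pi * Complex.I : ℂ)⁻¹‖ = (2 * Real.pi)⁻¹ := by
      rw [norm_inv, norm_mul, Complex.norm_I, mul_one]
      congr 1
      rw [norm_mul, Complex.norm_real, Real.norm_of_nonneg Real.pi_pos.le]
      norm_num
    rw [h2]
    have hpi := Real.pi_pos
    calc (2 * Real.pi)⁻¹ * ‖(∮ w in C(p, ρ), h (s, w)) - ∮ w in C(p, ρ), h (s₀, w)‖
        ≤ (2 * Real.pi)⁻¹ * (2 * Real.pi * ρ * (1 / (2 * ρ))) := by gcongr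
      _ = 1 / 2 := by field_simp
      _ < 1 := by norm_num
  generalize (∑ᶠ z ∈ ball p ρ, analyticOrderNatAt (fun w => f (s, w)) z : ℕ) = a at h1 ⊢
  generalize (∑ᶠ z ∈ ball p ρ, analyticOrderNatAt (fun w => f (s₀, w)) z : ℕ) = b at h1 ⊢
  have h2 : ‖(((a : ℤ) - (b : ℤ) : ℤ) : ℂ)‖ < 1 := by
    push_cast
    exact h1
  rw [Complex.norm_intCast] at h2
  have h3 : |(a : ℤ) - (b : ℤ)| < 1 := by exact_mod_cast h2
  have h4 := Int.abs_lt_one_iff.1 h3
  omega

end Pool.Agent.Y758.MM
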