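import Pool.Agent.Y758.MM.Stm2

/-!
# LOC: numbers of zeros and sums of residues near a point of the curve (helper344)
-/

set_option autoImplicit false

open Set Filter Topology Metric

namespace Pool.Agent.Y758.MM.LOC

/-- the point over `ψ s` -/
def pt (ψ : ℂ → ℂ × ℂ) (p : ℂ × ℂ) : T3 := ((ψ p.1).1, (ψ p.1).2, p.2)

/-- data of a local parametrisation -/
structure Par (k₀ : ℂ × ℂ) (ψ : ℂ → ℂ × ℂ) (D : Set ℂ) : Prop where
  isOpen : IsOpen D
  diff : DifferentiableOn ℂ ψ D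
  mem : ∀ s ∈ D, ψ s ∈ KK
  inv : ∀ s ∈ D, kc k₀ (ψ s) = s
  lt : ∀ s ∈ D, ‖(ψ s).1‖ < 2
  near : ∀ s ∈ D, ∀ᶠ k in 𝓝[KK] (ψ s), ψ (kc k₀ k) = k
  zero : (0 : ℂ) ∈ D
  at0 : ψ 0 = k₀

theorem kc_cont (k₀ : ℂ × ℂ) : Continuous (kc k₀) := by
  unfold kc
  by_cases h : k₀.2 = 0
  · simp only [if_pos h]
    exact continuous_snd
  · simp only [if_neg h]
    fun_prop

theorem exists_par (h : S_PARAM) {k₀ : ℂ × ℂ} (hk : k₀ ∈ KK) (hk2 : ‖k₀.1‖ < 2) :
    ∃ ψ D, Par k₀ ψ D := by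
  obtain ⟨r, hr, ψ, hd, h0, hm, hn⟩ := h k₀ hk
  have hc : ContinuousAt ψ 0 := (hd.differentiableAt (ball_mem_nhds 0 hr)).continuousAt
  have ht : Tendsto ψ (𝓝 0) (𝓝[KK] k₀) := by
    rw [tendsto_nhdsWithin_iff]
    refine ⟨?_, ?_⟩
    · have := hc.tendsto
      rwa [h0] at this
    · filter_upwards [ball_mem_nhds (0 : ℂ) hr] with s hs using (hm s hs).1
  have h1 : ∀ᶠ s in 𝓝 (0 : ℂ), ∀ᶠ k in 𝓝[KK] (ψ s), kc k₀ k ∈ ball (0 : ℂ) r ∧ ψ (kc k₀ k) = k :=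
    ht.eventually (eventually_eventually_nhdsWithin.2 hn)
  have h2 : ∀ᶠ s in 𝓝 (0 : ℂ), ‖(ψ s).1‖ < 2 := by
    have h3 : ContinuousAt (fun s => ‖(ψ s).1‖) 0 := (continuous_fst.continuousAt.comp hc).norm
    refine h3.eventually_lt continuousAt_const ?_
    rw [h0]
    exact hk2
  obtain ⟨r', hr', hb⟩ := Metric.eventually_nhds_iff_ball.1 (h1.and h2)
  have hsub : ball (0 : ℂ) (min r r') ⊆ ball 0 r := ball_subset_ball (min_le_left _ _)
  have hsub' : ball (0 : ℂ) (min r r') ⊆ ball 0 r' := ball_subset_ball (min_le_right _ _)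
  exact ⟨ψ, ball 0 (min r r'), isOpen_ball, hd.mono hsub, fun s hs => (hm s (hsub hs)).1,
    fun s hs => (hm s (hsub hs)).2, fun s hs => (hb s (hsub' hs)).2,
    fun s hs => (hb s (hsub' hs)).1.mono fun k hk => hk.2, mem_ball_self (lt_min hr hr'), h0⟩

section

variable {k₀ : ℂ × ℂ} {ψ : ℂ → ℂ × ℂ} {D : Set ℂ}

theorem Par.reg3 (P : Par k₀ ψ D) {p : ℂ × ℂ} (hp : p.1 ∈ D) : pt ψ p ∈ Reg3 :=
  ⟨P.mem _ hp, P.lt _ hp⟩

theorem Par.pt_diff (P : Par k₀ ψ D) {p : ℂ × ℂ} (hp : p.1 ∈ D) :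
    DifferentiableAt ℂ (pt ψ) p := by
  have h1 : DifferentiableAt ℂ ψ p.1 := P.diff.differentiableAt (P.isOpen.mem_nhds hp)
  have h2 : DifferentiableAt ℂ (fun q : ℂ × ℂ => ψ q.1) p :=
    DifferentiableAt.comp p h1 differentiableAt_fst
  have h3 : DifferentiableAt ℂ (fun q : ℂ × ℂ => (ψ q.1).1) p :=
    DifferentiableAt.comp p differentiableAt_fst h2
  have h4 : DifferentiableAt ℂ (fun q : ℂ × ℂ => (ψ q.1).2) p :=
    DifferentiableAt.comp p differentiableAt_snd h2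
  exact h3.prodMk (h4.prodMk differentiableAt_snd)

theorem Par.ev (P : Par k₀ ψ D) {p : ℂ × ℂ} (hp : p.1 ∈ D) : ∀ᶠ q : ℂ × ℂ in 𝓝 p, q.1 ∈ D :=
  (continuous_fst.tendsto p).eventually (P.isOpen.mem_nhds hp)

theorem Par.tend (P : Par k₀ ψ D) {p : ℂ × ℂ} (hp : p.1 ∈ D) :
    Tendsto (pt ψ) (𝓝 p) (𝓝[X3] (pt ψ p)) := by
  rw [tendsto_nhdsWithin_iff]
  refine ⟨(P.pt_diff hp).continuousAt.tendsto, ?_⟩
  filter_upwards [P.ev hp] with q hq using (P.reg3 hq).1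

theorem Par.hol (P : Par k₀ ψ D) {p : ℂ × ℂ} (hp : p.1 ∈ D) {f : T3 → ℂ}
    (hf : Hol f (pt ψ p)) : Hol (fun q => f (pt ψ q)) p := by
  have h1 : Tendsto (pt ψ) (𝓝 p) (𝓝 (pt ψ p)) := (P.pt_diff hp).continuousAt.tendsto
  filter_upwards [h1.eventually hf, P.ev hp] with q hq1 hq2
  exact DifferentiableAt.comp q hq1 (P.pt_diff hq2)

theorem Par.eqv (P : Par k₀ ψ D) {p : ℂ × ℂ} (hp : p.1 ∈ D) {A' B' A B : T3 → ℂ}
    (h : Eqv2 X3 A' B' A B (pt ψ p)) :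
    Eqv2 univ (fun q => A' (pt ψ q)) (fun q => B' (pt ψ q)) (fun q => A (pt ψ q))
      (fun q => B (pt ψ q)) p := by
  obtain ⟨u, w, hu, hw, hu0, he⟩ := h
  refine ⟨fun q => u (pt ψ q), fun q => w (pt ψ q), P.hol hp hu, P.hol hp hw, hu0, ?_⟩
  rw [nhdsWithin_univ]
  exact (P.tend hp).eventually he

theorem Par.sys (P : Par k₀ ψ D) {A B : Bool → T3 → T3 → ℂ} (h : PD A B) (c : Bool) :
    Sys D (fun p q => A c (pt ψ p) (pt ψ q)) (fun p q => B c (pt ψ p) (pt ψ q)) where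
  holA p hp := P.hol hp (h.holA c _ (P.reg3 hp))
  holB p hp := P.hol hp (h.holB c _ (P.reg3 hp))
  comp p hp := by
    filter_upwards [(P.tend hp).eventually (h.comp c _ (P.reg3 hp)), P.ev hp] with q hq1 hq2
    exact P.eqv hq2 hq1
  per p hp l hl := P.eqv hp (h.per c _ (P.reg3 hp) l hl)
  nz p hp := by
    intro hcon
    refine h.nz c _ (P.reg3 hp) ?_
    let φ : T3 → ℂ × ℂ := fun q => (kc k₀ (q.1, q.2.1), q.2.2)
    have hφc : Continuous φ := by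
      have h1 := kc_cont k₀
      fun_prop
    have hφp : φ (pt ψ p) = p := by
      have h1 : kc k₀ ((ψ p.1).1, (ψ p.1).2) = p.1 := P.inv _ hp
      exact Prod.ext h1 rfl
    have h1 : Tendsto φ (𝓝[X3] (pt ψ p)) (𝓝 p) := by
      have h2 := hφc.tendsto (pt ψ p)
      rw [hφp] at h2
      exact h2.mono_left nhdsWithin_le_nhds
    have h3 : Tendsto (fun q : T3 => ((q.1, q.2.1) : ℂ × ℂ)) (𝓝[X3] (pt ψ p)) (𝓝[KK] (ψ p.1)) := by
      rw [tendsto_nhdsWithin_iff]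
      refine ⟨?_, ?_⟩
      · have h4 : Continuous (fun q : T3 => ((q.1, q.2.1) : ℂ × ℂ)) := by fun_prop
        exact (h4.tendsto (pt ψ p)).mono_left nhdsWithin_le_nhds
      · filter_upwards [self_mem_nhdsWithin] with q hq using hq
    filter_upwards [h1.eventually hcon, h3.eventually (P.near _ hp)] with q hq1 hq2 hq3
    apply hq1
    have h5 : pt ψ (φ q) = q := by
      have h6 : ψ (φ q).1 = (q.1, q.2.1) := hq2
      unfold pt
      rw [h6]
    show A c (pt ψ p) (pt ψ (φ q)) ≠ 0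
    rw [h5]
    exact hq3

end

end Pool.Agent.Y758.MM.LOC

namespace Pool.Agent.Y758.MM

open LOC

theorem MM_LOC (h1 : S_PARAM) (h2 : S_CNT) (h3 : S_RES) : S_LOC := by
  intro A B hPD c k₀ hk hk2
  obtain ⟨ψ, D, P⟩ := exists_par h1 hk hk2
  have hS := P.sys hPD c
  obtain ⟨d, hd, hd0⟩ := h2 D _ _ P.isOpen hS 0 P.zero
  obtain ⟨R, hR, hRs⟩ := h3 D _ _ P.isOpen hS 0 P.zero
  refine ⟨d, R, hR, ?_, ?_⟩
  · have hkc0 : kc k₀ k₀ = 0 := by
      have := P.inv 0 P.zero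
      rwa [P.at0] at this
    have hnear : ∀ᶠ k in 𝓝[KK \ {k₀}] k₀, ψ (kc k₀ k) = k := by
      have h4 := P.near 0 P.zero
      rw [P.at0] at h4
      exact h4.filter_mono (nhdsWithin_mono _ sdiff_subset)
    have ht : Tendsto (kc k₀) (𝓝[KK \ {k₀}] k₀) (𝓝[≠] 0) := by
      rw [tendsto_nhdsWithin_iff]
      refine ⟨?_, ?_⟩
      · have h5 := (kc_cont k₀).tendsto k₀
        rw [hkc0] at h5
        exact h5.mono_left nhdsWithin_le_nhds
      · filter_upwards [hnear, self_mem_nhdsWithin] with k hk1 hk2 hk3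
        have hk3' : kc k₀ k = 0 := hk3
        rw [hk3', P.at0] at hk1
        exact hk2.2 hk1.symm
    filter_upwards [ht.eventually hd, ht.eventually hRs, hnear] with k hk1 hk2 hk3
    obtain ⟨hg, hc⟩ := hk1
    refine ⟨?_, ?_, ?_⟩
    · have h6 : Gd A c (ψ (kc k₀ k)) := hg
      rwa [hk3] at h6
    · have h6 : Cn A c (ψ (kc k₀ k)) = d := hc
      rwa [hk3] at h6
    · have h6 : Rs A B c (ψ (kc k₀ k)) = R (kc k₀ k) := hk2
      rw [hk3] at h6
      exact h6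
  · intro hG
    have hlc : ∀ e z, lc (fun p q => A c (pt ψ p) (pt ψ q)) 0 0 e z =
        A c (k₀.1, k₀.2, e) (k₀.1, k₀.2, z) := by
      intro e z
      unfold lc
      rw [iteratedDeriv_zero, Nat.factorial_zero, Nat.cast_one, div_one]
      unfold pt
      simp only [P.at0]
    have h7 := hd0 0 (fun e n hn => absurd hn (Nat.not_lt_zero n)) (fun e => by
      filter_upwards [hG e] with z hz
      rw [hlc]
      exact hz)
    rw [← h7]
    unfold Cn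
    refine finsum_congr fun e => ?_
    have h8 : (fun z => A c (k₀.1, k₀.2, e) (k₀.1, k₀.2, z)) =
        lc (fun p q => A c (pt ψ p) (pt ψ q)) 0 0 e := by
      ext z
      exact (hlc e z).symm
    rw [h8]

end Pool.Agent.Y758.MM
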