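import Pool.Agent.Y758.MM.Stm

/-!
Auxiliary statements of project MM.
-/

set_option autoImplicit false

open Set Filter Topology Metric
open scoped Manifold ContDiff

namespace Pool.Agent.Y758.MM

/-- EXP: expansion in powers of the first coordinate. -/
def S_EXP : Prop := ∀ (V : Type) [NormedAddCommGroup V] [NormedSpace ℂ V] [FiniteDimensional ℂ V]
  (f : ℂ × V → ℂ) (r : V), Hol f (0, r) → ∃ δ : ℝ, 0 < δ ∧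
  (∀ n : ℕ, DifferentiableOn ℂ
    (fun q => iteratedDeriv n (fun x => f (x, q)) 0 / (n.factorial : ℂ)) (ball r δ)) ∧
  ∀ q ∈ ball r δ, ∀ x ∈ ball (0 : ℂ) δ, DifferentiableAt ℂ f (x, q) ∧
    HasSum (fun n => iteratedDeriv n (fun x => f (x, q)) 0 / (n.factorial : ℂ) * x ^ n) (f (x, q))

/-- DISC: the argument principle and the residue theorem on a disc. -/
def S_DISC : Prop := ∀ (f g : ℂ → ℂ) (p : ℂ) (ρ : ℝ), 0 < ρ →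
  (∀ z ∈ closedBall p ρ, Hol f z ∧ Hol g z) → (∀ z ∈ sphere p ρ, f z ≠ 0) →
  (∀ z ∈ ball p ρ, ∀ᶠ w in 𝓝[≠] z, f w ≠ 0) ∧ {z | z ∈ ball p ρ ∧ f z = 0}.Finite ∧
    ((∑ᶠ z ∈ ball p ρ, analyticOrderNatAt f z : ℕ) : ℂ) =
      (2 * Real.pi * Complex.I)⁻¹ * ∮ w in C(p, ρ), deriv f w / f w ∧
    ∑ᶠ z ∈ ball p ρ, res (fun w => g w / f w) z =
      (2 * Real.pi * Complex.I)⁻¹ * ∮ w in C(p, ρ), g w / f w

/-- ODD: the odd part of a function on the curve. -/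
def S_ODD : Prop := ∀ f : ℂ × ℂ → ℂ,
  (∀ k₀ ∈ KK, ‖k₀.1‖ < 2 → ∃ R : ℂ → ℂ, AnalyticAt ℂ R 0 ∧
    ∀ᶠ k in 𝓝[KK \ {k₀}] k₀, f k = R (kc k₀ k)) →
  ∃ a : ℂ → ℂ, DifferentiableOn ℂ a (ball 0 2) ∧ ∀ k₀ ∈ KK, ‖k₀.1‖ < 2 →
    ∀ᶠ k in 𝓝[KK \ {k₀}] k₀, f k - f (k.1, -k.2) = 2 * k.2 * a k.1

/-- RESL: residues of functions with an isolated singularity. -/
def S_RESL : Prop := (∀ (f : ℂ → ℂ) (z : ℂ), (∀ᶠ w in 𝓝[≠] z, DifferentiableAt ℂ f w) →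
    ∀ᶠ r in 𝓝[>] (0 : ℝ), (2 * Real.pi * Complex.I)⁻¹ * ∮ w in C(z, r), f w = res f z) ∧
  (∀ (f g : ℂ → ℂ) (z : ℂ), (∀ᶠ w in 𝓝[≠] z, f w = g w) → res f z = res g z) ∧
  (∀ (f : ℂ → ℂ) (z : ℂ), (∀ᶠ w in 𝓝 z, DifferentiableAt ℂ f w) → res f z = 0) ∧
  (∀ (f g : ℂ → ℂ) (z : ℂ), (∀ᶠ w in 𝓝[≠] z, DifferentiableAt ℂ f w) →
    (∀ᶠ w in 𝓝[≠] z, DifferentiableAt ℂ g w) →
    res (fun w => f w + g w) z = res f z + res g z) ∧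
  (∀ (f : ℂ → ℂ) (a z : ℂ), (∀ᶠ w in 𝓝[≠] z, DifferentiableAt ℂ f w) →
    res (fun w => a * f w) z = a * res f z) ∧
  (∀ (f : ℂ → ℂ) (z : ℂ), AnalyticAt ℂ f z → (∀ᶠ w in 𝓝[≠] z, f w ≠ 0) →
    res (fun w => deriv f w / f w) z = analyticOrderNatAt f z) ∧
  (∀ (f : ℂ → ℂ) (a z : ℂ), res (fun w => f (w + a)) z = res f (z + a))

end Pool.Agent.Y758.MM
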