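import Pool.Agent.Y758.MM.PARAM
import Pool.Agent.Y758.MM.Stm2

/-!
# The odd part of a function on the curve
-/

set_option autoImplicit false

open Set Filter Topology Metric

namespace Pool.Agent.Y758.MM

private theorem kc_self (k : ℂ × ℂ) : kc k k = 0 := by
  unfold kc
  split_ifs with h
  · exact h
  · ring

private theorem kc_cont (k : ℂ × ℂ) : Continuous (kc k) := by
  unfold kc
  split_ifs with h
  · exact continuous_snd
  · fun_prop

/-- the point is not isolated on the curve -/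
private theorem kk_neBot (k : ℂ × ℂ) (hk : k ∈ KK) : (𝓝[KK \ {k}] k).NeBot := by
  obtain ⟨r, hr, ψ, hψd, hψ0, hψ, -⟩ := MM_PARAM k hk
  have hc : ContinuousAt ψ 0 :=
    (hψd.differentiableAt (ball_mem_nhds 0 hr)).continuousAt
  have ht : Tendsto ψ (𝓝[≠] (0 : ℂ)) (𝓝[KK \ {k}] k) := by
    apply tendsto_nhdsWithin_of_tendsto_nhds_of_eventually_within
    · have := hc.tendsto
      rw [hψ0] at this
      exact this.mono_left nhdsWithin_le_nhds
    · have h1 : ∀ᶠ s in 𝓝[≠] (0 : ℂ), s ∈ ball (0 : ℂ) r :=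
        nhdsWithin_le_nhds (ball_mem_nhds 0 hr)
      filter_upwards [h1, self_mem_nhdsWithin] with s hs hs0
      refine ⟨(hψ s hs).1, fun h => hs0 ?_⟩
      have h2 := (hψ s hs).2
      rw [mem_singleton_iff.mp h, kc_self] at h2
      exact h2.symm
  exact ht.neBot

/-- a square root -/
private noncomputable def rw2 (w : ℂ) : ℂ := w ^ (((2 : ℕ) : ℂ)⁻¹)

private theorem rw2_sq (w : ℂ) : rw2 w ^ 2 = w := Complex.cpow_nat_inv_pow w (by norm_num)

/-- **MM-ODD** -/
theorem MM_ODD : S_ODD := by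
  intro f hf
  choose! R hRa hRe using hf
  set F : ℂ × ℂ → ℂ := fun k => R k 0 with hF
  -- the corrected function
  have main : ∀ k₀ ∈ KK, ‖k₀.1‖ < 2 → ∀ᶠ k in 𝓝[KK] k₀, F k = R k₀ (kc k₀ k) := by
    intro k₀ hk₀ hn
    have h1 := hRe k₀ hk₀ hn
    have h2 := eventually_eventually_nhdsWithin.mpr h1
    have h3 : ∀ᶠ k in 𝓝 k₀, ContinuousAt (R k₀) (kc k₀ k) := by
      have hc := (kc_cont k₀).continuousAt (x := k₀)
      have h4 : ∀ᶠ s in 𝓝 (kc k₀ k₀), ContinuousAt (R k₀) s := by
        rw [kc_self]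
        filter_upwards [(hRa k₀ hk₀ hn).eventually_analyticAt] with s hs
        exact hs.continuousAt
      exact hc.eventually h4
    have h5 : ∀ᶠ k : ℂ × ℂ in 𝓝 k₀, ‖k.1‖ < 2 := by
      have hc : ContinuousAt (fun k : ℂ × ℂ => ‖k.1‖) k₀ := by fun_prop
      exact hc.eventually_lt continuousAt_const hn
    rw [eventually_nhdsWithin_iff] at h2 ⊢
    filter_upwards [h2, h3, h5] with k hk2 hk3 hk5 hkK
    by_cases hkk : k = k₀
    · rw [hkk, kc_self]
    · have h6 := hk2 ⟨hkK, hkk⟩
      have h7 : 𝓝[KK \ {k}] k ≤ 𝓝[KK \ {k₀}] k := by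
        have e1 : 𝓝[KK \ {k₀}] k = 𝓝[KK] k := by
          apply nhdsWithin_eq_nhdsWithin (s := {k₀}ᶜ) hkk isOpen_compl_singleton
          ext x
          constructor
          · rintro ⟨⟨a, b⟩, c⟩
            exact ⟨a, c⟩
          · rintro ⟨a, c⟩
            exact ⟨⟨a, c⟩, c⟩
        rw [e1]
        exact nhdsWithin_mono _ sdiff_subset
      have h8 : ∀ᶠ k' in 𝓝[KK \ {k}] k, f k' = R k₀ (kc k₀ k') := h7 h6
      have h9 := hRe k hkK hk5
      have h10 : Tendsto (fun k' => R k₀ (kc k₀ k')) (𝓝[KK \ {k}] k) (𝓝 (R k₀ (kc k₀ k))) := by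
        have : ContinuousAt (fun k' => R k₀ (kc k₀ k')) k :=
          ContinuousAt.comp (g := R k₀) hk3 (kc_cont k₀).continuousAt
        exact this.tendsto.mono_left nhdsWithin_le_nhds
      have h11 : Tendsto (fun k' => R k (kc k k')) (𝓝[KK \ {k}] k) (𝓝 (R k 0)) := by
        have : ContinuousAt (fun k' => R k (kc k k')) k := by
          apply ContinuousAt.comp (g := R k) _ (kc_cont k).continuousAt
          rw [kc_self]
          exact (hRa k hkK hk5).continuousAt
        have h12 := this.tendsto.mono_left (nhdsWithin_le_nhds (s := KK \ {k}))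
        rwa [kc_self] at h12
      have := kk_neBot k hkK
      have h13 : (fun k' => R k (kc k k')) =ᶠ[𝓝[KK \ {k}] k] fun k' => R k₀ (kc k₀ k') := by
        filter_upwards [h8, h9] with k' e1 e2
        rw [← e1, ← e2]
      exact tendsto_nhds_unique_of_eventuallyEq h11 h10 h13
  -- f agrees with F off the point
  have hfF : ∀ k₀ ∈ KK, ‖k₀.1‖ < 2 → ∀ᶠ k in 𝓝[KK \ {k₀}] k₀, f k = F k := by
    intro k₀ hk₀ hn
    have h1 := nhdsWithin_mono k₀ (sdiff_subset (s := KK) (t := {k₀})) (main k₀ hk₀ hn)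
    filter_upwards [hRe k₀ hk₀ hn, h1] with k e1 e2
    have e3 : F k = R k₀ (kc k₀ k) := e2
    rw [e1, e3]
  set tt : ℂ → ℂ := fun v => rw2 (1 + v ^ 6) with htt
  have htt2 : ∀ v, tt v ^ 2 = 1 + v ^ 6 := fun v => rw2_sq _
  set a : ℂ → ℂ := fun v => if tt v = 0 then deriv (R (v, 0)) 0 else
    (F (v, tt v) - F (v, -tt v)) / (2 * tt v) with ha
  have haev : ∀ v t : ℂ, t ^ 2 = 1 + v ^ 6 → t ≠ 0 → a v = (F (v, t) - F (v, -t)) / (2 * t) := by
    intro v t ht ht0
    have h1 : tt v ^ 2 = t ^ 2 := by rw [htt2, ht]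
    have h0 : tt v ≠ 0 := by
      intro h
      rw [h] at h1
      apply ht0
      have : t ^ 2 = 0 := by rw [← h1]; ring
      exact pow_eq_zero_iff (by norm_num) |>.mp this
    rw [ha]
    simp only [if_neg h0]
    rcases sq_eq_sq_iff_eq_or_eq_neg.mp h1 with h | h
    · rw [h]
    · rw [h, neg_neg]
      field_simp
      ring
  have negKK : ∀ k : ℂ × ℂ, k ∈ KK → (k.1, -k.2) ∈ KK := by
    intro k hk
    show (-k.2) ^ 2 = 1 + k.1 ^ 6
    rw [neg_sq]
    exact hk
  -- differentiability off the branch points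
  have hA : ∀ v₀ : ℂ, ‖v₀‖ < 2 → 1 + v₀ ^ 6 ≠ 0 → DifferentiableAt ℂ a v₀ := by
    intro v₀ hn hne
    have ht0 : tt v₀ ≠ 0 := by
      intro h
      apply hne
      rw [← htt2, h]
      ring
    have hk₀ : (v₀, tt v₀) ∈ KK := htt2 v₀
    have hk₁ : (v₀, -tt v₀) ∈ KK := negKK _ hk₀
    obtain ⟨r, hr, ψ, hψd, hψ0, hψ, -⟩ := MM_PARAM _ hk₀
    have hkc0 : ∀ k : ℂ × ℂ, kc (v₀, tt v₀) k = k.1 - v₀ := by
      intro k; simp [kc, ht0]
    have hkc1 : ∀ k : ℂ × ℂ, kc (v₀, -tt v₀) k = k.1 - v₀ := by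
      intro k; simp [kc, ht0]
    have hψ1 : ∀ s ∈ ball (0 : ℂ) r, (ψ s).1 = v₀ + s := by
      intro s hs
      have := (hψ s hs).2
      rw [hkc0] at this
      linear_combination this
    have hψdiff : DifferentiableAt ℂ ψ 0 := hψd.differentiableAt (ball_mem_nhds 0 hr)
    have hcψ : ContinuousAt ψ 0 := hψdiff.continuousAt
    have hball : ∀ᶠ s in 𝓝 (0 : ℂ), s ∈ ball (0 : ℂ) r := ball_mem_nhds 0 hr
    have ht1 : Tendsto ψ (𝓝 0) (𝓝[KK] (v₀, tt v₀)) := by
      apply tendsto_nhdsWithin_of_tendsto_nhds_of_eventually_within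
      · have := hcψ.tendsto
        rwa [hψ0] at this
      · filter_upwards [hball] with s hs
        exact (hψ s hs).1
    have ht2 : Tendsto (fun s => ((ψ s).1, -(ψ s).2)) (𝓝 0) (𝓝[KK] (v₀, -tt v₀)) := by
      apply tendsto_nhdsWithin_of_tendsto_nhds_of_eventually_within
      · have hc2 : ContinuousAt (fun s => ((ψ s).1, -(ψ s).2)) 0 := by fun_prop
        have := hc2.tendsto
        simp only [hψ0] at this
        exact this
      · filter_upwards [hball] with s hs
        exact negKK _ (hψ s hs).1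
    have e1 := ht1.eventually (main _ hk₀ hn)
    have e2 := ht2.eventually (main _ hk₁ hn)
    have e3 : ∀ᶠ s in 𝓝 (0 : ℂ), (ψ s).2 ≠ 0 := by
      have hc3 : ContinuousAt (fun s => (ψ s).2) 0 := by fun_prop
      apply hc3.eventually_ne
      rw [hψ0]
      exact ht0
    have e4 : ∀ᶠ s in 𝓝 (0 : ℂ), a (v₀ + s) =
        (R (v₀, tt v₀) s - R (v₀, -tt v₀) s) / (2 * (ψ s).2) := by
      filter_upwards [e1, e2, e3, hball] with s h1 h2 h3 hs
      have hs1 := hψ1 s hs
      have hs2 : (ψ s).2 ^ 2 = 1 + (ψ s).1 ^ 6 := (hψ s hs).1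
      rw [hkc0, hs1] at h1
      rw [hkc1] at h2
      simp only [hs1] at h2
      have g1 : v₀ + s - v₀ = s := by ring
      rw [g1] at h1 h2
      have hψs : ψ s = (v₀ + s, (ψ s).2) := by
        ext
        · exact hs1
        · rfl
      rw [haev (v₀ + s) (ψ s).2 (by rw [hs2, hs1]) h3, ← h1, ← h2, ← hψs]
    have e5 : DifferentiableAt ℂ (fun s => (R (v₀, tt v₀) s - R (v₀, -tt v₀) s) /
        (2 * (ψ s).2)) 0 := by
      have d1 : DifferentiableAt ℂ (R (v₀, tt v₀)) 0 := (hRa _ hk₀ hn).differentiableAt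
      have d2 : DifferentiableAt ℂ (R (v₀, -tt v₀)) 0 := (hRa _ hk₁ hn).differentiableAt
      have d3 : DifferentiableAt ℂ (fun s => (ψ s).2) 0 := hψdiff.snd
      apply (d1.sub d2).div (d3.const_mul 2)
      rw [hψ0]
      simpa using ht0
    have e6 : DifferentiableAt ℂ (fun s => a (v₀ + s)) 0 :=
      e5.congr_of_eventuallyEq e4
    have e7 : DifferentiableAt ℂ (fun v => (fun s => a (v₀ + s)) (v - v₀)) v₀ := by
      apply DifferentiableAt.fun_comp' v₀ (g := fun s => a (v₀ + s))
      · rw [sub_self]; exact e6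
      · fun_prop
    have e8 : (fun v => (fun s => a (v₀ + s)) (v - v₀)) = a := by
      funext v
      simp
    rwa [e8] at e7
  -- the branch points
  have hB : ∀ v₀ : ℂ, ‖v₀‖ < 2 → 1 + v₀ ^ 6 = 0 → DifferentiableAt ℂ a v₀ := by
    intro v₀ hn h0
    have hk₀ : (v₀, (0 : ℂ)) ∈ KK := by
      show (0 : ℂ) ^ 2 = 1 + v₀ ^ 6
      rw [h0]; ring
    have hv0 : v₀ ≠ 0 := by
      intro h
      rw [h] at h0
      norm_num at h0
    have hkc : ∀ k : ℂ × ℂ, kc (v₀, (0 : ℂ)) k = k.2 := by
      intro k; simp [kc]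
    have htt0 : tt v₀ = 0 := by
      have : tt v₀ ^ 2 = 0 := by rw [htt2, h0]
      exact pow_eq_zero_iff (by norm_num) |>.mp this
    -- tt tends to 0
    have htlim : Tendsto tt (𝓝 v₀) (𝓝 0) := by
      rw [tendsto_zero_iff_norm_tendsto_zero]
      have h1 : ∀ v, ‖tt v‖ = Real.sqrt ‖1 + v ^ 6‖ := by
        intro v
        rw [← htt2 v, norm_pow, Real.sqrt_sq (norm_nonneg _)]
      have h2 : Tendsto (fun v : ℂ => Real.sqrt ‖1 + v ^ 6‖) (𝓝 v₀) (𝓝 (Real.sqrt ‖1 + v₀ ^ 6‖)) := by
        have : Continuous (fun v : ℂ => Real.sqrt ‖1 + v ^ 6‖) := by fun_prop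
        exact this.tendsto v₀
      rw [h0, norm_zero, Real.sqrt_zero] at h2
      refine h2.congr (fun v => (h1 v).symm)
    -- the difference quotient
    set q : ℂ → ℂ := fun t => if t = 0 then deriv (R (v₀, 0)) 0 else
      (R (v₀, 0) t - R (v₀, 0) (-t)) / (2 * t) with hq
    have hqc : ContinuousAt q 0 := by
      have hd : HasDerivAt (R (v₀, 0)) (deriv (R (v₀, 0)) 0) 0 :=
        (hRa _ hk₀ hn).differentiableAt.hasDerivAt
      rw [hasDerivAt_iff_tendsto_slope] at hd
      have hneg : Tendsto (fun t : ℂ => -t) (𝓝[≠] (0 : ℂ)) (𝓝[≠] (0 : ℂ)) := by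
        apply tendsto_nhdsWithin_of_tendsto_nhds_of_eventually_within
        · have : ContinuousAt (fun t : ℂ => -t) 0 := by fun_prop
          have h := this.tendsto
          rw [neg_zero] at h
          exact h.mono_left nhdsWithin_le_nhds
        · filter_upwards [self_mem_nhdsWithin] with t ht
          simpa using ht
      have hd2 := hd.comp hneg
      have hd3 := (hd.add hd2).const_mul (1 / 2 : ℂ)
      rw [continuousAt_iff_punctured_nhds]
      have hq0 : q 0 = (1 / 2 : ℂ) * (deriv (R (v₀, 0)) 0 + deriv (R (v₀, 0)) 0) := by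
        rw [hq]
        simp only [if_true]
        ring
      rw [hq0]
      refine hd3.congr' ?_
      filter_upwards [self_mem_nhdsWithin] with t ht
      have ht' : t ≠ 0 := ht
      rw [hq]
      simp only [if_neg ht', Function.comp, slope_def_field, sub_zero]
      field_simp
      ring
    have hqt : ∀ᶠ v in 𝓝 v₀, a v = q (tt v) := by
      have e1 : Tendsto (fun v => (v, tt v)) (𝓝 v₀) (𝓝[KK] (v₀, (0 : ℂ))) := by
        apply tendsto_nhdsWithin_of_tendsto_nhds_of_eventually_within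
        · exact tendsto_id.prodMk_nhds htlim
        · exact Eventually.of_forall (fun v => htt2 v)
      have e2 : Tendsto (fun v => (v, -tt v)) (𝓝 v₀) (𝓝[KK] (v₀, (0 : ℂ))) := by
        apply tendsto_nhdsWithin_of_tendsto_nhds_of_eventually_within
        · have := htlim.neg
          rw [neg_zero] at this
          exact tendsto_id.prodMk_nhds this
        · exact Eventually.of_forall (fun v => negKK (v, tt v) (htt2 v))
      have e3 := e1.eventually (main _ hk₀ hn)
      have e4 := e2.eventually (main _ hk₀ hn)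
      have e5 : ∀ᶠ v in 𝓝 v₀, v ≠ v₀ → 1 + v ^ 6 ≠ 0 := by
        have hd : HasDerivAt (fun v : ℂ => 1 + v ^ 6) (6 * v₀ ^ 5) v₀ := by
          have := (hasDerivAt_pow 6 v₀).const_add 1
          simpa using this
        have := hd.eventually_ne (c := 0) (by
          apply mul_ne_zero (by norm_num)
          exact pow_ne_zero 5 hv0)
        rw [eventually_nhdsWithin_iff] at this
        exact this
      filter_upwards [e3, e4, e5] with v h3 h4 h5
      by_cases hv : v = v₀
      · rw [hv, htt0]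
        rw [ha, hq]
        simp [htt0]
      · have ht0 : tt v ≠ 0 := by
          intro h
          apply h5 hv
          rw [← htt2, h]
          ring
        rw [haev v (tt v) (htt2 v) ht0, hq]
        simp only [if_neg ht0]
        rw [h3, h4, hkc, hkc]
    have hca : ContinuousAt a v₀ := by
      have h1 : ContinuousAt (fun v => q (tt v)) v₀ := by
        apply ContinuousAt.comp (g := q)
        · rw [htt0]; exact hqc
        · have : ContinuousAt tt v₀ := by
            rw [ContinuousAt, htt0]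
            exact htlim
          exact this
      exact h1.congr (hqt.mono (fun v hv => hv.symm))
    have hpd : ∀ᶠ v in 𝓝[≠] v₀, DifferentiableAt ℂ a v := by
      have e5 : ∀ᶠ v in 𝓝[≠] v₀, 1 + v ^ 6 ≠ 0 := by
        have hd : HasDerivAt (fun v : ℂ => 1 + v ^ 6) (6 * v₀ ^ 5) v₀ := by
          have := (hasDerivAt_pow 6 v₀).const_add 1
          simpa using this
        exact hd.eventually_ne (c := 0) (by
          apply mul_ne_zero (by norm_num)
          exact pow_ne_zero 5 hv0)
      have e6 : ∀ᶠ v : ℂ in 𝓝[≠] v₀, ‖v‖ < 2 := by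
        apply nhdsWithin_le_nhds
        have hc : ContinuousAt (fun v : ℂ => ‖v‖) v₀ := by fun_prop
        exact hc.eventually_lt continuousAt_const hn
      filter_upwards [e5, e6] with v h1 h2
      exact hA v h2 h1
    exact (Complex.analyticAt_of_differentiable_on_punctured_nhds_of_continuousAt hpd
      hca).differentiableAt
  refine ⟨a, ?_, ?_⟩
  · intro v hv
    have hn : ‖v‖ < 2 := by simpa using hv
    by_cases h : 1 + v ^ 6 = 0
    · exact (hB v hn h).differentiableWithinAt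
    · exact (hA v hn h).differentiableWithinAt
  · intro k₀ hk₀ hn
    have h1 := hfF k₀ hk₀ hn
    have h2 := hfF (k₀.1, -k₀.2) (negKK _ hk₀) hn
    have h3 : Tendsto (fun k : ℂ × ℂ => (k.1, -k.2)) (𝓝[KK \ {k₀}] k₀)
        (𝓝[KK \ {(k₀.1, -k₀.2)}] (k₀.1, -k₀.2)) := by
      apply tendsto_nhdsWithin_of_tendsto_nhds_of_eventually_within
      · have : ContinuousAt (fun k : ℂ × ℂ => (k.1, -k.2)) k₀ := by fun_prop
        exact this.tendsto.mono_left nhdsWithin_le_nhds
      · filter_upwards [self_mem_nhdsWithin] with k hk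
        refine ⟨negKK _ hk.1, fun h => hk.2 ?_⟩
        have h' : (k.1, -k.2) = (k₀.1, -k₀.2) := h
        obtain ⟨e1, e2⟩ := Prod.mk.inj h'
        exact Prod.ext e1 (neg_injective e2)
    have h4 := h3.eventually h2
    filter_upwards [h1, h4, self_mem_nhdsWithin] with k e1 e2 hk
    rw [e1, e2]
    by_cases ht : k.2 = 0
    · rw [ht]
      have : (k.1, -(0 : ℂ)) = k := by
        rw [neg_zero, ← ht]
      rw [this]
      ring
    · have hkk : k.2 ^ 2 = 1 + k.1 ^ 6 := hk.1
      rw [haev k.1 k.2 hkk ht]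
      field_simp

end Pool.Agent.Y758.MM
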