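import Pool.Agent.Y758.MM.Stm

/-!
# Local parametrisation of the curve `t² = 1 + v⁶`
-/

set_option autoImplicit false

open Set Filter Topology Metric

namespace Pool.Agent.Y758.MM

/-- the principal root of order `N` -/
private noncomputable def rt (N : ℕ) (w : ℂ) : ℂ := Complex.exp (Complex.log w / N)

private theorem rt_pow (N : ℕ) (hN : N ≠ 0) (w : ℂ) (hw : w ≠ 0) : rt N w ^ N = w := by
  unfold rt
  rw [← Complex.exp_nat_mul]
  have hN' : (N : ℂ) ≠ 0 := by exact_mod_cast hN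
  rw [mul_div_cancel₀ _ hN', Complex.exp_log hw]

private theorem rt_one (N : ℕ) : rt N 1 = 1 := by
  unfold rt
  simp

private theorem rt_of_pow (N : ℕ) (hN : N ≠ 0) : ∀ᶠ z : ℂ in 𝓝 1, rt N (z ^ N) = z := by
  have hc : ContinuousAt (fun z : ℂ => ((N : ℂ) * Complex.log z).im) 1 := by
    apply Complex.continuous_im.continuousAt.comp
    apply ContinuousAt.mul continuousAt_const
    exact continuousAt_clog (by simp)
  have h0 : ((N : ℂ) * Complex.log 1).im = 0 := by simp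
  have h1 : ∀ᶠ z : ℂ in 𝓝 1, ((N : ℂ) * Complex.log z).im ∈ Ioo (-Real.pi) Real.pi := by
    apply hc
    show Ioo (-Real.pi) Real.pi ∈ 𝓝 ((N : ℂ) * Complex.log 1).im
    rw [h0]
    exact Ioo_mem_nhds (by linarith [Real.pi_pos]) Real.pi_pos
  have h2 : ∀ᶠ z : ℂ in 𝓝 1, z ≠ 0 := isOpen_ne.mem_nhds one_ne_zero
  filter_upwards [h1, h2] with z hz hz0
  unfold rt
  have h3 : z ^ N = Complex.exp ((N : ℂ) * Complex.log z) := by
    rw [Complex.exp_nat_mul, Complex.exp_log hz0]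
  have hN' : (N : ℂ) ≠ 0 := by exact_mod_cast hN
  rw [h3, Complex.log_exp hz.1 hz.2.le, mul_div_cancel_left₀ _ hN', Complex.exp_log hz0]

private theorem rt_diff (N : ℕ) (w : ℂ) (hw : w ∈ Complex.slitPlane) :
    DifferentiableAt ℂ (rt N) w := by
  unfold rt
  apply DifferentiableAt.cexp
  exact (Complex.differentiableAt_log hw).div_const _

/-- **MM-PARAM** -/
theorem MM_PARAM : S_PARAM := by
  intro k₀ hk₀
  obtain ⟨v₀, t₀⟩ := k₀
  have hk : t₀ ^ 2 = 1 + v₀ ^ 6 := hk₀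
  by_cases ht : t₀ = 0
  · -- the branch points
    subst ht
    have hv6 : v₀ ^ 6 = -1 := by linear_combination -hk
    have hv0 : v₀ ≠ 0 := by
      intro h
      rw [h] at hv6
      norm_num at hv6
    have hcont : ContinuousAt (fun s : ℂ => 1 - s ^ 2) 0 := by fun_prop
    have hs : ∀ᶠ s : ℂ in 𝓝 0, 1 - s ^ 2 ∈ Complex.slitPlane := by
      apply hcont
      apply Complex.isOpen_slitPlane.mem_nhds
      simp
    obtain ⟨r, hr, hball⟩ := Metric.eventually_nhds_iff_ball.mp hs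
    refine ⟨r, hr, fun s => (v₀ * rt 6 (1 - s ^ 2), s), ?_, ?_, ?_, ?_⟩
    · intro s hs'
      have hd : DifferentiableAt ℂ (fun s : ℂ => rt 6 (1 - s ^ 2)) s := by
        have h1 := rt_diff 6 _ (hball s hs')
        have h2 : DifferentiableAt ℂ (fun s : ℂ => 1 - s ^ 2) s := by fun_prop
        exact DifferentiableAt.fun_comp' s h1 h2
      exact ((hd.const_mul v₀).prodMk differentiableAt_id).differentiableWithinAt
    · simp [rt_one]
    · intro s hs'
      have h1 : 1 - s ^ 2 ≠ 0 := Complex.slitPlane_ne_zero (hball s hs')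
      constructor
      · show s ^ 2 = 1 + (v₀ * rt 6 (1 - s ^ 2)) ^ 6
        rw [mul_pow, rt_pow 6 (by norm_num) _ h1, hv6]
        ring
      · simp [kc]
    · have hc2 : ContinuousAt (fun k : ℂ × ℂ => k.1 / v₀) (v₀, 0) := by fun_prop
      have hR := rt_of_pow 6 (by norm_num)
      have e1 : ∀ᶠ k : ℂ × ℂ in 𝓝 (v₀, (0 : ℂ)), rt 6 ((k.1 / v₀) ^ 6) = k.1 / v₀ := by
        have : Tendsto (fun k : ℂ × ℂ => k.1 / v₀) (𝓝 (v₀, (0 : ℂ))) (𝓝 1) := by
          have h := hc2.tendsto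
          simpa [hv0] using h
        exact this.eventually hR
      have e2 : ∀ᶠ k : ℂ × ℂ in 𝓝 (v₀, (0 : ℂ)), k.2 ∈ ball (0 : ℂ) r := by
        have hc3 : ContinuousAt (fun k : ℂ × ℂ => k.2) (v₀, (0 : ℂ)) := by fun_prop
        exact hc3 (ball_mem_nhds _ hr)
      have e3 : ∀ᶠ k : ℂ × ℂ in 𝓝[KK] (v₀, (0 : ℂ)), k ∈ KK := eventually_mem_nhdsWithin
      filter_upwards [e3, nhdsWithin_le_nhds e1, nhdsWithin_le_nhds e2] with k hk1 hk2 hk3
      have hkk : k.2 ^ 2 = 1 + k.1 ^ 6 := hk1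
      have hkc : kc (v₀, 0) k = k.2 := by simp [kc]
      rw [hkc]
      refine ⟨hk3, ?_⟩
      have h4 : 1 - k.2 ^ 2 = (k.1 / v₀) ^ 6 := by
        rw [div_pow, hv6, hkk]
        ring
      rw [h4, hk2]
      ext
      · simp only
        field_simp
      · rfl
  · -- the other points
    have hcont : ContinuousAt (fun s : ℂ => (1 + (v₀ + s) ^ 6) / t₀ ^ 2) 0 := by
      fun_prop
    have h0 : (1 + (v₀ + 0) ^ 6) / t₀ ^ 2 = 1 := by
      rw [add_zero, ← hk]
      field_simp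
    have hs : ∀ᶠ s : ℂ in 𝓝 0, (1 + (v₀ + s) ^ 6) / t₀ ^ 2 ∈ Complex.slitPlane := by
      apply hcont
      apply Complex.isOpen_slitPlane.mem_nhds
      simp only
      rw [h0]
      simp
    obtain ⟨r, hr, hball⟩ := Metric.eventually_nhds_iff_ball.mp hs
    refine ⟨r, hr, fun s => (v₀ + s, t₀ * rt 2 ((1 + (v₀ + s) ^ 6) / t₀ ^ 2)), ?_, ?_, ?_, ?_⟩
    · intro s hs'
      have hd : DifferentiableAt ℂ (fun s : ℂ => rt 2 ((1 + (v₀ + s) ^ 6) / t₀ ^ 2)) s := by
        have h1 := rt_diff 2 _ (hball s hs')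
        have h2 : DifferentiableAt ℂ (fun s : ℂ => (1 + (v₀ + s) ^ 6) / t₀ ^ 2) s := by fun_prop
        exact DifferentiableAt.fun_comp' s h1 h2
      have h3 : DifferentiableAt ℂ (fun s : ℂ => v₀ + s) s := by fun_prop
      exact (h3.prodMk (hd.const_mul t₀)).differentiableWithinAt
    · simp only
      rw [h0, rt_one]
      simp
    · intro s hs'
      have h1 : (1 + (v₀ + s) ^ 6) / t₀ ^ 2 ≠ 0 := Complex.slitPlane_ne_zero (hball s hs')
      constructor
      · show (t₀ * rt 2 ((1 + (v₀ + s) ^ 6) / t₀ ^ 2)) ^ 2 = 1 + (v₀ + s) ^ 6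
        rw [mul_pow, rt_pow 2 (by norm_num) _ h1]
        field_simp
      · simp [kc, ht]
    · have hR := rt_of_pow 2 (by norm_num)
      have hc2 : ContinuousAt (fun k : ℂ × ℂ => k.2 / t₀) (v₀, t₀) := by fun_prop
      have e1 : ∀ᶠ k : ℂ × ℂ in 𝓝 (v₀, t₀), rt 2 ((k.2 / t₀) ^ 2) = k.2 / t₀ := by
        have : Tendsto (fun k : ℂ × ℂ => k.2 / t₀) (𝓝 (v₀, t₀)) (𝓝 1) := by
          have h := hc2.tendsto
          simpa [ht] using h
        exact this.eventually hR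
      have e2 : ∀ᶠ k : ℂ × ℂ in 𝓝 (v₀, t₀), k.1 - v₀ ∈ ball (0 : ℂ) r := by
        have hc3 : ContinuousAt (fun k : ℂ × ℂ => k.1 - v₀) (v₀, t₀) := by fun_prop
        apply hc3
        simp only [sub_self]
        exact ball_mem_nhds _ hr
      have e3 : ∀ᶠ k : ℂ × ℂ in 𝓝[KK] (v₀, t₀), k ∈ KK := eventually_mem_nhdsWithin
      filter_upwards [e3, nhdsWithin_le_nhds e1, nhdsWithin_le_nhds e2] with k hk1 hk2 hk3
      have hkk : k.2 ^ 2 = 1 + k.1 ^ 6 := hk1
      have hkc : kc (v₀, t₀) k = k.1 - v₀ := by simp [kc, ht]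
      rw [hkc]
      refine ⟨hk3, ?_⟩
      have h4 : (1 + (v₀ + (k.1 - v₀)) ^ 6) / t₀ ^ 2 = (k.2 / t₀) ^ 2 := by
        rw [div_pow, hkk]
        congr 2
        ring
      rw [h4, hk2]
      ext
      · simp only
        ring
      · simp only
        field_simp

end Pool.Agent.Y758.MM
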