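import Pool.Agent.Y758.MM.Stm2

/-!
POS: there are zeros.
-/

set_option autoImplicit false

open Set Filter Topology Metric
open scoped Manifold ContDiff

namespace Pool.Agent.Y758.MM

namespace PosAux

/-- Identity theorem on a convex open set. -/
theorem ident {f : ℂ × ℂ → ℂ} {U : Set (ℂ × ℂ)}
    (hU : IsOpen U) (hc : Convex ℝ U) (hf : ∀ q ∈ U, DifferentiableAt ℂ f q) {q : ℂ × ℂ}
    (hq : q ∈ U) (h0 : ∀ᶠ y in 𝓝 q, f y = 0) : ∀ y ∈ U, f y = 0 := by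
  intro y hy
  set L : ℂ → ℂ × ℂ := fun t => q + t • (y - q) with hL
  have hLd : ∀ t, DifferentiableAt ℂ L t := by
    intro t
    have h := ((hasDerivAt_id t).smul_const (y - q)).const_add q
    exact h.differentiableAt
  have hLc : Continuous L := by fun_prop
  have hWo : IsOpen (L ⁻¹' U) := hU.preimage hLc
  have hWc : Convex ℝ (L ⁻¹' U) := by
    intro a ha b hb s t hs ht hst
    have h := hc ha hb hs ht hst
    have he : s • L a + t • L b = L (s • a + t • b) := by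
      have hs' : (s : ℂ) + (t : ℂ) = 1 := by exact_mod_cast hst
      ext
      · simp [hL]
        linear_combination (q.1) * hs'
      · simp [hL]
        linear_combination (q.2) * hs'
    rw [he] at h
    exact h
  have hd : DifferentiableOn ℂ (fun t => f (L t)) (L ⁻¹' U) := by
    intro t ht
    exact ((hf _ ht).comp t (hLd t)).differentiableWithinAt
  have han : AnalyticOnNhd ℂ (fun t => f (L t)) (L ⁻¹' U) := hd.analyticOnNhd hWo
  have hL0 : L 0 = q := by simp [hL]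
  have hL1 : L 1 = y := by simp [hL]
  have h00 : (fun t => f (L t)) =ᶠ[𝓝 0] 0 := by
    have h1 : Tendsto L (𝓝 0) (𝓝 q) := by
      have := hLc.tendsto 0
      rwa [hL0] at this
    filter_upwards [h1.eventually h0] with t ht using ht
  have h0W : (0 : ℂ) ∈ L ⁻¹' U := by
    show L 0 ∈ U
    rw [hL0]; exact hq
  have h1W : (1 : ℂ) ∈ L ⁻¹' U := by
    show L 1 ∈ U
    rw [hL1]; exact hy
  have h := han.eqOn_zero_of_preconnected_of_eventuallyEq_zero hWc.isPreconnected h0W h00 h1W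
  simpa [hL1] using h

/-- scalar families -/
structure SS (D : Set ℂ) (A : ℂ × ℂ → ℂ × ℂ → ℂ) : Prop where
  hol : ∀ p, p.1 ∈ D → Hol (A p) p
  comp : ∀ p, p.1 ∈ D → ∀ᶠ q in 𝓝 p, Eqv univ (A q) (A p) q
  per : ∀ p, p.1 ∈ D → ∀ l ∈ Lat, Eqv univ (fun q => A (p.1, p.2 + l) (q.1, q.2 + l)) (A p) p

theorem SS.toSys {D : Set ℂ} {A : ℂ × ℂ → ℂ × ℂ → ℂ} (h : SS D A)
    (hnz : ∀ p, p.1 ∈ D → ∃ᶠ q in 𝓝 p, A p q ≠ 0) : Sys D A (fun _ _ => 0) where
  holA := h.hol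
  holB := fun p _ => Eventually.of_forall fun q => differentiableAt_const _
  comp := by
    intro p hp
    filter_upwards [h.comp p hp] with q hq
    obtain ⟨u, hu, hu0, hev⟩ := hq
    refine ⟨u, fun _ => 0, hu, Eventually.of_forall fun q => differentiableAt_const _, hu0, ?_⟩
    filter_upwards [hev] with y hy
    exact ⟨hy, by simp⟩
  per := by
    intro p hp l hl
    obtain ⟨u, hu, hu0, hev⟩ := h.per p hp l hl
    refine ⟨u, fun _ => 0, hu, Eventually.of_forall fun q => differentiableAt_const _, hu0, ?_⟩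
    filter_upwards [hev] with y hy
    exact ⟨hy, by simp⟩
  nz := hnz

theorem hol_cont {V : Type} [NormedAddCommGroup V] [NormedSpace ℂ V] {u : V → ℂ} {p : V}
    (h : Hol u p) : ContinuousAt u p := h.self_of_nhds.continuousAt

/-- Identity theorem for families. -/
theorem SS.nz {D : Set ℂ} {A : ℂ × ℂ → ℂ × ℂ → ℂ} (h : SS D A) (hDo : IsOpen D)
    (hDc : IsPreconnected D) {p₀ : ℂ × ℂ} (hp₀ : p₀.1 ∈ D) (h0 : ∃ᶠ q in 𝓝 p₀, A p₀ q ≠ 0) :
    ∀ p, p.1 ∈ D → ∃ᶠ q in 𝓝 p, A p q ≠ 0 := by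
  intro p hp hne
  have hne' : ∀ᶠ q in 𝓝 p, A p q = 0 := by
    filter_upwards [hne] with q hq using not_not.1 hq
  set W : Set (ℂ × ℂ) := D ×ˢ univ with hW
  have hWo : IsOpen W := hDo.prod isOpen_univ
  have hWc : IsPreconnected W := hDc.prod isPreconnected_univ
  set Z : Set (ℂ × ℂ) := {p | ∀ᶠ q in 𝓝 p, A p q = 0} with hZ
  -- `W ∩ Z` is open
  have h1 : ∀ p ∈ W, p ∈ Z → ∀ᶠ q in 𝓝 p, q ∈ Z := by
    intro p hp hpZ
    filter_upwards [h.comp p hp.1, hpZ.eventually_nhds] with q hq1 hq2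
    obtain ⟨u, hu, hu0, hev⟩ := hq1
    rw [nhdsWithin_univ] at hev
    filter_upwards [hev, hq2] with y hy1 hy2
    rw [hy1, hy2, mul_zero]
  have h2 : ∀ p ∈ W, p ∉ Z → ∀ᶠ q in 𝓝 p, q ∉ Z := by
    intro p hp hpZ
    obtain ⟨r, hr, hb⟩ := Metric.eventually_nhds_iff_ball.1 ((h.hol p hp.1).and (h.comp p hp.1))
    filter_upwards [ball_mem_nhds p hr] with q hq hqZ
    apply hpZ
    obtain ⟨u, hu, hu0, hev⟩ := (hb q hq).2
    rw [nhdsWithin_univ] at hev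
    have h3 : ∀ᶠ y in 𝓝 q, A p y = 0 := by
      filter_upwards [hev, (hol_cont hu).eventually_ne hu0, hqZ] with y hy1 hy2 hy3
      rw [hy3] at hy1
      exact (mul_eq_zero.1 hy1.symm).resolve_left hy2
    have h4 := ident isOpen_ball (convex_ball p r) (fun y hy => (hb y hy).1) hq h3
    filter_upwards [ball_mem_nhds p hr] with y hy using h4 y hy
  have hO1 : IsOpen (W ∩ Z) := by
    rw [isOpen_iff_mem_nhds]
    intro p hp
    filter_upwards [hWo.mem_nhds hp.1, h1 p hp.1 hp.2] with q h3 h4 using ⟨h3, h4⟩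
  have hO2 : IsOpen (W ∩ Zᶜ) := by
    rw [isOpen_iff_mem_nhds]
    intro p hp
    filter_upwards [hWo.mem_nhds hp.1, h2 p hp.1 hp.2] with q h3 h4 using ⟨h3, h4⟩
  have hsub : W ⊆ (W ∩ Z) ∪ (W ∩ Zᶜ) := by
    intro p hp
    by_cases hz : p ∈ Z
    · exact Or.inl ⟨hp, hz⟩
    · exact Or.inr ⟨hp, hz⟩
  have hpW : p ∈ W := ⟨hp, mem_univ _⟩
  have hp0W : p₀ ∈ W := ⟨hp₀, mem_univ _⟩
  have hp0Z : p₀ ∉ Z := by
    intro hz
    apply h0
    filter_upwards [hz] with q hq using not_not.2 hq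
  obtain ⟨y, -, hy1, hy2⟩ := hWc _ _ hO1 hO2 hsub ⟨p, hpW, hpW, hne'⟩ ⟨p₀, hp0W, hp0W, hp0Z⟩
  exact hy2.2 hy1.2

/-- restriction to the curve over `s` -/
theorem SS.an {D : Set ℂ} {A : ℂ × ℂ → ℂ × ℂ → ℂ} (h : SS D A) {s : ℂ} (hs : s ∈ D) (e : ℂ) :
    AnalyticAt ℂ (fun z => A (s, e) (s, z)) e := by
  have h1 := h.hol (s, e) hs
  have hc : Continuous fun z : ℂ => ((s, z) : ℂ × ℂ) := by fun_prop
  have h2 : ∀ᶠ z in 𝓝 e, DifferentiableAt ℂ (fun z => A (s, e) (s, z)) z := by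
    filter_upwards [(hc.tendsto e).eventually h1] with z hz
    exact hz.comp z ((differentiableAt_const s).prodMk differentiableAt_id)
  obtain ⟨U, hU, hUo, heU⟩ := _root_.eventually_nhds_iff.1 h2
  have h3 : DifferentiableOn ℂ (fun z => A (s, e) (s, z)) U :=
    fun z hz => (hU z hz).differentiableWithinAt
  exact h3.analyticAt (hUo.mem_nhds heU)

theorem SS.comp1 {D : Set ℂ} {A : ℂ × ℂ → ℂ × ℂ → ℂ} (h : SS D A) {s : ℂ} (hs : s ∈ D) (e : ℂ) :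
    ∀ᶠ e' in 𝓝 e, ∃ u : ℂ → ℂ, ContinuousAt u e' ∧ u e' ≠ 0 ∧
      ∀ᶠ z in 𝓝 e', A (s, e') (s, z) = u z * A (s, e) (s, z) := by
  have hc : Continuous fun z : ℂ => ((s, z) : ℂ × ℂ) := by fun_prop
  filter_upwards [(hc.tendsto e).eventually (h.comp (s, e) hs)] with e' he'
  obtain ⟨u, hu, hu0, hev⟩ := he'
  rw [nhdsWithin_univ] at hev
  refine ⟨fun z => u (s, z), ?_, hu0, (hc.tendsto e').eventually hev⟩
  exact ContinuousAt.comp (f := fun z : ℂ => ((s, z) : ℂ × ℂ)) (g := u) (hol_cont hu)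
    hc.continuousAt

/-- If the function over `s` does not vanish identically somewhere, then it has isolated zeros
everywhere. -/
theorem SS.gd_of {D : Set ℂ} {A : ℂ × ℂ → ℂ × ℂ → ℂ} (h : SS D A) {s : ℂ} (hs : s ∈ D) {e₀ : ℂ}
    (h0 : A (s, e₀) (s, e₀) ≠ 0) : gd A s := by
  set Z : Set ℂ := {e | ∀ᶠ z in 𝓝 e, A (s, e) (s, z) = 0} with hZ
  have hO1 : IsOpen Z := by
    rw [isOpen_iff_mem_nhds]
    intro e he
    filter_upwards [h.comp1 hs e, he.eventually_nhds] with e' h1 h2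
    obtain ⟨u, hu, hu0, hev⟩ := h1
    filter_upwards [hev, h2] with z h3 h4
    rw [h3, h4, mul_zero]
  have hiso : ∀ e, e ∉ Z → ∀ᶠ z in 𝓝[≠] e, A (s, e) (s, z) ≠ 0 := by
    intro e he
    rcases (h.an hs e).eventually_eq_zero_or_eventually_ne_zero with h1 | h1
    · exact absurd h1 he
    · exact h1
  have hO2 : IsOpen Zᶜ := by
    rw [isOpen_iff_mem_nhds]
    intro e he
    have h1 := hiso e he
    rw [eventually_nhdsWithin_iff] at h1
    filter_upwards [h.comp1 hs e, h1] with e' h2 h3 hz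
    by_cases hee : e' = e
    · subst hee
      exact he hz
    · obtain ⟨u, hu, hu0, hev⟩ := h2
      have h4 := hev.self_of_nhds
      have h5 := Eventually.self_of_nhds hz
      rw [h5] at h4
      exact (mul_ne_zero hu0 (h3 hee)) h4.symm
  have hZe : Z = ∅ := by
    rcases isClopen_iff.1 (⟨⟨hO2⟩, hO1⟩ : IsClopen Z) with h1 | h1
    · exact h1
    · exfalso
      have h2 : ∀ᶠ z in 𝓝 e₀, A (s, e₀) (s, z) = 0 := by
        show e₀ ∈ Z
        rw [h1]; exact mem_univ _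
      exact h0 h2.self_of_nhds
  intro e
  exact hiso e (by rw [hZe]; exact fun h => h)

/-- Reduction to the fundamental square. -/
theorem exists_sq (e : ℂ) : ∃ l ∈ Lat, e + l ∈ Sq := by
  refine ⟨((-⌊e.re⌋ : ℤ) : ℂ) + ((-⌊e.im⌋ : ℤ) : ℂ) * Complex.I, ⟨_, _, rfl⟩, ?_⟩
  have h1 := Int.floor_le e.re
  have h2 := Int.lt_floor_add_one e.re
  have h3 := Int.floor_le e.im
  have h4 := Int.lt_floor_add_one e.im
  refine ⟨?_, ?_, ?_, ?_⟩
  · simp; linarith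
  · simp; linarith
  · simp; linarith
  · simp; linarith

theorem sq_sub : Sq ⊆ closedBall (0 : ℂ) 2 := by
  rintro z ⟨h1, h2, h3, h4⟩
  rw [mem_closedBall_zero_iff]
  calc ‖z‖ ≤ |z.re| + |z.im| := Complex.norm_le_abs_re_add_abs_im z
    _ ≤ 2 := by rw [abs_of_nonneg h1, abs_of_nonneg h3]; linarith

theorem SS.fin {D : Set ℂ} {A : ℂ × ℂ → ℂ × ℂ → ℂ} (h : SS D A) {s : ℂ} (hs : s ∈ D)
    (hg : gd A s) : {e | e ∈ Sq ∧ A (s, e) (s, e) = 0}.Finite := by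
  by_contra hinf
  obtain ⟨x, -, hx⟩ := Set.Infinite.exists_accPt_of_subset_isCompact hinf
    (isCompact_closedBall (0 : ℂ) 2) (fun e he => sq_sub he.1)
  rw [accPt_iff_frequently] at hx
  apply hx
  have h1 := hg x
  rw [eventually_nhdsWithin_iff] at h1
  filter_upwards [h.comp1 hs x, h1] with e h2 h3 h4
  obtain ⟨u, hu, hu0, hev⟩ := h2
  have h5 := hev.self_of_nhds
  rw [h4.2.2] at h5
  exact (mul_ne_zero hu0 (h3 h4.1)) h5.symm

/-- A zero gives a positive number of zeros. -/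
theorem SS.one_le {D : Set ℂ} {A : ℂ × ℂ → ℂ × ℂ → ℂ} (h : SS D A) {s : ℂ} (hs : s ∈ D)
    (hg : gd A s) {e₁ : ℂ} (h1 : A (s, e₁) (s, e₁) = 0) : 1 ≤ cnt A s := by
  obtain ⟨l, hl, hle⟩ := exists_sq e₁
  have h2 : A (s, e₁ + l) (s, e₁ + l) = 0 := by
    obtain ⟨u, hu, hu0, hev⟩ := h.per (s, e₁) hs l hl
    rw [nhdsWithin_univ] at hev
    have h3 := hev.self_of_nhds
    simp only at h3
    rw [h3, h1, mul_zero]
  set φ : ℂ → ℕ := fun e => analyticOrderNatAt (fun z => A (s, e) (s, z)) e with hφ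
  have h3 : φ (e₁ + l) ≠ 0 := by
    have han := h.an hs (e₁ + l)
    have h4 : analyticOrderAt (fun z => A (s, e₁ + l) (s, z)) (e₁ + l) ≠ 0 :=
      han.analyticOrderAt_ne_zero.2 h2
    have h5 : analyticOrderAt (fun z => A (s, e₁ + l) (s, z)) (e₁ + l) ≠ ⊤ := by
      intro h6
      rw [analyticOrderAt_eq_top] at h6
      obtain ⟨z, hz1, hz2⟩ := ((h6.filter_mono nhdsWithin_le_nhds).and (hg (e₁ + l))).exists
      exact hz2 hz1
    simp only [hφ, analyticOrderNatAt]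
    intro h6
    rw [ENat.toNat_eq_zero] at h6
    rcases h6 with h6 | h6
    · exact h4 h6
    · exact h5 h6
  have h4 : (Sq.indicator φ).support.Finite := by
    apply (h.fin hs hg).subset
    intro e he
    rw [Function.mem_support] at he
    have h5 : e ∈ Sq := by
      by_contra h6
      exact he (indicator_of_notMem h6 _)
    rw [indicator_of_mem h5] at he
    have h7 := apply_eq_zero_of_analyticOrderNatAt_ne_zero
      (f := fun z => A (s, e) (s, z)) (z₀ := e) he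
    exact ⟨h5, h7⟩
  have h5 : Sq.indicator φ (e₁ + l) ≤ ∑ᶠ e, Sq.indicator φ e :=
    single_le_finsum _ h4 (fun j => Nat.zero_le _)
  rw [indicator_of_mem hle] at h5
  have h6 : cnt A s = ∑ᶠ e, Sq.indicator φ e := by
    unfold cnt
    exact finsum_mem_def _ _
  omega

theorem lc_zero (A : ℂ × ℂ → ℂ × ℂ → ℂ) (s e : ℂ) : lc A s 0 e = fun z => A (s, e) (s, z) := by
  ext z
  simp [lc]

/-- The number of zeros is constant. -/
theorem cnt_const (hCNT : S_CNT) {D : Set ℂ} {A : ℂ × ℂ → ℂ × ℂ → ℂ} (h : SS D A)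
    (hDo : IsOpen D) (hDc : IsPreconnected D) (hnz : ∀ p, p.1 ∈ D → ∃ᶠ q in 𝓝 p, A p q ≠ 0) :
    ∃ d : ℕ, ∀ s₀ ∈ D, (∀ᶠ s in 𝓝[≠] s₀, gd A s ∧ cnt A s = d) ∧
      ∀ r : ℕ, (∀ e, ∀ n < r, ∀ᶠ z in 𝓝 e, lc A s₀ n e z = 0) →
      (∀ e, ∀ᶠ z in 𝓝[≠] e, lc A s₀ r e z ≠ 0) →
      ∑ᶠ e ∈ Sq, analyticOrderNatAt (lc A s₀ r e) e = d := by
  choose! d hd1 hd2 using hCNT D A _ hDo (h.toSys hnz)
  have hgd : ∀ s ∈ D, gd A s → cnt A s = d s := by
    intro s hs hg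
    have h1 := hd2 s hs 0 (by intro e n hn; omega)
    simp only [lc_zero] at h1
    exact h1 hg
  have hloc : ContinuousOn d D := by
    intro s₀ hs₀
    have h2 : ∀ᶠ s in 𝓝 s₀, d s = d s₀ := by
      have h1 := hd1 s₀ hs₀
      rw [eventually_nhdsWithin_iff] at h1
      filter_upwards [h1, hDo.mem_nhds hs₀] with s h2 h3
      by_cases hss : s = s₀
      · rw [hss]
      · obtain ⟨h4, h5⟩ := h2 hss
        rw [← h5, hgd s h3 h4]
    have h3 : Tendsto d (𝓝[D] s₀) (𝓝 (d s₀)) := by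
      apply tendsto_const_nhds.congr'
      filter_upwards [h2.filter_mono nhdsWithin_le_nhds] with s hs using hs.symm
    exact h3
  rcases D.eq_empty_or_nonempty with hD | ⟨s₁, hs₁⟩
  · exact ⟨0, by rw [hD]; intro s hs; exact absurd hs (notMem_empty _)⟩
  · refine ⟨d s₁, ?_⟩
    intro s hs
    rw [hDc.constant hloc hs₁ hs]
    exact ⟨hd1 s hs, hd2 s hs⟩

/-! ### Pull backs -/

/-- a family of local equations on `S` with periods -/
structure Fam {V : Type} [NormedAddCommGroup V] [NormedSpace ℂ V] (S R : Set V) (τ : ℂ → V → V)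
    (Θ : V → V → ℂ) : Prop where
  hol : ∀ p ∈ R, Hol (Θ p) p
  comp : ∀ p ∈ R, ∀ᶠ q in 𝓝[S] p, Eqv S (Θ q) (Θ p) q
  per : ∀ p ∈ R, ∀ l ∈ Lat, Eqv S (fun q => Θ (τ l p) (τ l q)) (Θ p) p

theorem Fam.pull {V : Type} [NormedAddCommGroup V] [NormedSpace ℂ V] {S R : Set V}
    {τ : ℂ → V → V} {Θ : V → V → ℂ} (h : Fam S R τ Θ) {D : Set ℂ} (hDo : IsOpen D)
    {Φ : ℂ × ℂ → V} (hΦd : ∀ p : ℂ × ℂ, p.1 ∈ D → DifferentiableAt ℂ Φ p)
    (hΦR : ∀ p : ℂ × ℂ, p.1 ∈ D → Φ p ∈ R) (hΦS : ∀ p : ℂ × ℂ, p.1 ∈ D → Φ p ∈ S)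
    (hΦτ : ∀ (p : ℂ × ℂ) (l : ℂ), Φ (p.1, p.2 + l) = τ l (Φ p)) :
    SS D (fun p q => Θ (Φ p) (Φ q)) := by
  have hW : ∀ p : ℂ × ℂ, p.1 ∈ D → ∀ᶠ q in 𝓝 p, q.1 ∈ D := fun p hp =>
    continuous_fst.continuousAt.eventually (hDo.mem_nhds hp)
  have hT : ∀ p : ℂ × ℂ, p.1 ∈ D → Tendsto Φ (𝓝 p) (𝓝[S] (Φ p)) := by
    intro p hp
    apply tendsto_nhdsWithin_of_tendsto_nhds_of_eventually_within _ (hΦd p hp).continuousAt
    filter_upwards [hW p hp] with q hq using hΦS q hq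
  have hH : ∀ (u : V → ℂ) (p : ℂ × ℂ), p.1 ∈ D → Hol u (Φ p) → Hol (fun q => u (Φ q)) p := by
    intro u p hp hu
    filter_upwards [(hΦd p hp).continuousAt.eventually hu, hW p hp] with q h1 h2
    exact h1.comp q (hΦd q h2)
  have hE : ∀ (f g : V → ℂ) (p : ℂ × ℂ), p.1 ∈ D → Eqv S f g (Φ p) →
      Eqv univ (fun q => f (Φ q)) (fun q => g (Φ q)) p := by
    rintro f g p hp ⟨u, hu, hu0, hev⟩
    refine ⟨fun q => u (Φ q), hH u p hp hu, hu0, ?_⟩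
    rw [nhdsWithin_univ]
    exact (hT p hp).eventually hev
  refine ⟨?_, ?_, ?_⟩
  · intro p hp
    exact hH _ p hp (h.hol _ (hΦR p hp))
  · intro p hp
    filter_upwards [(hT p hp).eventually (h.comp _ (hΦR p hp)), hW p hp] with q h1 h2
    exact hE _ _ q h2 h1
  · intro p hp l hl
    have h1 := hE _ _ p hp (h.per _ (hΦR p hp) l hl)
    simp only [hΦτ]
    have h2 : ∀ q : ℂ × ℂ, Φ (q.1, q.2 + l) = τ l (Φ q) := fun q => hΦτ q l
    have h3 : Φ (p.1, p.2 + l) = τ l (Φ p) := hΦτ p l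
    exact h1

theorem cd_fam {ρ : ℝ} {Θ : Bool → T → T → ℂ} (h : CD ρ Θ) (c : Bool) :
    Fam XX (Reg ρ) sh (Θ c) := ⟨h.hol c, h.comp c, h.per c⟩

theorem coef_mul {F G u : ℂ → ℂ} {m : ℕ} (hF : AnalyticAt ℂ F 0) (hu : AnalyticAt ℂ u 0)
    (h : ∀ᶠ x in 𝓝 0, G x = u x * F x)
    (h0 : ∀ n < m, iteratedDeriv n F 0 / (n.factorial : ℂ) = 0) :
    iteratedDeriv m G 0 / (m.factorial : ℂ) = u 0 * (iteratedDeriv m F 0 / (m.factorial : ℂ)) := by
  have h1 : G =ᶠ[𝓝 0] fun x => u x * F x := h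
  rw [h1.iteratedDeriv_eq m, iteratedDeriv_fun_mul hu.contDiffAt hF.contDiffAt,
    Finset.sum_eq_single 0]
  · simp
    ring
  · intro i hi hi0
    have h2 : m - i < m := by
      have := Finset.mem_range.1 hi
      omega
    have h3 := h0 _ h2
    have h4 : ((m - i).factorial : ℂ) ≠ 0 := by exact_mod_cast (m - i).factorial_ne_zero
    have h5 : iteratedDeriv (m - i) F 0 = 0 := by
      rcases div_eq_zero_iff.1 h3 with h6 | h6
      · exact h6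
      · exact absurd h6 h4
    rw [h5, mul_zero]
  · intro h2
    exact absurd (Finset.mem_range.2 (Nat.succ_pos m)) h2

theorem coef_eqv {F G : T → ℂ} {m : ℕ} {r : T3} (hF : Hol F (0, r)) (h : Eqv XX G F (0, r))
    (h0 : ∀ n < m, ∀ᶠ q in 𝓝[X3] r, iteratedDeriv n (fun x => F (x, q)) 0 / (n.factorial : ℂ) = 0) :
    Eqv X3 (fun q => iteratedDeriv m (fun x => G (x, q)) 0 / (m.factorial : ℂ))
      (fun q => iteratedDeriv m (fun x => F (x, q)) 0 / (m.factorial : ℂ)) r := by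
  obtain ⟨u, hu, hu0, hev⟩ := h
  rw [eventually_nhdsWithin_iff] at hev
  obtain ⟨δ, hδ, hb⟩ := Metric.eventually_nhds_iff_ball.1 ((hev.and hF).and hu)
  have hmem : ∀ x ∈ ball (0 : ℂ) δ, ∀ q ∈ ball r δ, ((x, q) : T) ∈ ball ((0, r) : T) δ := by
    intro x hx q hq
    rw [← ball_prod_same]
    exact ⟨hx, hq⟩
  have h00 : (0 : ℂ) ∈ ball (0 : ℂ) δ := mem_ball_self hδ
  refine ⟨fun q => u (0, q), ?_, hu0, ?_⟩
  · filter_upwards [ball_mem_nhds r hδ] with q hq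
    have h1 : DifferentiableAt ℂ u ((fun q : T3 => ((0, q) : T)) q) := (hb _ (hmem 0 h00 q hq)).2
    exact h1.comp q ((differentiableAt_const (0 : ℂ)).prodMk differentiableAt_id)
  · have h1 : ∀ᶠ q in 𝓝[X3] r, ∀ n ∈ Finset.range m,
        iteratedDeriv n (fun x => F (x, q)) 0 / (n.factorial : ℂ) = 0 := by
      rw [Filter.eventually_all_finset]
      intro n hn
      exact h0 n (Finset.mem_range.1 hn)
    filter_upwards [h1, self_mem_nhdsWithin, mem_nhdsWithin_of_mem_nhds (ball_mem_nhds r hδ)]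
      with q h2 h3 h4
    have han : ∀ w : T → ℂ, (∀ x ∈ ball (0 : ℂ) δ, DifferentiableAt ℂ w (x, q)) →
        AnalyticAt ℂ (fun x => w (x, q)) 0 := by
      intro w hw
      have h5 : DifferentiableOn ℂ (fun x => w (x, q)) (ball 0 δ) := by
        intro x hx
        have h6 : DifferentiableAt ℂ w ((fun x : ℂ => ((x, q) : T)) x) := hw x hx
        exact (h6.comp x (differentiableAt_id.prodMk
          (differentiableAt_const q))).differentiableWithinAt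
      exact h5.analyticAt (ball_mem_nhds 0 hδ)
    apply coef_mul (u := fun x => u (x, q))
      (han F fun x hx => (hb _ (hmem x hx q h4)).1.2) (han u fun x hx => (hb _ (hmem x hx q h4)).2)
    · filter_upwards [ball_mem_nhds (0 : ℂ) hδ] with x hx
      exact (hb _ (hmem x hx q h4)).1.1 h3
    · intro n hn
      exact h2 n (Finset.mem_range.2 hn)

theorem zero_mem {ρ : ℝ} (hρ : 0 < ρ) {r : T3} (hr : r ∈ Reg3) : ((0, r) : T) ∈ Reg ρ := by
  refine ⟨hr.1, ?_, hr.2⟩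
  simpa using hρ

theorem cf_fam (hEXP : S_EXP) {ρ : ℝ} (hρ : 0 < ρ) {Θ : Bool → T → T → ℂ} (h : CD ρ Θ) {m : ℕ}
    (hlow : Low Θ m) (c : Bool) : Fam X3 Reg3 sh3 (cf Θ m c) := by
  refine ⟨?_, ?_, ?_⟩
  · intro r hr
    obtain ⟨δ, hδ, h1, -⟩ := hEXP T3 (Θ c (0, r)) r (h.hol c _ (zero_mem hρ hr))
    filter_upwards [ball_mem_nhds r hδ, eventually_mem_nhds_iff.2 (ball_mem_nhds r hδ)] with q hq hq2
    exact (h1 m q hq).differentiableAt hq2
  · intro r hr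
    have hT : Tendsto (fun q : T3 => ((0, q) : T)) (𝓝[X3] r) (𝓝[XX] ((0, r) : T)) := by
      apply tendsto_nhdsWithin_of_tendsto_nhds_of_eventually_within
      · have hc : Continuous (fun q : T3 => ((0, q) : T)) := by fun_prop
        exact hc.continuousAt.mono_left nhdsWithin_le_nhds
      · filter_upwards [self_mem_nhdsWithin] with q hq using hq
    have hT2 : Tendsto (fun q : T3 => ((0, q) : T)) (𝓝 r) (𝓝 ((0, r) : T)) := by
      have hc : Continuous (fun q : T3 => ((0, q) : T)) := by fun_prop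
      exact hc.continuousAt
    have h1 := hT.eventually (h.comp c _ (zero_mem hρ hr))
    have h2 : ∀ᶠ q in 𝓝[X3] r, Hol (Θ c (0, r)) (0, q) :=
      (hT2.eventually (h.hol c _ (zero_mem hρ hr)).eventually_nhds).filter_mono nhdsWithin_le_nhds
    have h3 : ∀ᶠ q₀ in 𝓝[X3] r, ∀ n ∈ Finset.range m, ∀ᶠ q in 𝓝[X3] q₀,
        iteratedDeriv n (fun x => Θ c (0, r) (x, q)) 0 / (n.factorial : ℂ) = 0 := by
      rw [Filter.eventually_all_finset]
      intro n hn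
      exact eventually_eventually_nhdsWithin.2 (hlow n (Finset.mem_range.1 hn) c r hr)
    filter_upwards [h1, h2, h3] with q₀ h4 h5 h6
    exact coef_eqv h5 h4 fun n hn => h6 n (Finset.mem_range.2 hn)
  · intro r hr l hl
    exact coef_eqv (h.hol c _ (zero_mem hρ hr)) (h.per c _ (zero_mem hρ hr) l hl)
      fun n hn => hlow n hn c r hr

end PosAux

open PosAux

theorem MM_POS (hPARAM : S_PARAM) (hEXP : S_EXP) (hCNT : S_CNT) : S_POS := by
  intro ρ Θ hρ hΘ _ m hlow hm hex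
  obtain ⟨p, hp, z, hz0, hz1⟩ := hex
  set k₁ : ℂ × ℂ := (p.2.1, p.2.2.1) with hk₁
  have hk₁K : k₁ ∈ KK := hp.1
  obtain ⟨r, hr, ψ, hψd, hψ0, hψK, hψev⟩ := hPARAM k₁ hk₁K
  have hψc : ContinuousAt ψ 0 := (hψd.differentiableAt (ball_mem_nhds 0 hr)).continuousAt
  have hlt : ∀ᶠ s in 𝓝 (0 : ℂ), ‖(ψ s).1‖ < 2 := by
    have h1 : ContinuousAt (fun s => ‖(ψ s).1‖) 0 := hψc.fst.norm
    apply h1.eventually (gt_mem_nhds _)
    show ‖(ψ 0).1‖ < 2
    rw [hψ0]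
    exact hp.2.2
  obtain ⟨r₁, hr₁, hb⟩ := Metric.eventually_nhds_iff_ball.1 hlt
  set D : Set ℂ := ball (0 : ℂ) (min r r₁) with hD
  have hDr : D ⊆ ball 0 r := ball_subset_ball (min_le_left _ _)
  have hDr₁ : D ⊆ ball 0 r₁ := ball_subset_ball (min_le_right _ _)
  have hDo : IsOpen D := isOpen_ball
  have hDc : IsPreconnected D := (convex_ball _ _).isPreconnected
  have h0D : (0 : ℂ) ∈ D := mem_ball_self (lt_min hr hr₁)
  have hψdA : ∀ s ∈ D, DifferentiableAt ℂ ψ s := fun s hs =>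
    hψd.differentiableAt (isOpen_ball.mem_nhds (hDr hs))
  -- Step 1
  set Φ₁ : ℂ × ℂ → T := fun q => (p.1, (ψ q.1).1, (ψ q.1).2, q.2) with hΦ₁
  have hΦ₁d : ∀ q : ℂ × ℂ, q.1 ∈ D → DifferentiableAt ℂ Φ₁ q := by
    intro q hq
    have h1 : DifferentiableAt ℂ (fun q : ℂ × ℂ => ψ q.1) q :=
      (hψdA _ hq).comp q differentiableAt_fst
    exact (differentiableAt_const _).prodMk (h1.fst.prodMk (h1.snd.prodMk differentiableAt_snd))
  have hΦ₁R : ∀ q : ℂ × ℂ, q.1 ∈ D → Φ₁ q ∈ Reg ρ := fun q hq =>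
    ⟨(hψK _ (hDr hq)).1, hp.2.1, hb _ (hDr₁ hq)⟩
  have hS₁ := (cd_fam hΘ false).pull hDo hΦ₁d hΦ₁R (fun q hq => (hΦ₁R q hq).1)
    (fun q l => rfl)
  set A₁ : ℂ × ℂ → ℂ × ℂ → ℂ := fun q q' => Θ false (Φ₁ q) (Φ₁ q') with hA₁
  have hpe : ∀ w : ℂ, Φ₁ (0, p.2.2.2 + w) = sh w p := by
    intro w
    simp only [hΦ₁, hψ0, hk₁]
    rfl
  have hpe0 : Φ₁ (0, p.2.2.2) = p := by
    simp only [hΦ₁, hψ0, hk₁]
  have hne₁ : A₁ (0, p.2.2.2 + z) (0, p.2.2.2 + z) ≠ 0 := by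
    simp only [hA₁, hpe]
    exact hz1
  have hze₁ : A₁ (0, p.2.2.2) (0, p.2.2.2) = 0 := by
    simp only [hA₁, hpe0]
    exact hz0
  have hgd₁ : gd A₁ 0 := hS₁.gd_of h0D hne₁
  have hnz₁ : ∀ q, q.1 ∈ D → ∃ᶠ q' in 𝓝 q, A₁ q q' ≠ 0 := by
    apply hS₁.nz hDo hDc (p₀ := (0, p.2.2.2 + z)) h0D
    intro h1
    exact Eventually.self_of_nhds h1 hne₁
  obtain ⟨d₁, hd₁⟩ := cnt_const hCNT hS₁ hDo hDc hnz₁
  have hd₁1 : 1 ≤ d₁ := by
    have h1 := (hd₁ 0 h0D).2 0 (by intro e n hn; omega)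
    simp only [lc_zero] at h1
    rw [← h1 hgd₁]
    exact hS₁.one_le h0D hgd₁ hze₁
  -- Step 2
  set Φ₂ : ℂ × ℂ → T3 := fun q => ((ψ q.1).1, (ψ q.1).2, q.2) with hΦ₂
  have hΦ₂d : ∀ q : ℂ × ℂ, q.1 ∈ D → DifferentiableAt ℂ Φ₂ q := by
    intro q hq
    have h1 : DifferentiableAt ℂ (fun q : ℂ × ℂ => ψ q.1) q :=
      (hψdA _ hq).comp q differentiableAt_fst
    exact h1.fst.prodMk (h1.snd.prodMk differentiableAt_snd)
  have hΦ₂R : ∀ q : ℂ × ℂ, q.1 ∈ D → Φ₂ q ∈ Reg3 := fun q hq =>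
    ⟨(hψK _ (hDr hq)).1, hb _ (hDr₁ hq)⟩
  have hS₂ := (cf_fam hEXP hρ hΘ hlow false).pull hDo hΦ₂d hΦ₂R (fun q hq => (hΦ₂R q hq).1)
    (fun q l => rfl)
  set A₂ : ℂ × ℂ → ℂ × ℂ → ℂ := fun q q' => cf Θ m false (Φ₂ q) (Φ₂ q') with hA₂
  have hnz₂ : ∀ q, q.1 ∈ D → ∃ᶠ q' in 𝓝 q, A₂ q q' ≠ 0 := by
    apply hS₂.nz hDo hDc (p₀ := (0, 0)) h0D
    have h1 := hm false (Φ₂ (0, 0)) (hΦ₂R _ h0D)
    have hΦ0 : Φ₂ (0, 0) = (k₁.1, k₁.2, 0) := by simp only [hΦ₂, hψ0]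
    set χ : T3 → ℂ × ℂ := fun q => (kc k₁ (q.1, q.2.1), q.2.2) with hχ
    have hkc : Continuous (kc k₁) := by
      unfold kc
      split_ifs
      · fun_prop
      · fun_prop
    have hχc : Continuous χ := by
      simp only [hχ]
      fun_prop
    have hkc0 : kc k₁ k₁ = 0 := by
      have h2 := (hψK 0 (mem_ball_self hr)).2
      rw [hψ0] at h2
      exact h2
    have hχ0 : χ (Φ₂ (0, 0)) = (0, 0) := by
      rw [hΦ0]
      simp only [hχ]
      rw [show ((k₁.1, k₁.2) : ℂ × ℂ) = k₁ from rfl, hkc0]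
    have hT : Tendsto χ (𝓝[X3] (Φ₂ (0, 0))) (𝓝 ((0, 0) : ℂ × ℂ)) := by
      have h2 := hχc.tendsto (Φ₂ (0, 0))
      rw [hχ0] at h2
      exact h2.mono_left nhdsWithin_le_nhds
    have hπ : Tendsto (fun q : T3 => ((q.1, q.2.1) : ℂ × ℂ)) (𝓝[X3] (Φ₂ (0, 0))) (𝓝[KK] k₁) := by
      apply tendsto_nhdsWithin_of_tendsto_nhds_of_eventually_within
      · have hc : Continuous (fun q : T3 => ((q.1, q.2.1) : ℂ × ℂ)) := by fun_prop
        have h2 := hc.tendsto (Φ₂ (0, 0))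
        rw [hΦ0] at h2 ⊢
        exact h2.mono_left nhdsWithin_le_nhds
      · filter_upwards [self_mem_nhdsWithin] with q hq using hq
    have hinv : ∀ᶠ q in 𝓝[X3] (Φ₂ (0, 0)), Φ₂ (χ q) = q := by
      filter_upwards [hπ.eventually hψev] with q hq
      simp only [hΦ₂, hχ]
      rw [hq.2]
    have h3 : ∃ᶠ q in 𝓝[X3] (Φ₂ (0, 0)), A₂ (0, 0) (χ q) ≠ 0 := by
      apply (h1.and_eventually hinv).mono
      rintro q ⟨h4, h5⟩
      simp only [hA₂]
      rw [h5]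
      exact h4
    exact hT.frequently h3
  obtain ⟨d₂, hd₂⟩ := cnt_const hCNT hS₂ hDo hDc hnz₂
  -- the choice of the point
  have hDev : ∀ᶠ s in 𝓝[≠] (0 : ℂ), s ∈ D := mem_nhdsWithin_of_mem_nhds (hDo.mem_nhds h0D)
  obtain ⟨s, ⟨⟨hs1, hs2⟩, hs3, -⟩, hsD⟩ :=
    (((hd₁ 0 h0D).1.and (hd₂ 0 h0D).1).and hDev).exists
  set k₂ : ℂ × ℂ := ψ s with hk₂
  have hk₂K : k₂ ∈ KK := (hψK _ (hDr hsD)).1
  have hk₂n : ‖k₂.1‖ < 2 := hb _ (hDr₁ hsD)
  -- Step 3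
  set Φ₃ : ℂ × ℂ → T := fun q => (q.1, k₂.1, k₂.2, q.2) with hΦ₃
  have hΦ₃d : ∀ q : ℂ × ℂ, q.1 ∈ ball (0 : ℂ) ρ → DifferentiableAt ℂ Φ₃ q := by
    intro q hq
    exact differentiableAt_fst.prodMk ((differentiableAt_const _).prodMk
      ((differentiableAt_const _).prodMk differentiableAt_snd))
  have hΦ₃R : ∀ q : ℂ × ℂ, q.1 ∈ ball (0 : ℂ) ρ → Φ₃ q ∈ Reg ρ := fun q hq =>
    ⟨hk₂K, by simpa using hq, hk₂n⟩
  have hS₃ := (cd_fam hΘ false).pull isOpen_ball hΦ₃d hΦ₃R (fun q hq => (hΦ₃R q hq).1)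
    (fun q l => rfl)
  set A₃ : ℂ × ℂ → ℂ × ℂ → ℂ := fun q q' => Θ false (Φ₃ q) (Φ₃ q') with hA₃
  have hx₁ : p.1 ∈ ball (0 : ℂ) ρ := by simpa using hp.2.1
  have hgd₃ : gd A₃ p.1 := hs1
  have hcnt₃ : cnt A₃ p.1 = d₁ := hs2
  have hnz₃ : ∀ q, q.1 ∈ ball (0 : ℂ) ρ → ∃ᶠ q' in 𝓝 q, A₃ q q' ≠ 0 := by
    apply hS₃.nz isOpen_ball (convex_ball _ _).isPreconnected (p₀ := (p.1, 0)) hx₁
    intro h1
    have hc : Continuous fun w : ℂ => ((p.1, w) : ℂ × ℂ) := by fun_prop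
    have h2 : ∀ᶠ w in 𝓝 (0 : ℂ), A₃ (p.1, 0) (p.1, w) = 0 := by
      filter_upwards [(hc.tendsto 0).eventually h1] with w hw using not_not.1 hw
    obtain ⟨w, hw1, hw2⟩ := ((h2.filter_mono nhdsWithin_le_nhds).and (hgd₃ 0)).exists
    exact hw2 hw1
  obtain ⟨d, hd⟩ := cnt_const hCNT hS₃ isOpen_ball (convex_ball _ _).isPreconnected hnz₃
  have hdd : d = d₁ := by
    have h1 := (hd p.1 hx₁).2 0 (by intro e n hn; omega)
    simp only [lc_zero] at h1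
    rw [← h1 hgd₃, ← hcnt₃]
    rfl
  have hlc : ∀ (n : ℕ) (e : ℂ), lc A₃ 0 n e = fun z => cf Θ n false (k₂.1, k₂.2, e) (k₂.1, k₂.2, z) :=
    fun n e => rfl
  have h0ρ : (0 : ℂ) ∈ ball (0 : ℂ) ρ := mem_ball_self hρ
  have h1 := (hd 0 h0ρ).2 m
  simp only [hlc] at h1
  have h2 : ∀ e : ℂ, ∀ n < m, ∀ᶠ z in 𝓝 e, cf Θ n false (k₂.1, k₂.2, e) (k₂.1, k₂.2, z) = 0 := by
    intro e n hn
    have h3 := hlow n hn false (k₂.1, k₂.2, e) ⟨hk₂K, hk₂n⟩
    have hT : Tendsto (fun z : ℂ => ((k₂.1, k₂.2, z) : T3)) (𝓝 e) (𝓝[X3] (k₂.1, k₂.2, e)) := by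
      apply tendsto_nhdsWithin_of_tendsto_nhds_of_eventually_within
      · have hc : Continuous (fun z : ℂ => ((k₂.1, k₂.2, z) : T3)) := by fun_prop
        exact hc.tendsto e
      · exact Eventually.of_forall fun z => hk₂K
    exact hT.eventually h3
  have hGd : Gd (cf Θ m) false k₂ := hs3
  refine ⟨k₂, hk₂K, hk₂n, hGd, ?_⟩
  have h3 := h1 h2 hGd
  unfold Cn
  omega

end Pool.Agent.Y758.MM
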