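import Pool.Agent.Y758.MM.Stm2

/-!
# Project MM: the two charts (helper348)
-/

set_option autoImplicit false

open Set Filter Topology Metric
open scoped Manifold ContDiff

namespace Pool.Agent.Y758.MM

namespace Rel

theorem finite_of_iso {K Z : Set ℂ} (hK : IsCompact K)
    (hiso : ∀ z ∈ K, ∀ᶠ w in 𝓝[≠] z, w ∉ Z) : (K ∩ Z).Finite := by
  have hU : ∀ z ∈ K, {w | w ≠ z → w ∉ Z} ∈ 𝓝 z := fun z hz =>
    eventually_nhdsWithin_iff.1 (hiso z hz)
  obtain ⟨t, ht, htc⟩ := hK.elim_nhds_subcover _ hU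
  refine t.finite_toSet.subset ?_
  rintro z ⟨hz, hz0⟩
  obtain ⟨x, hx⟩ := mem_iUnion.1 (htc hz)
  obtain ⟨hxt, hx'⟩ := mem_iUnion.1 hx
  by_contra hne
  have : z ≠ x := fun e => hne (e ▸ hxt)
  exact hx' this hz0

theorem Sq_sub : Sq ⊆ closedBall (0 : ℂ) 2 := by
  intro z hz
  obtain ⟨h1, h2, h3, h4⟩ := hz
  rw [mem_closedBall, dist_zero_right]
  have := Complex.norm_le_abs_re_add_abs_im z
  rw [abs_of_nonneg h1, abs_of_nonneg h3] at this
  linarith

/-- The line through `r` in the direction of the last coordinate. -/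
theorem line_tendsto {r : T3} (hr : r ∈ X3) :
    Tendsto (fun z : ℂ => ((r.1, r.2.1, z) : T3)) (𝓝 r.2.2) (𝓝[X3] r) := by
  rw [tendsto_nhdsWithin_iff]
  refine ⟨?_, Eventually.of_forall fun z => hr⟩
  have hc : Continuous (fun z : ℂ => ((r.1, r.2.1, z) : T3)) := by fun_prop
  exact hc.tendsto' _ _ rfl

theorem line_nhds (r : T3) :
    Tendsto (fun z : ℂ => ((r.1, r.2.1, z) : T3)) (𝓝 r.2.2) (𝓝 r) := by
  have hc : Continuous (fun z : ℂ => ((r.1, r.2.1, z) : T3)) := by fun_prop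
  exact hc.tendsto' _ _ rfl

theorem line_diff {f : T3 → ℂ} {r : T3} (hf : Hol f r) :
    ∀ᶠ z in 𝓝 r.2.2, DifferentiableAt ℂ (fun z : ℂ => f (r.1, r.2.1, z)) z := by
  have h1 := (line_nhds r).eventually hf
  filter_upwards [h1] with z hz
  have h2 : DifferentiableAt ℂ (fun z : ℂ => ((r.1, r.2.1, z) : T3)) z := by fun_prop
  exact DifferentiableAt.comp z hz h2

theorem line_an {f : T3 → ℂ} {r : T3} (hf : Hol f r) :
    AnalyticAt ℂ (fun z : ℂ => f (r.1, r.2.1, z)) r.2.2 := by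
  rw [Complex.analyticAt_iff_eventually_differentiableAt]
  exact line_diff hf

/-- Orders and residues of two proportional pairs. -/
theorem local_rel (h1 : S_RESL) {a b a' b' u w : ℂ → ℂ} {e v s : ℂ}
    (ha : AnalyticAt ℂ a e) (hb : AnalyticAt ℂ b e) (ha' : AnalyticAt ℂ a' e)
    (hb' : AnalyticAt ℂ b' e) (hu : AnalyticAt ℂ u e) (hw : AnalyticAt ℂ w e) (hu0 : u e ≠ 0)
    (hane : ∀ᶠ z in 𝓝[≠] e, a z ≠ 0) (e1 : ∀ᶠ z in 𝓝 e, a' z = u z * a z)
    (e2 : ∀ᶠ z in 𝓝 e, v * b' z + s * deriv a' z = u z * b z + w z * a z) :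
    analyticOrderNatAt a e = analyticOrderNatAt a' e ∧
      res (fun z => b z / a z) e =
        v * res (fun z => b' z / a' z) e + s * (analyticOrderNatAt a' e : ℂ) := by
  obtain ⟨r1, r2, r3, r4, r5, r6, r7⟩ := h1
  have hune : ∀ᶠ z in 𝓝 e, u z ≠ 0 := hu.continuousAt.eventually_ne hu0
  have ha'ne : ∀ᶠ z in 𝓝[≠] e, a' z ≠ 0 := by
    filter_upwards [hane, e1.filter_mono nhdsWithin_le_nhds,
      hune.filter_mono nhdsWithin_le_nhds] with z h1 h2 h3
    rw [h2]
    exact mul_ne_zero h3 h1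
  have dif : ∀ {f : ℂ → ℂ}, AnalyticAt ℂ f e → ∀ᶠ z in 𝓝[≠] e, DifferentiableAt ℂ f z := by
    intro f hf
    refine Filter.Eventually.filter_mono nhdsWithin_le_nhds ?_
    filter_upwards [hf.eventually_analyticAt] with z hz using hz.differentiableAt
  constructor
  · have h2 : analyticOrderAt a' e = analyticOrderAt a e := by
      have h3 : analyticOrderAt a' e = analyticOrderAt (u * a) e := analyticOrderAt_congr e1
      rw [h3, analyticOrderAt_mul hu ha, hu.analyticOrderAt_eq_zero.2 hu0, zero_add]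
    unfold analyticOrderNatAt
    rw [h2]
  · have d1 : ∀ᶠ z in 𝓝[≠] e, DifferentiableAt ℂ (fun z => b' z / a' z) z := by
      filter_upwards [dif hb', dif ha', ha'ne] with z h1 h2 h3 using h1.div h2 h3
    have d2 : ∀ᶠ z in 𝓝[≠] e, DifferentiableAt ℂ (fun z => deriv a' z / a' z) z := by
      filter_upwards [dif ha'.deriv, dif ha', ha'ne] with z h1 h2 h3 using h1.div h2 h3
    have hwu : AnalyticAt ℂ (fun z => -(w z / u z)) e := (hw.div hu hu0).neg
    have d3 := dif hwu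
    have d1' : ∀ᶠ z in 𝓝[≠] e, DifferentiableAt ℂ (fun z => v * (b' z / a' z)) z :=
      d1.mono fun z h => (differentiableAt_const _).mul h
    have d2' : ∀ᶠ z in 𝓝[≠] e, DifferentiableAt ℂ (fun z => s * (deriv a' z / a' z)) z :=
      d2.mono fun z h => (differentiableAt_const _).mul h
    have e3 : ∀ᶠ z in 𝓝[≠] e, b z / a z =
        (v * (b' z / a' z) + s * (deriv a' z / a' z)) + -(w z / u z) := by
      filter_upwards [hane, e1.filter_mono nhdsWithin_le_nhds, e2.filter_mono nhdsWithin_le_nhds,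
        hune.filter_mono nhdsWithin_le_nhds] with z h1 h2 h3 h4
      have h5 : b z = (v * b' z + s * deriv a' z - w z * a z) / u z := by
        rw [h3]
        field_simp
        ring
      rw [h5, h2]
      field_simp
      ring
    have h0 : res (fun z => -(w z / u z)) e = 0 := by
      refine r3 _ _ ?_
      filter_upwards [hwu.eventually_analyticAt] with z hz using hz.differentiableAt
    rw [r2 _ _ _ e3, r4 (fun z => v * (b' z / a' z) + s * (deriv a' z / a' z)) _ _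
      (d1'.mp (d2'.mono fun z h h' => h'.add h)) d3, r4 (fun z => v * (b' z / a' z))
      (fun z => s * (deriv a' z / a' z)) _ d1' d2', r5 _ _ _ d1, r5 _ _ _ d2,
      r6 a' e ha' ha'ne, h0, add_zero]

end Rel

open Rel in
theorem MM_REL (h1 : S_RESL) : S_REL := by
  classical
  intro A B hPD k hk hk1 hk2 hgd
  obtain ⟨v, t⟩ := k
  simp only at hk1 hk2 ⊢
  have hkk : t ^ 2 = 1 + v ^ 6 := hk
  have hv0 : v ≠ 0 := by
    intro e
    rw [e, norm_zero] at hk1
    norm_num at hk1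
  have hvi : ‖v⁻¹‖ < 2 := by
    rw [norm_inv]
    have : 0 < ‖v‖ := norm_pos_iff.2 hv0
    rw [inv_lt_comm₀ this (by norm_num)]
    linarith
  have hX : ∀ e, ((v, t, e) : T3) ∈ X3 := fun e => hkk
  have hX' : ∀ e, ((v⁻¹, t / v ^ 3, e) : T3) ∈ X3 := by
    intro e
    show (t / v ^ 3) ^ 2 = 1 + v⁻¹ ^ 6
    field_simp
    rw [hkk]
    ring
  have hR : ∀ e, ((v, t, e) : T3) ∈ Reg3 := fun e => ⟨hX e, hk2⟩
  have hR' : ∀ e, ((v⁻¹, t / v ^ 3, e) : T3) ∈ Reg3 := fun e => ⟨hX' e, hvi⟩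
  -- the local statement
  have hloc : ∀ e : ℂ,
      analyticOrderNatAt (fun z => A false (v, t, e) (v, t, z)) e =
        analyticOrderNatAt (fun z => A true (v⁻¹, t / v ^ 3, e) (v⁻¹, t / v ^ 3, z)) e ∧
      res (fun z => B false (v, t, e) (v, t, z) / A false (v, t, e) (v, t, z)) e =
        v * res (fun z => B true (v⁻¹, t / v ^ 3, e) (v⁻¹, t / v ^ 3, z) /
            A true (v⁻¹, t / v ^ 3, e) (v⁻¹, t / v ^ 3, z)) e +
          t / v * (analyticOrderNatAt
            (fun z => A true (v⁻¹, t / v ^ 3, e) (v⁻¹, t / v ^ 3, z)) e : ℂ) := by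
    intro e
    obtain ⟨u, w, hu, hw, hu0, hev⟩ := hPD.glue (v, t, e) (hR e) hv0 (hR' e)
    have hev' := (line_tendsto (hX e)).eventually hev
    exact local_rel h1 (line_an (hPD.holA false _ (hR e))) (line_an (hPD.holB false _ (hR e)))
      (line_an (hPD.holA true _ (hR' e))) (line_an (hPD.holB true _ (hR' e)))
      (line_an hu) (line_an hw) hu0 (hgd e) (hev'.mono fun z hz => hz.1)
      (hev'.mono fun z hz => hz.2)
  have hane' : ∀ e, A true (v⁻¹, t / v ^ 3, e) (v⁻¹, t / v ^ 3, e) = 0 →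
      A false (v, t, e) (v, t, e) = 0 := by
    intro e he
    obtain ⟨u, w, hu, hw, hu0, hev⟩ := hPD.glue (v, t, e) (hR e) hv0 (hR' e)
    have h2 := (hev.self_of_nhdsWithin (hX e)).1
    have h3 : u (v, t, e) * A false (v, t, e) (v, t, e) = 0 := h2.symm.trans he
    exact (mul_eq_zero.1 h3).resolve_left hu0
  -- finiteness
  have hiso : ∀ e₀ : ℂ, ∀ᶠ e in 𝓝[≠] e₀, e ∉ {e : ℂ | A false (v, t, e) (v, t, e) = 0} := by
    intro e₀
    have h2 := (line_tendsto (hX e₀)).eventually (hPD.comp false (v, t, e₀) (hR e₀))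
    filter_upwards [h2.filter_mono nhdsWithin_le_nhds, hgd e₀] with e h3 h4 h5
    obtain ⟨u, w, hu, hw, hu0, hev⟩ := h3
    have h6 := (hev.self_of_nhdsWithin (hX e)).1
    have h7 : A false (v, t, e) (v, t, e) = 0 := h5
    have h6' : A false (v, t, e) (v, t, e) = u (v, t, e) * A false (v, t, e₀) (v, t, e) := h6
    rw [h7] at h6'
    rcases mul_eq_zero.1 h6'.symm with h8 | h8
    · exact hu0 h8
    · exact h4 h8
  have hfin := (finite_of_iso (isCompact_closedBall (0 : ℂ) 2)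
    (Z := {e : ℂ | A false (v, t, e) (v, t, e) = 0}) fun z _ => hiso z).subset
    (inter_subset_inter_left _ Sq_sub)
  have hsum : ∀ (φ : ℂ → ℂ), (∀ e, A false (v, t, e) (v, t, e) ≠ 0 → φ e = 0) →
      ∑ᶠ e ∈ Sq, φ e = ∑ e ∈ hfin.toFinset, φ e := by
    intro φ hφ
    apply finsum_mem_eq_sum_of_inter_support_eq
    ext e
    simp only [mem_inter_iff, Function.mem_support, Finset.mem_coe, Set.Finite.mem_toFinset,
      mem_setOf_eq]
    constructor
    · rintro ⟨h2, h3⟩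
      exact ⟨⟨h2, by by_contra h4; exact h3 (hφ e h4)⟩, h3⟩
    · rintro ⟨h2, h3⟩
      exact ⟨h2.1, h3⟩
  have hsumN : ∀ (φ : ℂ → ℕ), (∀ e, A false (v, t, e) (v, t, e) ≠ 0 → φ e = 0) →
      ∑ᶠ e ∈ Sq, φ e = ∑ e ∈ hfin.toFinset, φ e := by
    intro φ hφ
    apply finsum_mem_eq_sum_of_inter_support_eq
    ext e
    simp only [mem_inter_iff, Function.mem_support, Finset.mem_coe, Set.Finite.mem_toFinset,
      mem_setOf_eq]
    constructor
    · rintro ⟨h2, h3⟩
      exact ⟨⟨h2, by by_contra h4; exact h3 (hφ e h4)⟩, h3⟩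
    · rintro ⟨h2, h3⟩
      exact ⟨h2.1, h3⟩
  have ord0 : ∀ {f : ℂ → ℂ} {e : ℂ}, AnalyticAt ℂ f e → f e ≠ 0 → analyticOrderNatAt f e = 0 := by
    intro f e hf h0
    unfold analyticOrderNatAt
    rw [hf.analyticOrderAt_eq_zero.2 h0]
    rfl
  have resz : ∀ {f g : ℂ → ℂ} {e : ℂ}, AnalyticAt ℂ f e → AnalyticAt ℂ g e → f e ≠ 0 →
      res (fun z => g z / f z) e = 0 := by
    intro f g e hf hg h0
    refine h1.2.2.1 _ _ ?_
    filter_upwards [(hg.div hf h0).eventually_analyticAt] with z hz using hz.differentiableAt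
  constructor
  · unfold Cn
    exact finsum_mem_congr rfl fun e _ => (hloc e).1
  · unfold Rs Cn
    show ∑ᶠ e ∈ Sq, res (fun z => B false (v, t, e) (v, t, z) / A false (v, t, e) (v, t, z)) e =
      v * ∑ᶠ e ∈ Sq, res (fun z => B true (v⁻¹, t / v ^ 3, e) (v⁻¹, t / v ^ 3, z) /
            A true (v⁻¹, t / v ^ 3, e) (v⁻¹, t / v ^ 3, z)) e +
          t / v * ((∑ᶠ e ∈ Sq, analyticOrderNatAt
            (fun z => A true (v⁻¹, t / v ^ 3, e) (v⁻¹, t / v ^ 3, z)) e : ℕ) : ℂ)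
    rw [hsum, hsum, hsumN]
    · push_cast
      rw [Finset.mul_sum, Finset.mul_sum, ← Finset.sum_add_distrib]
      exact Finset.sum_congr rfl fun e _ => (hloc e).2
    · intro e he
      exact ord0 (line_an (hPD.holA true _ (hR' e))) fun h2 => he (hane' e h2)
    · intro e he
      exact resz (line_an (hPD.holA true _ (hR' e))) (line_an (hPD.holB true _ (hR' e)))
        fun h2 => he (hane' e h2)
    · intro e he
      exact resz (line_an (hPD.holA false _ (hR e))) (line_an (hPD.holB false _ (hR e))) he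

end Pool.Agent.Y758.MM
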