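import Mathlib

/-!
# Project MM: general definitions

Nonsingular hypersurfaces of complex manifolds, and Moishezon maps.
-/

set_option autoImplicit false

open Set Filter Topology Metric
open scoped Manifold ContDiff

namespace Pool.Agent.Y758.MM

/-! ### General notions -/

section General

variable (E : Type) [NormedAddCommGroup E] [NormedSpace ℂ E] {M : Type} [TopologicalSpace M]
  [ChartedSpace E M]

/-- `X` is a nonsingular closed complex hypersurface of the complex manifold `M`: near every point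
of `M` it is the zero set of a holomorphic function, with nonzero derivative at the given point if
this point lies on `X`. -/
def IsSmoothHypersurface (X : Set M) : Prop :=
  ∀ x : M, ∃ U : Set M, IsOpen U ∧ x ∈ U ∧ ∃ f : M → ℂ,
    MDifferentiableOn 𝓘(ℂ, E) 𝓘(ℂ, ℂ) f U ∧ X ∩ U = {y | y ∈ U ∧ f y = 0} ∧
      (x ∈ X → mfderiv 𝓘(ℂ, E) 𝓘(ℂ, ℂ) f x ≠ 0)

/-- Local homogeneous coordinates of a meromorphic map from the analytic set `Y` to the projective
space of dimension `N` (in other words: `N + 1` sections of a line bundle on `Y`): an open covering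
`W` of `Y` and holomorphic maps `F i : W i → ℂ^(N+1)` whose restrictions to `Y` differ on the
overlaps locally by holomorphic functions without zeros. -/
structure HomCoord (Y : Set M) (N : ℕ) (ι : Type) (W : ι → Set M)
    (F : ι → M → (Fin (N + 1) → ℂ)) : Prop where
  isOpen : ∀ i, IsOpen (W i)
  cover : Y ⊆ ⋃ i, W i
  holo : ∀ i, MDifferentiableOn 𝓘(ℂ, E) 𝓘(ℂ, Fin (N + 1) → ℂ) (F i) (W i)
  trans : ∀ i j, ∀ x ∈ Y ∩ (W i ∩ W j), ∃ (V : Set M) (u : M → ℂ), IsOpen V ∧ x ∈ V ∧
    V ⊆ W i ∩ W j ∧ MDifferentiableOn 𝓘(ℂ, E) 𝓘(ℂ, ℂ) u V ∧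
      ∀ y ∈ Y ∩ V, u y ≠ 0 ∧ F i y = u y • F j y

/-- `Y` is Moishezon over the base `B`: there is a meromorphic map `φ` from `Y` to a projective
space such that `(g, φ) : Y ⇢ B × ℙ^N` is defined and injective on a dense open subset `Y ∩ O` of
`Y` (so `Y` is bimeromorphic over `B` to the closure of the image). -/
def MoishezonOver {B : Type} (g : M → B) (Y : Set M) : Prop :=
  ∃ (N : ℕ) (ι : Type) (W : ι → Set M) (F : ι → M → (Fin (N + 1) → ℂ)) (O : Set M),
    HomCoord E Y N ι W F ∧ IsOpen O ∧ Y ⊆ closure (Y ∩ O) ∧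
      (∀ i, ∀ x ∈ Y ∩ O ∩ W i, F i x ≠ 0) ∧
      ∀ i j, ∀ x ∈ Y ∩ O ∩ W i, ∀ y ∈ Y ∩ O ∩ W j, g x = g y →
        (∃ c : ℂ, F i x = c • F j y) → x = y

end General

end Pool.Agent.Y758.MM
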