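import Mathlib
import Pool.Agent.Y758.MM.Defs

/-!
# Project MM: a proper holomorphic map with Moishezon fibres which is not locally Moishezon

Definitions and statements of the steps.
-/

set_option autoImplicit false

open Set Filter Topology Metric
open scoped Manifold ContDiff

namespace Pool.Agent.Y758.MM

/-! ### The space -/

/-- `ℂ³`, with coordinates `(v, t, e)` -/
abbrev T3 : Type := ℂ × ℂ × ℂ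

/-- `ℂ⁴`, with coordinates `(x, v, t, e)` -/
abbrev T : Type := ℂ × T3

/-- the lattice `ℤ + ℤ i` -/
def Lat : Set ℂ := {z | ∃ m n : ℤ, z = (m : ℂ) + (n : ℂ) * Complex.I}

/-- the fundamental square -/
def Sq : Set ℂ := {z | 0 ≤ z.re ∧ z.re < 1 ∧ 0 ≤ z.im ∧ z.im < 1}

/-- translation of the last coordinate -/
def sh (l : ℂ) (p : T) : T := (p.1, p.2.1, p.2.2.1, p.2.2.2 + l)

/-- the sign -/
def sg (c : Bool) : ℂ := if c then -1 else 1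

/-- the change of charts `(x, v, t, e) ↦ (x v, 1 / v, t / v³, e ± x t / v)` -/
noncomputable def tw (c : Bool) (p : T) : T :=
  (p.1 * p.2.1, p.2.1⁻¹, p.2.2.1 / p.2.1 ^ 3, p.2.2.2 + sg c * (p.1 * p.2.2.1 / p.2.1))

/-- `M` is the complex manifold glued from two copies of `ℂ³ × (ℂ / Lat)` by the change of charts
`tw`; here `π c : ℂ⁴ → M` is the parametrisation of the `c`-th copy. -/
structure Model (M : Type) [TopologicalSpace M] [ChartedSpace T M] (π : Bool → T → M) : Prop where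
  surj : ∀ m : M, ∃ c p, π c p = m
  same : ∀ c p q, π c p = π c q ↔ ∃ l ∈ Lat, q = sh l p
  diff : ∀ c p q, π c p = π (!c) q ↔ p.2.1 ≠ 0 ∧ ∃ l ∈ Lat, q = sh l (tw c p)
  isOpenMap : ∀ c, IsOpenMap (π c)
  holo : ∀ c, MDifferentiable 𝓘(ℂ, T) 𝓘(ℂ, T) (π c)
  desc : ∀ (F : Type) [NormedAddCommGroup F] [NormedSpace ℂ F] (c : Bool) (p : T) (f : M → F),
    DifferentiableAt ℂ (fun q => f (π c q)) p → MDifferentiableAt 𝓘(ℂ, T) 𝓘(ℂ, F) f (π c p)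

/-- MFD: the space exists. -/
def S_MFD : Prop := ∃ (M : Type) (_ : TopologicalSpace M) (_ : T2Space M)
  (_ : SecondCountableTopology M) (_ : ChartedSpace T M) (_ : IsManifold 𝓘(ℂ, T) ω M)
  (π : Bool → T → M), Model M π

/-- the hypersurface `t² = 1 + v⁶` of `ℂ⁴` -/
def XX : Set T := {p | p.2.2.1 ^ 2 = 1 + p.2.1 ^ 6}

/-- the hypersurface of `M` -/
def XS {M : Type} (π : Bool → T → M) : Set M := {m | ∃ c p, π c p = m ∧ p ∈ XX}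

/-- the map to `ℂ²` -/
structure IsG {M : Type} (π : Bool → T → M) (g : M → ℂ × ℂ) : Prop where
  f : ∀ p, g (π false p) = (p.1, p.1 * p.2.1)
  t : ∀ p, g (π true p) = (p.1 * p.2.1, p.1)

/-- GEO: the map exists and is holomorphic, `X` is a nonsingular hypersurface, the restriction of
`g` to `X` is proper. -/
def S_GEO : Prop := ∀ (M : Type) [TopologicalSpace M] [T2Space M] [ChartedSpace T M]
  [IsManifold 𝓘(ℂ, T) ω M] (π : Bool → T → M), Model M π →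
  (∀ c p, π c p ∈ XS π ↔ p ∈ XX) ∧ ∃ g : M → ℂ × ℂ, IsG π g ∧
    MDifferentiable 𝓘(ℂ, T) 𝓘(ℂ, ℂ × ℂ) g ∧ IsSmoothHypersurface T (XS π) ∧
    ∀ K : Set (ℂ × ℂ), IsCompact K → IsCompact (XS π ∩ g ⁻¹' K)

/-- ELL: the elliptic curve `ℂ / Lat` has an injective holomorphic map to the projective plane. -/
def S_ELL : Prop := ∃ (O : Bool → Set ℂ) (f : Bool → ℂ → (Fin 3 → ℂ)) (u : ℂ → ℂ),
  (∀ c, IsOpen (O c)) ∧ O false ∪ O true = univ ∧ 0 ∉ O false ∧ (∀ z, z ∉ Lat → z ∈ O false) ∧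
  (∀ c z, ∀ l ∈ Lat, (z + l ∈ O c ↔ z ∈ O c)) ∧ (∀ c, DifferentiableOn ℂ (f c) (O c)) ∧
  (∀ c z, ∀ l ∈ Lat, f c (z + l) = f c z) ∧ (∀ c, ∀ z ∈ O c, f c z ≠ 0) ∧
  DifferentiableOn ℂ u (O false ∩ O true) ∧ (∀ z, ∀ l ∈ Lat, u (z + l) = u z) ∧
  (∀ z ∈ O false ∩ O true, u z ≠ 0 ∧ f false z = u z • f true z) ∧
  ∀ c c' z w, z ∈ O c → w ∈ O c' → (∃ a : ℂ, f c z = a • f c' w) → ∃ l ∈ Lat, w = z + l

/-- FIBN: the fibres over the points other than the origin. -/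
def S_FIBN : Prop := ∀ (M : Type) [TopologicalSpace M] [T2Space M] [ChartedSpace T M]
  [IsManifold 𝓘(ℂ, T) ω M] (π : Bool → T → M) (g : M → ℂ × ℂ), Model M π → IsG π g →
  (∀ c p, π c p ∈ XS π ↔ p ∈ XX) →
  ∀ s : ℂ × ℂ, s ≠ 0 → MoishezonOver T (fun _ : M => ()) (XS π ∩ g ⁻¹' {s})

/-- FIB0: the fibre over the origin. -/
def S_FIB0 : Prop := ∀ (M : Type) [TopologicalSpace M] [T2Space M] [ChartedSpace T M]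
  [IsManifold 𝓘(ℂ, T) ω M] (π : Bool → T → M) (g : M → ℂ × ℂ), Model M π → IsG π g →
  (∀ c p, π c p ∈ XS π ↔ p ∈ XX) →
  MoishezonOver T (fun _ : M => ()) (XS π ∩ g ⁻¹' {(0 : ℂ × ℂ)})

/-! ### Divisors near the fibre over the origin -/

/-- holomorphic near `p` -/
def Hol {V : Type} [NormedAddCommGroup V] [NormedSpace ℂ V] (f : V → ℂ) (p : V) : Prop :=
  ∀ᶠ q in 𝓝 p, DifferentiableAt ℂ f q

/-- `f = u g` near `p` on `S`, where `u` has no zeros -/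
def Eqv {V : Type} [NormedAddCommGroup V] [NormedSpace ℂ V] (S : Set V) (f g : V → ℂ) (p : V) :
    Prop :=
  ∃ u : V → ℂ, Hol u p ∧ u p ≠ 0 ∧ ∀ᶠ q in 𝓝[S] p, f q = u q * g q

/-- `A' = u A` and `B' = u B + w A` near `p` on `S`, where `u` has no zeros -/
def Eqv2 {V : Type} [NormedAddCommGroup V] [NormedSpace ℂ V] (S : Set V) (A' B' A B : V → ℂ)
    (p : V) : Prop :=
  ∃ u w : V → ℂ, Hol u p ∧ Hol w p ∧ u p ≠ 0 ∧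
    ∀ᶠ q in 𝓝[S] p, A' q = u q * A q ∧ B' q = u q * B q + w q * A q

/-- the region of the chart -/
def Reg (ρ : ℝ) : Set T := {p | p ∈ XX ∧ ‖p.1‖ < ρ ∧ ‖p.2.1‖ < 2}

/-- a Cartier divisor on `X` near the fibre over the origin: `Θ c p` is a local equation near the
point `p` of the chart `c` -/
structure CD (ρ : ℝ) (Θ : Bool → T → T → ℂ) : Prop where
  hol : ∀ c, ∀ p ∈ Reg ρ, Hol (Θ c p) p
  comp : ∀ c, ∀ p ∈ Reg ρ, ∀ᶠ q in 𝓝[XX] p, Eqv XX (Θ c q) (Θ c p) q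
  per : ∀ c, ∀ p ∈ Reg ρ, ∀ l ∈ Lat, Eqv XX (fun q => Θ c (sh l p) (sh l q)) (Θ c p) p
  glue : ∀ p ∈ Reg ρ, p.2.1 ≠ 0 → tw false p ∈ Reg ρ →
    Eqv XX (fun q => Θ true (tw false p) (tw false q)) (Θ false p) p

/-- UP: a Moishezon structure gives a divisor with a zero on a fibre. -/
def S_UP : Prop := ∀ (M : Type) [TopologicalSpace M] [T2Space M] [ChartedSpace T M]
  [IsManifold 𝓘(ℂ, T) ω M] (π : Bool → T → M) (g : M → ℂ × ℂ), Model M π → IsG π g →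
  (∀ c p, π c p ∈ XS π ↔ p ∈ XX) →
  ∀ U : Set (ℂ × ℂ), IsOpen U → (0 : ℂ × ℂ) ∈ U → MoishezonOver T g (XS π ∩ g ⁻¹' U) →
  ∃ ρ : ℝ, 0 < ρ ∧ ∃ Θ : Bool → T → T → ℂ, CD ρ Θ ∧ ∃ p ∈ Reg ρ, ∃ z : ℂ,
    Θ false p p = 0 ∧ Θ false (sh z p) (sh z p) ≠ 0

/-! ### Coefficients along the fibre over the origin -/

/-- the surface `t² = 1 + v⁶` in `ℂ³` -/
def X3 : Set T3 := {r | r.2.1 ^ 2 = 1 + r.1 ^ 6}

def Reg3 : Set T3 := {r | r ∈ X3 ∧ ‖r.1‖ < 2}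

def sh3 (l : ℂ) (r : T3) : T3 := (r.1, r.2.1, r.2.2 + l)

noncomputable def tw3 (r : T3) : T3 := (r.1⁻¹, r.2.1 / r.1 ^ 3, r.2.2)

/-- derivative in the direction `e` -/
noncomputable def de (f : T3 → ℂ) (r : T3) : ℂ := deriv (fun z => f (r.1, r.2.1, z)) r.2.2

/-- pairs of coefficients -/
structure PD (A B : Bool → T3 → T3 → ℂ) : Prop where
  holA : ∀ c, ∀ r ∈ Reg3, Hol (A c r) r
  holB : ∀ c, ∀ r ∈ Reg3, Hol (B c r) r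
  comp : ∀ c, ∀ r ∈ Reg3, ∀ᶠ q in 𝓝[X3] r, Eqv2 X3 (A c q) (B c q) (A c r) (B c r) q
  per : ∀ c, ∀ r ∈ Reg3, ∀ l ∈ Lat, Eqv2 X3 (fun q => A c (sh3 l r) (sh3 l q))
    (fun q => B c (sh3 l r) (sh3 l q)) (A c r) (B c r) r
  glue : ∀ r ∈ Reg3, r.1 ≠ 0 → tw3 r ∈ Reg3 → Eqv2 X3 (fun q => A true (tw3 r) (tw3 q))
    (fun q => q.1 * B true (tw3 r) (tw3 q) + q.2.1 / q.1 * de (A true (tw3 r)) (tw3 q))
    (A false r) (B false r) r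
  nz : ∀ c, ∀ r ∈ Reg3, ∃ᶠ q in 𝓝[X3] r, A c r q ≠ 0

/-- the coefficient of `x ^ n` of the local equation -/
noncomputable def cf (Θ : Bool → T → T → ℂ) (n : ℕ) (c : Bool) (r q : T3) : ℂ :=
  iteratedDeriv n (fun x => Θ c (0, r) (x, q)) 0 / (n.factorial : ℂ)

/-- the curve `t² = 1 + v⁶` -/
def KK : Set (ℂ × ℂ) := {k | k.2 ^ 2 = 1 + k.1 ^ 6}

/-- the local coordinate at the point `k₀` of the curve -/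
noncomputable def kc (k₀ k : ℂ × ℂ) : ℂ := if k₀.2 = 0 then k.2 else k.1 - k₀.1

/-- PARAM: local parametrisation of the curve. -/
def S_PARAM : Prop := ∀ k₀ ∈ KK, ∃ r : ℝ, 0 < r ∧ ∃ ψ : ℂ → ℂ × ℂ, DifferentiableOn ℂ ψ (ball 0 r) ∧
  ψ 0 = k₀ ∧ (∀ s ∈ ball (0 : ℂ) r, ψ s ∈ KK ∧ kc k₀ (ψ s) = s) ∧
  ∀ᶠ k in 𝓝[KK] k₀, kc k₀ k ∈ ball (0 : ℂ) r ∧ ψ (kc k₀ k) = k

/-- CONN: the part `|v| < 2` of the curve is connected. -/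
def S_CONN : Prop := IsPreconnected {k : ℂ × ℂ | k ∈ KK ∧ ‖k.1‖ < 2}

/-- IDN: a divisor which is proper somewhere is proper everywhere. -/
def S_IDN : Prop := ∀ (ρ : ℝ) (Θ : Bool → T → T → ℂ), CD ρ Θ →
  (∃ p ∈ Reg ρ, Θ false p p ≠ 0) → ∀ c, ∀ p ∈ Reg ρ, ∃ᶠ q in 𝓝[XX] p, Θ c p q ≠ 0

/-- the coefficients of `x ^ n`, `n < m`, vanish -/
def Low (Θ : Bool → T → T → ℂ) (m : ℕ) : Prop :=
  ∀ n < m, ∀ c, ∀ r ∈ Reg3, ∀ᶠ q in 𝓝[X3] r, cf Θ n c r q = 0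

/-- CFP: the first two coefficients. -/
def S_CFP : Prop := ∀ (ρ : ℝ) (Θ : Bool → T → T → ℂ), 0 < ρ → CD ρ Θ → ∀ m : ℕ, Low Θ m →
  (∀ c, ∀ r ∈ Reg3, ∃ᶠ q in 𝓝[X3] r, cf Θ m c r q ≠ 0) → PD (cf Θ m) (cf Θ (m + 1))

/-- NZM: the order along the fibre over the origin. -/
def S_NZM : Prop := ∀ (ρ : ℝ) (Θ : Bool → T → T → ℂ), 0 < ρ → CD ρ Θ →
  (∀ c, ∀ p ∈ Reg ρ, ∃ᶠ q in 𝓝[XX] p, Θ c p q ≠ 0) →
  ∃ m : ℕ, Low Θ m ∧ ∀ c, ∀ r ∈ Reg3, ∃ᶠ q in 𝓝[X3] r, cf Θ m c r q ≠ 0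

/-! ### Zeros and residues in families of functions on the elliptic curve -/

/-- the residue -/
noncomputable def res (f : ℂ → ℂ) (z : ℂ) : ℂ :=
  limUnder (𝓝[>] (0 : ℝ)) fun r => (2 * Real.pi * Complex.I)⁻¹ * ∮ w in C(z, r), f w

/-- a family of pairs on `D × (ℂ / Lat)` -/
structure Sys (D : Set ℂ) (A B : ℂ × ℂ → ℂ × ℂ → ℂ) : Prop where
  holA : ∀ p, p.1 ∈ D → Hol (A p) p
  holB : ∀ p, p.1 ∈ D → Hol (B p) p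
  comp : ∀ p, p.1 ∈ D → ∀ᶠ q in 𝓝 p, Eqv2 univ (A q) (B q) (A p) (B p) q
  per : ∀ p, p.1 ∈ D → ∀ l ∈ Lat, Eqv2 univ (fun q => A (p.1, p.2 + l) (q.1, q.2 + l))
    (fun q => B (p.1, p.2 + l) (q.1, q.2 + l)) (A p) (B p) p
  nz : ∀ p, p.1 ∈ D → ∃ᶠ q in 𝓝 p, A p q ≠ 0

/-- `A` does not vanish identically on the curve over `s` -/
def gd (A : ℂ × ℂ → ℂ × ℂ → ℂ) (s : ℂ) : Prop := ∀ e, ∀ᶠ z in 𝓝[≠] e, A (s, e) (s, z) ≠ 0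

/-- the number of zeros over `s` -/
noncomputable def cnt (A : ℂ × ℂ → ℂ × ℂ → ℂ) (s : ℂ) : ℕ :=
  ∑ᶠ e ∈ Sq, analyticOrderNatAt (fun z => A (s, e) (s, z)) e

/-- the sum of the residues of `B / A` over `s` -/
noncomputable def rst (A B : ℂ × ℂ → ℂ × ℂ → ℂ) (s : ℂ) : ℂ :=
  ∑ᶠ e ∈ Sq, res (fun z => B (s, e) (s, z) / A (s, e) (s, z)) e

/-- the `n`-th coefficient of `A` in the direction `s` at `s₀` -/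
noncomputable def lc (A : ℂ × ℂ → ℂ × ℂ → ℂ) (s₀ : ℂ) (n : ℕ) (e z : ℂ) : ℂ :=
  iteratedDeriv n (fun s => A (s₀, e) (s, z)) s₀ / (n.factorial : ℂ)

/-- RED: division by the largest power of `s - s₀`. -/
def S_RED : Prop := ∀ (D : Set ℂ) (A B : ℂ × ℂ → ℂ × ℂ → ℂ), IsOpen D → Sys D A B → ∀ s₀ ∈ D,
  ∃ (r : ℕ) (A' : ℂ → ℂ × ℂ → ℂ), ∀ e, Hol (A' e) (s₀, e) ∧
    (∀ᶠ q in 𝓝 (s₀, e), A (s₀, e) q = (q.1 - s₀) ^ r * A' e q) ∧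
    (∀ᶠ z in 𝓝[≠] e, A' e (s₀, z) ≠ 0) ∧
    (∀ n < r, ∀ᶠ z in 𝓝 e, lc A s₀ n e z = 0) ∧ ∀ᶠ z in 𝓝 e, lc A s₀ r e z = A' e (s₀, z)

/-- HUR: zeros and residues of a family near a zero. -/
def S_HUR : Prop := ∀ (f g : ℂ × ℂ → ℂ) (s₀ p : ℂ), Hol f (s₀, p) → Hol g (s₀, p) →
  (∀ᶠ z in 𝓝[≠] p, f (s₀, z) ≠ 0) → ∃ ρ₀ : ℝ, 0 < ρ₀ ∧ ∀ ρ : ℝ, 0 < ρ → ρ < ρ₀ →
    (∀ z ∈ closedBall p ρ, z ≠ p → f (s₀, z) ≠ 0) ∧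
    ∀ᶠ s in 𝓝 s₀, (∀ z ∈ closedBall p ρ, DifferentiableAt ℂ f (s, z) ∧
        DifferentiableAt ℂ g (s, z)) ∧ (∀ z ∈ sphere p ρ, f (s, z) ≠ 0) ∧
      (∀ z ∈ ball p ρ, ∀ᶠ w in 𝓝[≠] z, f (s, w) ≠ 0) ∧ {z | z ∈ ball p ρ ∧ f (s, z) = 0}.Finite ∧
      ∑ᶠ z ∈ ball p ρ, analyticOrderNatAt (fun w => f (s, w)) z =
        analyticOrderNatAt (fun w => f (s₀, w)) p ∧
      ∑ᶠ z ∈ ball p ρ, res (fun w => g (s, w) / f (s, w)) z =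
        (2 * Real.pi * Complex.I)⁻¹ * ∮ w in C(p, ρ), g (s, w) / f (s, w)

/-- the closed discs of radius `ρ` around the points `p i` are disjoint on the torus -/
def Sep {n : ℕ} (p : Fin n → ℂ) (ρ : ℝ) : Prop :=
  ∀ i j, ∀ l ∈ Lat, (i ≠ j ∨ l ≠ 0) → 2 * ρ < ‖p i + l - p j‖

/-- TOR: the residue theorem on the torus. -/
def S_TOR : Prop := ∀ (n : ℕ) (p : Fin n → ℂ) (ρ : ℝ) (h : ℂ → ℂ), 0 < ρ → Sep p ρ →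
  (∀ z, (∀ i, ∀ l ∈ Lat, z ≠ p i + l) → DifferentiableAt ℂ h z) →
  (∀ z, ∀ l ∈ Lat, h (z + l) = h z) → ∑ i, ∮ z in C(p i, ρ), h z = 0

/-- SUM: sums over the torus and over discs. -/
def S_SUM : Prop := ∀ (α : Type) [AddCommMonoid α] (n : ℕ) (p : Fin n → ℂ) (ρ : ℝ) (φ : ℂ → α),
  0 < ρ → Sep p ρ → (∀ z, ∀ l ∈ Lat, φ (z + l) = φ z) →
  (∀ z, φ z ≠ 0 → ∃ i, ∃ l ∈ Lat, z + l ∈ ball (p i) ρ) →
  (∀ i, {z | z ∈ ball (p i) ρ ∧ φ z ≠ 0}.Finite) →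
  ∑ᶠ e ∈ Sq, φ e = ∑ i, ∑ᶠ z ∈ ball (p i) ρ, φ z

/-- FINZ: a function family on the torus with isolated zeros has finitely many of them; small discs
around them are disjoint. -/
def S_FINZ : Prop := ∀ (Z : Set ℂ), (∀ z, ∀ l ∈ Lat, (z + l ∈ Z ↔ z ∈ Z)) → IsClosed Z →
  (∀ z, ∀ᶠ w in 𝓝[≠] z, w ∉ Z) → ∃ (n : ℕ) (p : Fin n → ℂ), (∀ i, p i ∈ Z) ∧
    (∀ z ∈ Z, ∃ i, ∃ l ∈ Lat, z = p i + l) ∧ ∃ ρ₀ : ℝ, 0 < ρ₀ ∧ ∀ ρ : ℝ, 0 < ρ → ρ < ρ₀ → Sep p ρ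

/-- CNT: the number of zeros is constant. -/
def S_CNT : Prop := ∀ (D : Set ℂ) (A B : ℂ × ℂ → ℂ × ℂ → ℂ), IsOpen D → Sys D A B → ∀ s₀ ∈ D,
  ∃ d : ℕ, (∀ᶠ s in 𝓝[≠] s₀, gd A s ∧ cnt A s = d) ∧
    ∀ r : ℕ, (∀ e, ∀ n < r, ∀ᶠ z in 𝓝 e, lc A s₀ n e z = 0) →
      (∀ e, ∀ᶠ z in 𝓝[≠] e, lc A s₀ r e z ≠ 0) →
      ∑ᶠ e ∈ Sq, analyticOrderNatAt (lc A s₀ r e) e = d

/-- RES: the sum of the residues is holomorphic. -/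
def S_RES : Prop := ∀ (D : Set ℂ) (A B : ℂ × ℂ → ℂ × ℂ → ℂ), IsOpen D → Sys D A B → ∀ s₀ ∈ D,
  ∃ R : ℂ → ℂ, AnalyticAt ℂ R s₀ ∧ ∀ᶠ s in 𝓝[≠] s₀, rst A B s = R s

/-! ### Zeros and residues over the curve -/

def Gd (A : Bool → T3 → T3 → ℂ) (c : Bool) (k : ℂ × ℂ) : Prop :=
  ∀ e, ∀ᶠ z in 𝓝[≠] e, A c (k.1, k.2, e) (k.1, k.2, z) ≠ 0

noncomputable def Cn (A : Bool → T3 → T3 → ℂ) (c : Bool) (k : ℂ × ℂ) : ℕ :=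
  ∑ᶠ e ∈ Sq, analyticOrderNatAt (fun z => A c (k.1, k.2, e) (k.1, k.2, z)) e

noncomputable def Rs (A B : Bool → T3 → T3 → ℂ) (c : Bool) (k : ℂ × ℂ) : ℂ :=
  ∑ᶠ e ∈ Sq, res (fun z => B c (k.1, k.2, e) (k.1, k.2, z) / A c (k.1, k.2, e) (k.1, k.2, z)) e

/-- LOC: numbers of zeros and sums of residues near a point of the curve. -/
def S_LOC : Prop := ∀ A B : Bool → T3 → T3 → ℂ, PD A B → ∀ c, ∀ k₀ ∈ KK, ‖k₀.1‖ < 2 →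
  ∃ (d : ℕ) (R : ℂ → ℂ), AnalyticAt ℂ R 0 ∧
    (∀ᶠ k in 𝓝[KK \ {k₀}] k₀, Gd A c k ∧ Cn A c k = d ∧ Rs A B c k = R (kc k₀ k)) ∧
    (Gd A c k₀ → Cn A c k₀ = d)

/-- CONST: the number of zeros does not depend on the point of the curve. -/
def S_CONST : Prop := ∀ A B : Bool → T3 → T3 → ℂ, PD A B → ∃ d : ℕ, ∀ k₀ ∈ KK, ‖k₀.1‖ < 2 →
  (∀ᶠ k in 𝓝[KK \ {k₀}] k₀, Cn A false k = d) ∧ (Gd A false k₀ → Cn A false k₀ = d)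

/-- REL: the two charts. -/
def S_REL : Prop := ∀ A B : Bool → T3 → T3 → ℂ, PD A B → ∀ k ∈ KK, 1 / 2 < ‖k.1‖ → ‖k.1‖ < 2 →
  Gd A false k → Cn A false k = Cn A true (k.1⁻¹, k.2 / k.1 ^ 3) ∧
    Rs A B false k = k.1 * Rs A B true (k.1⁻¹, k.2 / k.1 ^ 3) +
      k.2 / k.1 * (Cn A true (k.1⁻¹, k.2 / k.1 ^ 3) : ℂ)

/-- POS: there are zeros. -/
def S_POS : Prop := ∀ (ρ : ℝ) (Θ : Bool → T → T → ℂ), 0 < ρ → CD ρ Θ →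
  (∀ c, ∀ p ∈ Reg ρ, ∃ᶠ q in 𝓝[XX] p, Θ c p q ≠ 0) → ∀ m : ℕ, Low Θ m →
  (∀ c, ∀ r ∈ Reg3, ∃ᶠ q in 𝓝[X3] r, cf Θ m c r q ≠ 0) →
  (∃ p ∈ Reg ρ, ∃ z : ℂ, Θ false p p = 0 ∧ Θ false (sh z p) (sh z p) ≠ 0) →
  ∃ k ∈ KK, ‖k.1‖ < 2 ∧ Gd (cf Θ m) false k ∧ 1 ≤ Cn (cf Θ m) false k

/-- FIN: the contradiction. -/
def S_FIN : Prop := ∀ (f g : ℂ × ℂ → ℂ) (d : ℕ),
  (∀ k₀ ∈ KK, ‖k₀.1‖ < 2 → ∃ R : ℂ → ℂ, AnalyticAt ℂ R 0 ∧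
    ∀ᶠ k in 𝓝[KK \ {k₀}] k₀, f k = R (kc k₀ k)) →
  (∀ k₀ ∈ KK, ‖k₀.1‖ < 2 → ∃ R : ℂ → ℂ, AnalyticAt ℂ R 0 ∧
    ∀ᶠ k in 𝓝[KK \ {k₀}] k₀, g k = R (kc k₀ k)) →
  (∀ k₀ ∈ KK, 1 / 2 < ‖k₀.1‖ → ‖k₀.1‖ < 2 → ∀ᶠ k in 𝓝[KK \ {k₀}] k₀,
    f k = k.1 * g (k.1⁻¹, k.2 / k.1 ^ 3) + k.2 / k.1 * (d : ℂ)) → d = 0

end Pool.Agent.Y758.MM
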