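import Mathlib
import Pool.Agent.Y758.MM.Stm

/-! MM-SUM: sums over the torus and over discs. -/

set_option autoImplicit false

open Set Filter Topology Metric

namespace Pool.Agent.Y758.MM

namespace H458

/-- the representative in the fundamental square -/
noncomputable def rp (z : ℂ) : ℂ := z - ((⌊z.re⌋ : ℂ) + (⌊z.im⌋ : ℂ) * Complex.I)

lemma lat_neg {l : ℂ} (h : l ∈ Lat) : -l ∈ Lat := by
  obtain ⟨m, n, rfl⟩ := h
  exact ⟨-m, -n, by push_cast; ring⟩

lemma lat_add {l k : ℂ} (h : l ∈ Lat) (h' : k ∈ Lat) : l + k ∈ Lat := by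
  obtain ⟨m, n, rfl⟩ := h
  obtain ⟨m', n', rfl⟩ := h'
  exact ⟨m + m', n + n', by push_cast; ring⟩

lemma rp_lat (z : ℂ) : ∃ l ∈ Lat, rp z = z + l := by
  refine ⟨-((⌊z.re⌋ : ℂ) + (⌊z.im⌋ : ℂ) * Complex.I), lat_neg ⟨_, _, rfl⟩, ?_⟩
  unfold rp
  ring

lemma rp_mem (z : ℂ) : rp z ∈ Sq := by
  have h1 := Int.floor_le z.re
  have h2 := Int.lt_floor_add_one z.re
  have h3 := Int.floor_le z.im
  have h4 := Int.lt_floor_add_one z.im
  have e1 : (rp z).re = z.re - ⌊z.re⌋ := by simp [rp]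
  have e2 : (rp z).im = z.im - ⌊z.im⌋ := by simp [rp]
  refine ⟨?_, ?_, ?_, ?_⟩
  · rw [e1]; linarith
  · rw [e1]; linarith
  · rw [e2]; linarith
  · rw [e2]; linarith

lemma rp_of_sq {e l : ℂ} (he : e ∈ Sq) (hl : l ∈ Lat) : rp (e + l) = e := by
  obtain ⟨m, n, rfl⟩ := hl
  obtain ⟨h1, h2, h3, h4⟩ := he
  have e1 : (e + ((m : ℂ) + (n : ℂ) * Complex.I)).re = e.re + m := by simp
  have e2 : (e + ((m : ℂ) + (n : ℂ) * Complex.I)).im = e.im + n := by simp
  have f1 : ⌊e.re + m⌋ = m := by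
    rw [Int.floor_add_intCast, Int.floor_eq_zero_iff.2 ⟨h1, h2⟩, zero_add]
  have f2 : ⌊e.im + n⌋ = n := by
    rw [Int.floor_add_intCast, Int.floor_eq_zero_iff.2 ⟨h3, h4⟩, zero_add]
  unfold rp
  rw [e1, e2, f1, f2]
  ring

lemma rp_eq {z w : ℂ} (h : rp z = rp w) : ∃ l ∈ Lat, z = w + l := by
  obtain ⟨l, hl, e⟩ := rp_lat z
  obtain ⟨k, hk, e'⟩ := rp_lat w
  refine ⟨k + -l, lat_add hk (lat_neg hl), ?_⟩
  rw [e, e'] at h
  linear_combination h

end H458

open H458 in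
theorem MM_SUM : S_SUM := by
  intro α _ n p ρ φ hρ hsep hper hsupp hfin
  have hrp : ∀ z, φ (rp z) = φ z := by
    intro z
    obtain ⟨l, hl, e⟩ := rp_lat z
    rw [e, hper z l hl]
  have hclose : ∀ i j, ∀ z ∈ ball (p i) ρ, ∀ w ∈ ball (p j) ρ, rp z = rp w → i = j ∧ z = w := by
    intro i j z hz w hw h
    obtain ⟨l, hl, e⟩ := rp_eq h
    by_contra hcon
    have h1 : i ≠ j ∨ -l ≠ 0 := by
      by_contra h2
      push Not at h2
      apply hcon
      refine ⟨h2.1, ?_⟩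
      have : l = 0 := by
        have := h2.2
        rwa [neg_eq_zero] at this
      rw [e, this, add_zero]
    have h3 := hsep i j (-l) (lat_neg hl) h1
    have h4 : ‖z - p i‖ < ρ := by simpa [dist_eq_norm] using hz
    have h5 : ‖w - p j‖ < ρ := by simpa [dist_eq_norm] using hw
    have h6 : p i + -l - p j = -(z - p i) + (w - p j) := by
      rw [e]; ring
    rw [h6] at h3
    have h7 := norm_add_le (-(z - p i)) (w - p j)
    rw [norm_neg] at h7
    linarith
  set S : Fin n → Set ℂ := fun i => {z | z ∈ ball (p i) ρ ∧ φ z ≠ 0} with hS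
  have hSi : ∀ i, ∑ᶠ z ∈ ball (p i) ρ, φ z = ∑ᶠ e ∈ rp '' S i, φ e := by
    intro i
    rw [finsum_mem_image]
    · have e : S i = ball (p i) ρ ∩ Function.support φ := by
        ext z
        simp [hS]
      simp_rw [hrp]
      rw [e, finsum_mem_inter_support]
    · intro z hz w hw h
      exact (hclose i i z hz.1 w hw.1 h).2
  have hU : Sq ∩ Function.support φ = ⋃ i, rp '' S i := by
    ext e
    rw [mem_iUnion]
    constructor
    · rintro ⟨he, he2⟩
      obtain ⟨i, l, hl, hb⟩ := hsupp e he2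
      refine ⟨i, e + l, ⟨hb, ?_⟩, rp_of_sq he hl⟩
      rw [hper e l hl]
      exact he2
    · rintro ⟨i, z, hz, rfl⟩
      refine ⟨rp_mem z, ?_⟩
      rw [Function.mem_support, hrp]
      exact hz.2
  rw [← finsum_mem_inter_support, hU, finsum_mem_iUnion, finsum_eq_sum_of_fintype]
  · exact Finset.sum_congr rfl fun i _ => (hSi i).symm
  · intro i j hij
    rw [Function.onFun, Set.disjoint_left]
    rintro e ⟨z, hz, hze⟩ ⟨w, hw, hwe⟩
    exact hij (hclose i j z hz.1 w hw.1 (hze.trans hwe.symm)).1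
  · intro i
    exact (hfin i).image _

end Pool.Agent.Y758.MM
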