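import Mathlib
import Pool.Agent.Y758.MM.Stm2
import Pool.Agent.Y758.MM.SUM

/-! MM-RES: the sum of the residues is holomorphic. -/

set_option autoImplicit false

open Set Filter Topology Metric

namespace Pool.Agent.Y758.MM

namespace R458

lemma hol_line {F : ℂ × ℂ → ℂ} {s z : ℂ} (h : Hol F (s, z)) :
    ∀ᶠ t in 𝓝 z, DifferentiableAt ℂ (fun t => F (s, t)) t := by
  have hc : Tendsto (fun t : ℂ => (s, t)) (𝓝 z) (𝓝 (s, z)) :=
    (Continuous.prodMk_right s).tendsto z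
  filter_upwards [hc.eventually h] with t ht
  exact ht.comp t (by fun_prop)

lemma hol_line' {F : ℂ × ℂ → ℂ} {s z : ℂ} (h : Hol F (s, z)) :
    ∀ᶠ t in 𝓝 s, DifferentiableAt ℂ (fun t => F (t, z)) t := by
  have hc : Tendsto (fun t : ℂ => (t, z)) (𝓝 s) (𝓝 (s, z)) :=
    (Continuous.prodMk_left z).tendsto s
  filter_upwards [hc.eventually h] with t ht
  exact ht.comp t (by fun_prop)

lemma hol_hol {V : Type} [NormedAddCommGroup V] [NormedSpace ℂ V] {F : V → ℂ} {p : V}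
    (h : Hol F p) : ∀ᶠ q in 𝓝 p, Hol F q := eventually_eventually_nhds.2 h

lemma hol_cont {V : Type} [NormedAddCommGroup V] [NormedSpace ℂ V] {F : V → ℂ} {p : V}
    (h : Hol F p) : ContinuousAt F p := (h.self_of_nhds).continuousAt

lemma hol_ne {V : Type} [NormedAddCommGroup V] [NormedSpace ℂ V] {F : V → ℂ} {p : V}
    (h : Hol F p) (h0 : F p ≠ 0) : ∀ᶠ q in 𝓝 p, F q ≠ 0 :=
  (hol_cont h).eventually_ne h0

/-- residues do not change -/
lemma res_eqv (hR : S_RESL) {A₁ B₁ A₂ B₂ u w : ℂ → ℂ} {z : ℂ}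
    (hA : ∀ᶠ t in 𝓝 z, DifferentiableAt ℂ A₂ t) (hB : ∀ᶠ t in 𝓝 z, DifferentiableAt ℂ B₂ t)
    (hu : ∀ᶠ t in 𝓝 z, DifferentiableAt ℂ u t) (hw : ∀ᶠ t in 𝓝 z, DifferentiableAt ℂ w t)
    (hu0 : u z ≠ 0)
    (h : ∀ᶠ t in 𝓝 z, A₁ t = u t * A₂ t ∧ B₁ t = u t * B₂ t + w t * A₂ t) :
    res (fun t => B₁ t / A₁ t) z = res (fun t => B₂ t / A₂ t) z := by
  obtain ⟨-, hR2, hR3, hR4, -, -, -⟩ := hR
  have hune : ∀ᶠ t in 𝓝 z, u t ≠ 0 := (hu.self_of_nhds.continuousAt).eventually_ne hu0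
  have hA2 : AnalyticAt ℂ A₂ z := Complex.analyticAt_iff_eventually_differentiableAt.2 hA
  rcases hA2.eventually_eq_zero_or_eventually_ne_zero with h0 | h0
  · apply hR2
    apply Filter.Eventually.filter_mono nhdsWithin_le_nhds
    filter_upwards [h0, h] with t h1 h2
    rw [h2.1, h1, mul_zero, div_zero, div_zero]
  · have e1 : res (fun t => B₁ t / A₁ t) z = res (fun t => B₂ t / A₂ t + w t / u t) z := by
      apply hR2
      filter_upwards [h0, h.filter_mono nhdsWithin_le_nhds,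
        hune.filter_mono nhdsWithin_le_nhds] with t h1 h2 h3
      rw [h2.1, h2.2]
      field_simp
    rw [e1]
    have hwu : ∀ᶠ t in 𝓝 z, DifferentiableAt ℂ (fun t => w t / u t) t := by
      filter_upwards [hu, hw, hune] with t h1 h2 h3
      exact h2.div h1 h3
    rw [hR4 _ _ z _ (hwu.filter_mono nhdsWithin_le_nhds), hR3 _ z hwu, add_zero]
    filter_upwards [h0, hA.filter_mono nhdsWithin_le_nhds,
      hB.filter_mono nhdsWithin_le_nhds] with t h1 h2 h3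
    exact h3.div h2 h1

lemma res_smul (hR : S_RESL) {f g : ℂ → ℂ} {z : ℂ} (c : ℂ)
    (hf : ∀ᶠ t in 𝓝 z, DifferentiableAt ℂ f t) (hg : ∀ᶠ t in 𝓝 z, DifferentiableAt ℂ g t) :
    res (fun t => g t / (c * f t)) z = c⁻¹ * res (fun t => g t / f t) z := by
  obtain ⟨-, hR2, hR3, -, hR5, -, -⟩ := hR
  have e0 : (fun t => g t / (c * f t)) = fun t => c⁻¹ * (g t / f t) := by
    funext t
    rw [mul_comm c, ← div_div, div_eq_inv_mul (g t / f t) c]
  rw [e0]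
  have hA2 : AnalyticAt ℂ f z := Complex.analyticAt_iff_eventually_differentiableAt.2 hf
  rcases hA2.eventually_eq_zero_or_eventually_ne_zero with h0 | h0
  · have z0 : res (fun _ : ℂ => (0 : ℂ)) z = 0 := by
      apply hR3
      exact Eventually.of_forall fun t => differentiableAt_const _
    have e1 : res (fun t => c⁻¹ * (g t / f t)) z = res (fun _ : ℂ => (0 : ℂ)) z := by
      apply hR2
      filter_upwards [h0.filter_mono nhdsWithin_le_nhds] with t h1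
      rw [h1, div_zero, mul_zero]
    have e2 : res (fun t => g t / f t) z = res (fun _ : ℂ => (0 : ℂ)) z := by
      apply hR2
      filter_upwards [h0.filter_mono nhdsWithin_le_nhds] with t h1
      rw [h1, div_zero]
    rw [e1, e2, z0, mul_zero]
  · apply hR5
    filter_upwards [h0, hf.filter_mono nhdsWithin_le_nhds,
      hg.filter_mono nhdsWithin_le_nhds] with t h1 h2 h3
    exact h3.div h2 h1

lemma res_zero (hR : S_RESL) {f g : ℂ → ℂ} {z : ℂ}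
    (hf : ∀ᶠ t in 𝓝 z, DifferentiableAt ℂ f t) (hg : ∀ᶠ t in 𝓝 z, DifferentiableAt ℂ g t)
    (h0 : f z ≠ 0) : res (fun t => g t / f t) z = 0 := by
  apply hR.2.2.1
  filter_upwards [hf, hg, (hf.self_of_nhds.continuousAt).eventually_ne h0] with t h1 h2 h3
  exact h2.div h1 h3

/-- the local residue -/
noncomputable def ph (A B : ℂ × ℂ → ℂ × ℂ → ℂ) (s z : ℂ) : ℂ :=
  res (fun w => B (s, z) (s, w) / A (s, z) (s, w)) z

lemma ph_per (hR : S_RESL) {D : Set ℂ} {A B : ℂ × ℂ → ℂ × ℂ → ℂ} (hS : Sys D A B) {s : ℂ}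
    (hs : s ∈ D) (z l : ℂ) (hl : l ∈ Lat) : ph A B s (z + l) = ph A B s z := by
  unfold ph
  rw [← hR.2.2.2.2.2.2 (fun w => B (s, z + l) (s, w) / A (s, z + l) (s, w)) l z]
  obtain ⟨u, w, hu, hw, hu0, h⟩ := hS.per (s, z) hs l hl
  have hc : Tendsto (fun t : ℂ => (s, t)) (𝓝 z) (𝓝 (s, z)) :=
    (Continuous.prodMk_right s).tendsto z
  rw [nhdsWithin_univ] at h
  exact res_eqv hR (u := fun t => u (s, t)) (w := fun t => w (s, t))
    (hol_line (hS.holA _ hs)) (hol_line (hS.holB _ hs)) (hol_line hu) (hol_line hw) hu0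
    (hc.eventually h)

/-- comparison of the germs at `q` and at `(s₀, e)` -/
structure GG (A B : ℂ × ℂ → ℂ × ℂ → ℂ) (s₀ : ℂ) (r : ℕ) (A' : ℂ → ℂ × ℂ → ℂ) (e : ℂ)
    (q : ℂ × ℂ) : Prop where
  eqv : Eqv2 univ (A q) (B q) (A (s₀, e)) (B (s₀, e)) q
  red : ∀ᶠ q' in 𝓝 q, A (s₀, e) q' = (q'.1 - s₀) ^ r * A' e q'
  hA : Hol (A' e) q
  hB : Hol (B (s₀, e)) q

lemma gg_ev {D : Set ℂ} {A B : ℂ × ℂ → ℂ × ℂ → ℂ} (hS : Sys D A B) {s₀ : ℂ}
    (hs : s₀ ∈ D) {r : ℕ} {A' : ℂ → ℂ × ℂ → ℂ} (e : ℂ) (h1 : Hol (A' e) (s₀, e))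
    (h2 : ∀ᶠ q in 𝓝 (s₀, e), A (s₀, e) q = (q.1 - s₀) ^ r * A' e q) :
    ∀ᶠ q in 𝓝 (s₀, e), GG A B s₀ r A' e q := by
  filter_upwards [hS.comp (s₀, e) hs, eventually_eventually_nhds.2 h2, hol_hol h1,
    hol_hol (hS.holB (s₀, e) hs)] with q a1 a2 a3 a4
  exact ⟨a1, a2, a3, a4⟩

lemma ph_gg (hR : S_RESL) {A B : ℂ × ℂ → ℂ × ℂ → ℂ} {s₀ : ℂ} {r : ℕ} {A' : ℂ → ℂ × ℂ → ℂ}
    {e s z : ℂ} (hG : GG A B s₀ r A' e (s, z)) :
    ph A B s z = ((s - s₀) ^ r)⁻¹ * res (fun w => B (s₀, e) (s, w) / A' e (s, w)) z := by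
  obtain ⟨u, w, hu, hw, hu0, h⟩ := hG.eqv
  have hc : Tendsto (fun t : ℂ => (s, t)) (𝓝 z) (𝓝 (s, z)) :=
    (Continuous.prodMk_right s).tendsto z
  rw [nhdsWithin_univ] at h
  rw [← res_smul hR _ (hol_line hG.hA) (hol_line hG.hB)]
  unfold ph
  have hd : ∀ᶠ t in 𝓝 z, DifferentiableAt ℂ (fun t => (s - s₀) ^ r * A' e (s, t)) t := by
    filter_upwards [hol_line hG.hA] with t ht
    exact ht.const_mul _
  refine res_eqv hR (u := fun t => u (s, t)) (w := fun t => w (s, t)) hd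
    (hol_line hG.hB) (hol_line hu) (hol_line hw) hu0 ?_
  filter_upwards [hc.eventually h, hc.eventually hG.red] with t h1 h2
  rw [h1.1, h1.2, h2]
  exact ⟨rfl, rfl⟩

lemma ph_zero (hR : S_RESL) {A B : ℂ × ℂ → ℂ × ℂ → ℂ} {s₀ : ℂ} {r : ℕ} {A' : ℂ → ℂ × ℂ → ℂ}
    {e s z : ℂ} (hG : GG A B s₀ r A' e (s, z)) (h0 : A' e (s, z) ≠ 0) : ph A B s z = 0 := by
  rw [ph_gg hR hG, res_zero hR (hol_line hG.hA) (hol_line hG.hB) h0, mul_zero]

lemma pow_zero_der {r l : ℕ} {g f : ℂ → ℂ} (hg : AnalyticAt ℂ g 0)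
    (hf : ∀ᶠ x in 𝓝 (0 : ℂ), f x = x ^ r * g x) (hl : l < r) : iteratedDeriv l f 0 = 0 := by
  have e : f =ᶠ[𝓝 0] fun x => x ^ r * g x := hf
  have hf' : AnalyticAt ℂ f 0 := AnalyticAt.congr (by fun_prop) e.symm
  have h1 : (r : ℕ∞) ≤ analyticOrderAt f 0 := by
    rw [natCast_le_analyticOrderAt hf']
    refine ⟨g, hg, ?_⟩
    filter_upwards [hf] with x hx
    rw [hx, sub_zero, smul_eq_mul]
  exact (natCast_le_analyticOrderAt_iff_iteratedDeriv_eq_zero hf').1 h1 l hl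

lemma der_eq {r l : ℕ} {f₁ f₂ g : ℂ → ℂ} (hf₂ : AnalyticAt ℂ f₂ 0) (hg : AnalyticAt ℂ g 0)
    (h : ∀ᶠ x in 𝓝 (0 : ℂ), f₁ x = f₂ x + x ^ r * g x) (hl : l < r) :
    iteratedDeriv l f₁ 0 = iteratedDeriv l f₂ 0 := by
  have e : f₁ =ᶠ[𝓝 0] fun x => f₂ x + x ^ r * g x := h
  rw [e.iteratedDeriv_eq l]
  have h2 : AnalyticAt ℂ (fun x => x ^ r * g x) 0 := by fun_prop
  rw [iteratedDeriv_fun_add hf₂.contDiffAt h2.contDiffAt,
    pow_zero_der hg (Eventually.of_forall fun x => rfl) hl, add_zero]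

/-- Taylor coefficient of the quotient in the direction of the first variable -/
noncomputable def cc (b α : ℂ × ℂ → ℂ) (s₀ : ℂ) (l : ℕ) (z : ℂ) : ℂ :=
  iteratedDeriv l (fun x => b (s₀ + x, z) / α (s₀ + x, z)) 0 / (l.factorial : ℂ)

lemma shift_tendsto (s₀ z : ℂ) :
    Tendsto (fun x : ℂ => (s₀ + x, z)) (𝓝 0) (𝓝 (s₀, z)) := by
  have : Continuous (fun x : ℂ => (s₀ + x, z)) := by fun_prop
  have h := this.tendsto 0
  simpa using h

lemma hol_shift {F : ℂ × ℂ → ℂ} {s₀ z : ℂ} (h : Hol F (s₀, z)) :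
    AnalyticAt ℂ (fun x => F (s₀ + x, z)) 0 := by
  rw [Complex.analyticAt_iff_eventually_differentiableAt]
  filter_upwards [(shift_tendsto s₀ z).eventually h] with x hx
  exact hx.comp x (by fun_prop)

lemma cc_eq {b₁ α₁ b₂ α₂ u w : ℂ × ℂ → ℂ} {s₀ z z' : ℂ} {r l : ℕ} (hl : l < r)
    (hα : Hol α₂ (s₀, z)) (hb : Hol b₂ (s₀, z)) (hu : Hol u (s₀, z)) (hw : Hol w (s₀, z))
    (hu0 : u (s₀, z) ≠ 0) (hα0 : α₂ (s₀, z) ≠ 0)
    (h : ∀ᶠ q in 𝓝 (s₀, z), α₁ (q.1, q.2 + z') = u q * α₂ q ∧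
      b₁ (q.1, q.2 + z') = u q * b₂ q + w q * ((q.1 - s₀) ^ r * α₂ q)) :
    cc b₁ α₁ s₀ l (z + z') = cc b₂ α₂ s₀ l z := by
  unfold cc
  congr 1
  have a1 := hol_shift hα
  have a2 := hol_shift hb
  have a3 := hol_shift hu
  have a4 := hol_shift hw
  have n1 : α₂ (s₀ + 0, z) ≠ 0 := by rwa [add_zero]
  have n2 : u (s₀ + 0, z) ≠ 0 := by rwa [add_zero]
  refine der_eq (r := r) (g := fun x => w (s₀ + x, z) / u (s₀ + x, z)) (a2.div a1 n1)
    (a4.div a3 n2) ?_ hl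
  filter_upwards [(shift_tendsto s₀ z).eventually h, (shift_tendsto s₀ z).eventually (hol_ne hα hα0),
    (shift_tendsto s₀ z).eventually (hol_ne hu hu0)] with x h1 h2 h3
  rw [h1.1, h1.2, add_sub_cancel_left]
  field_simp

lemma cl {F : ℂ × ℂ → ℂ} {q : ℂ × ℂ} {s₀ : ℂ} (hF : ContinuousAt F q)
    (h : ∀ᶠ q' in 𝓝 q, q'.1 ≠ s₀ → F q' = 0) : F q = 0 := by
  by_contra hne
  by_cases hq : q.1 = s₀
  · have h1 := hF.eventually_ne hne
    have hc : Tendsto (fun t : ℂ => (q.1 + t, q.2)) (𝓝 0) (𝓝 q) := by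
      have : Continuous (fun t : ℂ => (q.1 + t, q.2)) := by fun_prop
      have h := this.tendsto 0
      simpa using h
    have h2 := (hc.eventually (h1.and h)).filter_mono
      (nhdsWithin_le_nhds (s := {(0 : ℂ)}ᶜ))
    obtain ⟨t, ht, ht0⟩ := (h2.and self_mem_nhdsWithin).exists
    apply ht.1
    apply ht.2
    simp only [hq]
    intro hc
    apply ht0
    simpa using hc
  · exact hne (h.self_of_nhds hq)

/-- comparison of the reduced germs -/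
lemma red2 {a₁ b₁ a₂ b₂ α₁ α₂ u w : ℂ × ℂ → ℂ} {s₀ : ℂ} {q₀ : ℂ × ℂ} {r : ℕ}
    (h : ∀ᶠ q in 𝓝 q₀, a₁ q = u q * a₂ q ∧ b₁ q = u q * b₂ q + w q * a₂ q)
    (h1 : ∀ᶠ q in 𝓝 q₀, a₁ q = (q.1 - s₀) ^ r * α₁ q)
    (h2 : ∀ᶠ q in 𝓝 q₀, a₂ q = (q.1 - s₀) ^ r * α₂ q)
    (hα₁ : Hol α₁ q₀) (hα₂ : Hol α₂ q₀) (hu : Hol u q₀) :
    ∀ᶠ q in 𝓝 q₀, α₁ q = u q * α₂ q ∧ b₁ q = u q * b₂ q + w q * ((q.1 - s₀) ^ r * α₂ q) := by
  have h3 : ∀ᶠ q in 𝓝 q₀, q.1 ≠ s₀ → α₁ q - u q * α₂ q = 0 := by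
    filter_upwards [h, h1, h2] with q e1 e2 e3 hq
    have hp : (q.1 - s₀) ^ r ≠ 0 := pow_ne_zero _ (sub_ne_zero.2 hq)
    apply mul_left_cancel₀ hp
    have := e1.1
    rw [e2, e3] at this
    rw [mul_zero, mul_sub, this]
    ring
  have h4 := eventually_eventually_nhds.2 h3
  filter_upwards [h, h2, h4, hα₁, hα₂, hu] with q e1 e2 e3 e4 e5 e6
  refine ⟨?_, ?_⟩
  · have hc : ContinuousAt (fun q => α₁ q - u q * α₂ q) q :=
      e4.continuousAt.sub (e6.continuousAt.mul e5.continuousAt)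
    exact sub_eq_zero.1 (cl hc e3)
  · rw [e1.2, e2]

lemma circ_sum (hE : S_EXP) {F : ℂ × ℂ → ℂ} {p : ℂ} {ρ : ℝ} (hρ : 0 < ρ)
    (hF : ∀ w ∈ sphere p ρ, Hol F (0, w)) : ∃ δ : ℝ, 0 < δ ∧ ∃ M : ℝ, 0 ≤ M ∧
    (∀ n : ℕ, ‖∮ w in C(p, ρ), iteratedDeriv n (fun x => F (x, w)) 0 / (n.factorial : ℂ)‖ ≤
      M / δ ^ n) ∧
    ∀ x : ℂ, ‖x‖ < δ → HasSum (fun n : ℕ =>
      (∮ w in C(p, ρ), iteratedDeriv n (fun x => F (x, w)) 0 / (n.factorial : ℂ)) * x ^ n)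
      (∮ w in C(p, ρ), F (x, w)) := by
  have hK : IsCompact (sphere p ρ) := isCompact_sphere p ρ
  have hc0 : ContinuousOn (fun w => F (0, w)) (sphere p ρ) := by
    intro w hw
    have h1 : ContinuousAt F (0, w) := hol_cont (hF w hw)
    have h2 : ContinuousAt (fun w : ℂ => ((0 : ℂ), w)) w := by fun_prop
    exact (ContinuousAt.comp (f := fun w : ℂ => ((0 : ℂ), w)) h1 h2).continuousWithinAt
  obtain ⟨M₀, hM₀⟩ := hK.exists_bound_of_continuousOn hc0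
  set M : ℝ := |M₀| + 1 with hM
  have hM0 : 0 < M := by positivity
  have hev : ∀ᶠ x in 𝓝 (0 : ℂ), ∀ w ∈ sphere p ρ, DifferentiableAt ℂ F (x, w) ∧
      ‖F (x, w)‖ ≤ M := by
    apply hK.eventually_forall_of_forall_eventually
      (P := fun x w => DifferentiableAt ℂ F (x, w) ∧ ‖F (x, w)‖ ≤ M)
    intro w hw
    have h1 := hF w hw
    have h2 : ∀ᶠ q in 𝓝 ((0 : ℂ), w), ‖F q‖ < ‖F (0, w)‖ + 1 :=
      ((hol_cont h1).norm).eventually_lt continuousAt_const (by simp)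
    filter_upwards [h1, h2] with q a1 a2
    refine ⟨a1, ?_⟩
    have := hM₀ w hw
    have h3 := le_abs_self M₀
    show ‖F q‖ ≤ M
    linarith
  obtain ⟨δ₁, hδ₁, hball⟩ := Metric.eventually_nhds_iff_ball.1 hev
  have hδ : 0 < δ₁ / 2 := by positivity
  have hdiff : ∀ w ∈ sphere p ρ, DifferentiableOn ℂ (fun x => F (x, w)) (ball 0 δ₁) := by
    intro w hw x hx
    have h1 := (hball x hx w hw).1
    have h2 : DifferentiableAt ℂ (fun x : ℂ => (x, w)) x := by fun_prop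
    exact (DifferentiableAt.comp (f := fun x : ℂ => (x, w)) x h1 h2).differentiableWithinAt
  have hcau : ∀ w ∈ sphere p ρ, ∀ n : ℕ,
      ‖iteratedDeriv n (fun x => F (x, w)) 0 / (n.factorial : ℂ)‖ ≤ M / (δ₁ / 2) ^ n := by
    intro w hw n
    have h1 : ‖iteratedDeriv n (fun x => F (x, w)) 0‖ ≤ n.factorial * M / (δ₁ / 2) ^ n := by
      apply Complex.norm_iteratedDeriv_le_of_forall_mem_sphere_norm_le n hδ
      · apply (DifferentiableOn.diffContOnCl_ball (U := ball 0 δ₁) (hdiff w hw))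
        exact closedBall_subset_ball (by linarith)
      · intro x hx
        apply (hball x _ w hw).2
        exact (closedBall_subset_ball (by linarith)) (sphere_subset_closedBall hx)
    have hf : (0 : ℝ) < n.factorial := by exact_mod_cast n.factorial_pos
    rw [norm_div, Complex.norm_natCast, div_le_iff₀ hf]
    refine h1.trans (le_of_eq ?_)
    ring
  have hcont : ∀ n : ℕ, ContinuousOn
      (fun w => iteratedDeriv n (fun x => F (x, w)) 0 / (n.factorial : ℂ)) (sphere p ρ) := by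
    intro n w hw
    obtain ⟨δ', hδ', h1, -⟩ := hE ℂ F w (hF w hw)
    exact ((h1 n).continuousOn.continuousAt (ball_mem_nhds w hδ')).continuousWithinAt
  refine ⟨δ₁ / 2, hδ, 2 * Real.pi * ρ * M, by positivity, ?_, ?_⟩
  · intro n
    have := circleIntegral.norm_integral_le_of_norm_le_const hρ.le (fun w hw => hcau w hw n)
    refine this.trans (le_of_eq ?_)
    ring
  · intro x hx
    have hcm : ∀ θ : ℝ, circleMap p ρ θ ∈ sphere p ρ := fun θ => circleMap_mem_sphere p hρ.le θ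
    have key := intervalIntegral.hasSum_integral_of_dominated_convergence (ι := ℕ)
      (μ := MeasureTheory.volume) (a := 0) (b := 2 * Real.pi)
      (F := fun n θ => (deriv (circleMap p ρ) θ • (iteratedDeriv n
        (fun x => F (x, circleMap p ρ θ)) 0 / (n.factorial : ℂ))) * x ^ n)
      (f := fun θ => deriv (circleMap p ρ) θ • F (x, circleMap p ρ θ))
      (fun n _ => ρ * M * (‖x‖ / (δ₁ / 2)) ^ n) ?_ ?_ ?_ ?_ ?_
    · have e : ∀ n : ℕ, ∫ θ in (0 : ℝ)..(2 * Real.pi), (deriv (circleMap p ρ) θ • (iteratedDeriv n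
        (fun x => F (x, circleMap p ρ θ)) 0 / (n.factorial : ℂ))) * x ^ n =
          (∮ w in C(p, ρ), iteratedDeriv n (fun x => F (x, w)) 0 / (n.factorial : ℂ)) * x ^ n := by
        intro n
        rw [intervalIntegral.integral_mul_const]
        rfl
      simp_rw [e] at key
      exact key
    · intro n
      apply Continuous.aestronglyMeasurable
      refine Continuous.mul ?_ continuous_const
      have g1 : Continuous (deriv (circleMap p ρ)) := by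
        have : deriv (circleMap p ρ) = fun θ => circleMap 0 ρ θ * Complex.I := by
          funext θ
          rw [deriv_circleMap]
        rw [this]
        exact (continuous_circleMap 0 ρ).mul continuous_const
      have g2 : Continuous (fun θ : ℝ => iteratedDeriv n (fun x => F (x, circleMap p ρ θ)) 0 /
          (n.factorial : ℂ)) := (hcont n).comp_continuous (continuous_circleMap p ρ) hcm
      exact g1.mul g2
    · intro n
      refine Eventually.of_forall fun θ _ => ?_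
      rw [norm_mul, norm_smul, norm_pow]
      have h1 : ‖deriv (circleMap p ρ) θ‖ = ρ := by
        rw [deriv_circleMap, norm_mul, Complex.norm_I, mul_one, norm_circleMap_zero,
          abs_of_pos hρ]
      rw [h1]
      have h2 := hcau _ (hcm θ) n
      calc ρ * ‖iteratedDeriv n (fun x => F (x, circleMap p ρ θ)) 0 / (n.factorial : ℂ)‖ *
          ‖x‖ ^ n ≤ ρ * (M / (δ₁ / 2) ^ n) * ‖x‖ ^ n := by gcongr
        _ = ρ * M * (‖x‖ / (δ₁ / 2)) ^ n := by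
            rw [div_pow ‖x‖]
            generalize (δ₁ / 2) ^ n = y
            ring
    · refine Eventually.of_forall fun θ _ => ?_
      apply Summable.mul_left
      apply summable_geometric_of_lt_one (by positivity)
      rw [div_lt_one hδ]
      exact hx
    · exact intervalIntegrable_const
    · refine Eventually.of_forall fun θ _ => ?_
      have hx1 : x ∈ ball (0 : ℂ) δ₁ := by
        rw [mem_ball_zero_iff]; linarith
      have h1 : HasSum (fun n : ℕ => ((n.factorial : ℂ)⁻¹) • (x - 0) ^ n •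
          iteratedDeriv n (fun x => F (x, circleMap p ρ θ)) 0) (F (x, circleMap p ρ θ)) := by
        have hd := hdiff _ (hcm θ)
        have e1 : ball (0 : ℂ) δ₁ = ball (0 : ℂ) ((⟨δ₁, hδ₁.le⟩ : NNReal) : ℝ) := rfl
        rw [e1] at hd hx1
        exact Complex.hasSum_taylorSeries_on_ball hd hx1
      have h2 := h1.mul_left (deriv (circleMap p ρ) θ)
      have e2 : (fun n : ℕ => (deriv (circleMap p ρ) θ • (iteratedDeriv n
        (fun x => F (x, circleMap p ρ θ)) 0 / (n.factorial : ℂ))) * x ^ n) =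
          (fun n : ℕ => deriv (circleMap p ρ) θ * (((n.factorial : ℂ)⁻¹) • (x - 0) ^ n •
          iteratedDeriv n (fun x => F (x, circleMap p ρ θ)) 0)) := by
        funext n
        simp only [smul_eq_mul, sub_zero]
        ring
      rw [e2]
      exact h2

lemma fin_analytic {q : ℕ → ℂ} {δ M : ℝ} (hδ : 0 < δ) (hM : 0 ≤ M)
    (hq : ∀ m, ‖q m‖ ≤ M / δ ^ m) {r : ℕ} (h0 : ∀ m < r, q m = 0) (s₀ : ℂ) :
    ∃ R : ℂ → ℂ, AnalyticAt ℂ R s₀ ∧ ∀ s : ℂ, ‖s - s₀‖ < δ / 2 → ∀ V : ℂ,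
      HasSum (fun m => q m * (s - s₀) ^ m) V → V = (s - s₀) ^ r * R s := by
  have hb : ∀ m : ℕ, ∀ s ∈ ball s₀ (δ / 2), ‖q (m + r) * (s - s₀) ^ m‖ ≤
      M / δ ^ r * (1 / 2) ^ m := by
    intro m s hs
    rw [norm_mul, norm_pow]
    have h1 : ‖s - s₀‖ ≤ δ / 2 := by
      have : ‖s - s₀‖ < δ / 2 := by simpa [dist_eq_norm] using hs
      exact this.le
    have h2 := hq (m + r)
    calc ‖q (m + r)‖ * ‖s - s₀‖ ^ m ≤ (M / δ ^ (m + r)) * (δ / 2) ^ m := by gcongr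
      _ = M / δ ^ r * (1 / 2) ^ m := by
          rw [pow_add, div_pow, one_div, inv_pow]
          field_simp
  have hsum : Summable (fun m : ℕ => M / δ ^ r * (1 / 2 : ℝ) ^ m) :=
    (summable_geometric_of_lt_one (by norm_num) (by norm_num)).mul_left _
  refine ⟨fun s => ∑' m : ℕ, q (m + r) * (s - s₀) ^ m, ?_, ?_⟩
  · have hd : DifferentiableOn ℂ (fun s => ∑' m : ℕ, q (m + r) * (s - s₀) ^ m)
        (ball s₀ (δ / 2)) := by
      apply Complex.differentiableOn_tsum_of_summable_norm hsum _ isOpen_ball hb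
      intro m
      fun_prop
    exact hd.analyticAt (ball_mem_nhds s₀ (by positivity))
  · intro s hs V hV
    have hs' : s ∈ ball s₀ (δ / 2) := by simpa [dist_eq_norm] using hs
    have h1 : Summable (fun m : ℕ => q (m + r) * (s - s₀) ^ m) :=
      Summable.of_norm_bounded hsum fun m => hb m s hs'
    rw [← hasSum_nat_add_iff' r] at hV
    have h2 : ∑ i ∈ Finset.range r, q i * (s - s₀) ^ i = 0 := by
      apply Finset.sum_eq_zero
      intro i hi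
      rw [h0 i (Finset.mem_range.1 hi), zero_mul]
    rw [h2, sub_zero] at hV
    have h3 := h1.hasSum.mul_left ((s - s₀) ^ r)
    have e : (fun m : ℕ => q (m + r) * (s - s₀) ^ (m + r)) =
        fun m : ℕ => (s - s₀) ^ r * (q (m + r) * (s - s₀) ^ m) := by
      funext m
      rw [pow_add]; ring
    rw [e] at hV
    exact hV.unique h3

/-- all the data at `s₀` -/
structure DD (D : Set ℂ) (A B : ℂ × ℂ → ℂ × ℂ → ℂ) (s₀ : ℂ) (r : ℕ) (A' : ℂ → ℂ × ℂ → ℂ) :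
    Prop where
  sys : Sys D A B
  op : IsOpen D
  mem : s₀ ∈ D
  ga : ∀ e, Hol (A' e) (s₀, e)
  red : ∀ e, ∀ᶠ q in 𝓝 (s₀, e), A (s₀, e) q = (q.1 - s₀) ^ r * A' e q
  iso : ∀ e, ∀ᶠ z in 𝓝[≠] e, A' e (s₀, z) ≠ 0

variable {D : Set ℂ} {A B : ℂ × ℂ → ℂ × ℂ → ℂ} {s₀ : ℂ} {r : ℕ} {A' : ℂ → ℂ × ℂ → ℂ}

lemma DD.gg (h : DD D A B s₀ r A') (e : ℂ) : ∀ᶠ q in 𝓝 (s₀, e), GG A B s₀ r A' e q :=
  gg_ev h.sys h.mem e (h.ga e) (h.red e)

lemma DD.cmp (h : DD D A B s₀ r A') (e z : ℂ) (hG : GG A B s₀ r A' e (s₀, z)) :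
    ∃ u w : ℂ × ℂ → ℂ, Hol u (s₀, z) ∧ Hol w (s₀, z) ∧ u (s₀, z) ≠ 0 ∧
      ∀ᶠ q in 𝓝 (s₀, z), A' z q = u q * A' e q ∧
        B (s₀, z) q = u q * B (s₀, e) q + w q * ((q.1 - s₀) ^ r * A' e q) := by
  obtain ⟨u, w, hu, hw, hu0, h1⟩ := hG.eqv
  rw [nhdsWithin_univ] at h1
  exact ⟨u, w, hu, hw, hu0, red2 h1 (h.red z) hG.red (h.ga z) hG.hA hu⟩

lemma DD.per (h : DD D A B s₀ r A') (z l : ℂ) (hl : l ∈ Lat) :
    ∃ u w : ℂ × ℂ → ℂ, Hol u (s₀, z) ∧ Hol w (s₀, z) ∧ u (s₀, z) ≠ 0 ∧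
      ∀ᶠ q in 𝓝 (s₀, z), A' (z + l) (q.1, q.2 + l) = u q * A' z q ∧
        B (s₀, z + l) (q.1, q.2 + l) =
          u q * B (s₀, z) q + w q * ((q.1 - s₀) ^ r * A' z q) := by
  obtain ⟨u, w, hu, hw, hu0, h1⟩ := h.sys.per (s₀, z) h.mem l hl
  rw [nhdsWithin_univ] at h1
  have hc : Tendsto (fun q : ℂ × ℂ => (q.1, q.2 + l)) (𝓝 (s₀, z)) (𝓝 (s₀, z + l)) := by
    have : Continuous (fun q : ℂ × ℂ => (q.1, q.2 + l)) := by fun_prop
    exact this.tendsto (s₀, z)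
  have h2 : ∀ᶠ q in 𝓝 (s₀, z), A (s₀, z + l) (q.1, q.2 + l) =
      (q.1 - s₀) ^ r * A' (z + l) (q.1, q.2 + l) := hc.eventually (h.red (z + l))
  have h3 : Hol (fun q : ℂ × ℂ => A' (z + l) (q.1, q.2 + l)) (s₀, z) := by
    have h4 := hc.eventually (h.ga (z + l))
    show ∀ᶠ q in 𝓝 (s₀, z), DifferentiableAt ℂ (fun q : ℂ × ℂ => A' (z + l) (q.1, q.2 + l)) q
    filter_upwards [h4] with q hq
    have h5 : DifferentiableAt ℂ (fun q : ℂ × ℂ => (q.1, q.2 + l)) q := by fun_prop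
    exact DifferentiableAt.comp (f := fun q : ℂ × ℂ => (q.1, q.2 + l)) q hq h5
  exact ⟨u, w, hu, hw, hu0, red2 h1 h2 (h.red z) h3 (h.ga z) hu⟩

/-- the zeros over `s₀` -/
def ZZ (s₀ : ℂ) (A' : ℂ → ℂ × ℂ → ℂ) : Set ℂ := {z | A' z (s₀, z) = 0}

lemma DD.zcmp (h : DD D A B s₀ r A') {e z : ℂ} (hG : GG A B s₀ r A' e (s₀, z)) :
    z ∈ ZZ s₀ A' ↔ A' e (s₀, z) = 0 := by
  obtain ⟨u, w, hu, hw, hu0, h1⟩ := h.cmp e z hG
  show A' z (s₀, z) = 0 ↔ _
  rw [(h1.self_of_nhds).1, mul_eq_zero]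
  exact ⟨fun h => h.resolve_left hu0, fun h => Or.inr h⟩

lemma DD.zper (h : DD D A B s₀ r A') (z l : ℂ) (hl : l ∈ Lat) :
    z + l ∈ ZZ s₀ A' ↔ z ∈ ZZ s₀ A' := by
  obtain ⟨u, w, hu, hw, hu0, h1⟩ := h.per z l hl
  show A' (z + l) (s₀, z + l) = 0 ↔ A' z (s₀, z) = 0
  have := (h1.self_of_nhds).1
  simp only at this
  rw [this, mul_eq_zero]
  exact ⟨fun h => h.resolve_left hu0, fun h => Or.inr h⟩

lemma line_tendsto (s z : ℂ) : Tendsto (fun t : ℂ => (s, t)) (𝓝 z) (𝓝 (s, z)) :=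
  (Continuous.prodMk_right s).tendsto z

lemma DD.zcl (h : DD D A B s₀ r A') : IsClosed (ZZ s₀ A') := by
  rw [← isOpen_compl_iff, isOpen_iff_eventually]
  intro z hz
  have hz' : A' z (s₀, z) ≠ 0 := hz
  filter_upwards [(line_tendsto s₀ z).eventually (hol_ne (h.ga z) hz'),
    (line_tendsto s₀ z).eventually (h.gg z)] with w h1 h2
  rw [mem_compl_iff, h.zcmp h2]
  exact h1

lemma DD.ziso (h : DD D A B s₀ r A') (z : ℂ) : ∀ᶠ w in 𝓝[≠] z, w ∉ ZZ s₀ A' := by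
  filter_upwards [h.iso z, ((line_tendsto s₀ z).eventually (h.gg z)).filter_mono
    nhdsWithin_le_nhds] with w h1 h2
  rw [h.zcmp h2]
  exact h1

open Classical in
/-- the coefficient as a function on the torus -/
noncomputable def hh (B : ℂ × ℂ → ℂ × ℂ → ℂ) (s₀ : ℂ) (A' : ℂ → ℂ × ℂ → ℂ) (m : ℕ) (z : ℂ) : ℂ :=
  if z ∈ ZZ s₀ A' then 0 else cc (B (s₀, z)) (A' z) s₀ m z

lemma DD.hh_eq (h : DD D A B s₀ r A') {m : ℕ} (hm : m < r) {e z : ℂ}
    (hG : GG A B s₀ r A' e (s₀, z)) (h0 : A' e (s₀, z) ≠ 0) :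
    hh B s₀ A' m z = cc (B (s₀, e)) (A' e) s₀ m z := by
  have hz : z ∉ ZZ s₀ A' := by
    rw [h.zcmp hG]; exact h0
  unfold hh
  rw [if_neg hz]
  obtain ⟨u, w, hu, hw, hu0, h1⟩ := h.cmp e z hG
  have key := cc_eq (z' := 0) (b₁ := B (s₀, z)) (α₁ := A' z) hm hG.hA hG.hB hu hw hu0 h0
    (by
      filter_upwards [h1] with q hq
      rw [add_zero]
      exact hq)
  rwa [add_zero] at key

lemma DD.hh_per (h : DD D A B s₀ r A') {m : ℕ} (hm : m < r) (z l : ℂ) (hl : l ∈ Lat) :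
    hh B s₀ A' m (z + l) = hh B s₀ A' m z := by
  unfold hh
  by_cases hz : z ∈ ZZ s₀ A'
  · rw [if_pos hz, if_pos ((h.zper z l hl).2 hz)]
  · rw [if_neg hz, if_neg (fun h' => hz ((h.zper z l hl).1 h'))]
    obtain ⟨u, w, hu, hw, hu0, h1⟩ := h.per z l hl
    exact cc_eq hm (h.ga z) (h.sys.holB (s₀, z) h.mem) hu hw hu0 hz h1

lemma hol_quot {b α : ℂ × ℂ → ℂ} {s₀ z : ℂ} (hb : Hol b (s₀, z)) (hα : Hol α (s₀, z))
    (h0 : α (s₀, z) ≠ 0) :
    Hol (fun q : ℂ × ℂ => b (s₀ + q.1, q.2) / α (s₀ + q.1, q.2)) (0, z) := by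
  have hc : Tendsto (fun q : ℂ × ℂ => (s₀ + q.1, q.2)) (𝓝 (0, z)) (𝓝 (s₀, z)) := by
    have : Continuous (fun q : ℂ × ℂ => (s₀ + q.1, q.2)) := by fun_prop
    have h := this.tendsto (0, z)
    simpa using h
  show ∀ᶠ q in 𝓝 ((0 : ℂ), z), DifferentiableAt ℂ
    (fun q : ℂ × ℂ => b (s₀ + q.1, q.2) / α (s₀ + q.1, q.2)) q
  filter_upwards [hc.eventually hb, hc.eventually hα, hc.eventually (hol_ne hα h0)] with q h1 h2 h3
  have h5 : DifferentiableAt ℂ (fun q : ℂ × ℂ => (s₀ + q.1, q.2)) q := by fun_prop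
  have k1 : DifferentiableAt ℂ (fun q : ℂ × ℂ => b (s₀ + q.1, q.2)) q :=
    DifferentiableAt.comp (f := fun q : ℂ × ℂ => (s₀ + q.1, q.2)) q h1 h5
  have k2 : DifferentiableAt ℂ (fun q : ℂ × ℂ => α (s₀ + q.1, q.2)) q :=
    DifferentiableAt.comp (f := fun q : ℂ × ℂ => (s₀ + q.1, q.2)) q h2 h5
  simp only [div_eq_mul_inv]
  exact k1.mul (k2.inv h3)

lemma DD.hh_diff (hE : S_EXP) (h : DD D A B s₀ r A') {m : ℕ} (hm : m < r) {z : ℂ}
    (hz : z ∉ ZZ s₀ A') : DifferentiableAt ℂ (hh B s₀ A' m) z := by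
  have hz' : A' z (s₀, z) ≠ 0 := hz
  have e : hh B s₀ A' m =ᶠ[𝓝 z] cc (B (s₀, z)) (A' z) s₀ m := by
    filter_upwards [(line_tendsto s₀ z).eventually (hol_ne (h.ga z) hz'),
      (line_tendsto s₀ z).eventually (h.gg z)] with w h1 h2
    exact h.hh_eq hm h2 h1
  obtain ⟨δ, hδ, h1, -⟩ := hE ℂ _ z (hol_quot (h.sys.holB (s₀, z) h.mem) (h.ga z) hz')
  have h2 : DifferentiableAt ℂ (cc (B (s₀, z)) (A' z) s₀ m) z :=
    (h1 m).differentiableAt (ball_mem_nhds z hδ)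
  exact h2.congr_of_eventuallyEq e

lemma sq_ball {z : ℂ} (hz : z ∈ Sq) : z ∈ closedBall (0 : ℂ) 2 := by
  obtain ⟨h1, h2, h3, h4⟩ := hz
  rw [mem_closedBall_zero_iff]
  have h5 := Complex.norm_le_abs_re_add_abs_im z
  rw [abs_of_nonneg h1, abs_of_nonneg h3] at h5
  linarith

end R458

open R458 H458 in
theorem MM_RES (h1 : S_RED) (h2 : S_HUR) (h3 : S_SUM) (h4 : S_TOR) (h5 : S_FINZ) (h6 : S_RESL)
    (h7 : S_EXP) : S_RES := by
  intro D A B hD hS s₀ hs₀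
  obtain ⟨r, A', hA'⟩ := h1 D A B hD hS s₀ hs₀
  have hDD : DD D A B s₀ r A' := ⟨hS, hD, hs₀, fun e => (hA' e).1, fun e => (hA' e).2.1,
    fun e => (hA' e).2.2.1⟩
  obtain ⟨n, p, hpZ, hpcov, ρ₀, hρ₀, hSep⟩ := h5 (ZZ s₀ A') hDD.zper hDD.zcl hDD.ziso
  -- the radii
  have hG : ∀ i, ∃ δ : ℝ, 0 < δ ∧ ∀ q ∈ ball ((s₀, p i) : ℂ × ℂ) δ,
      GG A B s₀ r A' (p i) q := by
    intro i
    obtain ⟨δ, hδ, h⟩ := Metric.eventually_nhds_iff_ball.1 (hDD.gg (p i))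
    exact ⟨δ, hδ, h⟩
  choose δ hδ hGG using hG
  have hH := fun i => h2 (A' (p i)) (B (s₀, p i)) s₀ (p i) (hDD.ga (p i))
    (hS.holB (s₀, p i) hs₀) (hDD.iso (p i))
  choose ρh hρh hHUR using hH
  obtain ⟨ρ, hρ, hρρ₀, hρi⟩ : ∃ ρ : ℝ, 0 < ρ ∧ ρ < ρ₀ ∧ ∀ i, ρ < δ i ∧ ρ < ρh i := by
    have e : ∀ᶠ x in 𝓝[>] (0 : ℝ), 0 < x ∧ x < ρ₀ ∧ ∀ i, x < δ i ∧ x < ρh i := by
      have k1 : ∀ᶠ x in 𝓝[>] (0 : ℝ), 0 < x := self_mem_nhdsWithin
      have k2 : ∀ c : ℝ, 0 < c → ∀ᶠ x in 𝓝[>] (0 : ℝ), x < c := fun c hc =>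
        mem_nhdsWithin_of_mem_nhds (Iio_mem_nhds hc)
      have k3 : ∀ᶠ x in 𝓝[>] (0 : ℝ), ∀ i, x < δ i ∧ x < ρh i :=
        eventually_all.2 fun i => (k2 _ (hδ i)).and (k2 _ (hρh i))
      filter_upwards [k1, k2 _ hρ₀, k3] with x a1 a2 a3
      exact ⟨a1, a2, a3⟩
    exact e.exists
  have hball : ∀ i, ∀ s ∈ ball s₀ (δ i), ∀ z ∈ closedBall (p i) ρ,
      (s, z) ∈ ball ((s₀, p i) : ℂ × ℂ) (δ i) := by
    intro i s hs z hz
    rw [← ball_prod_same]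
    exact ⟨hs, (closedBall_subset_ball (hρi i).1) hz⟩
  have hG0 : ∀ i, ∀ z ∈ closedBall (p i) ρ, GG A B s₀ r A' (p i) (s₀, z) := fun i z hz =>
    hGG i _ (hball i s₀ (mem_ball_self (hδ i)) z hz)
  have hne : ∀ i, ∀ z ∈ sphere (p i) ρ, A' (p i) (s₀, z) ≠ 0 := by
    intro i z hz
    apply (hHUR i ρ hρ (hρi i).2).1 z (sphere_subset_closedBall hz)
    rintro rfl
    rw [mem_sphere, dist_self] at hz
    exact hρ.ne hz
  -- the coefficients
  obtain ⟨a, ha⟩ : ∃ a : Fin n → ℕ → ℂ, ∀ i m, a i m = ∮ w in C(p i, ρ),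
      iteratedDeriv m (fun x => B (s₀, p i) (s₀ + x, w) / A' (p i) (s₀ + x, w)) 0 /
        (m.factorial : ℂ) := ⟨_, fun i m => rfl⟩
  have hC := fun i => circ_sum h7
    (F := fun q : ℂ × ℂ => B (s₀, p i) (s₀ + q.1, q.2) / A' (p i) (s₀ + q.1, q.2)) (p := p i) hρ
    (fun w hw => hol_quot (hG0 i w (sphere_subset_closedBall hw)).hB
      (hG0 i w (sphere_subset_closedBall hw)).hA (hne i w hw))
  simp only [← ha] at hC
  choose δc hδc Mc hMc hcb hcs using hC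
  obtain ⟨d, hd, hdi⟩ : ∃ d : ℝ, 0 < d ∧ ∀ i, d ≤ δc i := by
    have k1 : ∀ᶠ x in 𝓝[>] (0 : ℝ), 0 < x := self_mem_nhdsWithin
    have k3 : ∀ᶠ x in 𝓝[>] (0 : ℝ), ∀ i, x ≤ δc i :=
      eventually_all.2 fun i => (mem_nhdsWithin_of_mem_nhds (Iic_mem_nhds (hδc i)))
    exact (k1.and k3).exists
  obtain ⟨c, hc⟩ : ∃ c : ℂ, c = (2 * Real.pi * Complex.I)⁻¹ := ⟨_, rfl⟩
  obtain ⟨q, hq⟩ : ∃ q : ℕ → ℂ, ∀ m, q m = ∑ i, c * a i m := ⟨_, fun m => rfl⟩
  have hM : 0 ≤ ∑ i, ‖c‖ * Mc i := Finset.sum_nonneg fun i _ => mul_nonneg (norm_nonneg _) (hMc i)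
  have hqb : ∀ m, ‖q m‖ ≤ (∑ i, ‖c‖ * Mc i) / d ^ m := by
    intro m
    rw [hq, Finset.sum_div]
    refine (norm_sum_le _ _).trans (Finset.sum_le_sum fun i _ => ?_)
    rw [norm_mul, mul_div_assoc]
    apply mul_le_mul_of_nonneg_left _ (norm_nonneg _)
    refine (hcb i m).trans ?_
    apply div_le_div_of_nonneg_left (hMc i) (by positivity)
    exact pow_le_pow_left₀ hd.le (hdi i) m
  have hq0 : ∀ m < r, q m = 0 := by
    intro m hm
    rw [hq, ← Finset.mul_sum]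
    have e1 : ∀ i, a i m = ∮ w in C(p i, ρ), hh B s₀ A' m w := by
      intro i
      rw [ha]
      apply circleIntegral.integral_congr hρ.le
      intro w hw
      exact (hDD.hh_eq hm (hG0 i w (sphere_subset_closedBall hw)) (hne i w hw)).symm
    simp_rw [e1]
    rw [h4 n p ρ (hh B s₀ A' m) hρ (hSep ρ hρ hρρ₀) _ (fun z l hl => hDD.hh_per hm z l hl),
      mul_zero]
    intro z hz
    apply hDD.hh_diff h7 hm
    intro hzZ
    obtain ⟨i, l, hl, e⟩ := hpcov z hzZ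
    exact hz i l hl e
  obtain ⟨R, hR, hRs⟩ := fin_analytic hd hM hqb hq0 s₀
  refine ⟨R, hR, ?_⟩
  have e1 : ∀ᶠ s in 𝓝 s₀, s ∈ D := hD.mem_nhds hs₀
  have e2 := eventually_all.2 (fun i => (hHUR i ρ hρ (hρi i).2).2)
  have e3 : ∀ᶠ s in 𝓝 s₀, ∀ i, s ∈ ball s₀ (δ i) :=
    eventually_all.2 fun i => ball_mem_nhds s₀ (hδ i)
  have e4 : ∀ᶠ s in 𝓝 s₀, ∀ z ∈ closedBall (0 : ℂ) 2, (s ≠ s₀ → ph A B s z ≠ 0 →
      ∃ i, ∃ l ∈ Lat, z + l ∈ ball (p i) ρ) := by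
    apply (isCompact_closedBall (0 : ℂ) 2).eventually_forall_of_forall_eventually
      (P := fun s z => s ≠ s₀ → ph A B s z ≠ 0 → ∃ i, ∃ l ∈ Lat, z + l ∈ ball (p i) ρ)
    intro z _
    by_cases hz : z ∈ ZZ s₀ A'
    · obtain ⟨i, l, hl, rfl⟩ := hpcov z hz
      have k1 : ∀ᶠ q : ℂ × ℂ in 𝓝 (s₀, p i + l), q.2 + -l ∈ ball (p i) ρ := by
        have hc' : Tendsto (fun q : ℂ × ℂ => q.2 + -l) (𝓝 (s₀, p i + l)) (𝓝 (p i)) := by
          have : Continuous (fun q : ℂ × ℂ => q.2 + -l) := by fun_prop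
          have h := this.tendsto (s₀, p i + l)
          simpa using h
        exact hc'.eventually (ball_mem_nhds _ hρ)
      filter_upwards [k1] with q hq _ _
      exact ⟨i, -l, lat_neg hl, hq⟩
    · have hz' : A' z (s₀, z) ≠ 0 := hz
      filter_upwards [hol_ne (hDD.ga z) hz', hDD.gg z] with q a1 a2 _ a3
      exact absurd (ph_zero h6 a2 a1) a3
  have e5 : ∀ᶠ s in 𝓝 s₀, ‖s - s₀‖ < d / 2 := by
    filter_upwards [ball_mem_nhds s₀ (half_pos hd)] with s hs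
    rwa [mem_ball, dist_eq_norm] at hs
  filter_upwards [self_mem_nhdsWithin, e1.filter_mono nhdsWithin_le_nhds,
    e2.filter_mono nhdsWithin_le_nhds, e3.filter_mono nhdsWithin_le_nhds,
    e4.filter_mono nhdsWithin_le_nhds, e5.filter_mono nhdsWithin_le_nhds] with s hs b1 b2 b3 b4 b5
  have hsne : s ≠ s₀ := hs
  have hGs : ∀ i, ∀ z ∈ closedBall (p i) ρ, GG A B s₀ r A' (p i) (s, z) := fun i z hz =>
    hGG i _ (hball i s (b3 i) z hz)
  have hrst : rst A B s = ∑ i, ∑ᶠ z ∈ ball (p i) ρ, ph A B s z := by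
    apply h3 ℂ n p ρ (ph A B s) hρ (hSep ρ hρ hρρ₀)
    · exact fun z l hl => ph_per h6 hS b1 z l hl
    · intro z hz
      obtain ⟨l, hl, e⟩ := rp_lat z
      have m1 := sq_ball (rp_mem z)
      have m2 : ph A B s (rp z) ≠ 0 := by
        rw [e, ph_per h6 hS b1 z l hl]
        exact hz
      obtain ⟨i, l', hl', hb⟩ := b4 _ m1 hsne m2
      refine ⟨i, l + l', lat_add hl hl', ?_⟩
      rw [← add_assoc, ← e]
      exact hb
    · intro i
      apply (b2 i).2.2.2.1.subset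
      rintro z ⟨hz1, hz2⟩
      refine ⟨hz1, ?_⟩
      by_contra h0
      exact hz2 (ph_zero h6 (hGs i z (ball_subset_closedBall hz1)) h0)
  have hpart : ∀ i, ∑ᶠ z ∈ ball (p i) ρ, ph A B s z = ((s - s₀) ^ r)⁻¹ *
      (c * ∮ w in C(p i, ρ), B (s₀, p i) (s, w) / A' (p i) (s, w)) := by
    intro i
    rw [hc, ← (b2 i).2.2.2.2.2, mul_finsum_mem]
    apply finsum_mem_congr rfl
    intro z hz
    exact ph_gg h6 (hGs i z (ball_subset_closedBall hz))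
  have hV : HasSum (fun m => q m * (s - s₀) ^ m)
      (∑ i, c * ∮ w in C(p i, ρ), B (s₀, p i) (s, w) / A' (p i) (s, w)) := by
    have k1 : ∀ i, HasSum (fun m => c * (a i m * (s - s₀) ^ m))
        (c * ∮ w in C(p i, ρ), B (s₀, p i) (s, w) / A' (p i) (s, w)) := by
      intro i
      have k2 := (hcs i (s - s₀) (by linarith [hdi i])).mul_left c
      simp only [add_sub_cancel] at k2
      exact k2
    have k3 := hasSum_sum (s := Finset.univ) (fun i _ => k1 i)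
    have k4 : (fun m => q m * (s - s₀) ^ m) =
        fun m => ∑ i, c * (a i m * (s - s₀) ^ m) := by
      funext m
      rw [hq, Finset.sum_mul]
      exact Finset.sum_congr rfl fun i _ => by ring
    rw [k4]
    exact k3
  have hfin := hRs s b5 _ hV
  have hpow : (s - s₀) ^ r ≠ 0 := pow_ne_zero _ (sub_ne_zero.2 hsne)
  rw [hrst, Finset.sum_congr rfl (fun i _ => hpart i), ← Finset.mul_sum, hfin, ← mul_assoc,
    inv_mul_cancel₀ hpow, one_mul]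

end Pool.Agent.Y758.MM
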