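import Pool.Agent.Y758.MM.Stm2

/-!
# Project MM: elementary properties of residues (helper348)
-/

set_option autoImplicit false

open Set Filter Topology Metric
open scoped Manifold ContDiff

namespace Pool.Agent.Y758.MM

namespace Resl

theorem ev_ball {P : ℂ → Prop} {z : ℂ} (h : ∀ᶠ w in 𝓝[≠] z, P w) :
    ∃ R : ℝ, 0 < R ∧ ∀ w ∈ ball z R, w ≠ z → P w := by
  obtain ⟨R, hR, hb⟩ := Metric.eventually_nhds_iff_ball.1 (eventually_nhdsWithin_iff.1 h)
  exact ⟨R, hR, fun w hw hwz => hb w hw hwz⟩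

theorem sphere_ne {z w : ℂ} {r : ℝ} (hr : 0 < r) (hw : w ∈ sphere z r) : w ≠ z := by
  intro e
  rw [e, mem_sphere, dist_self] at hw
  exact hr.ne hw

theorem ev_lt {R : ℝ} (hR : 0 < R) : ∀ᶠ r in 𝓝[>] (0 : ℝ), 0 < r ∧ r < R := by
  filter_upwards [self_mem_nhdsWithin, mem_nhdsWithin_of_mem_nhds (Iio_mem_nhds hR)] with r h1 h2
  exact ⟨h1, h2⟩

theorem res_eq {f : ℂ → ℂ} {z : ℂ} (h : ∀ᶠ w in 𝓝[≠] z, DifferentiableAt ℂ f w) :
    ∀ᶠ r in 𝓝[>] (0 : ℝ), (2 * Real.pi * Complex.I)⁻¹ * ∮ w in C(z, r), f w = res f z := by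
  obtain ⟨R, hR, hd⟩ := ev_ball h
  have key : ∀ r, 0 < r ∧ r < R → (∮ w in C(z, r), f w) = ∮ w in C(z, R / 2), f w := by
    have key' : ∀ r s, 0 < r → r ≤ s → s < R → (∮ w in C(z, s), f w) = ∮ w in C(z, r), f w := by
      intro r s hr hrs hs
      refine Complex.circleIntegral_eq_of_differentiable_on_annulus_off_countable hr hrs
        countable_empty ?_ ?_
      · intro w hw
        have h1 : w ∈ ball z R := closedBall_subset_ball hs hw.1
        have h2 : w ≠ z := fun e => hw.2 (by rw [e]; exact mem_ball_self hr)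
        exact (hd w h1 h2).continuousAt.continuousWithinAt
      · intro w hw
        have h1 : w ∈ ball z R := ball_subset_ball hs.le hw.1.1
        have h2 : w ≠ z := fun e => hw.1.2 (by rw [e]; exact mem_closedBall_self hr.le)
        exact hd w h1 h2
    intro r hr
    rcases le_total r (R / 2) with h1 | h1
    · exact (key' r (R / 2) hr.1 h1 (by linarith)).symm
    · exact key' (R / 2) r (by linarith) h1 hr.2
  have hev : ∀ᶠ r in 𝓝[>] (0 : ℝ), (2 * Real.pi * Complex.I)⁻¹ * (∮ w in C(z, r), f w) =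
      (2 * Real.pi * Complex.I)⁻¹ * ∮ w in C(z, R / 2), f w := by
    filter_upwards [ev_lt hR] with r hr
    rw [key r hr]
  have hlim : res f z = (2 * Real.pi * Complex.I)⁻¹ * ∮ w in C(z, R / 2), f w := by
    unfold res
    exact (tendsto_const_nhds.congr' (hev.mono fun r hr => hr.symm)).limUnder_eq
  filter_upwards [hev] with r hr
  rw [hr, hlim]

theorem res_congr {f g : ℂ → ℂ} {z : ℂ} (h : ∀ᶠ w in 𝓝[≠] z, f w = g w) : res f z = res g z := by
  obtain ⟨R, hR, hd⟩ := ev_ball h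
  unfold res limUnder
  congr 1
  apply Filter.map_congr
  filter_upwards [ev_lt hR] with r hr
  congr 1
  refine circleIntegral.integral_congr hr.1.le fun w hw => ?_
  exact hd w (mem_ball.2 (by rw [mem_sphere.1 hw]; exact hr.2)) (sphere_ne hr.1 hw)

theorem res_zero {f : ℂ → ℂ} {z : ℂ} (h : ∀ᶠ w in 𝓝 z, DifferentiableAt ℂ f w) : res f z = 0 := by
  obtain ⟨R, hR, hd⟩ := Metric.eventually_nhds_iff_ball.1 h
  obtain ⟨r, h1, h2⟩ := ((res_eq (h.filter_mono nhdsWithin_le_nhds)).and (ev_lt hR)).exists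
  rw [← h1]
  have e : (∮ w in C(z, r), f w) = 0 := by
    refine Complex.circleIntegral_eq_zero_of_differentiable_on_off_countable h2.1.le
      countable_empty ?_ ?_
    · intro w hw
      exact (hd w (closedBall_subset_ball h2.2 hw)).continuousAt.continuousWithinAt
    · intro w hw
      exact hd w (ball_subset_ball h2.2.le hw.1)
  rw [e, mul_zero]

theorem cint {f : ℂ → ℂ} {z : ℂ} {R r : ℝ} (hd : ∀ w ∈ ball z R, w ≠ z → DifferentiableAt ℂ f w)
    (hr : 0 < r) (hrR : r < R) : CircleIntegrable f z r := by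
  refine ContinuousOn.circleIntegrable hr.le fun w hw => ?_
  exact (hd w (mem_ball.2 (by rw [mem_sphere.1 hw]; exact hrR))
    (sphere_ne hr hw)).continuousAt.continuousWithinAt

theorem res_add {f g : ℂ → ℂ} {z : ℂ} (hf : ∀ᶠ w in 𝓝[≠] z, DifferentiableAt ℂ f w)
    (hg : ∀ᶠ w in 𝓝[≠] z, DifferentiableAt ℂ g w) :
    res (fun w => f w + g w) z = res f z + res g z := by
  obtain ⟨R, hR, hd⟩ := ev_ball hf
  obtain ⟨R', hR', hd'⟩ := ev_ball hg
  obtain ⟨r, ⟨⟨h1, h2⟩, h3⟩, h4, h5⟩ := ((((res_eq (hf.mp (hg.mono fun w h h' => h'.add h))).and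
    (res_eq hf)).and (res_eq hg)).and ((ev_lt hR).and (ev_lt hR'))).exists
  rw [← h2, ← h3, ← mul_add, ← circleIntegral.integral_add (cint hd h4.1 h4.2)
    (cint hd' h5.1 h5.2)]
  exact h1.symm

theorem res_smul {f : ℂ → ℂ} {a z : ℂ} (hf : ∀ᶠ w in 𝓝[≠] z, DifferentiableAt ℂ f w) :
    res (fun w => a * f w) z = a * res f z := by
  obtain ⟨r, h1, h2⟩ := ((res_eq (f := fun w => a * f w)
    (hf.mono fun w h => (differentiableAt_const a).mul h)).and (res_eq hf)).exists
  rw [← h1, ← h2, circleIntegral.integral_const_mul]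
  ring

theorem res_log {f : ℂ → ℂ} {z : ℂ} (hf : AnalyticAt ℂ f z) (h0 : ∀ᶠ w in 𝓝[≠] z, f w ≠ 0) :
    res (fun w => deriv f w / f w) z = analyticOrderNatAt f z := by
  have htop : analyticOrderAt f z ≠ ⊤ := by
    intro h
    have h1 := analyticOrderAt_eq_top.1 h
    obtain ⟨w, hw1, hw2⟩ := (h0.and (h1.filter_mono nhdsWithin_le_nhds)).exists
    exact hw1 hw2
  obtain ⟨g, hg, hg0, hfg⟩ := hf.analyticOrderAt_ne_top.1 htop
  set n := analyticOrderNatAt f z with hn
  have hgne : ∀ᶠ w in 𝓝 z, g w ≠ 0 := hg.continuousAt.eventually_ne hg0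
  have hgd : ∀ᶠ w in 𝓝 z, DifferentiableAt ℂ g w := by
    filter_upwards [hg.eventually_analyticAt] with w hw using hw.differentiableAt
  have hgd' : ∀ᶠ w in 𝓝 z, DifferentiableAt ℂ (deriv g) w := by
    filter_upwards [hg.deriv.eventually_analyticAt] with w hw using hw.differentiableAt
  have e1 : ∀ᶠ w in 𝓝[≠] z, deriv f w / f w = (n : ℂ) * (w - z)⁻¹ + deriv g w / g w := by
    have h2 : ∀ᶠ w in 𝓝 z, deriv f w = deriv (fun z_1 => (z_1 - z) ^ n • g z_1) w :=
      hfg.deriv
    filter_upwards [self_mem_nhdsWithin, h2.filter_mono nhdsWithin_le_nhds,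
      hfg.filter_mono nhdsWithin_le_nhds, hgne.filter_mono nhdsWithin_le_nhds,
      hgd.filter_mono nhdsWithin_le_nhds] with w hw h3 h4 h5 h6
    have hwz : w - z ≠ 0 := sub_ne_zero.mpr hw
    have h7 : HasDerivAt (fun x => (x - z) ^ n • g x)
        ((n : ℂ) * (w - z) ^ (n - 1) * g w + (w - z) ^ n * deriv g w) w := by
      have h8 := (((hasDerivAt_id w).sub_const z).pow n).mul h6.hasDerivAt
      simp only [id, mul_one] at h8
      exact h8
    rw [h3, h7.deriv, h4, smul_eq_mul]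
    rcases Nat.eq_zero_or_pos n with h9 | h9
    · rw [h9]
      simp
    · obtain ⟨k, hk⟩ := Nat.exists_eq_succ_of_ne_zero h9.ne'
      rw [hk]
      simp only [Nat.succ_eq_add_one, Nat.add_sub_cancel]
      field_simp
      ring
  have hinv : ∀ᶠ w in 𝓝[≠] z, DifferentiableAt ℂ (fun w : ℂ => (w - z)⁻¹) w := by
    filter_upwards [self_mem_nhdsWithin] with w hw
    exact (differentiableAt_id.sub_const z).inv (sub_ne_zero.mpr hw)
  have e2 : res (fun w : ℂ => (w - z)⁻¹) z = 1 := by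
    obtain ⟨r, h1, h2⟩ := ((res_eq hinv).and self_mem_nhdsWithin).exists
    have h2' : (0 : ℝ) < r := h2
    rw [← h1, circleIntegral.integral_sub_inv_of_mem_ball (mem_ball_self h2'),
      inv_mul_cancel₀ Complex.two_pi_I_ne_zero]
  have e3 : res (fun w => deriv g w / g w) z = 0 := by
    refine res_zero ?_
    filter_upwards [hgd', hgd, hgne] with w h1 h2 h3 using h1.div h2 h3
  have hq : ∀ᶠ w in 𝓝[≠] z, DifferentiableAt ℂ (fun w => deriv g w / g w) w := by
    filter_upwards [hgd'.filter_mono nhdsWithin_le_nhds, hgd.filter_mono nhdsWithin_le_nhds,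
      hgne.filter_mono nhdsWithin_le_nhds] with w h1 h2 h3 using h1.div h2 h3
  rw [res_congr e1, res_add (f := fun w => (n : ℂ) * (w - z)⁻¹)
    (hinv.mono fun w h => (differentiableAt_const _).mul h) hq, res_smul hinv, e2, e3, mul_one,
    add_zero]

theorem res_shift (f : ℂ → ℂ) (a z : ℂ) : res (fun w => f (w + a)) z = res f (z + a) := by
  unfold res
  congr 1
  funext r
  congr 1
  unfold circleIntegral
  congr 1
  funext θ
  rw [deriv_circleMap, deriv_circleMap]
  have : circleMap z r θ + a = circleMap (z + a) r θ := by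
    unfold circleMap
    ring
  show (circleMap 0 r θ * Complex.I) • f (circleMap z r θ + a) =
    (circleMap 0 r θ * Complex.I) • f (circleMap (z + a) r θ)
  rw [this]

end Resl

theorem MM_RESL : S_RESL :=
  ⟨fun _ _ h => Resl.res_eq h, fun _ _ _ h => Resl.res_congr h, fun _ _ h => Resl.res_zero h,
    fun _ _ _ h1 h2 => Resl.res_add h1 h2, fun _ _ _ h => Resl.res_smul h,
    fun _ _ h1 h2 => Resl.res_log h1 h2, Resl.res_shift⟩

end Pool.Agent.Y758.MM
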