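import Mathlib

/-!
# Circle integrals as area integrals
-/

set_option autoImplicit false

open Set Filter Topology Metric MeasureTheory
open scoped Real

namespace Pool.Agent.Y758.MM.Tor

/-- cutoff as a function of the squared norm -/
noncomputable def th (ρ t : ℝ) : ℝ := Real.smoothTransition ((4 * ρ ^ 2 / 9 - t) * (3 / ρ ^ 2))

theorem th_smooth (ρ : ℝ) : ContDiff ℝ 2 (th ρ) := by
  unfold th
  exact Real.smoothTransition.contDiff.comp ((contDiff_const.sub contDiff_id).mul contDiff_const)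

theorem th_one {ρ t : ℝ} (hρ : 0 < ρ) (h : t ≤ ρ ^ 2 / 9) : th ρ t = 1 := by
  unfold th
  apply Real.smoothTransition.one_of_one_le
  have h1 : ρ ^ 2 / 3 ≤ 4 * ρ ^ 2 / 9 - t := by linarith
  have h2 : 0 < 3 / ρ ^ 2 := by positivity
  calc (1 : ℝ) = ρ ^ 2 / 3 * (3 / ρ ^ 2) := by field_simp
    _ ≤ _ := mul_le_mul_of_nonneg_right h1 h2.le

theorem th_zero {ρ t : ℝ} (hρ : 0 < ρ) (h : 4 * ρ ^ 2 / 9 ≤ t) : th ρ t = 0 := by
  unfold th
  apply Real.smoothTransition.zero_of_nonpos
  have h2 : 0 < 3 / ρ ^ 2 := by positivity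
  exact mul_nonpos_of_nonpos_of_nonneg (by linarith) h2.le

noncomputable def td (ρ t : ℝ) : ℝ := deriv (th ρ) t

theorem td_cont (ρ : ℝ) : Continuous (td ρ) := (th_smooth ρ).continuous_deriv (by norm_num)

theorem th_hasDeriv (ρ t : ℝ) : HasDerivAt (th ρ) (td ρ t) t :=
  ((th_smooth ρ).differentiable (by norm_num) t).hasDerivAt

theorem td_left {ρ t : ℝ} (hρ : 0 < ρ) (h : t < ρ ^ 2 / 9) : td ρ t = 0 := by
  have : th ρ =ᶠ[𝓝 t] fun _ => (1 : ℝ) := by
    filter_upwards [Iio_mem_nhds h] with s hs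
    exact th_one hρ (le_of_lt hs)
  unfold td
  rw [this.deriv_eq]
  simp

theorem td_right {ρ t : ℝ} (hρ : 0 < ρ) (h : 4 * ρ ^ 2 / 9 < t) : td ρ t = 0 := by
  have : th ρ =ᶠ[𝓝 t] fun _ => (0 : ℝ) := by
    filter_upwards [Ioi_mem_nhds h] with s hs
    exact th_zero hρ (le_of_lt hs)
  unfold td
  rw [this.deriv_eq]
  simp

/-- the density -/
noncomputable def gg (ρ : ℝ) (h : ℂ → ℂ) (p z : ℂ) : ℂ :=
  h z * (2 * Complex.I * (td ρ (‖z - p‖ ^ 2) : ℂ) * (z - p))

theorem gg_far {ρ : ℝ} (hρ : 0 < ρ) (h : ℂ → ℂ) (p z : ℂ) (hz : 2 * ρ / 3 < ‖z - p‖) :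
    gg ρ h p z = 0 := by
  unfold gg
  rw [td_right hρ (by nlinarith)]
  simp

theorem gg_near {ρ : ℝ} (hρ : 0 < ρ) (h : ℂ → ℂ) (p z : ℂ) (hz : ‖z - p‖ < ρ / 3) :
    gg ρ h p z = 0 := by
  unfold gg
  rw [td_left hρ (by nlinarith [norm_nonneg (z - p)])]
  simp

theorem gg_cont {ρ : ℝ} (hρ : 0 < ρ) {h : ℂ → ℂ} {p : ℂ}
    (hd : ∀ z ∈ closedBall p ρ, z ≠ p → DifferentiableAt ℂ h z) : Continuous (gg ρ h p) := by
  rw [continuous_iff_continuousAt]
  intro z
  have hn : Continuous fun w : ℂ => ‖w - p‖ := by fun_prop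
  by_cases h1 : z = p
  · have : gg ρ h p =ᶠ[𝓝 z] fun _ => (0 : ℂ) := by
      have : ∀ᶠ w in 𝓝 z, ‖w - p‖ < ρ / 3 :=
        hn.continuousAt.eventually (Iio_mem_nhds (by rw [h1]; simpa using hρ))
      filter_upwards [this] with w hw
      exact gg_near hρ h p w hw
    exact this.continuousAt
  · by_cases h2 : ‖z - p‖ ≤ ρ
    · have hz := hd z (by rwa [mem_closedBall, dist_eq_norm]) h1
      unfold gg
      refine hz.continuousAt.mul (Continuous.continuousAt ?_)
      have := td_cont ρ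
      fun_prop
    · push Not at h2
      have : gg ρ h p =ᶠ[𝓝 z] fun _ => (0 : ℂ) := by
        have : ∀ᶠ w in 𝓝 z, 2 * ρ / 3 < ‖w - p‖ :=
          hn.continuousAt.eventually (Ioi_mem_nhds (by linarith))
        filter_upwards [this] with w hw
        exact gg_far hρ h p w hw
      exact this.continuousAt

theorem gg_supp {ρ : ℝ} (hρ : 0 < ρ) (h : ℂ → ℂ) (p : ℂ) : HasCompactSupport (gg ρ h p) := by
  refine HasCompactSupport.intro (isCompact_closedBall p (2 * ρ / 3)) fun z hz => ?_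
  rw [mem_closedBall, dist_eq_norm, not_le] at hz
  exact gg_far hρ h p z hz

theorem circ_const {ρ r : ℝ} {h : ℂ → ℂ} {p : ℂ}
    (hd : ∀ z ∈ closedBall p ρ, z ≠ p → DifferentiableAt ℂ h z) (h0 : 0 < r) (h1 : r ≤ ρ) :
    ∮ z in C(p, r), h z = ∮ z in C(p, ρ), h z := by
  refine (Complex.circleIntegral_eq_of_differentiable_on_annulus_off_countable h0 h1
    countable_empty ?_ ?_).symm
  · intro z hz
    refine (hd z hz.1 ?_).continuousAt.continuousWithinAt
    rintro rfl
    exact hz.2 (mem_ball_self h0)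
  · intro z hz
    refine hd z (ball_subset_closedBall hz.1.1) ?_
    rintro rfl
    exact hz.1.2 (mem_closedBall_self h0.le)

theorem rad_int {ρ : ℝ} (hρ : 0 < ρ) : ∫ r in Ioi (0 : ℝ), 2 * r * td ρ (r ^ 2) = -1 := by
  have h1 : ∫ r in Ioi (0 : ℝ), 2 * r * td ρ (r ^ 2) = ∫ r in Ioc (0 : ℝ) ρ, 2 * r * td ρ (r ^ 2) := by
    refine (setIntegral_eq_of_subset_of_forall_sdiff_eq_zero measurableSet_Ioi
      (fun x hx => hx.1) fun r hr => ?_)
    have h2 : ρ < r := by
      by_contra hcon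
      push Not at hcon
      exact hr.2 ⟨hr.1, hcon⟩
    rw [td_right hρ (by nlinarith)]
    simp
  rw [h1, ← intervalIntegral.integral_of_le hρ.le]
  have h3 : ∀ r ∈ uIcc 0 ρ, HasDerivAt (fun r => th ρ (r ^ 2)) (2 * r * td ρ (r ^ 2)) r := by
    intro r _
    have h4 : HasDerivAt (fun r : ℝ => r ^ 2) (2 * r) r := by
      simpa using hasDerivAt_pow 2 r
    have h5 := (th_hasDeriv ρ (r ^ 2)).comp r h4
    refine h5.congr_deriv ?_
    ring
  rw [intervalIntegral.integral_eq_sub_of_hasDerivAt h3, th_zero hρ (by nlinarith),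
    th_one hρ (by nlinarith)]
  · norm_num
  · apply Continuous.intervalIntegrable
    have := td_cont ρ
    fun_prop

theorem polar_int {ρ : ℝ} (hρ : 0 < ρ) {h : ℂ → ℂ} {p : ℂ}
    (hd : ∀ z ∈ closedBall p ρ, z ≠ p → DifferentiableAt ℂ h z) :
    ∫ z, gg ρ h p z = - ∮ z in C(p, ρ), h z := by
  have hgc := gg_cont hρ hd
  set f : ℂ → ℂ := fun w => gg ρ h p (p + w) with hf
  have hfc : Continuous f := hgc.comp (by fun_prop)
  have hff : ∀ w, 2 * ρ / 3 < ‖w‖ → f w = 0 := fun w hw => gg_far hρ h p _ (by simpa using hw)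
  rw [← integral_add_left_eq_self (gg ρ h p) p]
  show ∫ w, f w = _
  rw [← Complex.integral_comp_polarCoord_symm f, polarCoord_target]
  have hnorm : ∀ r a : ℝ, 0 ≤ r → ‖(r : ℂ) * (Real.cos a + Real.sin a * Complex.I)‖ = r := by
    intro r a hr
    rw [norm_mul, Complex.norm_real, Real.norm_of_nonneg hr]
    have : (Real.cos a : ℂ) + Real.sin a * Complex.I = Complex.exp (a * Complex.I) := by
      rw [Complex.exp_mul_I]; simp
    rw [this, Complex.norm_exp_ofReal_mul_I, mul_one]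
  have hFc : Continuous fun q : ℝ × ℝ =>
      q.1 • f ((q.1 : ℂ) * (Real.cos q.2 + Real.sin q.2 * Complex.I)) := by
    refine continuous_fst.smul (hfc.comp ?_)
    fun_prop
  have hint : IntegrableOn (fun q : ℝ × ℝ =>
      q.1 • f ((q.1 : ℂ) * (Real.cos q.2 + Real.sin q.2 * Complex.I)))
      (Ioi (0 : ℝ) ×ˢ Ioo (-π) π) (volume.prod volume) := by
    have h1 : IntegrableOn (fun q : ℝ × ℝ =>
      q.1 • f ((q.1 : ℂ) * (Real.cos q.2 + Real.sin q.2 * Complex.I)))
      (Icc (0 : ℝ) ρ ×ˢ Icc (-π) π) (volume.prod volume) :=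
      hFc.continuousOn.integrableOn_compact (isCompact_Icc.prod isCompact_Icc)
    refine IntegrableOn.of_forall_sdiff_eq_zero h1 (measurableSet_Ioi.prod measurableSet_Ioo) ?_
    rintro ⟨r, a⟩ ⟨⟨hr, ha⟩, hn⟩
    have h2 : ρ < r := by
      by_contra hcon
      push Not at hcon
      exact hn ⟨⟨le_of_lt hr, hcon⟩, ⟨ha.1.le, ha.2.le⟩⟩
    simp only
    rw [hff _ (by rw [hnorm r a (le_of_lt hr)]; linarith), smul_zero]
  simp only [Complex.polarCoord_symm_apply]
  rw [Measure.volume_eq_prod, setIntegral_prod _ hint]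
  have hin : ∀ r ∈ Ioi (0 : ℝ), ∫ a in Ioo (-π) π,
      r • f ((r : ℂ) * (Real.cos a + Real.sin a * Complex.I))
      = ((2 * r * td ρ (r ^ 2) : ℝ) : ℂ) * ∮ z in C(p, ρ), h z := by
    intro r hr
    have hr0 : 0 < r := hr
    have e1 : ∀ a : ℝ, r • f ((r : ℂ) * (Real.cos a + Real.sin a * Complex.I))
        = ((2 * r * td ρ (r ^ 2) : ℝ) : ℂ) * (deriv (circleMap p r) a • h (circleMap p r a)) := by
      intro a
      have e2 : (r : ℂ) * (Real.cos a + Real.sin a * Complex.I) = circleMap 0 r a := by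
        rw [circleMap_zero, Complex.exp_mul_I]; simp
      have e3 : p + circleMap 0 r a = circleMap p r a := by simp [circleMap]
      rw [e2, hf]
      simp only
      rw [e3]
      unfold gg
      have e4 : circleMap p r a - p = circleMap 0 r a := by rw [← e3]; ring
      have e5 : ‖circleMap 0 r a‖ = r := by
        rw [norm_circleMap_zero, abs_of_pos hr0]
      rw [e4, e5, deriv_circleMap, smul_eq_mul, Complex.real_smul]
      push_cast
      ring
    simp only [e1]
    rw [integral_const_mul, ← integral_Ioc_eq_integral_Ioo,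
      ← intervalIntegral.integral_of_le (by linarith [Real.pi_pos])]
    have e6 : ∫ a in (-π)..π, deriv (circleMap p r) a • h (circleMap p r a)
        = ∮ z in C(p, r), h z := by
      unfold circleIntegral
      have hper : Function.Periodic (fun a : ℝ => deriv (circleMap p r) a • h (circleMap p r a))
          (2 * π) := by
        intro a
        simp only [deriv_circleMap]
        rw [periodic_circleMap p r a, periodic_circleMap 0 r a]
      have := hper.intervalIntegral_add_eq (-π) 0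
      rw [zero_add] at this
      rw [← this]
      congr 1
      ring
    rw [e6]
    by_cases hrρ : r ≤ ρ
    · rw [circ_const hd hr0 hrρ]
    · push Not at hrρ
      rw [td_right hρ (by nlinarith)]
      simp
  rw [setIntegral_congr_fun measurableSet_Ioi hin, integral_mul_const, integral_complex_ofReal,
    rad_int hρ]
  simp

end Pool.Agent.Y758.MM.Tor
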