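import Pool.Agent.Y758.MM.Stm
import Pool.Agent.Y758.MM.TOR1

/-!
# The residue theorem on the torus
-/

set_option autoImplicit false

open Set Filter Topology Metric MeasureTheory
open scoped Real

namespace Pool.Agent.Y758.MM.Tor

/-- the square with lower left corner `a + b i` -/
def Qs (a b : ℤ) : Set ℂ := {z | (a : ℝ) ≤ z.re ∧ z.re < a + 1 ∧ (b : ℝ) ≤ z.im ∧ z.im < b + 1}

theorem Qs_meas (a b : ℤ) : MeasurableSet (Qs a b) := by
  unfold Qs
  refine (measurableSet_le measurable_const Complex.measurable_re).inter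
    ((measurableSet_lt Complex.measurable_re measurable_const).inter
    ((measurableSet_le measurable_const Complex.measurable_im).inter
    (measurableSet_lt Complex.measurable_im measurable_const)))

theorem Qs_zero : Qs 0 0 = Sq := by
  unfold Qs Sq
  ext z
  simp

theorem Qs_disj {a b a' b' : ℤ} (h : (a, b) ≠ (a', b')) : Disjoint (Qs a b) (Qs a' b') := by
  rw [Set.disjoint_left]
  rintro z ⟨h1, h2, h3, h4⟩ ⟨h5, h6, h7, h8⟩
  apply h
  have e1 : a < a' + 1 := by exact_mod_cast (lt_of_le_of_lt h1 h6)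
  have e2 : a' < a + 1 := by exact_mod_cast (lt_of_le_of_lt h5 h2)
  have e3 : b < b' + 1 := by exact_mod_cast (lt_of_le_of_lt h3 h8)
  have e4 : b' < b + 1 := by exact_mod_cast (lt_of_le_of_lt h7 h4)
  rw [Prod.mk.injEq]
  omega

theorem shift_int (g : ℂ → ℂ) (a b : ℤ) :
    ∫ z in Sq, g (z + ((a : ℂ) + (b : ℂ) * Complex.I)) = ∫ z in Qs a b, g z := by
  have h := (measurePreserving_add_right (volume : Measure ℂ)
    ((a : ℂ) + (b : ℂ) * Complex.I)).setIntegral_preimage_emb
    (MeasurableEquiv.addRight ((a : ℂ) + (b : ℂ) * Complex.I)).measurableEmbedding g (Qs a b)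
  rw [← h]
  congr 2
  ext z
  simp only [Sq, Qs, mem_ofPred_eq, mem_preimage, Complex.add_re, Complex.add_im,
    Complex.mul_re, Complex.mul_im, Complex.intCast_re, Complex.intCast_im, Complex.I_re,
    Complex.I_im]
  constructor
  · rintro ⟨h1, h2, h3, h4⟩
    refine ⟨by linarith, by linarith, by linarith, by linarith⟩
  · rintro ⟨h1, h2, h3, h4⟩
    refine ⟨by linarith, by linarith, by linarith, by linarith⟩

/-- unfolding -/
theorem unfold_int {g : ℂ → ℂ} (hg : Continuous g) (hs : HasCompactSupport g) (N : ℕ)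
    (hN : ∀ z, g z ≠ 0 → |z.re| ≤ N ∧ |z.im| ≤ N) :
    ∑ x ∈ Finset.Icc (-(N : ℤ)) N ×ˢ Finset.Icc (-(N : ℤ)) N,
      ∫ z in Sq, g (z + ((x.1 : ℂ) + (x.2 : ℂ) * Complex.I)) = ∫ z, g z := by
  simp only [shift_int]
  rw [← integral_biUnion_finset (s := fun x : ℤ × ℤ => Qs x.1 x.2)
    (Finset.Icc (-(N : ℤ)) N ×ˢ Finset.Icc (-(N : ℤ)) N) (fun x _ => Qs_meas x.1 x.2)
    (fun x _ y _ hxy => Qs_disj hxy)
    (fun x _ => (hg.integrable_of_hasCompactSupport hs).integrableOn)]
  apply setIntegral_eq_integral_of_forall_compl_eq_zero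
  intro z hz
  by_contra hne
  apply hz
  obtain ⟨h1, h2⟩ := hN z hne
  rw [abs_le] at h1 h2
  simp only [mem_iUnion]
  refine ⟨(⌊z.re⌋, ⌊z.im⌋), ?_, ?_⟩
  · simp only [Finset.mem_product, Finset.mem_Icc]
    refine ⟨⟨Int.le_floor.2 (by push_cast; exact h1.1), ?_⟩,
      ⟨Int.le_floor.2 (by push_cast; exact h2.1), ?_⟩⟩
    · exact_mod_cast (Int.floor_le z.re).trans h1.2
    · exact_mod_cast (Int.floor_le z.im).trans h2.2
  · exact ⟨Int.floor_le _, Int.lt_floor_add_one _, Int.floor_le _, Int.lt_floor_add_one _⟩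

/-- the divergence theorem for a periodic function on the unit square -/
theorem div_zero {H : ℂ → ℂ} (hH : ContDiff ℝ 1 H) (h1 : ∀ z, H (z + 1) = H z)
    (hI : ∀ z, H (z + Complex.I) = H z) :
    ∫ z in Sq, (Complex.I * fderiv ℝ H z 1 - fderiv ℝ H z Complex.I) = 0 := by
  set D : ℂ → ℂ := fun z => Complex.I • fderiv ℝ H z 1 - fderiv ℝ H z Complex.I with hD
  have hcf : Continuous (fderiv ℝ H) := hH.continuous_fderiv (by norm_num)
  have hDc : Continuous D := by
    have e1 : Continuous fun z => fderiv ℝ H z 1 := hcf.clm_apply continuous_const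
    have e2 : Continuous fun z => fderiv ℝ H z Complex.I := hcf.clm_apply continuous_const
    exact (Continuous.const_smul e1 Complex.I).sub e2
  have key := Complex.integral_boundary_rect_of_hasFDerivAt_real_off_countable H (fderiv ℝ H)
    0 (1 + Complex.I) ∅ countable_empty hH.continuous.continuousOn
    (fun x _ => (hH.differentiable (by norm_num) x).hasFDerivAt)
    (by
      refine ContinuousOn.integrableOn_compact ?_ hDc.continuousOn
      exact isCompact_uIcc.reProdIm isCompact_uIcc)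
  have e1 : ∀ x : ℝ, H (x + ((1 + Complex.I : ℂ).im : ℂ) * Complex.I) = H (x + ((0 : ℂ).im : ℂ) * Complex.I) := by
    intro x
    have : (x : ℂ) + ((1 + Complex.I : ℂ).im : ℂ) * Complex.I
        = (x + ((0 : ℂ).im : ℂ) * Complex.I) + Complex.I := by simp
    rw [this, hI]
  have e2 : ∀ y : ℝ, H (((1 + Complex.I : ℂ).re : ℂ) + y * Complex.I) = H (((0 : ℂ).re : ℂ) + y * Complex.I) := by
    intro y
    have : (((1 + Complex.I : ℂ).re : ℂ) + y * Complex.I)
        = (((0 : ℂ).re : ℂ) + y * Complex.I) + 1 := by simp; ring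
    rw [this, h1]
  simp only [e1, e2, sub_self, zero_add] at key
  have hSq : Sq = (Complex.measurableEquivRealProd) ⁻¹' (Ico (0 : ℝ) 1 ×ˢ Ico (0 : ℝ) 1) := by
    ext z
    simp [Sq, and_assoc]
  have e3 : ∫ z in Sq, D z = ∫ q in Ico (0 : ℝ) 1 ×ˢ Ico (0 : ℝ) 1, D (q.1 + q.2 * Complex.I) := by
    have := Complex.volume_preserving_equiv_real_prod.setIntegral_preimage_emb
      Complex.measurableEquivRealProd.measurableEmbedding
      (fun q : ℝ × ℝ => D (q.1 + q.2 * Complex.I)) (Ico (0 : ℝ) 1 ×ˢ Ico (0 : ℝ) 1)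
    rw [← this, hSq]
    refine setIntegral_congr_fun (Complex.measurableEquivRealProd.measurable
      (measurableSet_Ico.prod measurableSet_Ico)) fun z _ => ?_
    simp [Complex.re_add_im]
  have hD2 : Continuous fun q : ℝ × ℝ => D (q.1 + q.2 * Complex.I) := hDc.comp (by fun_prop)
  rw [Measure.volume_eq_prod, setIntegral_prod] at e3
  · show ∫ z in Sq, D z = 0
    rw [e3, integral_Ico_eq_integral_Ioc, ← intervalIntegral.integral_of_le zero_le_one]
    simp only [integral_Ico_eq_integral_Ioc, ← intervalIntegral.integral_of_le (zero_le_one' ℝ)]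
    rw [hD]
    simp only [Complex.zero_re, Complex.zero_im, Complex.add_re, Complex.one_re, Complex.I_re,
      add_zero, Complex.add_im, Complex.one_im, Complex.I_im, zero_add] at key
    exact key.symm
  · refine IntegrableOn.mono_set ?_ (prod_mono Ico_subset_Icc_self Ico_subset_Icc_self)
    exact hD2.continuousOn.integrableOn_compact (isCompact_Icc.prod isCompact_Icc)

section Main

variable {n : ℕ} (p : Fin n → ℂ) (ρ : ℝ) (h : ℂ → ℂ)

/-- the points -/
def P (x : Fin n × ℤ × ℤ) : ℂ := p x.1 - ((x.2.1 : ℂ) + (x.2.2 : ℂ) * Complex.I)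

variable {p ρ h}

theorem P_sep (hs : Sep p ρ) {x y : Fin n × ℤ × ℤ} (hxy : x ≠ y) : 2 * ρ < ‖P p x - P p y‖ := by
  obtain ⟨i, a, b⟩ := x
  obtain ⟨j, a', b'⟩ := y
  have e : P p (i, a, b) - P p (j, a', b')
      = p i + (((a' - a : ℤ) : ℂ) + ((b' - b : ℤ) : ℂ) * Complex.I) - p j := by
    simp only [P]; push_cast; ring
  rw [e]
  refine hs i j _ ⟨a' - a, b' - b, rfl⟩ ?_
  by_cases hij : i = j
  · right
    intro h0
    apply hxy
    have h1 := congrArg Complex.re h0
    have h2 := congrArg Complex.im h0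
    simp only [Complex.add_re, Complex.mul_re, Complex.intCast_re, Complex.intCast_im,
      Complex.I_re, Complex.I_im, Complex.add_im, Complex.mul_im, Complex.zero_re,
      Complex.zero_im, mul_zero, mul_one, sub_zero, add_zero, zero_add] at h1 h2
    have h3 : a' - a = 0 := by exact_mod_cast h1
    have h4 : b' - b = 0 := by exact_mod_cast h2
    rw [hij, show a = a' by omega, show b = b' by omega]
  · left; exact hij

theorem P_uniq (hs : Sep p ρ) {x y : Fin n × ℤ × ℤ} {z : ℂ} (hx : ‖z - P p x‖ < ρ)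
    (hy : ‖z - P p y‖ < ρ) : x = y := by
  by_contra hxy
  have h1 := P_sep hs hxy
  have h2 : ‖P p x - P p y‖ ≤ ‖z - P p x‖ + ‖z - P p y‖ := by
    have : P p x - P p y = (z - P p y) - (z - P p x) := by ring
    rw [this]
    exact (norm_sub_le _ _).trans (by rw [add_comm])
  linarith

theorem P_other (hs : Sep p ρ) {x y : Fin n × ℤ × ℤ} {z : ℂ} (hx : ‖z - P p x‖ < ρ)
    (hxy : x ≠ y) : ρ ≤ ‖z - P p y‖ := by
  by_contra hcon
  push Not at hcon
  exact hxy (P_uniq hs hx hcon)

open Classical in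
variable (p ρ) in
/-- the cutoff -/
noncomputable def chi (z : ℂ) : ℝ :=
  if hx : ∃ x, ‖z - P p x‖ < ρ then 1 - th ρ (‖z - P p hx.choose‖ ^ 2) else 1

theorem chi_near (hs : Sep p ρ) {x : Fin n × ℤ × ℤ} {z : ℂ} (hx : ‖z - P p x‖ < ρ) :
    chi p ρ z = 1 - th ρ (‖z - P p x‖ ^ 2) := by
  have hex : ∃ x, ‖z - P p x‖ < ρ := ⟨x, hx⟩
  unfold chi
  rw [dif_pos hex, P_uniq hs hex.choose_spec hx]

theorem chi_far (hρ : 0 < ρ) {z : ℂ} (hx : ∀ x, 2 * ρ / 3 ≤ ‖z - P p x‖) :
    chi p ρ z = 1 := by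
  unfold chi
  by_cases hex : ∃ x, ‖z - P p x‖ < ρ
  · rw [dif_pos hex, th_zero hρ]
    · ring
    · have := hx hex.choose
      nlinarith
  · rw [dif_neg hex]

theorem chi_per (hs : Sep p ρ) (z l : ℂ) (hl : ∃ a b : ℤ, l = (a : ℂ) + (b : ℂ) * Complex.I) :
    chi p ρ (z + l) = chi p ρ z := by
  obtain ⟨a, b, rfl⟩ := hl
  by_cases hex : ∃ x, ‖z - P p x‖ < ρ
  · obtain ⟨⟨i, a', b'⟩, hx⟩ := hex
    have e : z + ((a : ℂ) + (b : ℂ) * Complex.I) - P p (i, a' - a, b' - b) = z - P p (i, a', b') := by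
      simp only [P]; push_cast; ring
    have hx' : ‖z + ((a : ℂ) + (b : ℂ) * Complex.I) - P p (i, a' - a, b' - b)‖ < ρ := by
      rw [e]; exact hx
    rw [chi_near hs hx', chi_near hs hx, e]
  · have hex' : ¬ ∃ x, ‖z + ((a : ℂ) + (b : ℂ) * Complex.I) - P p x‖ < ρ := by
      rintro ⟨⟨i, a', b'⟩, hx⟩
      apply hex
      refine ⟨(i, a' + a, b' + b), ?_⟩
      have e : z + ((a : ℂ) + (b : ℂ) * Complex.I) - P p (i, a', b') = z - P p (i, a' + a, b' + b) := by
        simp only [P]; push_cast; ring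
      rwa [← e]
    unfold chi
    rw [dif_neg hex, dif_neg hex']

variable (p ρ h) in
/-- the smooth periodic function -/
noncomputable def HH (z : ℂ) : ℂ := (chi p ρ z : ℂ) * h z

theorem nrm_cont (c : ℂ) : Continuous fun w : ℂ => ‖w - c‖ := by fun_prop

theorem HH_near (hs : Sep p ρ) {x : Fin n × ℤ × ℤ} {z : ℂ} (hx : ‖z - P p x‖ < ρ) :
    HH p ρ h =ᶠ[𝓝 z] fun w => ((1 - th ρ (‖w - P p x‖ ^ 2) : ℝ) : ℂ) * h w := by
  filter_upwards [(nrm_cont (P p x)).continuousAt.eventually (Iio_mem_nhds hx)] with w hw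
  unfold HH
  rw [chi_near hs hw]

theorem HH_center (hρ : 0 < ρ) (hs : Sep p ρ) (x : Fin n × ℤ × ℤ) :
    HH p ρ h =ᶠ[𝓝 (P p x)] fun _ => (0 : ℂ) := by
  have h0 : ‖P p x - P p x‖ < ρ / 3 := by simpa using hρ
  filter_upwards [(nrm_cont (P p x)).continuousAt.eventually (Iio_mem_nhds h0)] with w hw
  unfold HH
  have hw' : ‖w - P p x‖ < ρ / 3 := hw
  rw [chi_near hs (by linarith : ‖w - P p x‖ < ρ), th_one hρ (by
    nlinarith [norm_nonneg (w - P p x)])]
  simp

theorem HH_far (hρ : 0 < ρ) {z : ℂ} (hx : ∀ x, ρ ≤ ‖z - P p x‖) : HH p ρ h =ᶠ[𝓝 z] h := by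
  filter_upwards [ball_mem_nhds z (by positivity : 0 < ρ / 3)] with w hw
  unfold HH
  rw [chi_far hρ]
  · simp
  · intro x
    rw [mem_ball, dist_eq_norm] at hw
    have h1 := hx x
    have h2 : ‖z - P p x‖ ≤ ‖w - P p x‖ + ‖w - z‖ := by
      have : z - P p x = (w - P p x) - (w - z) := by ring
      rw [this]; exact norm_sub_le _ _
    linarith

theorem diff_near (hs : Sep p ρ) (hd : ∀ z, (∀ x, z ≠ P p x) → DifferentiableAt ℂ h z)
    {x : Fin n × ℤ × ℤ} {z : ℂ} (hx : ‖z - P p x‖ < ρ) (hne : z ≠ P p x) :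
    ∀ᶠ w in 𝓝 z, DifferentiableAt ℂ h w := by
  filter_upwards [(nrm_cont (P p x)).continuousAt.eventually (Iio_mem_nhds hx),
    isOpen_ne.mem_nhds hne] with w hw hw'
  refine hd w fun y hy => ?_
  by_cases hxy : x = y
  · subst hxy; exact hw' hy
  · have h1 := P_other hs hw hxy
    have h2 : 0 < ρ := lt_of_le_of_lt (norm_nonneg _) hw
    rw [hy, sub_self, norm_zero] at h1
    linarith

theorem diff_far (hρ : 0 < ρ) (hd : ∀ z, (∀ x, z ≠ P p x) → DifferentiableAt ℂ h z)
    {z : ℂ} (hx : ∀ x, ρ ≤ ‖z - P p x‖) : ∀ᶠ w in 𝓝 z, DifferentiableAt ℂ h w := by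
  filter_upwards [ball_mem_nhds z hρ] with w hw
  refine hd w fun y hy => ?_
  have h1 := hx y
  rw [mem_ball, dist_comm, dist_eq_norm, hy] at hw
  linarith

theorem contDiffAt_of_ev {z : ℂ} (hz : ∀ᶠ w in 𝓝 z, DifferentiableAt ℂ h w) :
    ContDiffAt ℝ 1 h z :=
  ((Complex.analyticAt_iff_eventually_differentiableAt.2 hz).contDiffAt (n := 1)).restrict_scalars ℝ

theorem HH_contDiff (hρ : 0 < ρ) (hs : Sep p ρ)
    (hd : ∀ z, (∀ x, z ≠ P p x) → DifferentiableAt ℂ h z) : ContDiff ℝ 1 (HH p ρ h) := by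
  rw [contDiff_iff_contDiffAt]
  intro z
  by_cases hex : ∃ x, ‖z - P p x‖ < ρ
  · obtain ⟨x, hx⟩ := hex
    by_cases hne : z = P p x
    · subst hne
      exact contDiffAt_const.congr_of_eventuallyEq (HH_center hρ hs x)
    · refine ContDiffAt.congr_of_eventuallyEq ?_ (HH_near hs hx)
      refine ContDiffAt.mul ?_ (contDiffAt_of_ev (diff_near hs hd hx hne))
      have e1 : ContDiff ℝ 1 fun w : ℂ => ‖w - P p x‖ ^ 2 :=
        (contDiff_norm_sq ℝ).comp (contDiff_id.sub contDiff_const)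
      have e2 : ContDiff ℝ 1 fun w : ℂ => 1 - th ρ (‖w - P p x‖ ^ 2) :=
        contDiff_const.sub (((th_smooth ρ).of_le (by norm_num)).comp e1)
      exact (Complex.ofRealCLM.contDiff.comp e2).contDiffAt
  · push Not at hex
    exact (contDiffAt_of_ev (diff_far hρ hd hex)).congr_of_eventuallyEq (HH_far hρ hex)

theorem D_near (hρ : 0 < ρ) (hs : Sep p ρ) (hd : ∀ z, (∀ x, z ≠ P p x) → DifferentiableAt ℂ h z)
    {x : Fin n × ℤ × ℤ} {z : ℂ} (hx : ‖z - P p x‖ < ρ) :
    Complex.I * fderiv ℝ (HH p ρ h) z 1 - fderiv ℝ (HH p ρ h) z Complex.I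
      = - gg ρ h (P p x) z := by
  by_cases hne : z = P p x
  · subst hne
    rw [(HH_center hρ hs x).fderiv_eq, gg_near hρ h _ _ (by simpa using hρ)]
    simp
  · rw [(HH_near hs hx).fderiv_eq]
    have hh : HasFDerivAt h ((fderiv ℂ h z).restrictScalars ℝ) z :=
      ((diff_near hs hd hx hne).self_of_nhds.hasFDerivAt).restrictScalars ℝ
    have e1 : HasFDerivAt (fun w : ℂ => ‖w - P p x‖ ^ 2) (2 • innerSL ℝ (z - P p x)) z := by
      have h1 := (hasStrictFDerivAt_norm_sq (z - P p x)).hasFDerivAt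
      have h2 := h1.comp z ((hasFDerivAt_id (𝕜 := ℝ) z).sub_const (P p x))
      rw [ContinuousLinearMap.comp_id] at h2
      exact h2
    have e2 := (th_hasDeriv ρ (‖z - P p x‖ ^ 2)).comp_hasFDerivAt z e1
    have e3 := e2.const_sub 1
    have e4 := (Complex.ofRealCLM.hasFDerivAt).comp z e3
    have e5 := e4.mul hh
    have e6 : HasFDerivAt (fun w => ((1 - th ρ (‖w - P p x‖ ^ 2) : ℝ) : ℂ) * h w) _ z := e5
    rw [e6.fderiv]
    have hI : fderiv ℂ h z Complex.I = Complex.I * fderiv ℂ h z 1 := by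
      have := (fderiv ℂ h z).map_smul Complex.I 1
      rwa [smul_eq_mul, mul_one, smul_eq_mul] at this
    unfold gg
    have hre : (inner ℝ (z - P p x) (1 : ℂ) : ℝ) = (z - P p x).re := by
      simp [Complex.inner]
    have him : (inner ℝ (z - P p x) Complex.I : ℝ) = (z - P p x).im := by
      simp [Complex.inner]
      ring
    have hz : (z - P p x) = ((z - P p x).re : ℂ) + ((z - P p x).im : ℂ) * Complex.I :=
      (Complex.re_add_im _).symm
    simp only [ContinuousLinearMap.add_apply, ContinuousLinearMap.smul_apply,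
      ContinuousLinearMap.coe_comp', Function.comp_apply, ContinuousLinearMap.neg_apply,
      Complex.ofRealCLM_apply, innerSL_apply_apply, ContinuousLinearMap.coe_restrictScalars',
      smul_eq_mul, hre, him, hI, nsmul_eq_mul, ContinuousLinearMap.coe_smul', Pi.smul_apply]
    set W := z - P p x with hW
    have hz' : W = (W.re : ℂ) + (W.im : ℂ) * Complex.I := (Complex.re_add_im _).symm
    have hII : Complex.I * Complex.I = -1 := Complex.I_mul_I
    push_cast
    linear_combination (2 * Complex.I * (td ρ (‖W‖ ^ 2) : ℂ) * h z) * hz'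
      + (2 * (td ρ (‖W‖ ^ 2) : ℂ) * h z * (W.im : ℂ)) * hII

theorem D_far (hρ : 0 < ρ) (hd : ∀ z, (∀ x, z ≠ P p x) → DifferentiableAt ℂ h z)
    {z : ℂ} (hx : ∀ x, ρ ≤ ‖z - P p x‖) :
    Complex.I * fderiv ℝ (HH p ρ h) z 1 - fderiv ℝ (HH p ρ h) z Complex.I = 0 := by
  rw [(HH_far hρ hx).fderiv_eq]
  have hh : HasFDerivAt h ((fderiv ℂ h z).restrictScalars ℝ) z :=
    ((diff_far hρ hd hx).self_of_nhds.hasFDerivAt).restrictScalars ℝ
  rw [hh.fderiv]
  have hI : fderiv ℂ h z Complex.I = Complex.I * fderiv ℂ h z 1 := by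
    have := (fderiv ℂ h z).map_smul Complex.I 1
    rwa [smul_eq_mul, mul_one, smul_eq_mul] at this
  simp [hI]

end Main

end Pool.Agent.Y758.MM.Tor

namespace Pool.Agent.Y758.MM

open Tor

/-- **TOR**: the residue theorem on the torus -/
theorem MM_TOR : S_TOR := by
  intro n p ρ h hρ hs hd0 hper
  have hd : ∀ z, (∀ x, z ≠ P p x) → DifferentiableAt ℂ h z := by
    intro z hz
    refine hd0 z fun i l hl => ?_
    obtain ⟨a, b, rfl⟩ := hl
    have := hz (i, -a, -b)
    intro hcon
    apply this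
    rw [hcon]
    simp only [P]
    push_cast
    ring
  have hH := HH_contDiff hρ hs hd
  have hperH : ∀ z l : ℂ, (∃ a b : ℤ, l = (a : ℂ) + (b : ℂ) * Complex.I) →
      HH p ρ h (z + l) = HH p ρ h z := by
    intro z l hl
    unfold HH
    rw [chi_per hs z l hl, hper z l hl]
  have hdiv := div_zero hH (fun z => hperH z 1 ⟨1, 0, by simp⟩)
    (fun z => hperH z Complex.I ⟨0, 1, by simp⟩)
  obtain ⟨N, hN⟩ := exists_nat_ge (∑ i, ‖p i‖ + ρ + 1)
  have hpi : ∀ i, ‖p i‖ + ρ + 1 ≤ N := fun i =>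
    le_trans (by
      have := Finset.single_le_sum (f := fun i => ‖p i‖) (fun i _ => norm_nonneg _)
        (Finset.mem_univ i)
      linarith) hN
  set F := Finset.Icc (-(N : ℤ)) N ×ˢ Finset.Icc (-(N : ℤ)) N with hF
  have hball : ∀ i, ∀ z ∈ closedBall (p i) ρ, z ≠ p i → DifferentiableAt ℂ h z := by
    intro i z hz hne
    have h0 : P p (i, 0, 0) = p i := by simp [P]
    refine hd z fun y hy => ?_
    by_cases hxy : (i, (0 : ℤ), (0 : ℤ)) = y
    · subst hxy; rw [h0] at hy; exact hne hy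
    · have h1 := P_sep hs hxy
      rw [h0, ← hy, ← dist_eq_norm, dist_comm] at h1
      rw [mem_closedBall] at hz
      linarith
  have hsum : ∀ z ∈ Sq, Complex.I * fderiv ℝ (HH p ρ h) z 1 - fderiv ℝ (HH p ρ h) z Complex.I
      = - ∑ i, ∑ x ∈ F, gg ρ h (p i) (z + ((x.1 : ℂ) + (x.2 : ℂ) * Complex.I)) := by
    intro z hz
    have hgs : ∀ i (x : ℤ × ℤ), gg ρ h (p i) (z + ((x.1 : ℂ) + (x.2 : ℂ) * Complex.I))
        = gg ρ h (P p (i, x)) z := by
      intro i x
      unfold gg
      rw [hper z _ ⟨x.1, x.2, rfl⟩]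
      have : z + ((x.1 : ℂ) + (x.2 : ℂ) * Complex.I) - p i = z - P p (i, x) := by
        simp only [P]; ring
      rw [this]
    simp only [hgs]
    rw [← Finset.sum_product' (f := fun i x => gg ρ h (P p (i, x)) z)]
    by_cases hex : ∃ x, ‖z - P p x‖ < ρ
    · obtain ⟨x, hx⟩ := hex
      rw [D_near hρ hs hd hx, Finset.sum_eq_single x]
      · intro y _ hyx
        exact gg_far hρ h _ _ (by
          have := P_other hs hx (Ne.symm hyx)
          have e : P p (y.1, y.2) = P p y := rfl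
          rw [e]
          linarith)
      · intro hxn
        exfalso
        apply hxn
        obtain ⟨i, a, b⟩ := x
        have hre := Complex.abs_re_le_norm (z - P p (i, a, b))
        have him := Complex.abs_im_le_norm (z - P p (i, a, b))
        have hpr := Complex.abs_re_le_norm (p i)
        have hpm := Complex.abs_im_le_norm (p i)
        have e1 : (z - P p (i, a, b)).re = z.re - (p i).re + a := by
          simp [P]; ring
        have e2 : (z - P p (i, a, b)).im = z.im - (p i).im + b := by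
          simp [P]; ring
        rw [e1] at hre
        rw [e2] at him
        obtain ⟨hz1, hz2, hz3, hz4⟩ := hz
        have hNi := hpi i
        have hre' := abs_le.1 (hre.trans hx.le)
        have him' := abs_le.1 (him.trans hx.le)
        have hpr' := abs_le.1 hpr
        have hpm' := abs_le.1 hpm
        simp only [Finset.mem_product, Finset.mem_univ, true_and, hF, Finset.mem_Icc]
        refine ⟨⟨?_, ?_⟩, ⟨?_, ?_⟩⟩
        · have : -(N : ℝ) ≤ a := by linarith
          exact_mod_cast this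
        · have : (a : ℝ) ≤ N := by linarith
          exact_mod_cast this
        · have : -(N : ℝ) ≤ b := by linarith
          exact_mod_cast this
        · have : (b : ℝ) ≤ N := by linarith
          exact_mod_cast this
    · push Not at hex
      rw [D_far hρ hd hex, Finset.sum_eq_zero]
      · simp
      · intro y _
        exact gg_far hρ h _ _ (by
          have := hex y
          have e : P p (y.1, y.2) = P p y := rfl
          rw [e]
          linarith)
  have hSm : MeasurableSet Sq := by rw [← Qs_zero]; exact Qs_meas 0 0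
  rw [setIntegral_congr_fun hSm hsum, integral_neg, neg_eq_zero] at hdiv
  have hint : ∀ i (x : ℤ × ℤ), IntegrableOn
      (fun z => gg ρ h (p i) (z + ((x.1 : ℂ) + (x.2 : ℂ) * Complex.I))) Sq volume := by
    intro i x
    exact (((gg_cont hρ (hball i)).integrable_of_hasCompactSupport
      (gg_supp hρ h (p i))).comp_add_right _).integrableOn
  rw [integral_finsetSum _ (fun i _ => integrable_finsetSum _ (fun x _ => hint i x))] at hdiv
  have hfin : ∀ i, ∫ z in Sq, ∑ x ∈ F, gg ρ h (p i) (z + ((x.1 : ℂ) + (x.2 : ℂ) * Complex.I))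
      = - ∮ z in C(p i, ρ), h z := by
    intro i
    rw [integral_finsetSum _ (fun x _ => hint i x), ← polar_int hρ (hball i)]
    refine unfold_int (gg_cont hρ (hball i)) (gg_supp hρ h (p i)) N fun z hz => ?_
    have h1 : ‖z - p i‖ ≤ ρ := by
      by_contra hcon
      push Not at hcon
      exact hz (gg_far hρ h _ _ (by linarith))
    have h2 : ‖z‖ ≤ N := by
      have : ‖z‖ ≤ ‖z - p i‖ + ‖p i‖ := by
        have e : z = (z - p i) + p i := by ring
        calc ‖z‖ = ‖(z - p i) + p i‖ := by rw [← e]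
          _ ≤ _ := norm_add_le _ _
      linarith [hpi i]
    exact ⟨(Complex.abs_re_le_norm z).trans h2, (Complex.abs_im_le_norm z).trans h2⟩
  simp only [hfin, Finset.sum_neg_distrib, neg_eq_zero] at hdiv
  exact hdiv

end Pool.Agent.Y758.MM
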