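import Pool.Agent.Y758.MM.Stm2

/-!
# MM-UP: a Moishezon structure gives a divisor with a zero on a fibre
-/

set_option autoImplicit false

open Set Filter Topology Metric
open scoped Manifold ContDiff

namespace Pool.Agent.Y758.MM

namespace UPaux

lemma sh_zero (p : T) : sh 0 p = p := by
  simp [sh]

lemma zero_mem_Lat : (0 : ℂ) ∈ Lat := ⟨0, 0, by simp⟩

lemma Lat_small {l : ℂ} (hl : l ∈ Lat) (h : ‖l‖ < 1 / 2) : l = 0 := by
  obtain ⟨m, n, rfl⟩ := hl
  have h1 := Complex.abs_re_le_norm ((m : ℂ) + (n : ℂ) * Complex.I)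
  have h2 := Complex.abs_im_le_norm ((m : ℂ) + (n : ℂ) * Complex.I)
  simp at h1 h2
  have h3 : |(m : ℝ)| < 1 := by linarith
  have h4 : |(n : ℝ)| < 1 := by linarith
  have h5 : |m| < 1 := by exact_mod_cast h3
  have h6 : |n| < 1 := by exact_mod_cast h4
  rw [Int.abs_lt_one_iff] at h5 h6
  simp [h5, h6]

lemma exists_form {N : ℕ} (a b : Fin (N + 1) → ℂ) (ha : a ≠ 0) (hb : b ≠ 0)
    (h : ∀ c : ℂ, a ≠ c • b) : ∃ k l, a k * b l - a l * b k ≠ 0 := by
  by_contra hcon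
  push Not at hcon
  obtain ⟨k, hk⟩ := Function.ne_iff.1 ha
  simp only [Pi.zero_apply] at hk
  have h1 : ∀ l, a k * b l = a l * b k := fun l => sub_eq_zero.1 (hcon k l)
  have hbk : b k ≠ 0 := by
    intro h2
    apply hb
    funext l
    have h3 := h1 l
    rw [h2, mul_zero] at h3
    simpa [hk] using h3
  apply h (a k / b k)
  funext l
  rw [Pi.smul_apply, smul_eq_mul, div_mul_eq_mul_div, h1 l, mul_div_assoc, div_self hbk, mul_one]

section

variable {M : Type} [TopologicalSpace M] [ChartedSpace T M] {π : Bool → T → M}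

lemma cont (hM : Model M π) (c : Bool) : Continuous (π c) := (hM.holo c).continuous

lemma sh_eq (hM : Model M π) (c : Bool) (p : T) {l : ℂ} (hl : l ∈ Lat) :
    π c (sh l p) = π c p := ((hM.same c p (sh l p)).2 ⟨l, hl, rfl⟩).symm

lemma tw_eq (hM : Model M π) (p : T) (hp : p.2.1 ≠ 0) : π true (tw false p) = π false p := by
  have h := (hM.diff false p (tw false p)).2 ⟨hp, 0, zero_mem_Lat, (sh_zero _).symm⟩
  simpa using h.symm

lemma diff_comp (hM : Model M π) {V : Type} [NormedAddCommGroup V] [NormedSpace ℂ V]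
    {f : M → V} {S : Set M} (hS : IsOpen S) (hf : MDifferentiableOn 𝓘(ℂ, T) 𝓘(ℂ, V) f S)
    (c : Bool) {q : T} (hq : π c q ∈ S) : DifferentiableAt ℂ (fun q' => f (π c q')) q := by
  have h1 : MDifferentiableAt 𝓘(ℂ, T) 𝓘(ℂ, V) f (π c q) := hf.mdifferentiableAt (hS.mem_nhds hq)
  have h2 : MDifferentiableAt 𝓘(ℂ, T) 𝓘(ℂ, T) (π c) q := hM.holo c q
  have h3 := MDifferentiableAt.comp q h1 h2
  exact mdifferentiableAt_iff_differentiableAt.1 h3

lemma hol_comp (hM : Model M π) {f : M → ℂ} {S : Set M} (hS : IsOpen S)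
    (hf : MDifferentiableOn 𝓘(ℂ, T) 𝓘(ℂ, ℂ) f S)
    (c : Bool) {q : T} (hq : π c q ∈ S) : Hol (fun q' => f (π c q')) q := by
  have h1 : ∀ᶠ q' in 𝓝 q, π c q' ∈ S := (cont hM c).continuousAt.eventually_mem (hS.mem_nhds hq)
  filter_upwards [h1] with q' hq' using diff_comp hM hS hf c hq'

end

end UPaux

open UPaux in
theorem MM_UP : S_UP := by
  intro M _ _ _ _ π g hM hG hX U hU h0U hMo
  obtain ⟨N, ι, W, F, O, hHC, hO, hdense, hF0, hinj⟩ := hMo
  set Y : Set M := XS π ∩ g ⁻¹' U with hYdef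
  obtain ⟨ε, hε, hεU⟩ := Metric.isOpen_iff.1 hU 0 h0U
  -- the radius
  have hgN : ∀ c (p : T), ‖p.1‖ < ε / 2 → ‖p.2.1‖ < 2 → g (π c p) ∈ U := by
    intro c p h1 h2
    apply hεU
    have h3 : ‖p.1 * p.2.1‖ < ε := by
      rw [norm_mul]
      have h4 := norm_nonneg p.1
      have h5 := norm_nonneg p.2.1
      nlinarith
    have h4 : ‖p.1‖ < ε := by linarith
    rw [mem_ball, dist_zero_right]
    cases c with
    | false => rw [hG.f]; exact max_lt h4 h3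
    | true => rw [hG.t]; exact max_lt h3 h4
  have hY : ∀ c (p : T), p ∈ Reg (ε / 2) → π c p ∈ Y := fun c p hp =>
    ⟨(hX c p).2 hp.1, hgN c p hp.2.1 hp.2.2⟩
  have hNo : IsOpen {q : T | ‖q.1‖ < ε / 2 ∧ ‖q.2.1‖ < 2} := by
    have h1 : IsOpen {q : T | ‖q.1‖ < ε / 2} := isOpen_lt (by fun_prop) (by fun_prop)
    have h2 : IsOpen {q : T | ‖q.2.1‖ < 2} := isOpen_lt (by fun_prop) (by fun_prop)
    exact h1.inter h2
  -- the first point
  have hp0 : ((0, 0, 1, 0) : T) ∈ Reg (ε / 2) := by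
    refine ⟨?_, ?_, ?_⟩
    · simp [XX]
    · simpa using hε
    · simp
  have h1 : π false (0, 0, 1, 0) ∈ closure (Y ∩ O) := hdense (hY false _ hp0)
  obtain ⟨m, ⟨p, hpN, hpm⟩, hmY, hmO⟩ := mem_closure_iff.1 h1 _
    (hM.isOpenMap false _ hNo) ⟨_, ⟨hp0.2.1, hp0.2.2⟩, rfl⟩
  subst hpm
  have hpXX : p ∈ XX := (hX false p).1 hmY.1
  have hpR : p ∈ Reg (ε / 2) := ⟨hpXX, hpN.1, hpN.2⟩
  -- the second point
  have hcz : Continuous (fun z : ℂ => π false (sh z p)) := by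
    apply (cont hM false).comp
    unfold sh
    fun_prop
  have hz0 : ∀ᶠ z : ℂ in 𝓝 0, π false (sh z p) ∈ O := by
    apply hcz.continuousAt.eventually_mem
    rw [sh_zero]
    exact hO.mem_nhds hmO
  have hz1 : ∀ᶠ z : ℂ in 𝓝 0, ‖z‖ < 1 / 2 := by
    have h2 : ContinuousAt (fun z : ℂ => ‖z‖) 0 := by fun_prop
    exact h2.eventually_lt continuousAt_const (by simp)
  obtain ⟨z, ⟨hzO, hzs⟩, hzne⟩ :=
    (((hz0.and hz1).filter_mono nhdsWithin_le_nhds).and
      (self_mem_nhdsWithin : {(0 : ℂ)}ᶜ ∈ 𝓝[≠] (0 : ℂ))).exists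
  have hzR : sh z p ∈ Reg (ε / 2) := hpR
  have hzY := hY false _ hzR
  have hne : π false p ≠ π false (sh z p) := by
    intro h
    obtain ⟨l, hl, hl'⟩ := (hM.same false _ _).1 h
    have h2 : z = l := by
      have h3 := congrArg (fun q : T => q.2.2.2) hl'
      simpa [sh] using h3
    rw [h2] at hzs hzne
    exact hzne (Lat_small hl hzs)
  -- indices
  have hcov : ∀ x ∈ Y, ∃ i, x ∈ W i := fun x hx => by simpa using hHC.cover hx
  obtain ⟨i₀, _⟩ := hcov _ hmY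
  haveI : Nonempty ι := ⟨i₀⟩
  set idx : Bool → T → ι := fun c q => Classical.epsilon (fun i => π c q ∈ W i) with hidx
  have hidx' : ∀ c q, π c q ∈ Y → π c q ∈ W (idx c q) := fun c q hq =>
    Classical.epsilon_spec (hcov _ hq)
  set a := F (idx false p) (π false p) with ha
  set b := F (idx false (sh z p)) (π false (sh z p)) with hb
  have ha0 : a ≠ 0 := hF0 _ _ ⟨⟨hmY, hmO⟩, hidx' _ _ hmY⟩
  have hb0 : b ≠ 0 := hF0 _ _ ⟨⟨hzY, hzO⟩, hidx' _ _ hzY⟩
  have hab : ∀ c : ℂ, a ≠ c • b := by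
    intro c hc
    apply hne
    refine hinj _ _ _ ⟨⟨hmY, hmO⟩, hidx' _ _ hmY⟩ _ ⟨⟨hzY, hzO⟩, hidx' _ _ hzY⟩ ?_ ⟨c, hc⟩
    rw [hG.f, hG.f]
    rfl
  obtain ⟨k, l, hkl⟩ := exists_form a b ha0 hb0 hab
  set ℓ : (Fin (N + 1) → ℂ) → ℂ := fun y => a k * y l - a l * y k with hℓ
  have hℓd : Differentiable ℂ ℓ := by
    rw [hℓ]
    fun_prop
  have hℓs : ∀ (c : ℂ) y, ℓ (c • y) = c * ℓ y := by
    intro c y
    simp only [hℓ, Pi.smul_apply, smul_eq_mul]
    ring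
  -- near points of the region
  have hnear : ∀ q ∈ Reg (ε / 2), ∀ c, ∀ᶠ q' in 𝓝[XX] q, π c q' ∈ Y := by
    intro q hq c
    have h2 : ∀ᶠ q' in 𝓝[XX] q, q' ∈ {q : T | ‖q.1‖ < ε / 2 ∧ ‖q.2.1‖ < 2} :=
      mem_nhdsWithin_of_mem_nhds (hNo.mem_nhds ⟨hq.2.1, hq.2.2⟩)
    filter_upwards [h2, self_mem_nhdsWithin] with q' h3 h4 using hY c q' ⟨h4, h3.1, h3.2⟩
  have hE : ∀ (c : Bool) (i j : ι) (q : T), q ∈ Reg (ε / 2) → π c q ∈ W i → π c q ∈ W j →
      Eqv XX (fun q' => ℓ (F i (π c q'))) (fun q' => ℓ (F j (π c q'))) q := by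
    intro c i j q hq hi hj
    obtain ⟨V, u, hV, hxV, hVW, hu, hVu⟩ := hHC.trans i j (π c q) ⟨hY c q hq, hi, hj⟩
    refine ⟨fun q' => u (π c q'), hol_comp hM hV hu c hxV, (hVu _ ⟨hY c q hq, hxV⟩).1, ?_⟩
    have h2 : ∀ᶠ q' in 𝓝[XX] q, π c q' ∈ V :=
      ((cont hM c).continuousAt.eventually_mem (hV.mem_nhds hxV)).filter_mono nhdsWithin_le_nhds
    filter_upwards [h2, hnear q hq c] with q' h3 h4
    rw [(hVu _ ⟨h4, h3⟩).2, hℓs]
  have hFd : ∀ (c : Bool) (i : ι) (q : T), π c q ∈ W i →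
      Hol (fun q' => ℓ (F i (π c q'))) q := by
    intro c i q hq
    have h2 : ∀ᶠ q' in 𝓝 q, π c q' ∈ W i :=
      (cont hM c).continuousAt.eventually_mem ((hHC.isOpen i).mem_nhds hq)
    filter_upwards [h2] with q' hq'
    exact (hℓd _).comp q' (diff_comp hM (hHC.isOpen i) (hHC.holo i) c hq')
  refine ⟨ε / 2, by positivity, fun c q q' => ℓ (F (idx c q) (π c q')), ?_, p, hpR, z, ?_, ?_⟩
  · constructor
    · intro c q hq
      exact hFd c _ q (hidx' _ _ (hY c q hq))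
    · intro c q hq
      have h2 : ∀ᶠ q' in 𝓝[XX] q, π c q' ∈ W (idx c q) :=
        ((cont hM c).continuousAt.eventually_mem
          ((hHC.isOpen _).mem_nhds (hidx' _ _ (hY c q hq)))).filter_mono nhdsWithin_le_nhds
      have h3 : ∀ᶠ q' in 𝓝[XX] q, q' ∈ {q : T | ‖q.1‖ < ε / 2 ∧ ‖q.2.1‖ < 2} :=
        mem_nhdsWithin_of_mem_nhds (hNo.mem_nhds ⟨hq.2.1, hq.2.2⟩)
      filter_upwards [h2, h3, self_mem_nhdsWithin] with q' h4 h5 h6
      have h7 : q' ∈ Reg (ε / 2) := ⟨h6, h5.1, h5.2⟩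
      exact hE c _ _ q' h7 (hidx' _ _ (hY c q' h7)) h4
    · intro c q hq l hl
      have h2 : π c (sh l q) = π c q := sh_eq hM c q hl
      have h3 : (fun q' => ℓ (F (idx c (sh l q)) (π c (sh l q')))) =
          fun q' => ℓ (F (idx c (sh l q)) (π c q')) := by
        funext q'
        rw [sh_eq hM c q' hl]
      have h4 : sh l q ∈ Reg (ε / 2) := hq
      have h5 := hidx' _ _ (hY c _ h4)
      rw [h2] at h5
      show Eqv XX (fun q' => ℓ (F (idx c (sh l q)) (π c (sh l q')))) _ q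
      rw [h3]
      exact hE c _ _ q hq h5 (hidx' _ _ (hY c q hq))
    · intro q hq hq0 htw
      have h5 := hidx' _ _ (hY true _ htw)
      have h2 : π true (tw false q) = π false q := tw_eq hM q hq0
      rw [h2] at h5
      obtain ⟨u, hu1, hu2, hu3⟩ := hE false (idx true (tw false q)) (idx false q) q hq h5
        (hidx' _ _ (hY false q hq))
      refine ⟨u, hu1, hu2, ?_⟩
      have h6 : ∀ᶠ q' : T in 𝓝[XX] q, q'.2.1 ≠ 0 := by
        have h7 : ContinuousAt (fun q' : T => q'.2.1) q := by fun_prop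
        exact (h7.eventually_ne hq0).filter_mono nhdsWithin_le_nhds
      filter_upwards [hu3, h6] with q' h7 h8
      rw [tw_eq hM q' h8]
      exact h7
  · show a k * a l - a l * a k = 0
    ring
  · show a k * b l - a l * b k ≠ 0
    exact hkl

end Pool.Agent.Y758.MM
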