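import Pool.Agent.Y758.MM.Asm
import Pool.Agent.Y758.MM.CNX
import Pool.Agent.Y758.MM.CFP
import Pool.Agent.Y758.MM.CNT
import Pool.Agent.Y758.MM.CONN
import Pool.Agent.Y758.MM.CONST
import Pool.Agent.Y758.MM.DISC
import Pool.Agent.Y758.MM.ELL
import Pool.Agent.Y758.MM.EXP
import Pool.Agent.Y758.MM.FIB0
import Pool.Agent.Y758.MM.FIBN
import Pool.Agent.Y758.MM.FIN
import Pool.Agent.Y758.MM.FINZ
import Pool.Agent.Y758.MM.HUR
import Pool.Agent.Y758.MM.IDN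
import Pool.Agent.Y758.MM.LOC
import Pool.Agent.Y758.MM.ODD
import Pool.Agent.Y758.MM.PARAM
import Pool.Agent.Y758.MM.POS
import Pool.Agent.Y758.MM.RED
import Pool.Agent.Y758.MM.REL
import Pool.Agent.Y758.MM.RES
import Pool.Agent.Y758.MM.RESL
import Pool.Agent.Y758.MM.SUM
import Pool.Agent.Y758.MM.TOR
import Pool.Agent.Y758.MM.UP

/-!
Final assembly of project MM.
-/

set_option autoImplicit false

open Set Filter Topology Metric
open scoped Manifold ContDiff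

namespace Pool.Agent.Y758.MM

/-- the main statement with connectedness -/
def S_MAIN2 : Prop := ∃ (M : Type) (_ : TopologicalSpace M) (_ : T2Space M)
  (_ : SecondCountableTopology M) (_ : ChartedSpace T M) (_ : IsManifold 𝓘(ℂ, T) ω M)
  (X : Set M) (g : M → ℂ × ℂ), IsSmoothHypersurface T X ∧
    MDifferentiable 𝓘(ℂ, T) 𝓘(ℂ, ℂ × ℂ) g ∧
    (∀ K : Set (ℂ × ℂ), IsCompact K → IsCompact (X ∩ g ⁻¹' K)) ∧
    (∀ ε : ℝ, 0 < ε → IsConnected (X ∩ g ⁻¹' ball (0 : ℂ × ℂ) ε)) ∧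
    (∀ s : ℂ × ℂ, MoishezonOver T (fun _ : M => ()) (X ∩ g ⁻¹' {s})) ∧
    ∀ U : Set (ℂ × ℂ), IsOpen U → (0 : ℂ × ℂ) ∈ U → ¬ MoishezonOver T g (X ∩ g ⁻¹' U)

theorem main_of_NZM (hNZM : S_EXP → S_PARAM → S_CONN → S_NZM) : S_MAIN2 := by
  have hEXP : S_EXP := MM_EXP
  have hPARAM : S_PARAM := MM_PARAM
  have hCONN : S_CONN := MM_CONN
  have hRED : S_RED := MM_RED hEXP
  have hRESL : S_RESL := MM_RESL
  have hDISC : S_DISC := MM_DISC hRESL
  have hHUR : S_HUR := MM_HUR hDISC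
  have hCNT : S_CNT := MM_CNT hRED hHUR MM_SUM MM_FINZ
  have hRES : S_RES := MM_RES hRED hHUR MM_SUM MM_TOR MM_FINZ hRESL hEXP
  have hLOC : S_LOC := MM_LOC hPARAM hCNT hRES
  have hCONST : S_CONST := MM_CONST hPARAM hLOC hCONN
  have hREL : S_REL := MM_REL hRESL
  have hPOS : S_POS := MM_POS hPARAM hEXP hCNT
  have hFIN : S_FIN := MM_FIN hPARAM MM_ODD
  have hIDN : S_IDN := MM_IDN hPARAM hCONN
  have hCFP : S_CFP := MM_CFP hEXP
  obtain ⟨M, i1, i2, i3, i4, i5, π, hM⟩ := MM_MFD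
  obtain ⟨hX, g, hg, hgd, hsm, hpr⟩ := MM_GEO M π hM
  refine ⟨M, i1, i2, i3, i4, i5, XS π, g, hsm, hgd, hpr, ?_, ?_, ?_⟩
  · intro ε hε
    exact CNX.connected hCONN hM hg hε
  · intro s
    by_cases hs : s = 0
    · subst hs
      exact MM_FIB0 MM_ELL M π g hM hg hX
    · exact MM_FIBN MM_ELL M π g hM hg hX s hs
  · intro U hU h0
    exact neg_part MM_UP hIDN (hNZM hEXP hPARAM hCONN) hCFP hLOC hCONST hREL hPOS hFIN M π g hM hg
      hX U hU h0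

end Pool.Agent.Y758.MM
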