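import Pool.Agent.Z864.MM.NZMb

set_option autoImplicit false

open Set Filter Topology Metric

namespace Pool.Agent.Y758.MM

namespace NZ

/-- the base point -/
noncomputable def rr : T3 := (1, ((Real.sqrt 2 : ℝ) : ℂ), 0)

lemma rr_X3 : rr ∈ X3 := by
  show ((Real.sqrt 2 : ℝ) : ℂ) ^ 2 = 1 + (1 : ℂ) ^ 6
  rw [← Complex.ofReal_pow, Real.sq_sqrt (by norm_num)]
  norm_num

lemma rr_Reg3 : rr ∈ Reg3 := ⟨rr_X3, by
  show ‖(1 : ℂ)‖ < 2
  rw [norm_one]
  norm_num⟩

/-- the second component of the change of charts -/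
noncomputable def kp (p : T) : T3 :=
  (p.2.1⁻¹, p.2.2.1 / p.2.1 ^ 3, p.2.2.2 + sg false * (p.1 * p.2.2.1 / p.2.1))

lemma tw_kp (p : T) : tw false p = (p.1 * p.2.1, kp p) := rfl

lemma kp_zero (q : T3) : kp (0, q) = tw3 q := by
  unfold kp tw3
  simp

lemma tw3_rr : tw3 rr = rr := by
  unfold tw3 rr
  simp

lemma tw_rr : tw false ((0, rr) : T) = (0, rr) := by
  rw [tw_kp, kp_zero, tw3_rr]
  simp

lemma kp_X3 {p : T} (hp : p.2 ∈ X3) (h : p.2.1 ≠ 0) : kp p ∈ X3 := by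
  have h1 : p.2.2.1 ^ 2 = 1 + p.2.1 ^ 6 := hp
  show (p.2.2.1 / p.2.1 ^ 3) ^ 2 = 1 + (p.2.1⁻¹) ^ 6
  rw [div_pow, h1]
  field_simp
  ring

lemma kp_cont {p : T} (h : p.2.1 ≠ 0) : ContinuousAt kp p := by
  have c1 : ContinuousAt (fun p : T => p.2.1) p := by fun_prop
  have c2 : ContinuousAt (fun p : T => p.2.2.1) p := by fun_prop
  have c3 : ContinuousAt (fun p : T => p.2.2.2) p := by fun_prop
  have c4 : ContinuousAt (fun p : T => p.1) p := by fun_prop
  unfold kp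
  exact (c1.inv₀ h).prodMk ((c2.div (c1.pow 3) (pow_ne_zero _ h)).prodMk
    (c3.add (continuousAt_const.mul ((c4.mul c2).div c1 h))))

lemma tw3_tw3 {q : T3} (h : q.1 ≠ 0) : tw3 (tw3 q) = q := by
  unfold tw3
  simp only [inv_inv]
  ext
  · rfl
  · simp only
    rw [inv_pow]
    field_simp
  · rfl

lemma tw3_tendsto : Tendsto tw3 (𝓝[X3] rr) (𝓝[X3] rr) := by
  have hne : (rr : T3).1 ≠ 0 := one_ne_zero
  rw [tendsto_nhdsWithin_iff]
  constructor
  · have h1 : ContinuousAt tw3 rr := by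
      have c1 : ContinuousAt (fun p : T3 => p.1) rr := by fun_prop
      have c2 : ContinuousAt (fun p : T3 => p.2.1) rr := by fun_prop
      have c3 : ContinuousAt (fun p : T3 => p.2.2) rr := by fun_prop
      unfold tw3
      exact (c1.inv₀ hne).prodMk ((c2.div (c1.pow 3) (pow_ne_zero _ hne)).prodMk c3)
    have h2 := h1.tendsto
    rw [tw3_rr] at h2
    exact h2.mono_left nhdsWithin_le_nhds
  · have h1 : ∀ᶠ q : T3 in 𝓝 rr, q.1 ≠ 0 := by
      have c1 : ContinuousAt (fun p : T3 => p.1) rr := by fun_prop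
      exact c1.eventually_ne hne
    filter_upwards [nhdsWithin_le_nhds h1, self_mem_nhdsWithin] with q hq hq2
    have := kp_X3 (p := (0, q)) hq2 hq
    rwa [kp_zero] at this

/-- the two charts -/
lemma link (hEXP : S_EXP) {ρ : ℝ} {Θ : Bool → T → T → ℂ} (hρ : 0 < ρ) (hΘ : CD ρ Θ) {m : ℕ}
    (hlow : Low Θ m) : Van Θ m true rr ↔ Van Θ m false rr := by
  have hne : (rr : T3).1 ≠ 0 := one_ne_zero
  have hreg : ((0, rr) : T) ∈ Reg ρ := mem_Reg hρ rr_Reg3
  obtain ⟨u, hu, hu0, he⟩ := hΘ.glue (0, rr) hreg hne (by rw [tw_rr]; exact hreg)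
  simp only [tw_rr] at he
  have hnear : ∀ᶠ p in 𝓝 ((0, rr) : T), p.2.1 ≠ 0 := by
    have c1 : ContinuousAt (fun p : T => p.2.1) (0, rr) := by fun_prop
    exact c1.eventually_ne hne
  have hcmp := compare hEXP (f₁ := Θ true (0, rr)) (f₂ := Θ false (0, rr)) (u := u) (y₁ := rr)
    (y₂ := rr) (hΘ.hol true (0, rr) hreg) (hΘ.hol false (0, rr) hreg) hu (S := X3) (m := m)
    (fun n hn => hlow n hn true rr rr_Reg3) (fun n hn => hlow n hn false rr rr_Reg3)
    (fun q => q.1) kp (hnear.mono fun p hp => kp_cont hp)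
    (by rw [kp_zero, tw3_rr])
    (by
      rw [← XX_nhds]
      filter_upwards [nhdsWithin_le_nhds hnear, self_mem_nhdsWithin] with p hp hp2
      exact kp_X3 hp2 hp)
    (by
      rw [← XX_nhds]
      filter_upwards [he] with p hp
      rw [← hp, tw_kp])
  have huc : ∀ᶠ q in 𝓝[X3] rr, u (0, q) ≠ 0 := by
    have hc : ContinuousAt u (0, rr) := hu.self_of_nhds.continuousAt
    have h9 : ∀ᶠ p in 𝓝 ((0, rr) : T), u p ≠ 0 := hc.eventually_ne hu0
    exact (zero_tendsto rr).eventually (nhdsWithin_le_nhds h9)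
  have hq1 : ∀ᶠ q in 𝓝[X3] rr, q.1 ≠ 0 := by
    have c1 : ContinuousAt (fun p : T3 => p.1) rr := by fun_prop
    exact nhdsWithin_le_nhds (c1.eventually_ne hne)
  have key : ∀ᶠ q in 𝓝[X3] rr, (cf Θ m true rr (tw3 q) = 0 ↔ cf Θ m false rr q = 0) := by
    filter_upwards [hcmp, huc, hq1] with q e1 e2 e3
    rw [kp_zero] at e1
    have e4 : cf Θ m true rr (tw3 q) * q.1 ^ m = u (0, q) * cf Θ m false rr q := e1
    constructor
    · intro h
      rw [h, zero_mul] at e4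
      exact (mul_eq_zero.mp e4.symm).resolve_left e2
    · intro h
      rw [h, mul_zero] at e4
      exact (mul_eq_zero.mp e4).resolve_right (pow_ne_zero _ e3)
  constructor
  · intro h
    have h1 := tw3_tendsto.eventually h
    filter_upwards [key, h1] with q e1 e2 using e1.mp e2
  · intro h
    have h1 : ∀ᶠ q in 𝓝[X3] rr, cf Θ m true rr (tw3 q) = 0 := by
      filter_upwards [key, h] with q e1 e2 using e1.mpr e2
    have h2 := tw3_tendsto.eventually h1
    filter_upwards [h2, hq1] with q e1 e2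
    rwa [tw3_tw3 e2] at e1

lemma conn (hCONN : S_CONN) : IsPreconnected Reg3 := by
  have h1 := hCONN.prod (isPreconnected_univ (α := ℂ))
  have h2 : Reg3 = (fun z : (ℂ × ℂ) × ℂ => ((z.1.1, z.1.2, z.2) : T3)) ''
      ({k : ℂ × ℂ | k ∈ KK ∧ ‖k.1‖ < 2} ×ˢ (univ : Set ℂ)) := by
    ext r
    constructor
    · intro hr
      exact ⟨((r.1, r.2.1), r.2.2), ⟨⟨hr.1, hr.2⟩, mem_univ _⟩, rfl⟩
    · rintro ⟨z, ⟨⟨hz1, hz2⟩, -⟩, rfl⟩
      exact ⟨hz1, hz2⟩
  rw [h2]
  apply h1.image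
  fun_prop

end NZ

open NZ in
/-- **The order along the fibre over the origin.** -/
theorem MM_NZM (hEXP : S_EXP) (hPARAM : S_PARAM) (hCONN : S_CONN) : S_NZM := by
  classical
  intro ρ Θ hρ hΘ hnz
  have hex : ∃ n, ∃ c, ∃ r ∈ Reg3, ¬ Van Θ n c r := by
    by_contra hcon
    push Not at hcon
    have h1 := van_all hEXP hPARAM rr_X3 (hΘ.hol false (0, rr) (mem_Reg hρ rr_Reg3))
      (fun n => hcon n false rr rr_Reg3)
    exact (hnz false (0, rr) (mem_Reg hρ rr_Reg3)) (h1.mono fun p hp h => h hp)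
  have hlow : Low Θ (Nat.find hex) := by
    intro n hn c r hr
    by_contra hv
    exact Nat.find_min hex hn ⟨c, r, hr, hv⟩
  obtain ⟨c₀, r₀, hr₀, hv₀⟩ := Nat.find_spec hex
  refine ⟨Nat.find hex, hlow, ?_⟩
  have hconst : ∀ c : Bool, ∀ r ∈ Reg3, ∀ r' ∈ Reg3,
      (Van Θ (Nat.find hex) c r ↔ Van Θ (Nat.find hex) c r') := by
    intro c r hr r' hr'
    exact (conn hCONN).induction₂ (fun x y => Van Θ (Nat.find hex) c x ↔ Van Θ (Nat.find hex) c y)
      (fun x hx => van_clopen hEXP hPARAM hρ hΘ hlow c hx)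
      (fun x y z _ _ _ h1 h2 => h1.trans h2) (fun x y _ _ h => h.symm) hr hr'
  have hlink := link hEXP hρ hΘ hlow
  have hrr : ∀ c : Bool, ¬ Van Θ (Nat.find hex) c rr := by
    have h0 : ¬ Van Θ (Nat.find hex) c₀ rr := fun h => hv₀ ((hconst c₀ rr rr_Reg3 r₀ hr₀).mp h)
    intro c
    cases c <;> cases c₀
    · exact h0
    · exact fun h => h0 (hlink.mpr h)
    · exact fun h => h0 (hlink.mp h)
    · exact h0
  intro c r hr
  have h1 : ¬ Van Θ (Nat.find hex) c r := fun h => hrr c ((hconst c r hr rr rr_Reg3).mp h)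
  unfold Van at h1
  rw [Filter.not_eventually] at h1
  exact h1

end Pool.Agent.Y758.MM
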