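import Pool.Agent.Y758.MM.Stm2

/-!
Assembly of project MM from the steps.
-/

set_option autoImplicit false

open Set Filter Topology Metric
open scoped Manifold ContDiff

namespace Pool.Agent.Y758.MM

/-- the negative part -/
theorem neg_part (hUP : S_UP) (hIDN : S_IDN) (hNZM : S_NZM) (hCFP : S_CFP) (hLOC : S_LOC)
    (hCONST : S_CONST) (hREL : S_REL) (hPOS : S_POS) (hFIN : S_FIN)
    (M : Type) [TopologicalSpace M] [T2Space M] [ChartedSpace T M]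
    [IsManifold 𝓘(ℂ, T) ω M] (π : Bool → T → M) (g : M → ℂ × ℂ) (hM : Model M π) (hg : IsG π g)
    (hX : ∀ c p, π c p ∈ XS π ↔ p ∈ XX) (U : Set (ℂ × ℂ)) (hU : IsOpen U)
    (h0 : (0 : ℂ × ℂ) ∈ U) : ¬ MoishezonOver T g (XS π ∩ g ⁻¹' U) := by
  intro hMo
  obtain ⟨ρ, hρ, Θ, hΘ, p, hp, z, hz0, hz1⟩ := hUP M π g hM hg hX U hU h0 hMo
  have hshp : sh z p ∈ Reg ρ := hp
  have hnz := hIDN ρ Θ hΘ ⟨sh z p, hshp, hz1⟩
  obtain ⟨m, hlow, hm⟩ := hNZM ρ Θ hρ hΘ hnz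
  have hPD := hCFP ρ Θ hρ hΘ m hlow hm
  obtain ⟨d, hd⟩ := hCONST _ _ hPD
  obtain ⟨k, hk, hk2, hgd, hc1⟩ := hPOS ρ Θ hρ hΘ hnz m hlow hm ⟨p, hp, z, hz0, hz1⟩
  have hdk : 1 ≤ d := by
    rw [← (hd k hk hk2).2 hgd]; exact hc1
  have hd0 : d = 0 := by
    apply hFIN (Rs (cf Θ m) (cf Θ (m + 1)) false) (Rs (cf Θ m) (cf Θ (m + 1)) true) d
    · intro k₀ hk₀ hk₀2
      obtain ⟨_, R, hR, hev, _⟩ := hLOC _ _ hPD false k₀ hk₀ hk₀2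
      exact ⟨R, hR, hev.mono fun k hk => hk.2.2⟩
    · intro k₀ hk₀ hk₀2
      obtain ⟨_, R, hR, hev, _⟩ := hLOC _ _ hPD true k₀ hk₀ hk₀2
      exact ⟨R, hR, hev.mono fun k hk => hk.2.2⟩
    · intro k₀ hk₀ h1 h2
      obtain ⟨_, R, hR, hev, _⟩ := hLOC _ _ hPD false k₀ hk₀ h2
      have hev2 := (hd k₀ hk₀ h2).1
      have hmem : ∀ᶠ k in 𝓝[KK \ {k₀}] k₀, k ∈ KK := by
        filter_upwards [self_mem_nhdsWithin] with k hk using hk.1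
      have hcont : Continuous fun k : ℂ × ℂ => ‖k.1‖ := by fun_prop
      have hn1 : ∀ᶠ k in 𝓝[KK \ {k₀}] k₀, 1 / 2 < ‖k.1‖ :=
        (hcont.continuousAt.eventually (lt_mem_nhds h1)).filter_mono nhdsWithin_le_nhds
      have hn2 : ∀ᶠ k in 𝓝[KK \ {k₀}] k₀, ‖k.1‖ < 2 :=
        (hcont.continuousAt.eventually (gt_mem_nhds h2)).filter_mono nhdsWithin_le_nhds
      filter_upwards [hev, hev2, hmem, hn1, hn2] with k e1 e2 e3 e4 e5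
      obtain ⟨r1, r2⟩ := hREL _ _ hPD k e3 e4 e5 e1.1
      rw [r2, ← r1, e2]
  omega

/-- the main statement -/
def S_MAIN : Prop := ∃ (M : Type) (_ : TopologicalSpace M) (_ : T2Space M)
  (_ : SecondCountableTopology M) (_ : ChartedSpace T M) (_ : IsManifold 𝓘(ℂ, T) ω M)
  (X : Set M) (g : M → ℂ × ℂ), IsSmoothHypersurface T X ∧
    MDifferentiable 𝓘(ℂ, T) 𝓘(ℂ, ℂ × ℂ) g ∧
    (∀ K : Set (ℂ × ℂ), IsCompact K → IsCompact (X ∩ g ⁻¹' K)) ∧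
    (∀ s : ℂ × ℂ, MoishezonOver T (fun _ : M => ()) (X ∩ g ⁻¹' {s})) ∧
    ∀ U : Set (ℂ × ℂ), IsOpen U → (0 : ℂ × ℂ) ∈ U → ¬ MoishezonOver T g (X ∩ g ⁻¹' U)

theorem assembly (hMFD : S_MFD) (hGEO : S_GEO) (hFIBN : S_FIBN) (hFIB0 : S_FIB0) (hUP : S_UP)
    (hIDN : S_IDN) (hNZM : S_NZM) (hCFP : S_CFP) (hLOC : S_LOC)
    (hCONST : S_CONST) (hREL : S_REL) (hPOS : S_POS) (hFIN : S_FIN) : S_MAIN := by
  obtain ⟨M, i1, i2, i3, i4, i5, π, hM⟩ := hMFD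
  obtain ⟨hX, g, hg, hgd, hsm, hpr⟩ := hGEO M π hM
  refine ⟨M, i1, i2, i3, i4, i5, XS π, g, hsm, hgd, hpr, ?_, ?_⟩
  · intro s
    by_cases hs : s = 0
    · subst hs
      exact hFIB0 M π g hM hg hX
    · exact hFIBN M π g hM hg hX s hs
  · intro U hU h0
    exact neg_part hUP hIDN hNZM hCFP hLOC hCONST hREL hPOS hFIN M π g hM hg hX U hU h0

end Pool.Agent.Y758.MM
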