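import Pool.Agent.Y758.MM.MFD

/-! GEO: the hypersurface and the map of project MM. -/

set_option autoImplicit false

open Set Filter Topology Metric
open scoped Manifold ContDiff

namespace Pool.Agent.Y758.MM

open MFDaux

namespace GEOaux

theorem xx_sh {l : ℂ} {p : T} (h : p ∈ XX) : sh l p ∈ XX := h

theorem xx_tw {c : Bool} {p : T} (h : p ∈ XX) (h0 : p.2.1 ≠ 0) : tw c p ∈ XX := by
  have h1 : p.2.2.1 ^ 2 = 1 + p.2.1 ^ 6 := h
  change (p.2.2.1 / p.2.1 ^ 3) ^ 2 = 1 + (p.2.1⁻¹) ^ 6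
  rw [div_pow, h1]
  field_simp
  ring

section

variable {M : Type} [TopologicalSpace M] [ChartedSpace T M] {π : Bool → T → M}

theorem mem_XS (hM : Model M π) (c : Bool) (p : T) : π c p ∈ XS π ↔ p ∈ XX := by
  constructor
  · rintro ⟨c', q, hq, hqX⟩
    by_cases hc : c = c'
    · subst hc
      obtain ⟨l, -, rfl⟩ := (hM.same c q p).1 hq
      exact xx_sh hqX
    · have hc2 : c = !c' := by cases c <;> cases c' <;> simp_all
      subst hc2
      obtain ⟨h0, l, -, rfl⟩ := (hM.diff c' q p).1 hq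
      exact xx_sh (xx_tw hqX h0)
  · intro h
    exact ⟨c, p, rfl, h⟩

/-- functions on `M` given on one chart -/
theorem exists_fun (hM : Model M π) {F : Type} [Inhabited F] (c : Bool) (φ : T → F)
    (hφ : ∀ l ∈ Lat, ∀ p, φ (sh l p) = φ p) : ∃ f : M → F, ∀ p, f (π c p) = φ p := by
  classical
  refine ⟨fun m => if h : ∃ p, π c p = m then φ h.choose else default, fun p => ?_⟩
  have h : ∃ q, π c q = π c p := ⟨p, rfl⟩
  simp only [dif_pos h]
  obtain ⟨l, hl, h2⟩ := (hM.same c _ _).1 h.choose_spec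
  have h3 := hφ l hl h.choose
  rw [← h2] at h3
  exact h3.symm

theorem exists_g (hM : Model M π) : ∃ g : M → ℂ × ℂ, IsG π g := by
  classical
  obtain ⟨f1, hf1⟩ := exists_fun hM (F := ℂ × ℂ) false (fun p => (p.1, p.1 * p.2.1))
    (fun l _ p => rfl)
  obtain ⟨f2, hf2⟩ := exists_fun hM (F := ℂ × ℂ) true (fun p => (p.1 * p.2.1, p.1))
    (fun l _ p => rfl)
  refine ⟨fun m => if m ∈ range (π false) then f1 m else f2 m, ⟨fun p => ?_, fun p => ?_⟩⟩
  · simp only [mem_range_self, if_true, hf1]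
  · by_cases h : π true p ∈ range (π false)
    · simp only [if_pos h]
      obtain ⟨q, hq⟩ := h
      obtain ⟨h0, l, -, h2⟩ := (hM.diff false q p).1 hq
      rw [← hq, hf1, h2]
      simp [sh, tw, h0]
    · simp only [if_neg h, hf2]

theorem g_mdiff (hM : Model M π) {g : M → ℂ × ℂ} (hg : IsG π g) :
    MDifferentiable 𝓘(ℂ, T) 𝓘(ℂ, ℂ × ℂ) g := by
  intro m
  obtain ⟨c, p, rfl⟩ := hM.surj m
  apply hM.desc
  cases c
  · have : (fun q => g (π false q)) = fun q : T => (q.1, q.1 * q.2.1) := funext hg.f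
    rw [this]
    fun_prop
  · have : (fun q => g (π true q)) = fun q : T => (q.1 * q.2.1, q.1) := funext hg.t
    rw [this]
    fun_prop

theorem fd_ne {p : T} (hp : p ∈ XX) :
    fderiv ℂ (fun q : T => q.2.2.1 ^ 2 - 1 - q.2.1 ^ 6) p ≠ 0 := by
  intro h
  have hd : DifferentiableAt ℂ (fun q : T => q.2.2.1 ^ 2 - 1 - q.2.1 ^ 6) p := by fun_prop
  have h1 := hd.hasFDerivAt
  rw [h] at h1
  obtain ⟨x, v, t, e⟩ := p
  have ht : t = 0 := by
    have h2 : HasDerivAt (fun s : ℂ => ((x, v, s, e) : T)) (0, 0, 1, 0) t := by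
      refine (hasDerivAt_const t x).prodMk ((hasDerivAt_const t v).prodMk
        ((hasDerivAt_id t).prodMk (hasDerivAt_const t e)))
    have h3 := HasFDerivAt.comp_hasDerivAt t h1 h2
    have h4 : HasDerivAt (fun s : ℂ => s ^ 2 - 1 - v ^ 6) (2 * t) t := by
      have := ((hasDerivAt_pow 2 t).sub_const 1).sub_const (v ^ 6)
      simpa using this
    have h5 := h3.unique h4
    simp at h5
    exact h5
  have hv : v = 0 := by
    have h2 : HasDerivAt (fun s : ℂ => ((x, s, t, e) : T)) (0, 1, 0, 0) v := by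
      refine (hasDerivAt_const v x).prodMk ((hasDerivAt_id v).prodMk
        ((hasDerivAt_const v t).prodMk (hasDerivAt_const v e)))
    have h3 := HasFDerivAt.comp_hasDerivAt v h1 h2
    have h4 : HasDerivAt (fun s : ℂ => t ^ 2 - 1 - s ^ 6) (-(6 * v ^ 5)) v := by
      have := (hasDerivAt_pow 6 v).const_sub (t ^ 2 - 1)
      simpa using this
    have h5 := h3.unique h4
    simp at h5
    exact h5
  have h6 : t ^ 2 = 1 + v ^ 6 := hp
  rw [ht, hv] at h6
  norm_num at h6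

theorem smooth (hM : Model M π) : IsSmoothHypersurface T (XS π) := by
  intro m
  obtain ⟨c, p, rfl⟩ := hM.surj m
  obtain ⟨f, hf⟩ := exists_fun hM (F := ℂ) c (fun q : T => q.2.2.1 ^ 2 - 1 - q.2.1 ^ 6)
    (fun l _ q => rfl)
  have hfe : (fun q => f (π c q)) = fun q : T => q.2.2.1 ^ 2 - 1 - q.2.1 ^ 6 := funext hf
  have hmd : ∀ q, MDifferentiableAt 𝓘(ℂ, T) 𝓘(ℂ, ℂ) f (π c q) := by
    intro q
    apply hM.desc
    rw [hfe]
    fun_prop
  refine ⟨range (π c), ?_, mem_range_self p, f, ?_, ?_, ?_⟩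
  · rw [← image_univ]
    exact hM.isOpenMap c _ isOpen_univ
  · rintro _ ⟨q, rfl⟩
    exact (hmd q).mdifferentiableWithinAt
  · ext y
    constructor
    · rintro ⟨h1, q, rfl⟩
      refine ⟨mem_range_self q, ?_⟩
      have h2 : q.2.2.1 ^ 2 = 1 + q.2.1 ^ 6 := (mem_XS hM c q).1 h1
      rw [hf, h2]
      ring
    · rintro ⟨⟨q, rfl⟩, h1⟩
      refine ⟨(mem_XS hM c q).2 ?_, mem_range_self q⟩
      rw [hf] at h1
      change q.2.2.1 ^ 2 = 1 + q.2.1 ^ 6
      linear_combination h1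
  · intro h1 h2
    have h3 := (mem_XS hM c p).1 h1
    apply fd_ne h3
    have h4 := mfderiv_comp p (hmd p) (hM.holo c p)
    rw [h2] at h4
    have h5 : f ∘ π c = fun q : T => q.2.2.1 ^ 2 - 1 - q.2.1 ^ 6 := hfe
    rw [h5, mfderiv_eq_fderiv] at h4
    rw [h4]
    exact ContinuousLinearMap.zero_comp _

theorem exists_lat (z : ℂ) : ∃ l ∈ Lat, 0 ≤ (z + l).re ∧ (z + l).re ≤ 1 ∧ 0 ≤ (z + l).im ∧
    (z + l).im ≤ 1 := by
  refine ⟨-((⌊z.re⌋ : ℂ) + (⌊z.im⌋ : ℂ) * Complex.I), latNeg ⟨_, _, rfl⟩, ?_⟩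
  have h1 := Int.floor_le z.re
  have h2 := Int.lt_floor_add_one z.re
  have h3 := Int.floor_le z.im
  have h4 := Int.lt_floor_add_one z.im
  simp
  refine ⟨h1, by linarith, h3, by linarith⟩

theorem proper (hM : Model M π) {g : M → ℂ × ℂ} (hg : IsG π g) (K : Set (ℂ × ℂ))
    (hK : IsCompact K) : IsCompact (XS π ∩ g ⁻¹' K) := by
  have hgc : Continuous g := (g_mdiff hM hg).continuous
  have hπc : ∀ c, Continuous (π c) := fun c => (hM.holo c).continuous
  obtain ⟨R, hR⟩ := hK.isBounded.exists_norm_le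
  let C : Bool → Set T := fun c => {p | ‖p.2.1‖ ≤ 1} ∩ {p | ‖p.1‖ ≤ R} ∩
    {p | p.2.2.1 ^ 2 = 1 + p.2.1 ^ 6} ∩
    ({p | 0 ≤ p.2.2.2.re} ∩ {p | p.2.2.2.re ≤ 1} ∩ {p | 0 ≤ p.2.2.2.im} ∩ {p | p.2.2.2.im ≤ 1}) ∩
      (fun p => g (π c p)) ⁻¹' K
  have hCc : ∀ c, IsClosed (C c) := by
    intro c
    refine IsClosed.inter (IsClosed.inter (IsClosed.inter (IsClosed.inter ?_ ?_) ?_) ?_) ?_
    · exact isClosed_le (by fun_prop) continuous_const
    · exact isClosed_le (by fun_prop) continuous_const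
    · exact isClosed_eq (by fun_prop) (by fun_prop)
    · refine ((IsClosed.inter ?_ ?_).inter ?_).inter ?_
      · exact isClosed_le continuous_const (by fun_prop)
      · exact isClosed_le (by fun_prop) continuous_const
      · exact isClosed_le continuous_const (by fun_prop)
      · exact isClosed_le (by fun_prop) continuous_const
    · exact hK.isClosed.preimage (hgc.comp (hπc c))
  have hCb : ∀ c, IsCompact (C c) := by
    intro c
    refine IsCompact.of_isClosed_subset (isCompact_closedBall (0 : T) (max R 2)) (hCc c) ?_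
    rintro ⟨x, v, t, e⟩ ⟨⟨⟨⟨h1, h2⟩, h3⟩, ⟨⟨⟨h4, h5⟩, h6⟩, h7⟩⟩, -⟩
    change ‖v‖ ≤ 1 at h1
    change ‖x‖ ≤ R at h2
    change t ^ 2 = 1 + v ^ 6 at h3
    change 0 ≤ e.re at h4
    change e.re ≤ 1 at h5
    change 0 ≤ e.im at h6
    change e.im ≤ 1 at h7
    have ht : ‖t‖ ≤ 2 := by
      have h8 : ‖t‖ ^ 2 ≤ 2 := by
        rw [← norm_pow, h3]
        refine (norm_add_le _ _).trans ?_
        rw [norm_one, norm_pow]
        have : ‖v‖ ^ 6 ≤ 1 := pow_le_one₀ (norm_nonneg v) h1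
        linarith
      nlinarith [norm_nonneg t]
    have he : ‖e‖ ≤ 2 := by
      refine (Complex.norm_le_abs_re_add_abs_im e).trans ?_
      rw [abs_of_nonneg h4, abs_of_nonneg h6]
      linarith
    rw [mem_closedBall_zero_iff]
    simp only [Prod.norm_mk, sup_le_iff]
    refine ⟨h2.trans (le_max_left _ _), ?_, ?_, ?_⟩
    · exact (h1.trans (by norm_num)).trans (le_max_right _ _)
    · exact ht.trans (le_max_right _ _)
    · exact he.trans (le_max_right _ _)
  have hgn : ∀ c p, ‖p.1‖ ≤ ‖g (π c p)‖ := by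
    intro c p
    cases c
    · rw [hg.f, Prod.norm_mk]
      exact le_max_left _ _
    · rw [hg.t, Prod.norm_mk]
      exact le_max_right _ _
  have key : ∀ c p, ‖p.2.1‖ ≤ 1 → p ∈ XX → g (π c p) ∈ K → ∃ q ∈ C c, π c q = π c p := by
    intro c p hp hpX hpK
    obtain ⟨l, hl, h1, h2, h3, h4⟩ := exists_lat p.2.2.2
    have h5 : π c p = π c (sh l p) := (hM.same c _ _).2 ⟨l, hl, rfl⟩
    refine ⟨sh l p, ⟨⟨⟨⟨hp, ?_⟩, hpX⟩, ⟨⟨⟨h1, h2⟩, h3⟩, h4⟩⟩, ?_⟩, h5.symm⟩
    · exact (hgn c p).trans (hR _ hpK)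
    · change g (π c (sh l p)) ∈ K
      rw [← h5]
      exact hpK
  have heq : XS π ∩ g ⁻¹' K = π false '' C false ∪ π true '' C true := by
    have hsub : ∀ c, π c '' C c ⊆ XS π ∩ g ⁻¹' K := by
      rintro c _ ⟨p, hp, rfl⟩
      exact ⟨(mem_XS hM c p).2 hp.1.1.2, hp.2⟩
    apply Subset.antisymm
    · rintro m ⟨hm, hmK⟩
      have hex : ∃ c, ∃ q ∈ C c, π c q = m := by
        obtain ⟨c, p, rfl⟩ := hM.surj m
        have hpX := (mem_XS hM c p).1 hm
        by_cases h1 : ‖p.2.1‖ ≤ 1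
        · exact ⟨c, key c p h1 hpX hmK⟩
        · have h0 : p.2.1 ≠ 0 := by
            intro h
            rw [h, norm_zero] at h1
            exact h1 zero_le_one
          have h2 : π c p = π (!c) (tw c p) :=
            (hM.diff c _ _).2 ⟨h0, 0, lat0, (sh_zero _).symm⟩
          obtain ⟨q, hq, h3⟩ := key (!c) (tw c p) (by
            rw [tw_v, norm_inv]
            exact inv_le_one_of_one_le₀ (le_of_not_ge h1)) (xx_tw hpX h0) (by
              rw [← h2]; exact hmK)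
          exact ⟨!c, q, hq, by rw [h3, h2]⟩
      obtain ⟨c, q, hq, hqm⟩ := hex
      cases c
      · exact Or.inl ⟨q, hq, hqm⟩
      · exact Or.inr ⟨q, hq, hqm⟩
    · exact union_subset (hsub false) (hsub true)
  rw [heq]
  exact ((hCb false).image (hπc false)).union ((hCb true).image (hπc true))

end

end GEOaux

open GEOaux

theorem MM_GEO : S_GEO := by
  intro M _ _ _ _ π hM
  obtain ⟨g, hg⟩ := exists_g hM
  exact ⟨mem_XS hM, g, hg, g_mdiff hM hg, smooth hM, proper hM hg⟩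

end Pool.Agent.Y758.MM
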