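import Pool.Agent.Y758.MM.Stm

/-! Gluing of complex manifolds from coordinate systems. -/

set_option autoImplicit false
set_option linter.style.haveILetI false

open Set Topology Filter
open scoped ContDiff Manifold

namespace Pool.Agent.Y758.MM.Glue

open Pool.Agent.Y758.MM

noncomputable section

variable {E : Type} [NormedAddCommGroup E] [NormedSpace ℂ E]

/-- gluing of complex manifolds from coordinate systems -/
def StGlue (E : Type) [NormedAddCommGroup E] [NormedSpace ℂ E] : Prop :=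
  ∀ (X : Type) (ι : Type) (V : ι → Set E) (κ : ι → E → X),
  (∀ i, IsOpen (V i)) → (∀ p, ∃ i, ∃ z ∈ V i, κ i z = p) →
  (∀ i, ∀ z ∈ V i, ∃ N ∈ 𝓝 z, Set.InjOn (κ i) N) →
  (∀ i j, ∀ z ∈ V i, ∀ z' ∈ V j, κ i z = κ j z' → ∃ h : E → E, ContDiffAt ℂ ω h z ∧ h z = z' ∧
    ∀ᶠ t in 𝓝 z, κ i t = κ j (h t)) →
  ∃ (_ : TopologicalSpace X) (_ : ChartedSpace E X), IsManifold 𝓘(ℂ, E) ω X ∧
    (∀ s : Set X, IsOpen s ↔ ∀ i, IsOpen (V i ∩ κ i ⁻¹' s)) ∧
    (∀ i, ∀ O : Set E, IsOpen O → O ⊆ V i → IsOpen (κ i '' O)) ∧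
    (∀ i, ∀ z ∈ V i, ContMDiffAt 𝓘(ℂ, E) 𝓘(ℂ, E) ω (κ i) z) ∧
    ∀ i, ∀ z ∈ V i, ∃ g : X → E, ContMDiffAt 𝓘(ℂ, E) 𝓘(ℂ, E) ω g (κ i z) ∧ g (κ i z) = z ∧
      (∀ᶠ p in 𝓝 (κ i z), κ i (g p) = p) ∧ ∀ᶠ t in 𝓝 z, g (κ i t) = t

variable {X ι : Type} (V : ι → Set E) (κ : ι → E → X)

/-- the glued topology -/
@[instance_reducible] def gtop (hV : ∀ i, IsOpen (V i)) : TopologicalSpace X where
  IsOpen s := ∀ i, IsOpen (V i ∩ κ i ⁻¹' s)
  isOpen_univ := fun i => by simpa using hV i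
  isOpen_inter := fun s t hs ht i => by
    have e : V i ∩ κ i ⁻¹' (s ∩ t) = (V i ∩ κ i ⁻¹' s) ∩ (V i ∩ κ i ⁻¹' t) := by
      ext z; simp only [mem_inter_iff, mem_preimage]; tauto
    rw [e]
    exact (hs i).inter (ht i)
  isOpen_sUnion := fun S hS i => by
    have e : V i ∩ κ i ⁻¹' (⋃₀ S) = ⋃ s ∈ S, V i ∩ κ i ⁻¹' s := by
      ext z; simp only [mem_inter_iff, mem_preimage, mem_sUnion, mem_iUnion]
      constructor
      · rintro ⟨h1, s, h2, h3⟩; exact ⟨s, h2, h1, h3⟩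
      · rintro ⟨s, h2, h1, h3⟩; exact ⟨h1, s, h2, h3⟩
    rw [e]
    exact isOpen_biUnion fun s hs => hS s hs i

/-- a chart of the glued space -/
structure Ch (i : ι) (N : Set E) : Prop where
  op : IsOpen N
  sub : N ⊆ V i
  inj : InjOn (κ i) N

section

variable {V κ} (hV : ∀ i, IsOpen (V i))
  (hg : ∀ i j, ∀ z ∈ V i, ∀ z' ∈ V j, κ i z = κ j z' → ∃ h : E → E, ContDiffAt ℂ ω h z ∧ h z = z' ∧
    ∀ᶠ t in 𝓝 z, κ i t = κ j (h t))

include hg in
theorem img_open : letI := gtop V κ hV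
    ∀ i, ∀ O : Set E, IsOpen O → O ⊆ V i → IsOpen (κ i '' O) := by
  letI := gtop V κ hV
  intro i O hO hOV j
  rw [isOpen_iff_mem_nhds]
  rintro z' ⟨hz', z, hz, hzz⟩
  obtain ⟨h, h1, h2, h3⟩ := hg j i z' hz' z (hOV hz) hzz.symm
  have h4 : ∀ᶠ t in 𝓝 z', h t ∈ O := by
    apply h1.continuousAt
    rw [h2]
    exact hO.mem_nhds hz
  filter_upwards [h3, h4, (hV j).mem_nhds hz'] with t a b c
  exact ⟨c, h t, b, a.symm⟩

theorem cont_on : letI := gtop V κ hV
    ∀ i, ContinuousOn (κ i) (V i) := by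
  letI := gtop V κ hV
  intro i
  rw [continuousOn_open_iff (hV i)]
  intro s hs
  exact hs i

include hg in
theorem exists_homeo {i : ι} {N : Set E} (hN : Ch V κ i N) : letI := gtop V κ hV
    ∃ e : OpenPartialHomeomorph X E, e.source = κ i '' N ∧ e.target = N ∧
      (∀ t, e.symm t = κ i t) ∧ ∀ t ∈ N, e (κ i t) = t := by
  letI := gtop V κ hV
  have ho : IsOpenMap ((hN.inj.toPartialEquiv (κ i) N).source.domRestrict
      (hN.inj.toPartialEquiv (κ i) N)) := by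
    intro U hU
    have h1 : IsOpen ((Subtype.val : N → E) '' U) := hN.op.isOpenMap_subtype_val U hU
    have h2 := img_open hV hg i _ h1 (by
      rintro _ ⟨t, _, rfl⟩; exact hN.sub t.2)
    have h3 : (hN.inj.toPartialEquiv (κ i) N).source.domRestrict
        (hN.inj.toPartialEquiv (κ i) N) '' U = κ i '' ((Subtype.val : N → E) '' U) := by
      ext p
      constructor
      · rintro ⟨t, ht, rfl⟩
        exact ⟨t.1, ⟨t, ht, rfl⟩, rfl⟩
      · rintro ⟨_, ⟨t, ht, rfl⟩, rfl⟩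
        exact ⟨t, ht, rfl⟩
    rw [h3]
    exact h2
  refine ⟨(OpenPartialHomeomorph.ofContinuousOpenRestrict (hN.inj.toPartialEquiv (κ i) N)
    ((cont_on hV i).mono hN.sub) ho hN.op).symm, rfl, rfl, fun t => rfl, fun t ht => ?_⟩
  exact (hN.inj.toPartialEquiv (κ i) N).left_inv ht

end

theorem glue : StGlue E := by
  intro X ι V κ hV hs hi hg
  letI := gtop V κ hV
  have hc : ∀ p : X, ∃ i N z, Ch V κ i N ∧ z ∈ N ∧ κ i z = p := by
    intro p
    obtain ⟨i, z, hz, hp⟩ := hs p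
    obtain ⟨N, hN, hN2⟩ := hi i z hz
    obtain ⟨M, hM1, hM2, hM3⟩ := mem_nhds_iff.1 (inter_mem hN ((hV i).mem_nhds hz))
    exact ⟨i, M, z, ⟨hM2, fun t ht => (hM1 ht).2, hN2.mono fun t ht => (hM1 ht).1⟩, hM3, hp⟩
  choose I N Z hCh hZN hZ using hc
  choose e he1 he2 he3 he4 using fun p => exists_homeo hV hg (hCh p)
  letI cs : ChartedSpace E X :=
    { atlas := Set.range e
      chartAt := e
      mem_chart_source := fun p => by rw [he1]; exact ⟨Z p, hZN p, hZ p⟩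
      chart_mem_atlas := fun p => ⟨p, rfl⟩ }
  have heZ : ∀ p, e p p = Z p := fun p => by
    have := he4 p (Z p) (hZN p)
    rwa [hZ] at this
  have hm : IsManifold 𝓘(ℂ, E) ω X := by
    apply isManifold_of_contDiffOn
    rintro _ _ ⟨p, rfl⟩ ⟨q, rfl⟩
    intro t ht
    simp only [modelWithCornersSelf_coe_symm, modelWithCornersSelf_coe, range_id, inter_univ,
      preimage_id_eq, id_eq, OpenPartialHomeomorph.trans_source, OpenPartialHomeomorph.symm_source,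
      mem_inter_iff, mem_preimage, he1, he2, he3] at ht
    obtain ⟨ht1, t', ht', htt⟩ := ht
    obtain ⟨h, h1, h2, h3⟩ := hg (I p) (I q) t ((hCh p).sub ht1) t' ((hCh q).sub ht') htt.symm
    have h4 : ∀ᶠ s in 𝓝 t, h s ∈ N q := by
      apply h1.continuousAt
      rw [h2]
      exact (hCh q).op.mem_nhds ht'
    have h5 : (𝓘(ℂ, E) ∘ ((e p).symm ≫ₕ (e q)) ∘ 𝓘(ℂ, E).symm) =ᶠ[𝓝 t] h := by
      filter_upwards [h3, h4] with s a b
      simp only [modelWithCornersSelf_coe_symm, modelWithCornersSelf_coe, Function.comp_apply,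
        id_eq, OpenPartialHomeomorph.coe_trans, he3]
      rw [a, he4 q _ b]
    exact (h1.congr_of_eventuallyEq h5).contDiffWithinAt
  refine ⟨gtop V κ hV, cs, hm, fun s => Iff.rfl, img_open hV hg, ?_, ?_⟩
  · intro i z hz
    obtain ⟨p, hp⟩ : ∃ p, p = κ i z := ⟨_, rfl⟩
    obtain ⟨h, h1, h2, h3⟩ := hg i (I p) z hz (Z p) ((hCh p).sub (hZN p)) (by rw [hZ, hp])
    have h4 : ContMDiffAt 𝓘(ℂ, E) 𝓘(ℂ, E) ω (e p).symm (h z) := by
      apply contMDiffAt_symm_of_mem_maximalAtlas (IsManifold.chart_mem_maximalAtlas p)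
      change h z ∈ (e p).target
      rw [he2, h2]
      exact hZN p
    have h5 := ContMDiffAt.comp z h4 h1.contMDiffAt
    refine h5.congr_of_eventuallyEq ?_
    filter_upwards [h3] with t ht
    rw [ht, Function.comp_apply, he3]
  · intro i z hz
    obtain ⟨p, hp⟩ : ∃ p, p = κ i z := ⟨_, rfl⟩
    obtain ⟨h, h1, h2, h3⟩ := hg (I p) i (Z p) ((hCh p).sub (hZN p)) z hz (by rw [hZ, hp])
    have hps : p ∈ (e p).source := by rw [he1]; exact ⟨Z p, hZN p, hZ p⟩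
    have h4 : ContMDiffAt 𝓘(ℂ, E) 𝓘(ℂ, E) ω (e p) p :=
      contMDiffAt_of_mem_maximalAtlas (IsManifold.chart_mem_maximalAtlas p) hps
    have h5 : ContMDiffAt 𝓘(ℂ, E) 𝓘(ℂ, E) ω h (e p p) := by
      rw [heZ]; exact h1.contMDiffAt
    have h6 := ContMDiffAt.comp p h5 h4
    have h7 : ∀ᶠ q in 𝓝 p, κ i (h (e p q)) = q := by
      have a : ∀ᶠ q in 𝓝 p, κ (I p) (e p q) = κ i (h (e p q)) := by
        have : Tendsto (e p) (𝓝 p) (𝓝 (Z p)) := by
          rw [← heZ]; exact (e p).continuousAt hps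
        exact this h3
      filter_upwards [a, (e p).open_source.mem_nhds hps] with q b c
      rw [← b, ← he3]
      exact (e p).left_inv c
    have hzp : (h ∘ e p) (κ i z) = z := by
      rw [← hp, Function.comp_apply, heZ, h2]
    refine ⟨h ∘ e p, by rw [← hp]; exact h6, hzp, by rw [← hp]; exact h7, ?_⟩
    obtain ⟨M, hM, hM2⟩ := hi i z hz
    have hkc : ContinuousAt (κ i) z := (cont_on hV i).continuousAt ((hV i).mem_nhds hz)
    have hgc : ContinuousAt (h ∘ e p) (κ i z) := by rw [← hp]; exact h6.continuousAt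
    have h8 : ∀ᶠ t in 𝓝 z, (h ∘ e p) (κ i t) ∈ M := by
      have : Tendsto (fun t => (h ∘ e p) (κ i t)) (𝓝 z) (𝓝 z) := by
        have := hgc.tendsto.comp hkc.tendsto
        rwa [hzp] at this
      exact this hM
    have h9 : ∀ᶠ t in 𝓝 z, κ i (h (e p (κ i t))) = κ i t := by
      rw [hp] at h7 ⊢
      exact hkc.tendsto h7
    filter_upwards [h8, h9, hM] with t a b c
    exact hM2 a c b

end

end Pool.Agent.Y758.MM.Glue
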