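import Pool.Agent.Y758.MM.LOC
import Pool.Agent.Y785.MV.Osg

/-!
# IDN: a divisor which is proper somewhere is proper everywhere (helper344)
-/

set_option autoImplicit false

open Set Filter Topology Metric

namespace Pool.Agent.Y758.MM.IDN

open LOC

/-- the local chart of `XX` -/
def Ps (ψ : ℂ → ℂ × ℂ) (a : ℂ × ℂ × ℂ) : T := (a.1, (ψ a.2.1).1, (ψ a.2.1).2, a.2.2)

/-- its inverse -/
noncomputable def Ph (k₀ : ℂ × ℂ) (q : T) : ℂ × ℂ × ℂ := (q.1, kc k₀ (q.2.1, q.2.2.1), q.2.2.2)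

variable {k₀ : ℂ × ℂ} {ψ : ℂ → ℂ × ℂ} {D : Set ℂ}

theorem Ps_diff (P : Par k₀ ψ D) {a : ℂ × ℂ × ℂ} (ha : a.2.1 ∈ D) :
    DifferentiableAt ℂ (Ps ψ) a := by
  have h0 : DifferentiableAt ℂ (fun q : ℂ × ℂ × ℂ => q.2.1) a := by fun_prop
  have h1 : DifferentiableAt ℂ ψ a.2.1 := P.diff.differentiableAt (P.isOpen.mem_nhds ha)
  have h2 : DifferentiableAt ℂ (fun q : ℂ × ℂ × ℂ => ψ q.2.1) a :=
    DifferentiableAt.comp a h1 h0
  have h3 : DifferentiableAt ℂ (fun q : ℂ × ℂ × ℂ => (ψ q.2.1).1) a :=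
    DifferentiableAt.comp a differentiableAt_fst h2
  have h4 : DifferentiableAt ℂ (fun q : ℂ × ℂ × ℂ => (ψ q.2.1).2) a :=
    DifferentiableAt.comp a differentiableAt_snd h2
  have h5 : DifferentiableAt ℂ (fun q : ℂ × ℂ × ℂ => q.1) a := by fun_prop
  have h6 : DifferentiableAt ℂ (fun q : ℂ × ℂ × ℂ => q.2.2) a := by fun_prop
  exact h5.prodMk (h3.prodMk (h4.prodMk h6))

theorem ev_D (P : Par k₀ ψ D) {a : ℂ × ℂ × ℂ} (ha : a.2.1 ∈ D) : ∀ᶠ b in 𝓝 a, b.2.1 ∈ D := by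
  have h0 : Continuous (fun q : ℂ × ℂ × ℂ => q.2.1) := by fun_prop
  exact (h0.tendsto a).eventually (P.isOpen.mem_nhds ha)

theorem Ps_tend (P : Par k₀ ψ D) {a : ℂ × ℂ × ℂ} (ha : a.2.1 ∈ D) :
    Tendsto (Ps ψ) (𝓝 a) (𝓝[XX] (Ps ψ a)) := by
  rw [tendsto_nhdsWithin_iff]
  refine ⟨(Ps_diff P ha).continuousAt.tendsto, ?_⟩
  filter_upwards [ev_D P ha] with q hq using P.mem _ hq

theorem Ph_cont (k₀ : ℂ × ℂ) : Continuous (Ph k₀) := by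
  have h1 := kc_cont k₀
  unfold Ph
  fun_prop

theorem Ph_Ps (P : Par k₀ ψ D) {a : ℂ × ℂ × ℂ} (ha : a.2.1 ∈ D) : Ph k₀ (Ps ψ a) = a := by
  have h1 : kc k₀ ((ψ a.2.1).1, (ψ a.2.1).2) = a.2.1 := P.inv _ ha
  exact Prod.ext rfl (Prod.ext h1 rfl)

theorem Ph_tend (P : Par k₀ ψ D) {a : ℂ × ℂ × ℂ} (ha : a.2.1 ∈ D) :
    Tendsto (Ph k₀) (𝓝[XX] (Ps ψ a)) (𝓝 a) := by
  have h2 := (Ph_cont k₀).tendsto (Ps ψ a)
  rw [Ph_Ps P ha] at h2
  exact h2.mono_left nhdsWithin_le_nhds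

theorem Ps_Ph (P : Par k₀ ψ D) {a : ℂ × ℂ × ℂ} (ha : a.2.1 ∈ D) :
    ∀ᶠ q in 𝓝[XX] (Ps ψ a), Ps ψ (Ph k₀ q) = q := by
  have h3 : Tendsto (fun q : T => ((q.2.1, q.2.2.1) : ℂ × ℂ)) (𝓝[XX] (Ps ψ a))
      (𝓝[KK] (ψ a.2.1)) := by
    rw [tendsto_nhdsWithin_iff]
    refine ⟨?_, ?_⟩
    · have h4 : Continuous (fun q : T => ((q.2.1, q.2.2.1) : ℂ × ℂ)) := by fun_prop
      exact (h4.tendsto (Ps ψ a)).mono_left nhdsWithin_le_nhds
    · filter_upwards [self_mem_nhdsWithin] with q hq using hq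
  filter_upwards [h3.eventually (P.near _ ha)] with q hq
  have h6 : ψ (Ph k₀ q).2.1 = (q.2.1, q.2.2.1) := hq
  unfold Ps
  rw [h6]
  rfl

theorem germ_iff (P : Par k₀ ψ D) {a : ℂ × ℂ × ℂ} (ha : a.2.1 ∈ D) (G : T → ℂ) :
    (∀ᶠ q in 𝓝[XX] (Ps ψ a), G q = 0) ↔ ∀ᶠ b in 𝓝 a, G (Ps ψ b) = 0 := by
  constructor
  · intro h
    exact (Ps_tend P ha).eventually h
  · intro h
    filter_upwards [(Ph_tend P ha).eventually h, Ps_Ph P ha] with q hq1 hq2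
    rwa [hq2] at hq1

theorem eqv_iff {f g : T → ℂ} {p : T} (h : Eqv XX f g p) :
    (∀ᶠ q in 𝓝[XX] p, f q = 0) ↔ ∀ᶠ q in 𝓝[XX] p, g q = 0 := by
  obtain ⟨u, hu, hu0, he⟩ := h
  have h1 : ∀ᶠ q in 𝓝[XX] p, u q ≠ 0 :=
    ((hu.self_of_nhds.continuousAt).eventually_ne hu0).filter_mono nhdsWithin_le_nhds
  constructor
  · intro h
    filter_upwards [h, he, h1] with q h2 h3 h4
    rw [h2] at h3
    exact (mul_eq_zero.1 h3.symm).resolve_left h4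
  · intro h
    filter_upwards [h, he] with q h2 h3
    rw [h3, h2, mul_zero]

/-- the germ at `p` vanishes -/
def Z (Θ : Bool → T → T → ℂ) (c : Bool) (p : T) : Prop := ∀ᶠ q in 𝓝[XX] p, Θ c p q = 0

theorem loc_const (h : S_PARAM) {ρ : ℝ} {Θ : Bool → T → T → ℂ} (hΘ : CD ρ Θ) (c : Bool) {p₀ : T}
    (hp₀ : p₀ ∈ Reg ρ) : ∀ᶠ p in 𝓝[XX] p₀, (Z Θ c p ↔ Z Θ c p₀) := by
  obtain ⟨ψ, D, P⟩ := exists_par h (k₀ := (p₀.2.1, p₀.2.2.1)) hp₀.1 hp₀.2.2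
  set a₀ : ℂ × ℂ × ℂ := (p₀.1, 0, p₀.2.2.2) with ha₀
  have ha : a₀.2.1 ∈ D := P.zero
  have hPs : Ps ψ a₀ = p₀ := by
    unfold Ps
    have h1 : ψ a₀.2.1 = (p₀.2.1, p₀.2.2.1) := P.at0
    rw [h1]
  have hc0 : Tendsto (Ps ψ) (𝓝 a₀) (𝓝[XX] p₀) := by
    have := Ps_tend P ha
    rwa [hPs] at this
  have h1 : ∀ᶠ b in 𝓝 a₀, DifferentiableAt ℂ (Θ c p₀) (Ps ψ b) :=
    hc0.eventually ((hΘ.hol c p₀ hp₀).filter_mono nhdsWithin_le_nhds)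
  have h2 : ∀ᶠ b in 𝓝 a₀, Eqv XX (Θ c (Ps ψ b)) (Θ c p₀) (Ps ψ b) :=
    hc0.eventually (hΘ.comp c p₀ hp₀)
  obtain ⟨ε, hε, hb⟩ := Metric.eventually_nhds_iff_ball.1 (h1.and (h2.and (ev_D P ha)))
  have hF : DifferentiableOn ℂ (fun b => Θ c p₀ (Ps ψ b)) (ball a₀ ε) := fun b hb' =>
    (DifferentiableAt.comp b (hb b hb').1 (Ps_diff P (hb b hb').2.2)).differentiableWithinAt
  have hA : AnalyticOnNhd ℂ (fun b => Θ c p₀ (Ps ψ b)) (ball a₀ ε) :=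
    Pool.Agent.Y785.MV.Osg.analytic isOpen_ball hF
  have hid : ∀ b ∈ ball a₀ ε, ∀ b' ∈ ball a₀ ε, (∀ᶠ x in 𝓝 b, Θ c p₀ (Ps ψ x) = 0) →
      ∀ᶠ x in 𝓝 b', Θ c p₀ (Ps ψ x) = 0 := by
    intro b hb1 b' hb2 hz
    have h3 := hA.eqOn_zero_of_preconnected_of_eventuallyEq_zero
      (convex_ball a₀ ε).isPreconnected hb1 hz
    filter_upwards [isOpen_ball.mem_nhds hb2] with x hx using h3 hx
  have hPh : Tendsto (Ph (p₀.2.1, p₀.2.2.1)) (𝓝[XX] p₀) (𝓝 a₀) := by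
    have := Ph_tend P ha
    rwa [hPs] at this
  have hPP : ∀ᶠ q in 𝓝[XX] p₀, Ps ψ (Ph (p₀.2.1, p₀.2.2.1) q) = q := by
    have := Ps_Ph P ha
    rwa [hPs] at this
  filter_upwards [hPh.eventually (ball_mem_nhds a₀ hε), hPP] with p hp1 hp2
  obtain ⟨-, h3, h4⟩ := hb _ hp1
  rw [hp2] at h3
  have e1 : Z Θ c p ↔ ∀ᶠ q in 𝓝[XX] p, Θ c p₀ q = 0 := eqv_iff h3
  have e2 := germ_iff P h4 (Θ c p₀)
  rw [hp2] at e2
  have e3 := germ_iff P ha (Θ c p₀)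
  rw [hPs] at e3
  rw [e1, e2]
  unfold Z
  rw [e3]
  exact ⟨hid _ hp1 _ (mem_ball_self hε), hid _ (mem_ball_self hε) _ hp1⟩

theorem reg_conn (h : S_CONN) (ρ : ℝ) : IsPreconnected (Reg ρ) := by
  have h1 : IsPreconnected (ball (0 : ℂ) ρ ×ˢ ({k : ℂ × ℂ | k ∈ KK ∧ ‖k.1‖ < 2} ×ˢ
      (univ : Set ℂ))) :=
    (convex_ball (0 : ℂ) ρ).isPreconnected.prod (IsPreconnected.prod h isPreconnected_univ)
  have h2 := h1.image (fun a : ℂ × (ℂ × ℂ) × ℂ => ((a.1, a.2.1.1, a.2.1.2, a.2.2) : T))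
    (by fun_prop : Continuous fun a : ℂ × (ℂ × ℂ) × ℂ =>
      ((a.1, a.2.1.1, a.2.1.2, a.2.2) : T)).continuousOn
  have h3 : (fun a : ℂ × (ℂ × ℂ) × ℂ => ((a.1, a.2.1.1, a.2.1.2, a.2.2) : T)) ''
      (ball (0 : ℂ) ρ ×ˢ ({k : ℂ × ℂ | k ∈ KK ∧ ‖k.1‖ < 2} ×ˢ (univ : Set ℂ))) = Reg ρ := by
    ext p
    constructor
    · rintro ⟨a, ⟨ha1, ha2, -⟩, rfl⟩
      exact ⟨ha2.1, mem_ball_zero_iff.1 ha1, ha2.2⟩
    · rintro ⟨hp1, hp2, hp3⟩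
      exact ⟨(p.1, (p.2.1, p.2.2.1), p.2.2.2), ⟨mem_ball_zero_iff.2 hp2, ⟨hp1, hp3⟩, mem_univ _⟩,
        rfl⟩
  rwa [h3] at h2

theorem all (hP : S_PARAM) (hC : S_CONN) {ρ : ℝ} {Θ : Bool → T → T → ℂ} (hΘ : CD ρ Θ) (c : Bool)
    {p q : T} (hp : p ∈ Reg ρ) (hq : q ∈ Reg ρ) (hz : Z Θ c q) : Z Θ c p := by
  classical
  have hcont : ContinuousOn (fun p => decide (Z Θ c p)) (Reg ρ) := by
    intro p₀ hp₀
    have h1 : ∀ᶠ p in 𝓝[Reg ρ] p₀, (Z Θ c p ↔ Z Θ c p₀) :=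
      (loc_const hP hΘ c hp₀).filter_mono (nhdsWithin_mono _ fun x hx => hx.1)
    have h4 : Tendsto (fun p => decide (Z Θ c p)) (𝓝[Reg ρ] p₀) (𝓝 (decide (Z Θ c p₀))) := by
      refine Tendsto.congr' ?_ tendsto_const_nhds
      filter_upwards [h1] with x hx
      rw [decide_eq_decide]
      exact hx.symm
    exact h4
  have h5 := (reg_conn hC ρ).constant hcont hp hq
  simp only [decide_eq_decide] at h5
  exact h5.2 hz

end Pool.Agent.Y758.MM.IDN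

namespace Pool.Agent.Y758.MM

open IDN

theorem MM_IDN (h1 : S_PARAM) (h2 : S_CONN) : S_IDN := by
  intro ρ Θ hΘ hex
  obtain ⟨p, hp, hpp⟩ := hex
  have hρ : 0 < ρ := lt_of_le_of_lt (norm_nonneg _) hp.2.1
  have hf : ¬ Z Θ false p := fun hz => hpp (hz.self_of_nhdsWithin hp.1)
  have hfa : ∀ q ∈ Reg ρ, ¬ Z Θ false q := fun q hq hz => hf (all h1 h2 hΘ false hp hq hz)
  -- the base point
  obtain ⟨t, ht⟩ : ∃ t : ℂ, t ^ 2 = 2 := by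
    obtain ⟨t, ht⟩ := IsAlgClosed.exists_pow_nat_eq (2 : ℂ) (n := 2) (by norm_num)
    exact ⟨t, ht⟩
  set b : T := (0, 1, t, 0) with hb
  have hbX : b ∈ XX := by
    show t ^ 2 = 1 + (1 : ℂ) ^ 6
    rw [ht]
    norm_num
  have hbR : b ∈ Reg ρ := by
    refine ⟨hbX, ?_, ?_⟩
    · show ‖(0 : ℂ)‖ < ρ
      rw [norm_zero]
      exact hρ
    · show ‖(1 : ℂ)‖ < 2
      rw [norm_one]
      norm_num
  have htw : tw false b = b := by
    unfold tw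
    simp [hb]
  have htrue : ¬ Z Θ true b := by
    intro hz
    have hg := hΘ.glue b hbR (show (1 : ℂ) ≠ 0 from one_ne_zero) (by rw [htw]; exact hbR)
    have h3 := eqv_iff hg
    refine hfa b hbR (h3.1 ?_)
    rw [htw]
    have hv : ∀ᶠ q : T in 𝓝 b, q.2.1 ≠ 0 := by
      have h4 : Continuous (fun q : T => q.2.1) := by fun_prop
      exact (h4.tendsto b).eventually (isOpen_ne.mem_nhds (show (1 : ℂ) ≠ 0 from one_ne_zero))
    have ht2 : Tendsto (tw false) (𝓝[XX] b) (𝓝[XX] b) := by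
      rw [tendsto_nhdsWithin_iff]
      refine ⟨?_, ?_⟩
      · have h5 : ContinuousAt (tw false) b := by
          have hb1 : (fun q : T => q.2.1) b ≠ 0 := show (1 : ℂ) ≠ 0 from one_ne_zero
          have c1 : ContinuousAt (fun q : T => q.1) b := by fun_prop
          have c2 : ContinuousAt (fun q : T => q.2.1) b := by fun_prop
          have c3 : ContinuousAt (fun q : T => q.2.2.1) b := by fun_prop
          have c4 : ContinuousAt (fun q : T => q.2.2.2) b := by fun_prop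
          have d3 : ContinuousAt (fun q : T => q.2.2.1 / q.2.1 ^ 3) b :=
            c3.div (c2.pow 3) (pow_ne_zero 3 hb1)
          have d4 : ContinuousAt (fun q : T => q.2.2.2 +
              sg false * (q.1 * q.2.2.1 / q.2.1)) b :=
            c4.add (continuousAt_const.mul ((c1.mul c3).div c2 hb1))
          exact (c1.mul c2).prodMk ((c2.inv₀ hb1).prodMk (d3.prodMk d4))
        have h6 := h5.tendsto
        rw [htw] at h6
        exact h6.mono_left nhdsWithin_le_nhds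
      · filter_upwards [hv.filter_mono nhdsWithin_le_nhds, self_mem_nhdsWithin] with q hq1 hq2
        have hq3 : q.2.2.1 ^ 2 = 1 + q.2.1 ^ 6 := hq2
        show (q.2.2.1 / q.2.1 ^ 3) ^ 2 = 1 + (q.2.1⁻¹) ^ 6
        rw [div_pow, hq3]
        field_simp
        ring
    exact ht2.eventually hz
  intro c q hq
  have hall : ¬ Z Θ c q := by
    cases c with
    | false => exact hfa q hq
    | true => exact fun hz => htrue (all h1 h2 hΘ true hbR hq hz)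
  exact not_eventually.1 hall

end Pool.Agent.Y758.MM
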