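import Pool.Agent.Y758.MM.Glue

/-! MFD: the complex manifold of project MM. -/

set_option autoImplicit false

open Set Filter Topology Metric
open scoped Manifold ContDiff

namespace Pool.Agent.Y758.MM

namespace MFDaux

theorem lat0 : (0 : ℂ) ∈ Lat := ⟨0, 0, by simp⟩

theorem latAdd {a b : ℂ} (ha : a ∈ Lat) (hb : b ∈ Lat) : a + b ∈ Lat := by
  obtain ⟨m, n, rfl⟩ := ha
  obtain ⟨m', n', rfl⟩ := hb
  exact ⟨m + m', n + n', by push_cast; ring⟩

theorem latNeg {a : ℂ} (ha : a ∈ Lat) : -a ∈ Lat := by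
  obtain ⟨m, n, rfl⟩ := ha
  exact ⟨-m, -n, by push_cast; ring⟩

theorem lat_iff (z : ℂ) : z ∈ Lat ↔ z.re ∈ Set.range ((↑) : ℤ → ℝ) ∧
    z.im ∈ Set.range ((↑) : ℤ → ℝ) := by
  constructor
  · rintro ⟨m, n, rfl⟩
    exact ⟨⟨m, by simp⟩, ⟨n, by simp⟩⟩
  · rintro ⟨⟨m, hm⟩, ⟨n, hn⟩⟩
    refine ⟨m, n, ?_⟩
    apply Complex.ext
    · simp [← hm]
    · simp [← hn]

theorem isClosed_Lat : IsClosed Lat := by
  have h1 : IsClosed (Set.range ((↑) : ℤ → ℝ)) := Int.isClosedEmbedding_coe_real.isClosed_range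
  have : Lat = Complex.re ⁻¹' (Set.range ((↑) : ℤ → ℝ)) ∩
      Complex.im ⁻¹' (Set.range ((↑) : ℤ → ℝ)) := by
    ext z
    exact lat_iff z
  rw [this]
  exact (h1.preimage Complex.continuous_re).inter (h1.preimage Complex.continuous_im)

theorem lat_small {l : ℂ} (hl : l ∈ Lat) (h : ‖l‖ < 1) : l = 0 := by
  obtain ⟨m, n, rfl⟩ := hl
  have h1 := (Complex.abs_re_le_norm ((m : ℂ) + (n : ℂ) * Complex.I)).trans_lt h
  have h2 := (Complex.abs_im_le_norm ((m : ℂ) + (n : ℂ) * Complex.I)).trans_lt h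
  simp at h1 h2
  have hm : m = 0 := by
    have : |m| < 1 := by exact_mod_cast h1
    exact Int.abs_lt_one_iff.1 this
  have hn : n = 0 := by
    have : |n| < 1 := by exact_mod_cast h2
    exact Int.abs_lt_one_iff.1 this
  simp [hm, hn]

theorem sh_sh (l l' : ℂ) (p : T) : sh l (sh l' p) = sh (l' + l) p := by
  simp [sh, add_assoc]

theorem sh_zero (p : T) : sh 0 p = p := by
  simp [sh]

theorem sh_v (l : ℂ) (p : T) : (sh l p).2.1 = p.2.1 := rfl

theorem tw_v (c : Bool) (p : T) : (tw c p).2.1 = p.2.1⁻¹ := rfl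

theorem tw_sh (c : Bool) (l : ℂ) (p : T) : tw c (sh l p) = sh l (tw c p) := by
  simp only [tw, sh]
  refine Prod.ext rfl (Prod.ext rfl (Prod.ext rfl ?_))
  simp only
  ring

theorem tw_tw (c : Bool) (p : T) (hp : p.2.1 ≠ 0) : tw (!c) (tw c p) = p := by
  obtain ⟨x, v, t, e⟩ := p
  simp only at hp
  simp only [tw]
  refine Prod.ext ?_ (Prod.ext ?_ (Prod.ext ?_ ?_))
  · simp only
    field_simp
  · simp only
    exact inv_inv v
  · simp only
    field_simp
  · simp only
    cases c <;> simp [sg] <;> field_simp <;> ring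

/-- the gluing relation -/
def rel (a b : Bool × T) : Prop :=
  (b.1 = a.1 ∧ ∃ l ∈ Lat, b.2 = sh l a.2) ∨
    (b.1 = !a.1 ∧ a.2.2.1 ≠ 0 ∧ ∃ l ∈ Lat, b.2 = sh l (tw a.1 a.2))

theorem rel_symm {a b : Bool × T} (h : rel a b) : rel b a := by
  obtain ⟨c, p⟩ := a
  obtain ⟨c', q⟩ := b
  rcases h with ⟨h1, l, hl, h2⟩ | ⟨h1, h0, l, hl, h2⟩
  · simp only at h1 h2
    subst h1 h2
    left
    refine ⟨rfl, -l, latNeg hl, ?_⟩
    simp [sh_sh, sh_zero]
  · simp only at h0 h1 h2
    subst h1 h2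
    right
    refine ⟨by simp, ?_, -l, latNeg hl, ?_⟩
    · simp only [sh_v, tw_v]
      exact inv_ne_zero h0
    · simp only [tw_sh, tw_tw c p h0, sh_sh, add_neg_cancel, sh_zero]

theorem rel_trans {a b d : Bool × T} (h : rel a b) (h' : rel b d) : rel a d := by
  obtain ⟨c, p⟩ := a
  obtain ⟨c', q⟩ := b
  obtain ⟨c'', r⟩ := d
  rcases h with ⟨h1, l, hl, h2⟩ | ⟨h1, h0, l, hl, h2⟩ <;>
    rcases h' with ⟨h1', l', hl', h2'⟩ | ⟨h1', h0', l', hl', h2'⟩ <;> simp only at h1 h2 h1' h2' <;>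
    subst h1 h2 h1' h2'
  · left
    exact ⟨rfl, l + l', latAdd hl hl', by simp [sh_sh]⟩
  · right
    refine ⟨rfl, h0', l + l', latAdd hl hl', ?_⟩
    simp [tw_sh, sh_sh]
  · right
    exact ⟨rfl, h0, l + l', latAdd hl hl', by simp [sh_sh]⟩
  · left
    refine ⟨by simp, l + l', latAdd hl hl', ?_⟩
    simp only at h0
    simp only [tw_sh, sh_sh, tw_tw c p h0]

/-- the setoid -/
def st : Setoid (Bool × T) where
  r := rel
  iseqv := ⟨fun a => Or.inl ⟨rfl, 0, lat0, (sh_zero _).symm⟩, rel_symm, rel_trans⟩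

/-- the quotient -/
abbrev Q : Type := Quotient st

/-- the parametrisations -/
def kap (c : Bool) (p : T) : Q := Quotient.mk st (c, p)

theorem kap_eq {c c' : Bool} {p q : T} : kap c p = kap c' q ↔ rel (c, p) (c', q) :=
  ⟨fun h => Quotient.exact (s := st) h, fun h => Quotient.sound (s := st) h⟩

theorem kap_same (c : Bool) (p q : T) : kap c p = kap c q ↔ ∃ l ∈ Lat, q = sh l p := by
  rw [kap_eq]
  constructor
  · rintro (⟨-, h⟩ | ⟨h, -⟩)
    · exact h
    · simp at h
  · intro h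
    exact Or.inl ⟨rfl, h⟩

theorem kap_diff (c : Bool) (p q : T) :
    kap c p = kap (!c) q ↔ p.2.1 ≠ 0 ∧ ∃ l ∈ Lat, q = sh l (tw c p) := by
  rw [kap_eq]
  constructor
  · rintro (⟨h, -⟩ | ⟨-, h⟩)
    · simp at h
    · exact h
  · intro h
    exact Or.inr ⟨rfl, h⟩

theorem cd_sh (l : ℂ) : ContDiff ℂ ω (sh l) := by
  unfold sh
  fun_prop

theorem cd_tw (c : Bool) (p : T) (hp : p.2.1 ≠ 0) : ContDiffAt ℂ ω (tw c) p := by
  have h1 : ContDiffAt ℂ ω (fun p : T => p.1) p := by fun_prop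
  have h2 : ContDiffAt ℂ ω (fun p : T => p.2.1) p := by fun_prop
  have h3 : ContDiffAt ℂ ω (fun p : T => p.2.2.1) p := by fun_prop
  have h4 : ContDiffAt ℂ ω (fun p : T => p.2.2.2) p := by fun_prop
  unfold tw
  refine ContDiffAt.prodMk (h1.mul h2) (ContDiffAt.prodMk (h2.inv hp) (ContDiffAt.prodMk
    (h3.div (h2.pow 3) (pow_ne_zero 3 hp)) (h4.add (contDiffAt_const.mul ((h1.mul h3).div h2 hp)))))

theorem inj_loc (c : Bool) (z : T) : ∃ N ∈ 𝓝 z, Set.InjOn (kap c) N := by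
  refine ⟨ball z (1 / 2), ball_mem_nhds z (by norm_num), ?_⟩
  intro a ha b hb hab
  obtain ⟨l, hl, h⟩ := (kap_same c a b).1 hab
  have h1 : dist a.2.2.2 b.2.2.2 < 1 := by
    have e1 : dist a.2.2.2 b.2.2.2 ≤ dist a b := by
      refine le_trans ?_ (le_trans (le_max_right (dist a.1 b.1) (dist a.2 b.2)) ?_)
      · refine le_trans ?_ (le_trans (le_max_right (dist a.2.1 b.2.1) (dist a.2.2 b.2.2)) ?_)
        · exact le_max_right (dist a.2.2.1 b.2.2.1) (dist a.2.2.2 b.2.2.2)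
        · exact le_of_eq rfl
      · exact le_of_eq rfl
    have e2 : dist a b < 1 := by
      have := dist_triangle_right a b z
      rw [mem_ball] at ha hb
      linarith
    linarith
  have h2 : l = 0 := by
    apply lat_small hl
    rw [dist_comm, dist_eq_norm, h] at h1
    simpa [sh] using h1
  rw [h, h2, sh_zero]

theorem germ (i j : Bool) (z z' : T) (h : kap i z = kap j z') : ∃ f : T → T,
    ContDiffAt ℂ ω f z ∧ f z = z' ∧ ∀ᶠ t in 𝓝 z, kap i t = kap j (f t) := by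
  rcases kap_eq.1 h with ⟨h1, l, hl, h2⟩ | ⟨h1, h0, l, hl, h2⟩
  · simp only at h1 h2
    subst h1
    refine ⟨sh l, (cd_sh l).contDiffAt, h2.symm, Eventually.of_forall fun t => ?_⟩
    exact (kap_same _ _ _).2 ⟨l, hl, rfl⟩
  · simp only at h0 h1 h2
    subst h1
    refine ⟨fun t => sh l (tw i t), (cd_sh l).contDiffAt.comp z (cd_tw i z h0), h2.symm, ?_⟩
    have hc : ContinuousAt (fun t : T => t.2.1) z := by fun_prop
    filter_upwards [hc.eventually_ne h0] with t ht
    exact (kap_diff _ _ _).2 ⟨ht, l, hl, rfl⟩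

theorem closed_rel (i j : Bool) : IsClosed {a : T × T | kap i a.1 = kap j a.2} := by
  by_cases hij : j = i
  · subst hij
    have : {a : T × T | kap j a.1 = kap j a.2} = {a : T × T | a.2.1 = a.1.1} ∩
        {a | a.2.2.1 = a.1.2.1} ∩ {a | a.2.2.2.1 = a.1.2.2.1} ∩
        (fun a : T × T => a.2.2.2.2 - a.1.2.2.2) ⁻¹' Lat := by
      ext ⟨a, b⟩
      simp only [mem_setOf_eq, mem_inter_iff, mem_preimage, kap_same]
      constructor
      · rintro ⟨l, hl, rfl⟩
        simp [sh, hl]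
      · rintro ⟨⟨⟨h1, h2⟩, h3⟩, h4⟩
        refine ⟨_, h4, ?_⟩
        refine Prod.ext h1 (Prod.ext h2 (Prod.ext h3 ?_))
        simp [sh]
    rw [this]
    refine (((isClosed_eq ?_ ?_).inter (isClosed_eq ?_ ?_)).inter (isClosed_eq ?_ ?_)).inter
      (isClosed_Lat.preimage ?_) <;> fun_prop
  · have hj : j = !i := by cases i <;> cases j <;> simp_all
    subst hj
    have : {a : T × T | kap i a.1 = kap (!i) a.2} = {a : T × T | a.1.2.1 * a.2.2.1 = 1} ∩
        {a | a.2.1 = a.1.1 * a.1.2.1} ∩ {a | a.2.2.2.1 = a.1.2.2.1 * a.2.2.1 ^ 3} ∩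
        (fun a : T × T => a.2.2.2.2 - (a.1.2.2.2 + sg i * (a.1.1 * a.1.2.2.1 * a.2.2.1))) ⁻¹'
          Lat := by
      ext ⟨a, b⟩
      simp only [mem_setOf_eq, mem_inter_iff, mem_preimage, kap_diff]
      constructor
      · rintro ⟨h0, l, hl, rfl⟩
        refine ⟨⟨⟨?_, ?_⟩, ?_⟩, ?_⟩
        · simp [sh, tw, h0]
        · simp [sh, tw]
        · simp only [sh, tw]
          field_simp
        · simp only [sh, tw]
          have : a.2.2.2 + sg i * (a.1 * a.2.2.1 / a.2.1) + l -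
            (a.2.2.2 + sg i * (a.1 * a.2.2.1 * a.2.1⁻¹)) = l := by
            rw [div_eq_mul_inv]; ring
          rw [this]
          exact hl
      · rintro ⟨⟨⟨h1, h2⟩, h3⟩, h4⟩
        have h0 : a.2.1 ≠ 0 := by
          intro h
          rw [h, zero_mul] at h1
          exact zero_ne_one h1
        have hv : b.2.1 = a.2.1⁻¹ := by
          rw [eq_inv_of_mul_eq_one_right h1]
        refine ⟨h0, _, h4, ?_⟩
        refine Prod.ext h2 (Prod.ext hv (Prod.ext ?_ ?_))
        · rw [h3, hv]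
          simp only [sh, tw]
          field_simp
        · simp only [sh, tw]
          rw [hv, div_eq_mul_inv]
          ring
    rw [this]
    refine (((isClosed_eq ?_ ?_).inter (isClosed_eq ?_ ?_)).inter (isClosed_eq ?_ ?_)).inter
      (isClosed_Lat.preimage ?_) <;> fun_prop

end MFDaux

open MFDaux

theorem MM_MFD : S_MFD := by
  obtain ⟨τ, cs, hm, -, hopen, hsm, hdesc⟩ := Glue.glue (E := T) Q Bool (fun _ => univ) kap
    (fun _ => isOpen_univ)
    (fun p => by
      induction p using Quotient.inductionOn with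
      | h a => exact ⟨a.1, a.2, mem_univ _, rfl⟩)
    (fun i z _ => inj_loc i z)
    (fun i j z _ z' _ h => germ i j z z' h)
  have hsurj : ∀ m : Q, ∃ c p, kap c p = m := by
    intro m
    induction m using Quotient.inductionOn with
    | h a => exact ⟨a.1, a.2, rfl⟩
  have hcont : ∀ c, Continuous (kap c) := fun c =>
    continuous_iff_continuousAt.2 fun z => (hsm c z (mem_univ z)).continuousAt
  have hom : ∀ c, IsOpenMap (kap c) := fun c O hO => hopen c O hO (subset_univ _)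
  have ht2 : T2Space Q := by
    refine ⟨fun m m' hne => ?_⟩
    obtain ⟨i, z, rfl⟩ := hsurj m
    obtain ⟨j, z', rfl⟩ := hsurj m'
    have h1 : {a : T × T | kap i a.1 = kap j a.2}ᶜ ∈ 𝓝 (z, z') :=
      (closed_rel i j).isOpen_compl.mem_nhds hne
    rw [nhds_prod_eq, mem_prod_iff] at h1
    obtain ⟨N, hN, N', hN', hNN⟩ := h1
    refine ⟨kap i '' interior N, kap j '' interior N', hom i _ isOpen_interior,
      hom j _ isOpen_interior, ⟨z, mem_interior_iff_mem_nhds.2 hN, rfl⟩,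
      ⟨z', mem_interior_iff_mem_nhds.2 hN', rfl⟩, ?_⟩
    rw [Set.disjoint_left]
    rintro _ ⟨a, ha, rfl⟩ ⟨b, hb, hab⟩
    exact hNN (Set.mk_mem_prod (interior_subset ha) (interior_subset hb)) hab.symm
  have hsc : SecondCountableTopology Q := by
    let q : Bool × T → Q := fun a => kap a.1 a.2
    have hq1 : Continuous q := by
      rw [continuous_prod_of_discrete_left]
      exact hcont
    have hq2 : IsOpenMap q := by
      intro s hs
      have : q '' s = ⋃ c : Bool, kap c '' {p | (c, p) ∈ s} := by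
        ext m
        simp only [mem_image, mem_iUnion, Prod.exists, mem_setOf_eq, q]
      rw [this]
      refine isOpen_iUnion fun c => hom c _ ?_
      exact hs.preimage (by fun_prop)
    have hq3 : Function.Surjective q := fun m => by
      obtain ⟨c, p, h⟩ := hsurj m
      exact ⟨(c, p), h⟩
    exact (hq2.isQuotientMap hq1 hq3).secondCountableTopology hq2
  refine ⟨Q, τ, ht2, hsc, cs, hm, kap, ?_⟩
  refine ⟨hsurj, kap_same, kap_diff, hom, ?_, ?_⟩
  · intro c p
    exact (hsm c p (mem_univ p)).mdifferentiableAt (by simp)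
  · intro F _ _ c p f hf
    obtain ⟨g, hg1, hg2, hg3, hg4⟩ := hdesc c p (mem_univ p)
    have h1 : MDifferentiableAt 𝓘(ℂ, T) 𝓘(ℂ, F) (fun q => f (kap c q)) (g (kap c p)) := by
      rw [hg2]
      exact hf.mdifferentiableAt
    have h2 : MDifferentiableAt 𝓘(ℂ, T) 𝓘(ℂ, T) g (kap c p) := hg1.mdifferentiableAt (by simp)
    have h3 := MDifferentiableAt.comp (kap c p) h1 h2
    refine h3.congr_of_eventuallyEq ?_
    filter_upwards [hg3] with m hmm
    simp only [Function.comp_apply, hmm]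

end Pool.Agent.Y758.MM
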